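import Pool.Agent.Srf5.DefQ

set_option autoImplicit false

/-! Package G10: a positive proportion of the conjugates of a point lies on the given variety.

PROOF. Let `Qb = algebraicClosure ℚ ℂ` (a field, algebraically closed, normal over `ℚ`). (1) Finitely
many equations: the ideal `Ideal.span S` of the noetherian ring `MvPolynomial (Fin n) ℂ` is generated
by finitely many elements of `S` (`Ideal.span S` is finitely generated:
`Submodule.fg_span_iff_fg_span_finset_subset`), so `S` may be replaced by a finite set `S' ⊆ S` with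
the same zeros. (2) Let `k ⊆ Qb` be a finite normal (Galois) extension of `ℚ` containing all
coefficients of the elements of `S'` (`IntermediateField.adjoin` of finitely many algebraic numbers is
finite-dimensional; `normalClosure`), `Γ = k ≃ₐ[ℚ] k` finite, `A = MvPolynomial (Fin n) k`. `Γ` acts on
`A` on the coefficients (`MvPolynomial.map`, or `MvPolynomial.mapAlgEquiv`); the invariants are
`MvPolynomial (Fin n) ℚ` (`IsGalois`: an element of `k` fixed by `Γ` is rational). Let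
`𝔓 = {f ∈ A | map f ∈ vanI V}`, prime, `𝔓 ∩ ℚ[X] = IQ (vanI V)`. For an embedding `σ : K → ℂ` let
`𝔪_σ = {f ∈ A | map f vanishes at σ ∘ P}`, prime, `𝔪_σ ∩ ℚ[X] = kr ℚ P ⊇ 𝔓 ∩ ℚ[X]`.
(3) Going up (`A` is integral over `ℚ[X]`, `Ideal.exists_ideal_over_prime_of_isIntegral`): there is a
prime `𝔪' ⊇ 𝔓` of `A` over `kr ℚ P`. (4) Transitivity of a finite group on the primes over a prime of the
invariants: `Algebra.IsInvariant.exists_smul_of_under_eq` (or directly: if `𝔪'` is not of the form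
`g 𝔪_σ` choose `f ∈ 𝔪'` in none of the `g 𝔪_σ` (prime avoidance / maximality), then
`∏ g, g f ∈ ℚ[X] ∩ 𝔪' = kr ℚ P ⊆ 𝔪_σ`, contradiction): `𝔪' = g 𝔪_σ`, so `𝔓 ≤ g 𝔪_σ`.
(5) Let `g' : Qb ≃ₐ[ℚ] Qb` extend `g` (`AlgEquiv.liftNormal`). `σ` has values in `Qb` (`K` algebraic over
`ℚ`); let `σ' = g' ∘ σ : K → Qb → ℂ`. Then `g 𝔪_σ = 𝔪_{σ'}`, so `𝔓 ≤ 𝔪_{σ'}`, all `p ∈ S'` vanish at
`σ' ∘ P`, and `σ' ∘ P ∈ V`. (6) Counting: `σ ↦ σ'` maps the `[K : ℚ]` embeddings
(`NumberField.Embeddings.card`) into the set of the statement, and `σ = g'⁻¹ ∘ σ'` is determined by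
`σ'` and `g ∈ Γ` (choose one extension `g'` for every `g`), so
`[K : ℚ] ≤ |Γ| * card`: `κ = 1 / |Γ|`.

The Lean proof replaces (3), (4) by a generic rational combination of the equations and its norm,
so primality is not needed. -/

namespace Pool.Agent.Srf5F

open MvPolynomial Pool.Agent.CITLines Pool.Agent.CITTrans

private theorem gp_comb {E Γ J : Type} [Field E] [CharZero E] [Fintype Γ] [Fintype J]
    (a : Γ → J → E) (h : ∀ g, ∃ j, a g j ≠ 0) :
    ∃ c : J → ℕ, ∀ g, ∑ j, (c j : E) * a g j ≠ 0 := by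
  classical
  let e := Fintype.equivFin J
  let q : Γ → Polynomial E := fun g => ∑ j, Polynomial.C (a g j) * Polynomial.X ^ (e j : ℕ)
  have hq : ∀ g, q g ≠ 0 := by
    intro g h0
    obtain ⟨j, hj⟩ := h g
    apply hj
    have h1 := congrArg (fun p => p.coeff (e j : ℕ)) h0
    simp only [q, Polynomial.finsetSum_coeff, Polynomial.coeff_C_mul, Polynomial.coeff_X_pow,
      Polynomial.coeff_zero, mul_ite, mul_one, mul_zero] at h1
    rw [Finset.sum_eq_single j] at h1
    · simpa using h1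
    · intro b _ hb
      rw [if_neg]
      intro h2
      exact hb (e.injective (Fin.ext h2.symm))
    · intro h2
      exact absurd (Finset.mem_univ j) h2
  have hQ : ∏ g, q g ≠ 0 := Finset.prod_ne_zero_iff.2 fun g _ => hq g
  obtain ⟨t, ht⟩ : ∃ t : ℕ, (∏ g, q g).eval (t : E) ≠ 0 := by
    by_contra hcon
    push Not at hcon
    exact hQ (Polynomial.eq_zero_of_infinite_isRoot _
      (Set.infinite_of_injective_forall_mem Nat.cast_injective hcon))
  refine ⟨fun j => t ^ (e j : ℕ), fun g => ?_⟩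
  rw [Polynomial.eval_prod, Finset.prod_ne_zero_iff] at ht
  have h3 := ht g (Finset.mem_univ g)
  simpa [q, Polynomial.eval_finsetSum, mul_comm] using h3

private theorem gp_exists {M E : Type} [Field M] [Field E] [CharZero M] [CharZero E]
    [Algebra ℚ M] [Algebra ℚ E] [Algebra M E] [IsScalarTower ℚ M E]
    [IsGalois ℚ M] [FiniteDimensional ℚ M] {n : ℕ} {J : Type} [Fintype J]
    (f : J → MvPolynomial (Fin n) M) (I : Ideal (MvPolynomial (Fin n) ℚ))
    (hI : ∀ (c : J → ℕ) (N0 : MvPolynomial (Fin n) ℚ) (r : MvPolynomial (Fin n) M),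
      MvPolynomial.map (algebraMap ℚ M) N0 = r * ∑ j, C (c j : M) * f j → N0 ∈ I)
    (y : Fin n → E) (hy : ∀ N0 ∈ I, aeval y N0 = 0) :
    ∃ g : M ≃ₐ[ℚ] M, ∀ j,
      eval₂ (algebraMap M E) y (MvPolynomial.map (g : M ≃ₐ[ℚ] M).toRingEquiv.toRingHom (f j)) = 0 := by
  classical
  by_contra hcon
  push Not at hcon
  obtain ⟨c, hc⟩ := gp_comb (fun (g : M ≃ₐ[ℚ] M) (j : J) =>
    eval₂ (algebraMap M E) y (MvPolynomial.map g.toRingEquiv.toRingHom (f j))) hcon
  set F1 : MvPolynomial (Fin n) M := ∑ j, C (c j : M) * f j with hF1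
  set N : MvPolynomial (Fin n) M :=
    ∏ g : M ≃ₐ[ℚ] M, MvPolynomial.map g.toRingEquiv.toRingHom F1 with hN
  have hinv : ∀ h : M ≃ₐ[ℚ] M, MvPolynomial.map h.toRingEquiv.toRingHom N = N := by
    intro h
    rw [hN, map_prod]
    refine Fintype.prod_bijective (fun g => h * g) (Group.mulLeft_bijective h) _ _ ?_
    intro g
    rw [MvPolynomial.map_map]
    rfl
  have hmem : N ∈ (MvPolynomial.map (σ := Fin n) (algebraMap ℚ M)).range := by
    rw [RingHom.mem_range, ← Set.mem_range]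
    rw [mem_range_map_iff_coeffs_subset]
    intro x hx
    rw [Finset.mem_coe, mem_coeffs_iff] at hx
    obtain ⟨m, hm, rfl⟩ := hx
    rw [IsGalois.mem_range_algebraMap_iff_fixed]
    intro h
    have h1 := congrArg (fun p => coeff m p) (hinv h)
    simp only [coeff_map] at h1
    exact h1
  obtain ⟨N0, hN0⟩ := hmem
  have hN1 : N = (∏ g ∈ (Finset.univ.erase (1 : M ≃ₐ[ℚ] M)),
      MvPolynomial.map g.toRingEquiv.toRingHom F1) * F1 := by
    rw [hN, ← Finset.prod_erase_mul _ _ (Finset.mem_univ (1 : M ≃ₐ[ℚ] M))]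
    congr 1
    exact MvPolynomial.map_id F1
  have h0 : N0 ∈ I := hI c N0 _ (by rw [hN0]; exact hN1)
  have h1 := hy N0 h0
  have h2 : eval₂ (algebraMap M E) y N = 0 := by
    rw [← hN0, eval₂_map, ← IsScalarTower.algebraMap_eq]
    exact h1
  rw [hN, ← coe_eval₂Hom, map_prod, Finset.prod_eq_zero_iff] at h2
  obtain ⟨g, _, hg⟩ := h2
  apply hc g
  rw [hF1, map_sum, map_sum] at hg
  rw [← hg]
  refine Finset.sum_congr rfl fun j _ => ?_
  rw [map_mul, map_mul, MvPolynomial.map_C]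
  simp

/-- Finitely many equations. -/
private theorem gp_finset {n : ℕ} (S : Set (MvPolynomial (Fin n) ℂ)) :
    ∃ S' : Finset (MvPolynomial (Fin n) ℂ), (S' : Set (MvPolynomial (Fin n) ℂ)) ⊆ S ∧
      ∀ x : Fin n → ℂ, (∀ p ∈ S', eval x p = 0) → ∀ p ∈ S, eval x p = 0 := by
  have hfg : (Ideal.span S).FG := IsNoetherian.noetherian _
  obtain ⟨S', h1, h2⟩ := (Submodule.fg_span_iff_fg_span_finset_subset S).1 hfg
  refine ⟨S', h1, fun x hx p hp => ?_⟩
  have h3 : p ∈ Ideal.span (S' : Set (MvPolynomial (Fin n) ℂ)) := by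
    have h4 : p ∈ Submodule.span (MvPolynomial (Fin n) ℂ) S := Submodule.subset_span hp
    rw [h2] at h4
    exact h4
  have h5 : Ideal.span (S' : Set (MvPolynomial (Fin n) ℂ)) ≤
      RingHom.ker (eval x : MvPolynomial (Fin n) ℂ →+* ℂ) := by
    rw [Ideal.span_le]
    intro q hq
    exact hx q hq
  exact h5 h3

private theorem gp_count {M E : Type} [Field M] [Field E] [CharZero M] [CharZero E]
    [Algebra ℚ M] [Algebra ℚ E] [Algebra M E] [IsScalarTower ℚ M E] [IsAlgClosed E]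
    [Normal ℚ E] [IsGalois ℚ M] [FiniteDimensional ℚ M] {n : ℕ} {J : Type} [Fintype J]
    (f : J → MvPolynomial (Fin n) M) (I : Ideal (MvPolynomial (Fin n) ℚ))
    (hI : ∀ (c : J → ℕ) (N0 : MvPolynomial (Fin n) ℚ) (r : MvPolynomial (Fin n) M),
      MvPolynomial.map (algebraMap ℚ M) N0 = r * ∑ j, C (c j : M) * f j → N0 ∈ I)
    (K : Type) [Field K] [Algebra ℚ K] [FiniteDimensional ℚ K] (P : Fin n → K)
    (hP : ∀ N0 ∈ I, aeval P N0 = 0) :
    Module.finrank ℚ K ≤ Nat.card (M ≃ₐ[ℚ] M) * Nat.card {τ : K →ₐ[ℚ] E //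
      ∀ j, eval₂ (algebraMap M E) (fun i => τ (P i)) (f j) = 0} := by
  classical
  have hex : ∀ τ : K →ₐ[ℚ] E, ∃ g : M ≃ₐ[ℚ] M, ∀ j, eval₂ (algebraMap M E)
      (fun i => ((g.liftNormal E).symm.toAlgHom.comp τ) (P i)) (f j) = 0 := by
    intro τ
    obtain ⟨g, hg⟩ := gp_exists (E := E) f I hI (fun i => τ (P i)) (by
      intro N0 h0
      have h1 : aeval (fun i => τ (P i)) N0 = τ (aeval P N0) := by
        rw [← comp_aeval_apply]
      rw [h1, hP N0 h0, map_zero])
    refine ⟨g, fun j => ?_⟩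
    have h1 := congrArg (g.liftNormal E).symm (hg j)
    rw [map_zero, eval₂_map] at h1
    rw [← h1]
    have h2 := MvPolynomial.eval₂_comp_left ((g.liftNormal E).symm.toAlgHom.toRingHom)
      ((algebraMap M E).comp g.toRingEquiv.toRingHom) (fun i => τ (P i)) (f j)
    refine Eq.trans ?_ h2.symm
    congr 1
    ext x
    have h3 := g.liftNormal_commutes E x
    change algebraMap M E x = (g.liftNormal E).symm (algebraMap M E (g x))
    rw [← h3, AlgEquiv.symm_apply_apply]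
  choose g hg using hex
  rw [← AlgHom.card ℚ K E, ← Nat.card_eq_fintype_card, ← Nat.card_prod]
  refine Nat.card_le_card_of_injective (fun τ => (g τ, ⟨_, hg τ⟩)) ?_
  intro τ τ' h
  have h1 : g τ = g τ' := congrArg Prod.fst h
  have h2 := congrArg (fun z => (Prod.snd z).1) h
  simp only at h2
  rw [h1] at h2
  ext x
  have h3 := congrArg (fun z : K →ₐ[ℚ] E => z x) h2
  exact ((g τ').liftNormal E).symm.injective h3

private theorem gp_field {F E : Type} [Field F] [CharZero F] [Field E] [Algebra F E]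
    [Algebra.IsAlgebraic F E] [IsAlgClosed E] (Cf : Set E) (h : Cf.Finite) :
    ∃ (M : Type) (_ : Field M) (_ : Algebra F M) (_ : Algebra M E), IsScalarTower F M E ∧
      IsGalois F M ∧ FiniteDimensional F M ∧ Cf ⊆ Set.range (algebraMap M E) := by
  have hfC : Finite Cf := h
  have hfd : FiniteDimensional F (IntermediateField.adjoin F Cf) :=
    IntermediateField.finiteDimensional_adjoin fun x _ =>
      (Algebra.IsAlgebraic.isAlgebraic x).isIntegral
  have hAC : IsAlgClosure F E := ⟨inferInstance, inferInstance⟩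
  have hnE : Normal F E := IsAlgClosure.normal F _
  refine ⟨IntermediateField.normalClosure F (IntermediateField.adjoin F Cf) E, inferInstance,
    inferInstance, inferInstance, inferInstance, IsGalois.mk, inferInstance, ?_⟩
  intro x hx
  have h1 : x ∈ IntermediateField.normalClosure F (IntermediateField.adjoin F Cf) E := by
    apply IntermediateField.le_normalClosure
    exact IntermediateField.subset_adjoin F Cf hx
  exact ⟨⟨x, h1⟩, rfl⟩

private theorem gp_aux {E : Type} [Field E] [CharZero E] [Algebra ℚ E] [Algebra.IsAlgebraic ℚ E]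
    [IsAlgClosed E] (ι : E →+* ℂ) (hι : ∀ x : ℂ, IsAlgebraic ℚ x → x ∈ Set.range ι)
    {n : ℕ} (S : Set (MvPolynomial (Fin n) ℂ))
    (hS : ∀ p ∈ S, ∀ m, IsAlgebraic ℚ (p.coeff m)) (V : Set (Fin n → ℂ))
    (hV : V = {x | (∀ i, x i ≠ 0) ∧ ∀ p ∈ S, eval x p = 0}) :
    ∃ κ : ℝ, 0 < κ ∧ ∀ (K : Type) [Field K] [NumberField K] (P : Fin n → K),
      (∀ i, P i ≠ 0) → IQ (vanI V) ≤ kr ℚ P →
      κ * Module.finrank ℚ K ≤ (Nat.card {σ : K →+* ℂ // (fun i => σ (P i)) ∈ V} : ℝ) := by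
  classical
  obtain ⟨S', hS', hS'V⟩ := gp_finset S
  -- the coefficients
  let Cf : Set E := {a | ∃ p ∈ S', ∃ m ∈ p.support, p.coeff m = ι a}
  have hCf : Cf.Finite := by
    have h1 : (⋃ p ∈ S', (fun m => p.coeff m) '' (p.support : Set (Fin n →₀ ℕ))).Finite := by
      refine Set.Finite.biUnion S'.finite_toSet fun p _ => ?_
      exact (p.support.finite_toSet).image _
    refine Set.Finite.of_finite_image (f := fun a : E => ι a)
      (h1.subset ?_) (fun a _ b _ h => ι.injective h)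
    rintro _ ⟨a, ⟨p, hp', m, hm, h⟩, rfl⟩
    rw [Set.mem_iUnion₂]
    exact ⟨p, hp', m, hm, h⟩
  obtain ⟨M, i1, i2, i3, i4, i5, i6, hM⟩ := gp_field (F := ℚ) Cf hCf
  have i7 : CharZero M := algebraRat.charZero M
  have i8 : IsAlgClosure ℚ E := ⟨inferInstance, inferInstance⟩
  have i9 : Normal ℚ E := IsAlgClosure.normal ℚ _
  have hcoef : ∀ p : S', ∃ f : MvPolynomial (Fin n) M,
      MvPolynomial.map (ι.comp (algebraMap M E)) f = p.1 := by
    intro p
    rw [← Set.mem_range, mem_range_map_iff_coeffs_subset]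
    intro x hx
    rw [Finset.mem_coe, mem_coeffs_iff] at hx
    obtain ⟨m, hm, rfl⟩ := hx
    obtain ⟨a, ha⟩ := hι _ (hS p.1 (hS' p.2) m)
    obtain ⟨b, hb⟩ := hM (show a ∈ Cf from ⟨p.1, p.2, m, hm, ha.symm⟩)
    exact ⟨b, by rw [RingHom.comp_apply, hb, ha]⟩
  choose f hf using hcoef
  have hpos : 0 < Nat.card (M ≃ₐ[ℚ] M) := Nat.card_pos
  refine ⟨(Nat.card (M ≃ₐ[ℚ] M) : ℝ)⁻¹, by positivity, ?_⟩
  intro K _ _ P hP0 hP
  have h1 := gp_count (E := E) f (IQ (vanI V)) ?_ K P (fun N0 h => hP h)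
  · have h2 : Nat.card {τ : K →ₐ[ℚ] E //
        ∀ j, eval₂ (algebraMap M E) (fun i => τ (P i)) (f j) = 0} ≤
        Nat.card {σ : K →+* ℂ // (fun i => σ (P i)) ∈ V} := by
      refine Nat.card_le_card_of_injective (fun τ => ⟨ι.comp τ.1.toRingHom, ?_⟩) ?_
      · rw [hV]
        refine ⟨fun i => (map_ne_zero _).2 (hP0 i), ?_⟩
        refine hS'V _ fun p hp => ?_
        have h3 := congrArg ι (τ.2 ⟨p, hp⟩)
        rw [map_zero, MvPolynomial.eval₂_comp_left] at h3
        have h4 := hf ⟨p, hp⟩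
        simp only at h4
        rw [← h4, eval_map]
        exact h3
      · intro τ τ' h
        have h3 := congrArg Subtype.val h
        simp only at h3
        refine Subtype.ext (AlgHom.ext fun x => ι.injective ?_)
        exact congrArg (fun z : K →+* ℂ => z x) h3
    have h3 : Module.finrank ℚ K ≤ Nat.card (M ≃ₐ[ℚ] M) *
        Nat.card {σ : K →+* ℂ // (fun i => σ (P i)) ∈ V} :=
      h1.trans (Nat.mul_le_mul_left _ h2)
    have h4 : (Module.finrank ℚ K : ℝ) ≤ Nat.card (M ≃ₐ[ℚ] M) *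
        Nat.card {σ : K →+* ℂ // (fun i => σ (P i)) ∈ V} := by exact_mod_cast h3
    rw [inv_mul_le_iff₀ (by exact_mod_cast hpos)]
    exact h4
  · intro c N0 r h
    change MvPolynomial.map (algebraMap ℚ ℂ) N0 ∈ vanI V
    rw [mem_vanI]
    intro x hx
    have h2 := congrArg (MvPolynomial.map (ι.comp (algebraMap M E))) h
    rw [map_mul, map_sum, MvPolynomial.map_map] at h2
    have h3 : (ι.comp (algebraMap M E)).comp (algebraMap ℚ M) = algebraMap ℚ ℂ :=
      Subsingleton.elim _ _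
    rw [h3] at h2
    rw [h2, map_mul, map_sum, Finset.sum_eq_zero, mul_zero]
    intro j _
    rw [map_mul, map_mul, hf j]
    have h4 : x ∈ {x : Fin n → ℂ | (∀ i, x i ≠ 0) ∧ ∀ p ∈ S, eval x p = 0} := by
      rw [← hV]; exact hx
    rw [h4.2 _ (hS' j.2), mul_zero]

theorem prop_conj {n : ℕ} (S : Set (MvPolynomial (Fin n) ℂ))
    (hS : ∀ p ∈ S, ∀ m, IsAlgebraic ℚ (p.coeff m)) (V : Set (Fin n → ℂ))
    (hV : V = {x | (∀ i, x i ≠ 0) ∧ ∀ p ∈ S, eval x p = 0}) (hp : (vanI V).IsPrime) :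
    ∃ κ : ℝ, 0 < κ ∧ ∀ (K : Type) [Field K] [NumberField K] (P : Fin n → K),
      (∀ i, P i ≠ 0) → IQ (vanI V) ≤ kr ℚ P →
      κ * Module.finrank ℚ K ≤ (Nat.card {σ : K →+* ℂ // (fun i => σ (P i)) ∈ V} : ℝ) := by
  have hAC : IsAlgClosure ℚ (algebraicClosure ℚ ℂ) := algebraicClosure.isAlgClosure ℚ ℂ
  have := hAC.isAlgClosed
  have := hAC.isAlgebraic
  refine gp_aux (algebraMap (algebraicClosure ℚ ℂ) ℂ) ?_ S hS V hV
  intro x hx
  exact ⟨⟨x, (mem_algebraicClosure_iff (F := ℚ)).2 hx⟩, rfl⟩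

end Pool.Agent.Srf5F
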