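import Pool.Agent.Srf5F.SDefs
import Pool.Agent.Srf5.DepTr

set_option autoImplicit false

/-! Package S6: surfaces in no proper coset, over `ℂ` and over `ℚ`; the curve of a family of
pairwise dependent monomials.

PROOF of `tr_iff_dep`. If `mon w r` is algebraic over `k` then every pair with it is dependent. If
it is transcendental and `Dep k w r (single i 1)` for all `i`, then all `w i` are algebraic over
`k(mon w r)`, so `rk k (range w) ≤ rk k {mon w r} ≤ 1` (`rk_le_of_algebraic`, `rk_le_encard`), in
contradiction to `dm (kr k w) = 2` (`dm_kr`).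
PROOF of `sf_iff`. `tr_iff_dep` and `dep_iff`.
PROOF of `sf_of_kr`. `mon w r` is algebraic over `k` iff there is a nonzero polynomial `f` in one
variable with `f (mon w r) = 0`; `spec` (file Srf5/ALau) transfers this in both directions; or
`tr_iff_dep` and `dep_mono`.
PROOF of `cv_of_dep`. `v = pm e w`. `v i ≠ 0`. `mon v r = mon w (∑ r_j e_j)` (`mon_pm`,
`psiZ`), the exponent is not zero (`he`), so it is transcendental (`hw.tr`). `dm (kr k v) = rk k
(range v)` is at least one (`v` contains a transcendental element; `s > 0`) and at most one: all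
`v j` are algebraic over `k(v 0)` (`hdep`, and `mon w (e 0)` is transcendental). -/

namespace Pool.Agent.Srf5F

open MvPolynomial Pool.Agent.CITLines Pool.Agent.Srf5

/-- An element which is dependent of a transcendental element is algebraic over it. -/
private theorem alg_of_dep {k F : Type} [Field k] [Field F] [Algebra k F] {t u : F}
    (ht : Transcendental k t) (h : ¬ AlgebraicIndependent k ![t, u]) :
    IsAlgebraic (Algebra.adjoin k ({t} : Set F)) u := by
  by_contra hcon
  apply h
  have h1 : AlgebraicIndependent k (fun _ : Unit => t) :=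
    algebraicIndependent_unique_type_iff.2 ht
  have hr : Set.range (fun _ : Unit => t) = {t} := Set.range_const
  have h2 : Transcendental (Algebra.adjoin k (Set.range fun _ : Unit => t)) u := by
    rw [hr]
    exact hcon
  have h3 := (h1.option_iff_transcendental u).2 h2
  have h4 : Function.Injective (![some (), none] : Fin 2 → Option Unit) := by
    intro i j hij
    fin_cases i <;> fin_cases j
    · rfl
    · simp at hij
    · simp at hij
    · rfl
  have h5 := h3.comp _ h4
  have h6 : (fun o : Option Unit => o.elim u fun _ : Unit => t) ∘ (![some (), none]) =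
      ![t, u] := by
    funext i
    fin_cases i <;> rfl
  rwa [h6] at h5

/-- The rank of a tuple all entries of which are algebraic over one element. -/
private theorem rk_le_one {k F : Type} [Field k] [Field F] [Algebra k F] {n : ℕ} {t : F}
    (v : Fin n → F) (h : ∀ i, IsAlgebraic (Algebra.adjoin k ({t} : Set F)) (v i)) :
    rk k (Set.range v) ≤ 1 := by
  refine (rk_le_of_algebraic (s := {t}) ?_).trans ?_
  · rintro _ ⟨i, rfl⟩
    exact h i
  · exact (rk_le_encard _).trans (by rw [Set.encard_singleton])

theorem tr_iff_dep {k F : Type} [Field k] [Field F] [Algebra k F] {n : ℕ} (w : Fin n → F)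
    (hw : ∀ i, w i ≠ 0) (hdim : dm (kr k w) = 2) (r : Fin n → ℤ) :
    Transcendental k (mon w r) ↔ ∃ b : Fin n → ℤ, ¬ Dep k w r b := by
  classical
  constructor
  · intro ht
    by_contra hcon
    push Not at hcon
    have h1 : rk k (Set.range w) ≤ 1 := by
      refine rk_le_one (t := mon w r) w fun i => ?_
      have h2 := alg_of_dep ht (hcon (Pi.single i 1))
      rwa [mon_single] at h2
    rw [← dm_kr, hdim] at h1
    exact absurd h1 (by norm_num)
  · rintro ⟨b, hb⟩
    have h1 : AlgebraicIndependent k ![mon w r, mon w b] := not_not.1 hb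
    exact h1.transcendental 0

theorem sf_iff {F : Type} [Field F] [Algebra ℂ F] [CharZero F] {n : ℕ} (w : Fin n → F)
    (hw : ∀ i, w i ≠ 0) (hQ : dm (kr ℚ w) = 2) (hC : dm (kr ℂ w) = 2) : Sf ℂ w ↔ Sf ℚ w := by
  have key : ∀ r : Fin n → ℤ, Transcendental ℂ (mon w r) ↔ Transcendental ℚ (mon w r) := by
    intro r
    rw [tr_iff_dep w hw hC r, tr_iff_dep w hw hQ r]
    exact exists_congr fun b => not_congr (dep_iff w hw hQ hC r b)
  exact ⟨fun h => ⟨hw, hQ, fun r hr => (key r).1 (h.tr r hr)⟩,
    fun h => ⟨hw, hC, fun r hr => (key r).2 (h.tr r hr)⟩⟩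

theorem sf_of_kr {k F F' : Type} [Field k] [Field F] [Algebra k F] [Field F'] [Algebra k F']
    {n : ℕ} {w : Fin n → F} {w' : Fin n → F'} (hw : Sf k w) (hw' : ∀ i, w' i ≠ 0)
    (h : kr k w' = kr k w) : Sf k w' := by
  have hd : dm (kr k w') = 2 := by
    rw [h]
    exact hw.dim
  refine ⟨hw', hd, fun r hr => ?_⟩
  obtain ⟨b, hb⟩ := (tr_iff_dep w hw.ne hw.dim r).1 (hw.tr r hr)
  exact (tr_iff_dep w' hw' hd r).2 ⟨b, fun hb' => hb (dep_mono w' w hw' hw.ne h.le r b hb')⟩

theorem cv_of_dep {k F : Type} [Field k] [Field F] [Algebra k F] {n s : ℕ} {w : Fin n → F}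
    (hw : Sf k w) (e : Fin (s + 1) → Fin n → ℤ) (he : LinearIndependent ℤ e)
    (hdep : ∀ i, Dep k w (e 0) (e i)) : Cv k (pm e w) := by
  have htr : ∀ r : Fin (s + 1) → ℤ, r ≠ 0 → Transcendental k (mon (pm e w) r) := by
    intro r hr
    rw [mon_pm e hw.ne]
    refine hw.tr _ fun h0 => hr ?_
    rw [psiZ_apply] at h0
    exact funext (Fintype.linearIndependent_iff.1 he r h0)
  have h0 : e 0 ≠ 0 := he.ne_zero 0
  have ht : Transcendental k (mon w (e 0)) := hw.tr _ h0
  refine ⟨pm_ne_zero e hw.ne, ?_, htr⟩
  have h1 : rk k (Set.range (pm e w)) ≤ 1 :=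
    rk_le_one (t := mon w (e 0)) (pm e w) fun i => alg_of_dep ht (hdep i)
  have h2 : 1 ≤ rk k (Set.range (pm e w)) := by
    have h3 : rk k (Set.range fun _ : Unit => mon w (e 0)) = 1 := by
      rw [rk_range_of_indep _ (algebraicIndependent_unique_type_iff.2 ht)]
      simp
    rw [← h3]
    refine rk_mono ?_
    rintro _ ⟨_, rfl⟩
    exact ⟨0, rfl⟩
  have h4 := le_antisymm h1 h2
  rw [← dm_kr] at h4
  exact_mod_cast h4

end Pool.Agent.Srf5F
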