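import Pool.Agent.Srf5F.CurQ0
import Pool.Agent.Srf5F.TrIff
import Pool.Agent.Srf5.Final

set_option autoImplicit false

/-! Package S11: the theorem for surfaces in no proper coset of the torus of dimension five, from
the list for the points.

PROOF. As `Srf5.main` (Srf5/Final.lean) with `n = 5`: `w = gen (vanI V)`, `Sf ℂ w`: `dm = 2`
(`hdim`), transcendental monomials: an algebraic `mon w r` is a constant `c` (`ℂ` is algebraically
closed), `binom ℂ r c ∈ kr ℂ w = vanI V`, so `x^r = c` on `V` (`binom_mem_vanI`), in contradiction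
to
`h0`. `Sf ℚ w` by `sf_iff` and `dm_IQ_eq`. `E1` from `curveList0`, `E2` from `hpts`, `Ep` from
`cpx_points (le_refl 5)` (`Fin.castLE (le_refl 5) = id`). The rest is as in `Srf5.main`: only
`fz_pos` used `Surf ℂ w`, through `hw.dim` and `hw.trans`; here `hw.tr`. The private lemmas
`fz_*` have to be repeated (or make them public in a copy). The last hypothesis `hc` of
`Srf5.main` does not occur: `n = 5`, so `dim T ≤ 2` if `dim X = 0`. -/

namespace Pool.Agent.Srf5F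

open MvPolynomial Pool.Agent.CITLines Pool.Agent.CITTrans Pool.Agent.Srf5

/-- A nonzero vector in a lattice of positive rank. -/
private theorem m0_ne {n : ℕ} {M : Submodule ℤ (Fin n → ℤ)} (h : 0 < Module.finrank ℚ (QS M)) :
    ∃ l ∈ M, l ≠ 0 := by
  by_contra hcon
  push Not at hcon
  have : QS M = ⊥ := by
    unfold QS
    rw [Submodule.span_eq_bot]
    rintro _ ⟨a, ha, rfl⟩
    rw [cst_eq_zero]
    exact hcon a ha
  rw [this, finrank_bot] at h
  exact lt_irrefl _ h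

/-- Two independent vectors in a lattice of rank at least two. -/
private theorem m0_ind2 {n : ℕ} {M : Submodule ℤ (Fin n → ℤ)}
    (h : 1 < Module.finrank ℚ (QS M)) :
    ∃ l ∈ M, ∃ m ∈ M, LinearIndependent ℤ ![l, m] := by
  have hnt : Nontrivial (QS M) := Module.nontrivial_of_finrank_pos (R := ℚ) (by omega)
  obtain ⟨v, hv⟩ := exists_ne (0 : QS M)
  obtain ⟨w, hw⟩ := exists_linearIndependent_pair_of_one_lt_finrank (R := ℚ) h hv
  rw [LinearIndependent.pair_iff] at hw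
  obtain ⟨k1, hk1, l, hl, hl2⟩ := exists_mult_mem v.2
  obtain ⟨k2, hk2, m, hm, hm2⟩ := exists_mult_mem w.2
  refine ⟨l, hl, m, hm, ?_⟩
  rw [LinearIndependent.pair_iff]
  intro s t hst
  have h1 : ((s : ℚ) * k1) • v + ((t : ℚ) * k2) • w = 0 := by
    apply Subtype.ext
    funext i
    have h2 := congrFun hst i
    simp only [Pi.add_apply, Pi.smul_apply, smul_eq_mul, Pi.zero_apply] at h2
    have h3 : (s : ℚ) * l i + t * m i = 0 := by exact_mod_cast h2
    rw [hl2, hm2] at h3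
    change (s : ℚ) * k1 * (v : Fin n → ℚ) i + (t : ℚ) * k2 * (w : Fin n → ℚ) i = 0
    linear_combination h3
  obtain ⟨h2, h3⟩ := hw _ _ h1
  have hk1' : (k1 : ℚ) ≠ 0 := by exact_mod_cast hk1
  have hk2' : (k2 : ℚ) ≠ 0 := by exact_mod_cast hk2
  constructor
  · have := (mul_eq_zero.mp h2).resolve_right hk1'
    exact_mod_cast this
  · have := (mul_eq_zero.mp h3).resolve_right hk2'
    exact_mod_cast this

/-- The rank of a point whose monomials with exponents in `M` are roots of unity. -/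
private theorem m0_rank {n : ℕ} (M : Submodule ℤ (Fin n → ℤ)) {F : Type} [Field F]
    (z : Fin n → F) (hz : ∀ a ∈ M, RU (mon z a)) (d : ℕ)
    (hd : n ≤ Module.finrank ℚ (QS M) + d) : LThree.RankLe d z := by
  refine ⟨QS M, by rwa [Fintype.card_fin], fun a ha => ?_⟩
  obtain ⟨l, hl, c, hcM, hc⟩ := exists_mult_mem ha
  have h1 : c = l • a := by
    funext i
    have := hc i
    rw [Pi.smul_apply, smul_eq_mul]
    exact_mod_cast this
  have h2 := hz c hcM
  rw [h1, mon_smul] at h2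
  exact h2.of_zpow hl

/-- Algebraic elements over the complex numbers are constants. -/
private theorem m0_const {Ω : Type} [Field Ω] [Algebra ℂ Ω] {x : Ω} (hx : IsAlgebraic ℂ x) :
    ∃ c : ℂ, algebraMap ℂ Ω c = x :=
  minpoly.mem_range_of_degree_eq_one ℂ x
    (IsAlgClosed.degree_eq_one_of_irreducible ℂ (minpoly.irreducible hx.isIntegral))

/-- All coordinates are algebraic iff the dimension is zero. -/
private theorem m0_zero {Ω : Type} [Field Ω] [Algebra ℂ Ω] {n : ℕ} (v : Fin n → Ω) :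
    dm (kr ℂ v) = 0 ↔ ∀ i, IsAlgebraic ℂ (v i) := by
  constructor
  · intro h i
    by_contra hi
    have h1 : AlgebraicIndependent ℂ ![v i] := algebraicIndependent_unique_type_iff.mpr hi
    have h2 := rk_range_of_indep _ h1
    have h3 : rk ℂ (Set.range ![v i]) ≤ rk ℂ (Set.range v) := by
      refine rk_mono ?_
      rintro _ ⟨j, rfl⟩
      exact ⟨i, by rw [Subsingleton.elim j 0]; rfl⟩
    rw [h2, ← dm_kr, h] at h3
    simp at h3
  · intro h
    have h1 : rk ℂ (Set.range v) ≤ rk ℂ (∅ : Set Ω) := by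
      apply rk_le_of_algebraic
      rintro _ ⟨i, rfl⟩
      obtain ⟨c, hc⟩ := m0_const (h i)
      rw [← hc]
      exact isAlgebraic_algebraMap (algebraMap ℂ (Algebra.adjoin ℂ (∅ : Set Ω)) c)
    have h2 := h1.trans (rk_le_encard _)
    rw [Set.encard_empty, ← dm_kr] at h2
    have h3 : (dm (kr ℂ v) : ℕ∞) = 0 := le_antisymm h2 bot_le
    exact_mod_cast h3

private theorem m0_le {F Ω : Type} [Field F] [Algebra ℂ F] [CharZero F] [Field Ω] [Algebra ℂ Ω]
    [CharZero Ω] {n : ℕ} {w : Fin n → F} {v : Fin n → Ω} (h : kr ℂ w ≤ kr ℂ v) :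
    kr ℚ w ≤ kr ℚ v := by
  rw [← IQ_eq_kr, ← IQ_eq_kr]
  exact IQ_mono h

/-- The relation at the generic point `v` of a subvariety of positive dimension. -/
private theorem m0_pos {F Ω : Type} [Field F] [Algebra ℂ F] [CharZero F] [Field Ω] [Algebra ℂ Ω]
    [CharZero Ω] {n : ℕ} {w : Fin n → F} (hw : Sf ℂ w) {E : Finset (Fin n → ℤ)}
    (hE : CurveList w E) {v : Fin n → Ω} (hv : ∀ i, v i ≠ 0) (h : kr ℂ w ≤ kr ℂ v)
    (M : Submodule ℤ (Fin n → ℤ)) (hM : ∀ a ∈ M, RU (mon v a)) (hd : dm (kr ℂ v) ≠ 0)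
    (hr : 2 < dm (kr ℂ v) + Module.finrank ℚ (QS M)) : ∃ a ∈ E, mon v a = 1 := by
  by_cases h2 : dm (kr ℂ v) = 2
  · exfalso
    have h3 : kr ℂ v ≤ kr ℂ w := by
      by_contra hcon
      have h4 : kr ℂ w < kr ℂ v := lt_of_le_not_ge h hcon
      have h5 := dm_strictAnti h4
      rw [h2, hw.dim] at h5
      exact lt_irrefl _ h5
    obtain ⟨a, ha, ha0⟩ := m0_ne (M := M) (by omega)
    have h6 : RU (mon w a) := relZ_mono hv hw.ne h3 (hM a ha)
    obtain ⟨m, hm, h7⟩ := h6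
    refine hw.tr a ha0 (IsAlgebraic.of_pow hm ?_)
    rw [h7]
    exact isAlgebraic_one
  · have h3 : dm (kr ℂ v) ≤ 2 := by
      have := dm_anti h
      rwa [hw.dim] at this
    obtain ⟨l, hl, m, hm, hlm⟩ := m0_ind2 (M := M) (by omega)
    have h4 : ∃ i, Transcendental ℂ (v i) := by
      by_contra hcon
      push Not at hcon
      exact hd ((m0_zero v).mpr fun i => by
        by_contra hi
        exact hcon i hi)
    exact hE.2 Ω v hv (m0_le h) h4 l m hlm (hM l hl) (hM m hm)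

theorem main0 (S : Set (MvPolynomial (Fin 5) ℂ))
    (hS : ∀ p ∈ S, ∀ m, IsAlgebraic ℚ (p.coeff m)) (V : Set (Fin 5 → ℂ))
    (hV : V = {x : Fin 5 → ℂ | (∀ i, x i ≠ 0) ∧ ∀ p ∈ S, MvPolynomial.eval x p = 0})
    (hprime : (⨅ x ∈ V, RingHom.ker (MvPolynomial.eval x :
      MvPolynomial (Fin 5) ℂ →+* ℂ)).IsPrime)
    (hdim : ringKrullDim (MvPolynomial (Fin 5) ℂ ⧸
      (⨅ x ∈ V, RingHom.ker (MvPolynomial.eval x : MvPolynomial (Fin 5) ℂ →+* ℂ))) = 2)
    (h0 : ∀ r : Fin 5 → ℤ, r ≠ 0 → ∃ x ∈ V, ∃ y ∈ V, ∏ i, x i ^ r i ≠ ∏ i, y i ^ r i)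
    (hpts : ∀ (F : Type) [Field F] [Algebra ℂ F] [CharZero F] (w : Fin 5 → F),
      kr ℂ w = vanI V → Sf ℂ w → Sf ℚ w → ∃ E, PointList w E) :
    ∃ (k : ℕ) (L : Fin k → Submodule ℤ (Fin 5 → ℤ)) (ζ : Fin k → Fin 5 → ℂ),
      (∀ j, L j ≠ ⊥ ∧
        (∀ a : Fin 5 → ℤ, ∀ m : ℤ, m ≠ 0 → m • a ∈ L j → a ∈ L j) ∧
        ∃ m : ℕ, 0 < m ∧ ∀ i, ζ j i ^ m = 1) ∧
      ∀ (M : Submodule ℤ (Fin 5 → ℤ)) (η : Fin 5 → ℂ) (T : Set (Fin 5 → ℂ)),
        (∀ a : Fin 5 → ℤ, ∀ m : ℤ, m ≠ 0 → m • a ∈ M → a ∈ M) →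
        (∃ m : ℕ, 0 < m ∧ ∀ i, η i ^ m = 1) →
        T = {y : Fin 5 → ℂ | (∀ i, y i ≠ 0) ∧
              ∀ a ∈ M, ∏ i, y i ^ a i = ∏ i, η i ^ a i} →
        ∀ X : Set (Fin 5 → ℂ), X ⊆ V → X ⊆ T →
          (⨅ x ∈ X, RingHom.ker (MvPolynomial.eval x :
            MvPolynomial (Fin 5) ℂ →+* ℂ)).IsPrime →
          ringKrullDim (MvPolynomial (Fin 5) ℂ ⧸
              (⨅ x ∈ V, RingHom.ker (MvPolynomial.eval x : MvPolynomial (Fin 5) ℂ →+* ℂ)))
            + ringKrullDim (MvPolynomial (Fin 5) ℂ ⧸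
              (⨅ x ∈ T, RingHom.ker (MvPolynomial.eval x : MvPolynomial (Fin 5) ℂ →+* ℂ)))
            < ringKrullDim (MvPolynomial (Fin 5) ℂ ⧸
              (⨅ x ∈ X, RingHom.ker (MvPolynomial.eval x : MvPolynomial (Fin 5) ℂ →+* ℂ)))
              + ((5 : ℕ) : WithBot ℕ∞) →
          ∃ j, X ⊆ {y : Fin 5 → ℂ | (∀ i, y i ≠ 0) ∧
              ∀ a ∈ L j, ∏ i, y i ^ a i = ∏ i, ζ j i ^ a i} := by
  classical
  have hV0 : ∀ x ∈ V, ∀ i, x i ≠ 0 := by
    rw [hV]
    exact fun x hx => hx.1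
  have hpp : (vanI V).IsPrime := hprime
  have hTPV : TP (vanI V) := TP_vanI hV0 hpp
  have hp2 : dm (vanI V) = 2 := by
    have h1 : ringKrullDim (MvPolynomial (Fin 5) ℂ ⧸ vanI V) = 2 := hdim
    rw [ringKrullDim_eq_dm] at h1
    exact_mod_cast h1
  have : CharZero (Kf (vanI V)) :=
    charZero_of_injective_algebraMap (algebraMap ℂ (Kf (vanI V))).injective
  have hwC : Sf ℂ (gen (vanI V)) := by
    refine ⟨hTPV.gen_ne_zero, by rw [kr_gen, hp2], fun r hr halg => ?_⟩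
    obtain ⟨c, hc⟩ := m0_const halg
    have h1 := (binom_mem_vanI hV0 r c).mp ((hTPV.binom_mem r c).mpr hc.symm)
    obtain ⟨x, hx, y, hy, hxy⟩ := h0 r hr
    exact hxy ((h1 x hx).trans (h1 y hy).symm)
  have hwQ : Sf ℚ (gen (vanI V)) := by
    refine (sf_iff _ hTPV.gen_ne_zero ?_ hwC.dim).mp hwC
    rw [← IQ_eq_kr, kr_gen, dm_IQ_eq S hS V hV hpp, hp2]
  obtain ⟨E1, hE1⟩ := curveList0 (gen (vanI V)) hwQ
  obtain ⟨E2, hE2⟩ := hpts (Kf (vanI V)) (gen (vanI V)) (kr_gen _) hwC hwQ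
  obtain ⟨Ep, hEp0, hEp⟩ := cpx_points le_rfl (gen (vanI V)) hE1 (E2 := E2) hE2
  obtain ⟨k, L, ζ, hfam, hcov⟩ := CITNF.cover_finset (E1 ∪ Ep) (by
    rw [Finset.mem_union]
    exact fun h => h.elim hE1.1 hEp0)
  refine ⟨k, L, ζ, hfam, ?_⟩
  intro M η T hsat hη hTd X hXV hXT hX hdimX
  have hX0' : ∀ P ∈ X, ∀ i, P i ≠ 0 := fun P hP => hV0 P (hXV hP)
  have hXp : (vanI X).IsPrime := hX
  have hTP : TP (vanI X) := TP_vanI hX0' hXp
  suffices hrel : ∃ a ∈ E1 ∪ Ep, ∀ y ∈ X, ∏ i, y i ^ a i = 1 by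
    obtain ⟨a, ha, hy⟩ := hrel
    by_contra hcon
    push Not at hcon
    have hb : ∀ j, ∃ b ∈ L j, binom ℂ b (mon (ζ j) b) ∉ vanI X := by
      intro j
      by_contra hcon2
      push Not at hcon2
      apply hcon j
      intro y hyZ
      refine ⟨hX0' y hyZ, ?_⟩
      intro b hb
      exact (binom_mem_vanI hX0' b _).mp (hcon2 b hb) y hyZ
    choose b hbL hbn using hb
    have hprod : ∏ j, binom ℂ (b j) (mon (ζ j) (b j)) ∈ vanI X := by
      rw [mem_vanI]
      intro y hyZ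
      obtain ⟨j, hj⟩ := hcov y (hX0' y hyZ) ⟨a, ha, hy y hyZ⟩
      rw [map_prod]
      exact Finset.prod_eq_zero (Finset.mem_univ j)
        ((eval_binom (hX0' y hyZ) _ _).mpr (hj _ (hbL j)))
    obtain ⟨j, _, hj⟩ := hXp.prod_mem_iff.mp hprod
    exact hbn j hj
  -- dimensions
  obtain ⟨d, hd, hdd⟩ := dim_cos M η hη
  have hTcos : T = cos M η := hTd
  have hdT : ringKrullDim (MvPolynomial (Fin 5) ℂ ⧸ vanI T) = d := by rw [hTcos, hdd]
  have hlt : 2 + d < dm (vanI X) + 5 := by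
    have h1 : ringKrullDim (MvPolynomial (Fin 5) ℂ ⧸ vanI V) +
        ringKrullDim (MvPolynomial (Fin 5) ℂ ⧸ vanI T) <
        ringKrullDim (MvPolynomial (Fin 5) ℂ ⧸ vanI X) + ((5 : ℕ) : WithBot ℕ∞) := hdimX
    rw [hdT, ringKrullDim_eq_dm (vanI X), ringKrullDim_eq_dm (vanI V), hp2] at h1
    exact_mod_cast h1
  have : CharZero (Kf (vanI X)) :=
    charZero_of_injective_algebraMap (algebraMap ℂ (Kf (vanI X))).injective
  have hle : kr ℂ (gen (vanI V)) ≤ kr ℂ (gen (vanI X)) := by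
    rw [kr_gen, kr_gen]
    exact vanI_anti hXV
  have hmonM : ∀ a ∈ M, RU (mon (gen (vanI X)) a) := by
    intro a ha
    have h1 : mon (gen (vanI X)) a = algebraMap ℂ (Kf (vanI X)) (mon η a) := by
      rw [← hTP.binom_mem, binom_mem_vanI hX0']
      intro y hy
      have h2 : y ∈ cos M η := by
        rw [← hTcos]
        exact hXT hy
      exact h2.2 a ha
    obtain ⟨m, hm, h⟩ := RU_mon hη a
    exact ⟨m, hm, by rw [h1, ← map_pow, h, map_one]⟩
  by_cases hX0 : dm (vanI X) = 0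
  · -- the set `X` is a point
    have halg := (m0_zero (gen (vanI X))).mp (by rw [kr_gen, hX0])
    choose P hP using fun i => m0_const (halg i)
    have hyP : ∀ y ∈ X, y = P := by
      intro y hy
      funext i
      have h1 : (MvPolynomial.X i - C (P i) : MvPolynomial (Fin 5) ℂ) ∈ vanI X := by
        rw [← kr_gen (vanI X), mem_kr, map_sub, aeval_X, aeval_C, hP, sub_self]
      have h2 := mem_vanI.mp h1 y hy
      rw [map_sub, eval_X, eval_C] at h2
      exact sub_eq_zero.mp h2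
    have hne : X.Nonempty := by
      rw [Set.nonempty_iff_ne_empty]
      rintro rfl
      apply hXp.ne_top
      rw [Ideal.eq_top_iff_one, mem_vanI]
      intro x hx
      exact absurd hx (Set.notMem_empty x)
    obtain ⟨y, hy⟩ := hne
    have hPX : P ∈ X := hyP y hy ▸ hy
    have hd2 : d ≤ 2 := by omega
    have hrank : LThree.RankLe 2 P := by
      refine m0_rank M P (fun a ha => ?_) 2 (by omega)
      have h1 : P ∈ cos M η := by
        rw [← hTcos]
        exact hXT hPX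
      have h2 : mon P a = mon η a := h1.2 a ha
      rw [h2]
      exact RU_mon hη a
    have hPle : kr ℂ (gen (vanI V)) ≤ kr ℂ P := by
      rw [kr_gen]
      intro f hf
      exact mem_kr.mpr (mem_vanI.mp hf P (hXV hPX))
    obtain ⟨a, ha, h1⟩ := hEp P (hX0' P hPX) (m0_le hPle) hrank
    refine ⟨a, Finset.mem_union_right _ ha, fun z hz => ?_⟩
    rw [hyP z hz]
    exact h1
  · obtain ⟨a, ha, h1⟩ := m0_pos hwC hE1 hTP.gen_ne_zero hle M hmonM
      (by rwa [kr_gen]) (by rw [kr_gen]; omega)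
    refine ⟨a, Finset.mem_union_left _ ha, ?_⟩
    have h2 : binom ℂ a 1 ∈ vanI X := by
      rw [hTP.binom_mem, map_one]
      exact h1
    exact (binom_mem_vanI hX0' a 1).mp h2

end Pool.Agent.Srf5F
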