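import Pool.Agent.Srf5F.CPts
import Pool.Agent.Srf5F.TrIff

set_option autoImplicit false

/-! Package S10: the points of rank at most two of a surface which is fibred over a curve in the
torus of dimension four.

PROOF. `v = pm e w` is a curve in no proper coset (`cv_of_dep`); `cpts` (`k = 2`, `m = 4`) gives
`E'`; `E = E'.image (fun a => ∑ j, a j • e j)` (`0 ∉ E` by `he`). For `K, P`: `pm e P` has nonzero
coordinates, `kr ℚ v ≤ kr ℚ (pm e P)` (`kr_pm_le`), and `RankLe 2 (pm e P)`: let `U ⊆ ℚ^5` be of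
dimension `≥ 3`, `T : ℚ^4 → ℚ^5`, `T x = ∑ x_j e_j`, injective, `U' = U.comap T`:
`finrank U' ≥ 4 + 3 - 5 = 2` (`Submodule.finrank_sup_add_finrank_inf_eq` for `U` and the range of
`T`, or: the kernel of `ℚ^4 → ℚ^5/U`). For `cst a ∈ U'`: `cst (∑ a_j e_j) ∈ U`, and
`mon (pm e P) a = mon P (∑ a_j e_j)` (`mon_pm`). -/

namespace Pool.Agent.Srf5F

open MvPolynomial Pool.Agent.CITLines Pool.Agent.Srf5 Module

private theorem rankLe_pm {K : Type} [Field K] {P : Fin 5 → K} (hP : ∀ i, P i ≠ 0)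
    (e : Fin 4 → Fin 5 → ℤ) (h : LThree.RankLe 2 P) : LThree.RankLe 2 (pm e P) := by
  obtain ⟨U, hU, hr⟩ := h
  refine ⟨U.comap (psiQ e), ?_, fun a ha => ?_⟩
  · have h1 := (U.mkQ ∘ₗ psiQ e).finrank_range_add_finrank_ker
    have h2 : LinearMap.ker (U.mkQ ∘ₗ psiQ e) = U.comap (psiQ e) := by
      rw [LinearMap.ker_comp, Submodule.ker_mkQ]
    have h3 := Submodule.finrank_le (LinearMap.range (U.mkQ ∘ₗ psiQ e))
    have h4 := U.finrank_quotient_add_finrank
    rw [h2] at h1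
    rw [Module.finrank_fintype_fun_eq_card] at h1 h4
    rw [Fintype.card_fin] at *
    omega
  · have h1 : psiQ e (cst a) ∈ U := ha
    rw [psiQ_cst] at h1
    obtain ⟨m, hm, h2⟩ := hr _ h1
    refine ⟨m, hm, ?_⟩
    have h3 : LThree.mono (pm e P) a = LThree.mono P (psiZ e a) := mon_pm e hP a
    rw [h3]
    exact h2

theorem points_four {F : Type} [Field F] [CharZero F] (w : Fin 5 → F) (hw : Sf ℚ w)
    (e : Fin 4 → Fin 5 → ℤ) (he : LinearIndependent ℤ e) (hdep : ∀ i, Dep ℚ w (e 0) (e i)) :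
    ∃ E, PointList w E := by
  classical
  obtain ⟨E', h0, hE'⟩ := cpts (m := 4) (k := 2) (Or.inr rfl) rfl (pm e w)
    (cv_of_dep (s := 3) hw e he hdep)
  refine ⟨E'.image (psiZ e), ?_, fun K _ _ P hP hkr hrk => ?_⟩
  · intro h
    obtain ⟨a, ha, h1⟩ := Finset.mem_image.1 h
    rw [psiZ_apply] at h1
    have h2 := Fintype.linearIndependent_iff.1 he a h1
    have h3 : a = 0 := funext h2
    exact h0 (h3 ▸ ha)
  · obtain ⟨a, ha, h1⟩ := hE' K (pm e P) (fun i => pm_ne_zero e hP i) (kr_pm_le hP hkr e)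
      (rankLe_pm hP e hrk)
    refine ⟨psiZ e a, Finset.mem_image_of_mem _ ha, ?_⟩
    rw [← mon_pm e hP]
    exact h1

end Pool.Agent.Srf5F
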