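import Pool.Agent.Srf5F.PtsFib
import Pool.Agent.Srf5F.PtsFour
import Pool.Agent.Srf5F.Main0
import Pool.Agent.Srf5F.GProp

set_option autoImplicit false

/-! The list of the points of rank at most two of a surface in no proper coset of the torus of
dimension five (assembly of the three cases). -/

namespace Pool.Agent.Srf5F

open MvPolynomial Pool.Agent.CITLines Pool.Agent.CITTrans Pool.Agent.Srf5

theorem points_all (S : Set (MvPolynomial (Fin 5) ℂ))
    (hS : ∀ p ∈ S, ∀ m, IsAlgebraic ℚ (p.coeff m)) (V : Set (Fin 5 → ℂ))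
    (hV : V = {x : Fin 5 → ℂ | (∀ i, x i ≠ 0) ∧ ∀ p ∈ S, MvPolynomial.eval x p = 0})
    (hpp : (vanI V).IsPrime)
    (hND : ∀ e : Fin 3 → Fin 5 → ℤ, LinearIndependent ℤ e → AlgDep V (e 0) (e 1) →
      AlgDep V (e 0) (e 2) →
      (∃ d, LinearIndependent ℤ ![e 0, e 1, e 2, d] ∧ AlgDep V (e 0) d) ∨ ND (ClV V e))
    (F : Type) [Field F] [Algebra ℂ F] [CharZero F] (w : Fin 5 → F) (hwV : kr ℂ w = vanI V)
    (hC : Sf ℂ w) (hQ : Sf ℚ w) : ∃ E, PointList w E := by
  have hV0 : ∀ x ∈ V, ∀ i, x i ≠ 0 := by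
    rw [hV]
    exact fun x hx => hx.1
  have : CharZero (Kf (vanI V)) :=
    charZero_of_injective_algebraMap (algebraMap ℂ (Kf (vanI V))).injective
  have hTP : TP (vanI V) := TP_vanI hV0 hpp
  -- the generic point of the vanishing ideal
  have hg0 : ∀ i, gen (vanI V) i ≠ 0 := hTP.gen_ne_zero
  have hkC : kr ℂ (gen (vanI V)) = kr ℂ w := by rw [kr_gen, hwV]
  have hkQ : kr ℚ (gen (vanI V)) = kr ℚ w := by
    rw [← IQ_eq_kr, ← IQ_eq_kr, hkC]
  have hgC : Sf ℂ (gen (vanI V)) := sf_of_kr hC hg0 hkC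
  have hgQ : Sf ℚ (gen (vanI V)) := sf_of_kr hQ hg0 hkQ
  suffices h : ∃ E, PointList (gen (vanI V)) E by
    obtain ⟨E, hE0, hE⟩ := h
    refine ⟨E, hE0, fun K _ _ P hP hle hrk => hE K P hP ?_ hrk⟩
    rw [hkQ]
    exact hle
  have hdepC : ∀ a b, Dep ℂ (gen (vanI V)) a b ↔ AlgDep V a b := algDep_iff V hV0
  have hdepQ : ∀ a b, Dep ℚ (gen (vanI V)) a b ↔ AlgDep V a b := fun a b => by
    rw [← hdepC, dep_iff (gen (vanI V)) hg0 hgQ.dim hgC.dim]
  by_cases hfine : ∀ a b c : Fin 5 → ℤ, LinearIndependent ℤ ![a, b, c] →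
      Dep ℚ (gen (vanI V)) a b → ¬ Dep ℚ (gen (vanI V)) a c
  · obtain ⟨Ec, hE⟩ := curveList0 (gen (vanI V)) hgQ
    exact points (gen (vanI V)) ⟨hg0, hgQ.dim, hfine⟩ hE
  push Not at hfine
  obtain ⟨a, b, c, hind, hab, hac⟩ := hfine
  have hself : Dep ℚ (gen (vanI V)) a a := by
    intro h
    have h1 := h.injective (show (![mon (gen (vanI V)) a, mon (gen (vanI V)) a] : Fin 2 → _) 0 =
      ![mon (gen (vanI V)) a, mon (gen (vanI V)) a] 1 from rfl)
    exact absurd h1 (by decide)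
  by_cases hfour : ∃ d, LinearIndependent ℤ ![a, b, c, d] ∧ Dep ℚ (gen (vanI V)) a d
  · obtain ⟨d, hd, had⟩ := hfour
    refine points_four (gen (vanI V)) hgQ ![a, b, c, d] hd ?_
    intro i
    fin_cases i
    · exact hself
    · exact hab
    · exact hac
    · exact had
  · have hdepi : ∀ i, Dep ℚ (gen (vanI V)) (![a, b, c] 0) (![a, b, c] i) := by
      intro i
      fin_cases i
      · exact hself
      · exact hab
      · exact hac
    have hF : Fib (gen (vanI V)) ![a, b, c] := by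
      refine ⟨hg0, hgQ.dim, hgQ.tr, hind, hdepi, ?_⟩
      intro d hd had
      exact hfour ⟨d, hd, had⟩
    rcases hND ![a, b, c] hind ((hdepQ _ _).1 hab) ((hdepQ _ _).1 hac) with ⟨d, hd, had⟩ | hN
    · exact absurd ⟨d, hd, (hdepQ _ _).2 had⟩ hfour
    obtain ⟨κ, hκ, hprop⟩ := prop_conj S hS V hV hpp
    obtain ⟨G, hG⟩ := arch_of (gen (vanI V)) ![a, b, c] hF (ClV V ![a, b, c]) _
      (clo_ClV V hV0 hpp ![a, b, c]) hN κ hκ (by
        intro K _ _ P hP hle
        refine (hprop K P hP ?_).trans ?_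
        · rw [← hwV, IQ_eq_kr, ← hkQ]
          exact hle
        · have hinj : Function.Injective (fun σ : {σ : K →+* ℂ // (fun i => σ (P i)) ∈ V} =>
              (⟨σ.1, pm_mem_ClV V hV0 ![a, b, c] _ σ.2⟩ :
                {σ : K →+* ℂ // pm ![a, b, c] (fun i => σ (P i)) ∈ ClV V ![a, b, c]})) := by
            intro σ τ h
            simp only [Subtype.mk.injEq] at h
            exact Subtype.ext h
          exact_mod_cast Nat.card_le_card_of_injective _ hinj)
    exact points_fib (gen (vanI V)) ![a, b, c] (ClV V ![a, b, c]) G κ hF hG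

end Pool.Agent.Srf5F
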