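import Pool.Agent.Srf5F.BDefs
import Pool.Agent.L3S.Degree

set_option autoImplicit false

/-! Counting embeddings. -/

namespace Pool.Agent.Srf5F

open Module Height NumberField Pool.Agent.CITLines Pool.Agent.Srf5
open Pool.Agent.LThree (mass)

private theorem bcnt_eq (K : Type) [Field K] [NumberField K] (p : (K →+* ℂ) → Prop)
    [DecidablePred p] : cnt K p = ((Finset.univ.filter p).card : ℝ) := by
  rw [cnt, Nat.card_eq_fintype_card, Fintype.card_subtype]

/-- Proof. `Nat.card_le_card_of_injective` for the inclusion of subtypes (the set of embeddings is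
finite). -/
theorem cnt_mono (K : Type) [Field K] [NumberField K] {p q : (K →+* ℂ) → Prop}
    (h : ∀ σ, p σ → q σ) : cnt K p ≤ cnt K q := by
  classical
  rw [bcnt_eq, bcnt_eq]
  exact_mod_cast Finset.card_le_card (Finset.monotone_filter_right _ fun σ _ => h σ)

/-- Proof. Cardinality of a union (`Finset.card_union_le` after rewriting `Nat.card` as the
cardinality of a filter of `Finset.univ`). -/
theorem cnt_or (K : Type) [Field K] [NumberField K] (p q : (K →+* ℂ) → Prop) :
    cnt K (fun σ => p σ ∨ q σ) ≤ cnt K p + cnt K q := by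
  classical
  rw [bcnt_eq, bcnt_eq, bcnt_eq, Finset.filter_or]
  exact_mod_cast Finset.card_union_le _ _

/-- Proof. Subtype of a finite type, `NumberField.Embeddings.card`. -/
theorem cnt_le (K : Type) [Field K] [NumberField K] (p : (K →+* ℂ) → Prop) :
    cnt K p ≤ finrank ℚ K := by
  classical
  rw [bcnt_eq, ← NumberField.Embeddings.card K ℂ]
  exact_mod_cast Finset.card_le_univ _

/-- Proof. Sum over the places `v` of the number of the `σ` with `mk σ = v`, which is `v.mult`
(`InfinitePlace.card_filter_mk_eq` or similar). -/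
theorem cnt_mk (K : Type) [Field K] [NumberField K] (q : InfinitePlace K → Prop) :
    cnt K (fun σ => q (InfinitePlace.mk σ)) = mass K q := by
  classical
  rw [bcnt_eq, mass, Finset.card_filter, Nat.cast_sum]
  rw [← Finset.sum_fiberwise (s := (Finset.univ : Finset (K →+* ℂ))) (g := InfinitePlace.mk)]
  refine Finset.sum_congr rfl fun v _ => ?_
  have h1 : ∀ σ ∈ Finset.univ.filter (fun σ : K →+* ℂ => InfinitePlace.mk σ = v),
      (((if q (InfinitePlace.mk σ) then 1 else 0 : ℕ) : ℝ)) = if q v then 1 else 0 := by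
    intro σ hσ
    rw [(Finset.mem_filter.1 hσ).2]
    split_ifs <;> simp
  rw [Finset.sum_congr rfl h1, Finset.sum_const, InfinitePlace.card_filter_mk_eq]
  split_ifs <;> simp

/-- Proof. `cnt_mk` and `LThree.mass_large`; `(InfinitePlace.mk σ) z = ‖σ z‖`. -/
theorem cnt_large (K : Type) [Field K] [NumberField K] (z : K) (hz : z ≠ 0) (B : ℝ) (hB : 0 < B) :
    cnt K (fun σ => B ≤ |Real.log ‖σ z‖|) * B ≤ 2 * logHeight₁ z := by
  have h := Pool.Agent.LThree.mass_large K z hz B hB
  rw [← cnt_mk] at h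
  exact h

/-- **No clusters.** If a positive proportion of the conjugates of `x` is very close to the finite
set `T` then the degree of `x` is bounded.

Proof. `L3S.deg_of_clusters M hM` gives `C`; let `T' = T ∪ T.image conj` (the conjugate numbers
added), `k = T'.card + 1`, `r = exp (-(C k))`, `N = ⌈C k⌉₊`. If `‖σ x - t‖ ≤ r` then for `v = mk σ`
the embedding `v.embedding` is `σ` or its conjugate (`InfinitePlace.embedding_mk_eq` or similar), so
`‖v.embedding x - t'‖ ≤ r` for `t' = t` or `conj t`. So `cnt ≤ mass` by `cnt_mono` and `cnt_mk`. -/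
theorem cnt_deg (M : ℝ) (hM : 1 ≤ M) (T : Finset ℂ) : ∃ (r : ℝ) (N : ℕ), 0 < r ∧
    ∀ (K : Type) [Field K] [NumberField K] (x : K), logHeight₁ x ≤ M * finrank ℚ K →
      (finrank ℚ K : ℝ) ≤ M * cnt K (fun σ => ∃ t ∈ T, ‖σ x - t‖ ≤ r) →
      (minpoly ℚ x).natDegree ≤ N := by
  classical
  obtain ⟨C, hC1, hC⟩ := Pool.Agent.L3S.deg_of_clusters M hM
  set T' : Finset ℂ := T ∪ T.image (starRingEnd ℂ) with hT'
  set k : ℕ := T'.card + 1 with hk
  refine ⟨Real.exp (-(C * k)), ⌈C * k⌉₊, Real.exp_pos _, ?_⟩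
  intro K _ _ x hx hcnt
  have h1 : cnt K (fun σ => ∃ t ∈ T, ‖σ x - t‖ ≤ Real.exp (-(C * k))) ≤
      mass K (fun v => ∃ t ∈ T', ‖v.embedding x - t‖ ≤ Real.exp (-(C * k))) := by
    rw [← cnt_mk]
    refine cnt_mono K ?_
    rintro σ ⟨t, ht, h⟩
    rcases InfinitePlace.embedding_mk_eq σ with he | he
    · exact ⟨t, Finset.mem_union_left _ ht, by rw [he]; exact h⟩
    · refine ⟨starRingEnd ℂ t, Finset.mem_union_right _ (Finset.mem_image_of_mem _ ht), ?_⟩
      rw [he, ComplexEmbedding.conjugate_coe_eq, ← map_sub, RCLike.norm_conj]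
      exact h
  have h2 := hC K x k T' (by omega) (by omega) hx
    (hcnt.trans (mul_le_mul_of_nonneg_left h1 (by linarith)))
  have h3 : ((minpoly ℚ x).natDegree : ℝ) ≤ (⌈C * k⌉₊ : ℝ) := h2.trans (Nat.le_ceil _)
  exact_mod_cast h3

end Pool.Agent.Srf5F
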