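import Pool.Agent.Srf5F.BLocal

set_option autoImplicit false

/-! Bounded degree: compactness. -/

namespace Pool.Agent.Srf5F

open MvPolynomial Module Height NumberField Pool.Agent.CITLines Pool.Agent.Srf5

/-- Proof. `Cp` is closed and bounded (`|q.1 i| ≤ 1`, `‖q.2‖ = 1`) in a finite dimensional space. -/
theorem isCompact_Cp : IsCompact Cp := by
  have h1 : Cp = {q : (Fin 3 → ℝ) × (Fin 5 → Fin 3 → ℝ) | ∑ i, q.1 i ^ 2 = 1} ∩
      ({q | ‖q.2‖ = 1} ∩ ⋂ j : Fin 5, {q | ∑ i, q.2 j i * q.1 i = 0}) := by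
    ext q
    simp only [Cp, Set.mem_ofPred_eq, Set.mem_inter_iff, Set.mem_iInter]
  apply Metric.isCompact_of_isClosed_isBounded
  · rw [h1]
    refine (isClosed_eq (by fun_prop) continuous_const).inter
      ((isClosed_eq (by fun_prop) continuous_const).inter
        (isClosed_iInter fun j => isClosed_eq (by fun_prop) continuous_const))
  · refine (Metric.isBounded_closedBall (x := (0 : (Fin 3 → ℝ) × (Fin 5 → Fin 3 → ℝ)))
      (r := 1)).subset fun q hq => ?_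
    obtain ⟨h2, h3, -⟩ := hq
    rw [mem_closedBall_zero_iff, Prod.norm_def]
    refine max_le ((pi_norm_le_iff_of_nonneg zero_le_one).2 fun i => ?_) h3.le
    rw [Real.norm_eq_abs, ← abs_one, ← sq_le_sq, one_pow, ← h2]
    exact Finset.single_le_sum (f := fun i => q.1 i ^ 2) (fun i _ => sq_nonneg _)
      (Finset.mem_univ i)

/-- **The degree of `y_0` is bounded when the matrix is large.**

Proof. For every `q ∈ Cp` take `ε_q, N_q` from `local_bdd`. By compactness finitely many of the sets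
`{(a, B) : |a i - a0 i| < ε_q, |B j i - B0 j i| < ε_q}` cover `Cp`. Let `N ≥ 1` be the maximum of the `N_q`
involved and `1`. For `P, a, A` as in the statement `‖A‖ ≥ 1 > 0` and `(a, ‖A‖⁻¹ • A) ∈ Cp`
(`h.unit`, `h.orth`). -/
theorem degree_bdd {F : Type} [Field F] [CharZero F] {w : Fin 5 → F} {e : Fin 3 → Fin 5 → ℤ}
    {C : Set (Fin 3 → ℂ)} {G : Polynomial ℚ} {κ : ℝ} (hA : Arch w e C G κ) (M : ℝ) (hM : 1 ≤ M)
    (S : Finset (Fin 5 → ℤ)) (hS : 2 ≤ S.card) (p : (Fin 5 → ℤ) → Polynomial ℚ) :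
    ∃ N : ℕ, ∀ (K : Type) [Field K] [NumberField K] (P : Fin 5 → K)
      (a : Fin 3 → ℝ) (A : Fin 5 → Fin 3 → ℝ), Pt w e G M S p P a A → (N : ℝ) ≤ ‖A‖ →
      (minpoly ℚ (mon P (e 0))).natDegree ≤ N := by
  choose! ε N hε hN using fun (q : (Fin 3 → ℝ) × (Fin 5 → Fin 3 → ℝ)) (hq : q ∈ Cp) =>
    local_bdd hA M hM S hS p q.1 q.2 hq
  obtain ⟨t, ht1, ht2⟩ := isCompact_Cp.elim_nhds_subcover
    (fun q => {x | (∀ i, |x.1 i - q.1 i| < ε q) ∧ ∀ j i, |x.2 j i - q.2 j i| < ε q}) (by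
      intro q hq
      refine Filter.mem_of_superset (Metric.ball_mem_nhds q (hε q hq)) fun x hx => ?_
      rw [Metric.mem_ball, Prod.dist_eq, max_lt_iff] at hx
      refine ⟨fun i => ?_, fun j i => ?_⟩
      · rw [← Real.dist_eq]
        exact (dist_le_pi_dist x.1 q.1 i).trans_lt hx.1
      · rw [← Real.dist_eq]
        exact ((dist_le_pi_dist (x.2 j) (q.2 j) i).trans (dist_le_pi_dist x.2 q.2 j)).trans_lt
          hx.2)
  refine ⟨max (t.sup N) 1, fun K _ _ P a A hP hA1 => ?_⟩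
  have h1 : (1 : ℝ) ≤ ‖A‖ := le_trans (by exact_mod_cast le_max_right _ _) hA1
  have h0 : 0 < ‖A‖ := lt_of_lt_of_le one_pos h1
  have h2 : (a, ‖A‖⁻¹ • A) ∈ Cp := by
    refine ⟨hP.unit, ?_, fun j => ?_⟩
    · show ‖‖A‖⁻¹ • A‖ = 1
      rw [norm_smul, norm_inv, norm_norm, inv_mul_cancel₀ h0.ne']
    · have h3 := hP.orth j
      show ∑ i, (‖A‖⁻¹ • A) j i * a i = 0
      calc ∑ i, (‖A‖⁻¹ • A) j i * a i = ‖A‖⁻¹ * ∑ i, A j i * a i := by
            rw [Finset.mul_sum]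
            refine Finset.sum_congr rfl fun i _ => ?_
            simp only [Pi.smul_apply, smul_eq_mul]
            ring
        _ = 0 := by rw [h3, mul_zero]
  obtain ⟨q, hq, hq2, hq3⟩ := Set.mem_iUnion₂.1 (ht2 h2)
  have h4 : N q ≤ max (t.sup N) 1 := le_max_of_le_left (Finset.le_sup (f := N) hq)
  refine (hN q (ht1 q hq) K P a A hP hq2 (fun j i => ?_)
    (le_trans (by exact_mod_cast h4) hA1)).trans h4
  have h5 : |‖A‖⁻¹ * A j i - q.2 j i| < ε q := hq3 j i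
  have h6 : A j i - ‖A‖ * q.2 j i = ‖A‖ * (‖A‖⁻¹ * A j i - q.2 j i) := by
    rw [mul_sub, ← mul_assoc, mul_inv_cancel₀ h0.ne', one_mul]
  rw [h6, abs_mul, abs_of_pos h0, mul_comm]
  exact mul_lt_mul_of_pos_right h5 h0

end Pool.Agent.Srf5F
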