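import Pool.Agent.Srf5F.Defs

set_option autoImplicit false

/-! Definitions for the height bound on fibred surfaces (note 2057, steps 1 and 2). -/

namespace Pool.Agent.Srf5F

open MvPolynomial Module Height NumberField Pool.Agent.CITLines Pool.Agent.Srf5

/-- The number of embeddings with a property. -/
noncomputable def cnt (K : Type) [Field K] [NumberField K] (p : (K →+* ℂ) → Prop) : ℝ :=
  (Nat.card {σ : K →+* ℂ // p σ} : ℝ)

/-- The image of a point under an embedding. -/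
def cj {K : Type} [Field K] (σ : K →+* ℂ) (P : Fin 5 → K) : Fin 5 → ℂ := fun j => σ (P j)

/-- The product of the row vector `l` and the matrix `A`. -/
noncomputable def vec (A : Fin 5 → Fin 3 → ℝ) (l : Fin 5 → ℤ) (i : Fin 3) : ℝ :=
  ∑ j, (l j : ℝ) * A j i

/-- The points of `C` over a line through the origin. -/
def zset (C : Set (Fin 3 → ℂ)) (G : Polynomial ℚ) (R η : ℝ) (u v : Fin 3 → ℝ) :
    Set (Fin 3 → ℂ) :=
  {y | y ∈ bdp C G R η ∧ ∑ i, u i * lg y i = 0 ∧ ∑ i, v i * lg y i = 0}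

/-- The points `P` considered in the height bound. `a` is the (real, unit) relation of the three
numbers `y_i = mon P (e i)` and `A` expresses the logarithms of the absolute values of the `P j` by those
of the `y i`. `M` is a common bound for the constants. -/
structure Pt {F K : Type} [Field F] [CharZero F] [Field K] [NumberField K] (w : Fin 5 → F)
    (e : Fin 3 → Fin 5 → ℤ) (G : Polynomial ℚ) (M : ℝ) (S : Finset (Fin 5 → ℤ))
    (p : (Fin 5 → ℤ) → Polynomial ℚ) (P : Fin 5 → K) (a : Fin 3 → ℝ) (A : Fin 5 → Fin 3 → ℝ) :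
    Prop where
  ne : ∀ i, P i ≠ 0
  le : kr ℚ w ≤ kr ℚ P
  unit : ∑ i, a i ^ 2 = 1
  orth : ∀ j, ∑ i, A j i * a i = 0
  arel : ∀ σ : K →+* ℂ, ∑ i, a i * lg (pm e (cj σ P)) i = 0
  lgP : ∀ (σ : K →+* ℂ) (j : Fin 5), Real.log ‖σ (P j)‖ = ∑ i, A j i * lg (pm e (cj σ P)) i
  ht : ∀ u : Fin 5 → ℤ, logHeight₁ (mon P u) ≤ ∑ i, |vec A u i| * logHeight₁ (mon P (e i))
  hy : ∀ i, logHeight₁ (mon P (e i)) ≤ M * finrank ℚ K
  rel : ∑ s ∈ S, Polynomial.aeval (mon P (e 0)) (p s) * mon P s = 0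
  ps : ∀ s ∈ S, Polynomial.aeval (mon P (e 0)) (p s) ≠ 0
  G0 : Polynomial.aeval (mon P (e 0)) G ≠ 0
  pair : ∀ s ∈ S, ∀ t ∈ S, s ≠ t → ∀ i, logHeight₁ (P i) ≤
    M * (logHeight₁ (mon P (e 0)) + logHeight₁ (mon P (s - t)) + finrank ℚ K)

/-- The pairs `(a, A / ‖A‖)`. -/
def Cp : Set ((Fin 3 → ℝ) × (Fin 5 → Fin 3 → ℝ)) :=
  {q | ∑ i, q.1 i ^ 2 = 1 ∧ ‖q.2‖ = 1 ∧ ∀ j, ∑ i, q.2 j i * q.1 i = 0}

end Pool.Agent.Srf5F
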