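import Pool.Agent.Srf5F.BDefs

set_option autoImplicit false

/-! The curve `C'` of a fibred surface. -/

namespace Pool.Agent.Srf5F

open MvPolynomial Module Height NumberField Pool.Agent.CITLines Pool.Agent.Srf5

private theorem bfib_indep {k F : Type} [Field k] [Field F] [Algebra k F] {x y : F}
    (h : (AlgebraicIndependent.matroid k F).Indep {x, y}) (hxy : x ≠ y) :
    AlgebraicIndependent k ![x, y] := by
  rw [AlgebraicIndependent.matroid_indep_iff] at h
  have h2 := h.comp (fun i : Fin 2 => (⟨![x, y] i, by fin_cases i <;> simp⟩ : ({x, y} : Set F))) (by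
    intro i j hij
    have hij' : ![x, y] i = ![x, y] j := congrArg Subtype.val hij
    fin_cases i <;> fin_cases j
    · rfl
    · exact absurd hij' hxy
    · exact absurd hij'.symm hxy
    · rfl)
  exact h2

private theorem bfib_mem {k F : Type} [Field k] [Field F] [Algebra k F] {x y : F}
    (hy : Transcendental k y) (h : ¬ AlgebraicIndependent k ![y, x]) :
    x ∈ (AlgebraicIndependent.matroid k F).closure {y} := by
  by_contra hx
  have hI : (AlgebraicIndependent.matroid k F).Indep {y} := by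
    rw [AlgebraicIndependent.matroid_indep_iff]
    exact (algebraicIndependent_singleton_iff (⟨y, rfl⟩ : ({y} : Set F))).2 hy
  obtain ⟨h1, h2⟩ := (hI.notMem_closure_iff (by simp)).1 hx
  have h3 : x ≠ y := fun h => h2 (by rw [h]; rfl)
  rw [Set.pair_comm] at h1
  exact h (bfib_indep h1 h3.symm)

/-- Proof. `e i ≠ 0` and `hF.trans`: `v 0 = mon w (e 0)` is transcendental and `v 1, v 2` are
algebraic over `ℚ(v 0)` (`hF.dep`), so the transcendence degree `dm (kr ℚ v)` is one. (See the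
proofs in `Srf5/ADep.lean`, `Srf5/DepTr.lean`.) -/
theorem fib_dim {F : Type} [Field F] [CharZero F] {w : Fin 5 → F} {e : Fin 3 → Fin 5 → ℤ}
    (hF : Fib w e) : dm (kr ℚ (pm e w)) = 1 := by
  have hy : Transcendental ℚ (mon w (e 0)) := hF.trans _ (hF.ind.ne_zero 0)
  have h1 : rk ℚ (Set.range (pm e w)) ≤ rk ℚ {mon w (e 0)} := by
    unfold rk
    rw [← Matroid.eRk_closure_eq _ {mon w (e 0)}]
    refine Matroid.eRk_mono _ ?_
    rintro _ ⟨i, rfl⟩
    exact bfib_mem hy (hF.dep i)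
  have h2 : rk ℚ {mon w (e 0)} ≤ 1 := (rk_le_encard _).trans (by rw [Set.encard_singleton])
  have h3 : AlgebraicIndependent ℚ (fun _ : Fin 1 => mon w (e 0)) := by
    rw [algebraicIndependent_unique_type_iff]
    exact hy
  have h4 := rk_range_of_indep _ h3
  have h5 : rk ℚ (Set.range fun _ : Fin 1 => mon w (e 0)) ≤ rk ℚ (Set.range (pm e w)) := by
    refine rk_mono ?_
    rintro _ ⟨_, rfl⟩
    exact ⟨0, rfl⟩
  rw [h4, Fintype.card_fin] at h5
  have h6 := dm_kr (k := ℚ) (pm e w)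
  have h7 : (dm (kr ℚ (pm e w)) : ℕ∞) ≤ 1 := by
    rw [h6]
    exact h1.trans h2
  have h8 : ((1 : ℕ) : ℕ∞) ≤ (dm (kr ℚ (pm e w)) : ℕ∞) := by
    rw [h6]
    exact h5
  have h7' : dm (kr ℚ (pm e w)) ≤ 1 := by exact_mod_cast h7
  have h8' : 1 ≤ dm (kr ℚ (pm e w)) := by exact_mod_cast h8
  omega

/-- Proof. `mon_pm`: `mon (pm e w) r = mon w (psiZ e r)`, `psiZ e r = ∑ r i • e i ≠ 0` by
`hF.ind`. -/
theorem fib_trans {F : Type} [Field F] [CharZero F] {w : Fin 5 → F} {e : Fin 3 → Fin 5 → ℤ}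
    (hF : Fib w e) (r : Fin 3 → ℤ) (hr : r ≠ 0) : Transcendental ℚ (mon (pm e w) r) := by
  rw [mon_pm e hF.ne]
  refine hF.trans _ ?_
  intro h
  rw [psiZ_apply] at h
  exact hr (funext (Fintype.linearIndependent_iff.1 hF.ind r h))

/-- Proof. Let `U` be the subspace for `P`, take the preimage of `U` under
`ℚ^3 → ℚ^5, c ↦ ∑ c i • cst (e i)` (`psiQ e`): its dimension is at least `3 - 2`. (`mon_pm`.) -/
theorem rank_pm {K : Type} [Field K] (P : Fin 5 → K) (hP : ∀ i, P i ≠ 0)
    (e : Fin 3 → Fin 5 → ℤ) (h : LThree.RankLe 2 P) : LThree.RankLe 2 (pm e P) := by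
  obtain ⟨U, hU, htor⟩ := h
  refine ⟨U.comap (psiQ e), ?_, ?_⟩
  · have h1 : U.comap (psiQ e) = LinearMap.ker (U.mkQ ∘ₗ psiQ e) := by
      rw [LinearMap.ker_comp, Submodule.ker_mkQ]
    have h2 := (U.mkQ ∘ₗ psiQ e).finrank_range_add_finrank_ker
    have h3 := Submodule.finrank_le (LinearMap.range (U.mkQ ∘ₗ psiQ e))
    have h4 := U.finrank_quotient_add_finrank
    rw [Module.finrank_fintype_fun_eq_card] at h2 h4
    rw [Fintype.card_fin] at h2 h4 hU ⊢
    rw [h1]
    omega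
  · intro a ha
    have h1 : cst (psiZ e a) ∈ U := by
      rw [← psiQ_cst]
      exact ha
    obtain ⟨m, hm, h2⟩ := htor (psiZ e a) h1
    refine ⟨m, hm, ?_⟩
    change mon (pm e P) a ^ m = 1
    rw [mon_pm e hP]
    exact h2

end Pool.Agent.Srf5F
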