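import Pool.Agent.Srf5F.BDefs

set_option autoImplicit false

/-! The matrix of a point of rank two. -/

namespace Pool.Agent.Srf5F

open MvPolynomial Module Height NumberField Pool.Agent.CITLines Pool.Agent.Srf5

/-- The height of a monomial, from a rational relation modulo `U`. -/
private theorem bm_ht {K : Type} [Field K] [NumberField K] (P : Fin 5 → K) (hP : ∀ i, P i ≠ 0)
    (e : Fin 3 → Fin 5 → ℤ) (U : Submodule ℚ (Fin 5 → ℚ))
    (hrel : ∀ a : Fin 5 → ℤ, cst a ∈ U → ∃ m : ℕ, 0 < m ∧ mon P a ^ m = 1)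
    (u : Fin 5 → ℤ) (c : Fin 3 → ℚ) (h : cst u - psiQ e c ∈ U) :
    logHeight₁ (mon P u) ≤ ∑ i, |(c i : ℝ)| * logHeight₁ (mon P (e i)) := by
  obtain ⟨k, hk, b, hb⟩ := exists_clear c
  set a : Fin 5 → ℤ := k • u - psiZ e b with ha
  have hbc : cst b = (k : ℚ) • c := by
    funext i
    rw [cst_apply, hb, Pi.smul_apply, smul_eq_mul]
  have hcast : cst a = (k : ℚ) • (cst u - psiQ e c) := by
    have h1 : cst a = (k : ℚ) • cst u - cst (psiZ e b) := by
      funext i
      simp only [ha, cst_apply, Pi.sub_apply, Pi.smul_apply, smul_eq_mul]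
      push_cast
      ring
    rw [h1, ← psiQ_cst, hbc, map_smul, smul_sub]
  obtain ⟨m, hm0, hm⟩ := hrel a (by rw [hcast]; exact U.smul_mem _ h)
  have hv0 : logHeight₁ (mon P a) = 0 := by
    have h1 := logHeight₁_pow (mon P a) m
    rw [hm, logHeight₁_one] at h1
    have hmr : (m : ℝ) ≠ 0 := by exact_mod_cast hm0.ne'
    rcases mul_eq_zero.1 h1.symm with h2 | h2
    · exact absurd h2 hmr
    · exact h2
  have hku : k • u = a + ∑ i, b i • e i := by
    rw [ha, psiZ_apply]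
    abel
  have hmonu : mon P u ^ k = mon P a * ∏ i, mon P (e i) ^ b i := by
    rw [← mon_smul, hku, mon_add' hP, mon_sum hP]
    congr 1
    exact Finset.prod_congr rfl fun i _ => mon_smul P (b i) (e i)
  have hh := logHeight₁_zpow (mon P u) k
  rw [hmonu, Fin.prod_univ_three] at hh
  have h4 : logHeight₁ (mon P a * (mon P (e 0) ^ b 0 * mon P (e 1) ^ b 1 * mon P (e 2) ^ b 2)) ≤
      ((b 0).natAbs : ℝ) * logHeight₁ (mon P (e 0)) +
      ((b 1).natAbs : ℝ) * logHeight₁ (mon P (e 1)) +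
      ((b 2).natAbs : ℝ) * logHeight₁ (mon P (e 2)) := by
    refine (logHeight₁_mul_le _ _).trans ?_
    have h5 := logHeight₁_mul_le (mon P (e 0) ^ b 0 * mon P (e 1) ^ b 1) (mon P (e 2) ^ b 2)
    have h6 := logHeight₁_mul_le (mon P (e 0) ^ b 0) (mon P (e 1) ^ b 1)
    rw [logHeight₁_zpow, logHeight₁_zpow] at h6
    rw [logHeight₁_zpow] at h5
    rw [hv0]
    linarith
  have hkr : (0 : ℝ) < k.natAbs := by exact_mod_cast Int.natAbs_pos.2 hk
  have hbr : ∀ i, ((b i).natAbs : ℝ) = k.natAbs * |(c i : ℝ)| := by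
    intro i
    have h5 : ((b i : ℤ) : ℝ) = (k : ℝ) * (c i : ℝ) := by exact_mod_cast hb i
    rw [Nat.cast_natAbs, Nat.cast_natAbs, Int.cast_abs, Int.cast_abs, h5, abs_mul]
  rw [hh, hbr, hbr, hbr] at h4
  rw [Fin.sum_univ_three]
  have h6 : (k.natAbs : ℝ) * logHeight₁ (mon P u) ≤ k.natAbs *
      (|(c 0 : ℝ)| * logHeight₁ (mon P (e 0)) + |(c 1 : ℝ)| * logHeight₁ (mon P (e 1)) +
        |(c 2 : ℝ)| * logHeight₁ (mon P (e 2))) := by linarith
  exact le_of_mul_le_mul_left h6 hkr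

/-- The logarithmic linear form of an embedding. -/
private noncomputable def lamb {K : Type} [Field K] (σ : K →+* ℂ) (P : Fin 5 → K)
    (u : Fin 5 → ℚ) : ℝ := ∑ j, (u j : ℝ) * Real.log ‖σ (P j)‖

private theorem lamb_sub {K : Type} [Field K] (σ : K →+* ℂ) (P : Fin 5 → K) (u v : Fin 5 → ℚ) :
    lamb σ P (u - v) = lamb σ P u - lamb σ P v := by
  unfold lamb
  rw [← Finset.sum_sub_distrib]
  refine Finset.sum_congr rfl fun j _ => ?_
  rw [Pi.sub_apply]
  push_cast
  ring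

private theorem lamb_smul {K : Type} [Field K] (σ : K →+* ℂ) (P : Fin 5 → K) (c : ℚ)
    (u : Fin 5 → ℚ) : lamb σ P (c • u) = c * lamb σ P u := by
  unfold lamb
  rw [Finset.mul_sum]
  refine Finset.sum_congr rfl fun j _ => ?_
  rw [Pi.smul_apply, smul_eq_mul]
  push_cast
  ring

private theorem lamb_cst {K : Type} [Field K] (σ : K →+* ℂ) (P : Fin 5 → K) (hP : ∀ i, P i ≠ 0)
    (a : Fin 5 → ℤ) : lamb σ P (cst a) = Real.log ‖σ (mon P a)‖ := by
  have h1 : ∀ j, σ (P j) ≠ 0 := fun j => (map_ne_zero σ).2 (hP j)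
  unfold lamb mon
  rw [map_prod, norm_prod, Real.log_prod (fun j _ => by
    rw [norm_ne_zero_iff, map_zpow₀]
    exact zpow_ne_zero _ (h1 j))]
  refine Finset.sum_congr rfl fun j _ => ?_
  rw [map_zpow₀, norm_zpow, Real.log_zpow, cst_apply]
  push_cast
  ring

private theorem lamb_zero {K : Type} [Field K] (σ : K →+* ℂ) (P : Fin 5 → K)
    (hP : ∀ i, P i ≠ 0) (U : Submodule ℚ (Fin 5 → ℚ))
    (hrel : ∀ a : Fin 5 → ℤ, cst a ∈ U → ∃ m : ℕ, 0 < m ∧ mon P a ^ m = 1)
    (u : Fin 5 → ℚ) (hu : u ∈ U) : lamb σ P u = 0 := by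
  obtain ⟨k, hk, a, ha⟩ := exists_clear u
  have h1 : cst a = (k : ℚ) • u := by
    funext i
    rw [cst_apply, ha, Pi.smul_apply, smul_eq_mul]
  obtain ⟨m, hm0, hm⟩ := hrel a (by rw [h1]; exact U.smul_mem _ hu)
  have h2 : (m : ℝ) * Real.log ‖σ (mon P a)‖ = 0 := by
    rw [← Real.log_pow, ← norm_pow, ← map_pow, hm, map_one, norm_one, Real.log_one]
  have hm' : (m : ℝ) ≠ 0 := by exact_mod_cast hm0.ne'
  have h3 := (mul_eq_zero.1 h2).resolve_left hm'
  rw [← lamb_cst σ P hP, h1, lamb_smul] at h3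
  have hk' : ((k : ℚ) : ℝ) ≠ 0 := by exact_mod_cast hk
  exact (mul_eq_zero.1 h3).resolve_left hk'

private theorem lamb_psi {K : Type} [Field K] (σ : K →+* ℂ) (P : Fin 5 → K)
    (hP : ∀ i, P i ≠ 0) (e : Fin 3 → Fin 5 → ℤ) (c : Fin 3 → ℚ) :
    lamb σ P (psiQ e c) = ∑ i, (c i : ℝ) * lg (pm e (cj σ P)) i := by
  have h1 : ∀ i, lg (pm e (cj σ P)) i = lamb σ P (cst (e i)) := by
    intro i
    rw [lamb_cst σ P hP]
    unfold lg pm mon cj
    simp only [map_prod, map_zpow₀]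
  simp only [h1]
  rw [psiQ_apply, Fin.sum_univ_three, Fin.sum_univ_three]
  have hadd : ∀ u v : Fin 5 → ℚ, lamb σ P (u + v) = lamb σ P u + lamb σ P v := by
    intro u v
    have h2 := lamb_sub σ P (u + v) v
    rw [add_sub_cancel_right] at h2
    linarith
  rw [hadd, hadd, lamb_smul, lamb_smul, lamb_smul]

/-- **The matrix.** Let `P` have rank at most two and the three numbers `y i = mon P (e i)` rank
two.

Proof. `LThree.RankLe 2 P` gives `U ≤ ℚ^5` of dimension at least three such that `mon P u` is a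
root of unity for the integer vectors `u ∈ U`. Let `E : ℚ^3 → ℚ^5 / U`, `c ↦ ∑ c i • e i`.
(1) The kernel of `E` has dimension at most one: otherwise `RankLe 1 (pm e P)` (with the subspace
`ker E`: for an integer vector `c ∈ ker E` the monomial `mon (pm e P) c = mon P (∑ c i e i)`, see
`mon_pm`, is a root of unity). As `ℚ^5 / U` has dimension at most two, `E` is surjective and its kernel
has dimension exactly one; let `a' ≠ 0` be a generator and `a = a' / |a'|` (Euclidean length), a real vector.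
(2) Choose rational `A' j i` with `E (A' j ·) =` class of the `j`-th unit vector, and let
`A j i = A' j i - (∑ k, A' j k * a k) * a i` (real). Then `A j · a = 0`.
(3) For every embedding `σ` the linear form `λ (u) = ∑ u j log ‖σ (P j)‖` on `ℚ^5` vanishes on `U`
(integer vectors of `U`: `‖σ (mon P u)‖ = 1`; then all by clearing denominators). So
`∑ a' i λ (e i) = 0` and `log ‖σ (P j)‖ = ∑ i, A' j i λ (e i) = ∑ i, A j i λ (e i)`, where
`λ (e i) = log ‖mon (cj σ P) (e i)‖ = lg (pm e (cj σ P)) i`.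
(4) Heights: for `u : Fin 5 → ℤ` and every rational vector `c` with `u - ∑ c i e i ∈ U`, with a common
denominator `m > 0`: `mon P (m u) = ζ ∏ y i ^ (m c i)`, so `m h (mon P u) ≤ ∑ |m c i| h (y i)`
(`h (x^n) = |n| h(x)`, `h (x y) ≤ h x + h y`, roots of unity have height zero and do not change heights),
`h (mon P u) ≤ ∑ |c i| h (y i)`. The vectors `c = u A' + t a'`, `t ∈ ℚ`, are allowed; by continuity in
`t` (`t → ` the real number with `u A' + t a' = u A`) the inequality holds for `c = vec A u`. -/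
theorem exists_mat {K : Type} [Field K] [NumberField K] (P : Fin 5 → K) (hP : ∀ i, P i ≠ 0)
    (e : Fin 3 → Fin 5 → ℤ) (h2 : LThree.RankLe 2 P) (h1 : ¬ LThree.RankLe 1 (pm e P)) :
    ∃ (a : Fin 3 → ℝ) (A : Fin 5 → Fin 3 → ℝ), ∑ i, a i ^ 2 = 1 ∧
      (∀ j, ∑ i, A j i * a i = 0) ∧
      (∀ σ : K →+* ℂ, ∑ i, a i * lg (pm e (cj σ P)) i = 0) ∧
      (∀ (σ : K →+* ℂ) (j : Fin 5),
        Real.log ‖σ (P j)‖ = ∑ i, A j i * lg (pm e (cj σ P)) i) ∧
      ∀ u : Fin 5 → ℤ, logHeight₁ (mon P u) ≤ ∑ i, |vec A u i| * logHeight₁ (mon P (e i)) := by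
  classical
  obtain ⟨U, hU, hrel0⟩ := h2
  rw [Fintype.card_fin] at hU
  have hrel : ∀ a : Fin 5 → ℤ, cst a ∈ U → ∃ m : ℕ, 0 < m ∧ mon P a ^ m = 1 :=
    fun a ha => hrel0 a ha
  set E : (Fin 3 → ℚ) →ₗ[ℚ] ((Fin 5 → ℚ) ⧸ U) := U.mkQ ∘ₗ psiQ e with hE
  have hEmem : ∀ c : Fin 3 → ℚ, E c = 0 ↔ psiQ e c ∈ U := by
    intro c
    rw [hE, LinearMap.comp_apply, Submodule.mkQ_apply, Submodule.Quotient.mk_eq_zero]
  -- the kernel has dimension at most one
  have hker : finrank ℚ (LinearMap.ker E) ≤ 1 := by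
    by_contra hcon
    push Not at hcon
    apply h1
    refine ⟨LinearMap.ker E, by rw [Fintype.card_fin]; omega, fun a ha => ?_⟩
    have h3 : psiQ e (cst a) ∈ U := by
      rw [← hEmem]
      exact ha
    rw [psiQ_cst] at h3
    obtain ⟨m, hm0, hm⟩ := hrel _ h3
    refine ⟨m, hm0, ?_⟩
    have h4 := mon_pm e hP a
    rw [← h4] at hm
    exact hm
  have hquot : finrank ℚ ((Fin 5 → ℚ) ⧸ U) ≤ 2 := by
    have h3 := Submodule.finrank_quotient_add_finrank U
    rw [Module.finrank_fin_fun] at h3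
    omega
  have hrn := LinearMap.finrank_range_add_finrank_ker E
  rw [Module.finrank_fin_fun] at hrn
  have hrange := Submodule.finrank_le (LinearMap.range E)
  have hk1 : finrank ℚ (LinearMap.ker E) = 1 := by omega
  have hr2 : finrank ℚ (LinearMap.range E) = finrank ℚ ((Fin 5 → ℚ) ⧸ U) := by omega
  have hsurj : Function.Surjective E := by
    rw [← LinearMap.range_eq_top]
    exact Submodule.eq_top_of_finrank_eq hr2
  obtain ⟨a', ha'E, ha'0⟩ : ∃ a' : Fin 3 → ℚ, psiQ e a' ∈ U ∧ a' ≠ 0 := by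
    have hne : LinearMap.ker E ≠ ⊥ := by
      intro h
      rw [h, finrank_bot] at hk1
      exact zero_ne_one hk1
    obtain ⟨x, hx, hx0⟩ := Submodule.exists_mem_ne_zero_of_ne_bot hne
    exact ⟨x, (hEmem x).1 hx, hx0⟩
  have hA' : ∀ j : Fin 5, ∃ c : Fin 3 → ℚ, E c = U.mkQ (Pi.single j 1) := fun j => hsurj _
  choose A' hA' using hA'
  have hA'U : ∀ j, (Pi.single j 1 : Fin 5 → ℚ) - psiQ e (A' j) ∈ U := by
    intro j
    have h3 := hA' j
    rw [hE, LinearMap.comp_apply, Submodule.mkQ_apply, Submodule.mkQ_apply] at h3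
    have h4 := (Submodule.Quotient.eq U).1 h3.symm
    exact h4
  -- the norm
  obtain ⟨N2, hN2⟩ : ∃ N2 : ℝ, N2 = ∑ i, (a' i : ℝ) ^ 2 := ⟨_, rfl⟩
  have hN2pos : 0 < N2 := by
    obtain ⟨i, hi⟩ := Function.ne_iff.1 ha'0
    rw [hN2]
    refine Finset.sum_pos' (fun i _ => sq_nonneg _) ⟨i, Finset.mem_univ i, ?_⟩
    have h3 : ((a' i : ℚ) : ℝ) ≠ 0 := by exact_mod_cast hi
    positivity
  obtain ⟨s, hs⟩ : ∃ s : ℝ, s = Real.sqrt N2 := ⟨_, rfl⟩
  have hspos : 0 < s := by rw [hs]; exact Real.sqrt_pos.2 hN2pos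
  have hs2 : s ^ 2 = N2 := by rw [hs]; exact Real.sq_sqrt hN2pos.le
  obtain ⟨a, ha⟩ : ∃ a : Fin 3 → ℝ, a = fun i => (a' i : ℝ) / s := ⟨_, rfl⟩
  have hai : ∀ i, a i = (a' i : ℝ) / s := fun i => by rw [ha]
  have hunit : ∑ i, a i ^ 2 = 1 := by
    simp only [hai, div_pow]
    rw [← Finset.sum_div, ← hN2, hs2, div_self hN2pos.ne']
  obtain ⟨τ, hτ⟩ : ∃ τ : Fin 5 → ℝ, τ = fun j => ∑ k, (A' j k : ℝ) * a k := ⟨_, rfl⟩
  have hτj : ∀ j, τ j = ∑ k, (A' j k : ℝ) * a k := fun j => by rw [hτ]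
  obtain ⟨A, hA⟩ : ∃ A : Fin 5 → Fin 3 → ℝ, A = fun j i => (A' j i : ℝ) - τ j * a i := ⟨_, rfl⟩
  have hAji : ∀ j i, A j i = (A' j i : ℝ) - τ j * a i := fun j i => by rw [hA]
  have hlga : ∀ σ : K →+* ℂ, ∑ i, a i * lg (pm e (cj σ P)) i = 0 := by
    intro σ
    have h3 := lamb_zero σ P hP U hrel _ ha'E
    rw [lamb_psi σ P hP e a'] at h3
    have h4 : ∑ i, a i * lg (pm e (cj σ P)) i =
        (∑ i, (a' i : ℝ) * lg (pm e (cj σ P)) i) / s := by
      rw [Finset.sum_div]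
      refine Finset.sum_congr rfl fun i _ => ?_
      rw [hai]
      ring
    rw [h4, h3, zero_div]
  refine ⟨a, A, hunit, ?_, hlga, ?_, ?_⟩
  · intro j
    simp only [hAji, sub_mul]
    rw [Finset.sum_sub_distrib]
    have h3 : ∑ i, τ j * a i * a i = τ j * ∑ i, a i ^ 2 := by
      rw [Finset.mul_sum]
      exact Finset.sum_congr rfl fun i _ => by ring
    rw [h3, hunit, mul_one, ← hτj, sub_self]
  · intro σ j
    have h3 := lamb_zero σ P hP U hrel _ (hA'U j)
    rw [lamb_sub, lamb_psi σ P hP e (A' j)] at h3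
    have h4 : lamb σ P (Pi.single j 1) = Real.log ‖σ (P j)‖ := by
      unfold lamb
      rw [Finset.sum_eq_single j]
      · simp
      · intro b _ hb
        simp [hb]
      · simp
    rw [h4] at h3
    have h5 : ∑ i, A j i * lg (pm e (cj σ P)) i =
        ∑ i, (A' j i : ℝ) * lg (pm e (cj σ P)) i - τ j * ∑ i, a i * lg (pm e (cj σ P)) i := by
      rw [Finset.mul_sum, ← Finset.sum_sub_distrib]
      refine Finset.sum_congr rfl fun i _ => ?_
      rw [hAji]
      ring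
    rw [h5, hlga, mul_zero, sub_zero]
    linarith
  · intro u
    obtain ⟨c0, hc0⟩ : ∃ c0 : Fin 3 → ℚ, c0 = ∑ j, (u j : ℚ) • A' j := ⟨_, rfl⟩
    have hc0i : ∀ i, (c0 i : ℝ) = ∑ j, (u j : ℝ) * (A' j i : ℝ) := by
      intro i
      rw [hc0, Finset.sum_apply]
      push_cast
      refine Finset.sum_congr rfl fun j _ => ?_
      rw [Pi.smul_apply, smul_eq_mul]
      push_cast
      ring
    have hcU : cst u - psiQ e c0 ∈ U := by
      have h3 : cst u - psiQ e c0 =
          ∑ j, (u j : ℚ) • ((Pi.single j 1 : Fin 5 → ℚ) - psiQ e (A' j)) := by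
        have h4 : cst u = ∑ j, (u j : ℚ) • (Pi.single j 1 : Fin 5 → ℚ) := by
          funext k
          rw [Finset.sum_apply, Finset.sum_eq_single k]
          · simp [cst_apply]
          · intro b _ hb
            simp [hb.symm]
          · simp
        rw [h4, hc0, map_sum, ← Finset.sum_sub_distrib]
        refine Finset.sum_congr rfl fun j _ => ?_
        rw [map_smul, smul_sub]
      rw [h3]
      exact Submodule.sum_mem _ fun j _ => Submodule.smul_mem _ _ (hA'U j)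
    have hall : ∀ t : ℝ, logHeight₁ (mon P u) ≤
        ∑ i, |(c0 i : ℝ) - t * (a' i : ℝ)| * logHeight₁ (mon P (e i)) := by
      intro t
      have hcl : IsClosed {t : ℝ | logHeight₁ (mon P u) ≤
          ∑ i, |(c0 i : ℝ) - t * (a' i : ℝ)| * logHeight₁ (mon P (e i))} :=
        isClosed_le continuous_const (by fun_prop)
      refine Rat.denseRange_cast.induction_on (p := fun t : ℝ => logHeight₁ (mon P u) ≤
          ∑ i, |(c0 i : ℝ) - t * (a' i : ℝ)| * logHeight₁ (mon P (e i))) t hcl fun q => ?_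
      have h3 := bm_ht P hP e U hrel u (c0 - q • a') (by
        rw [map_sub, map_smul]
        have h4 : cst u - (psiQ e c0 - q • psiQ e a') = (cst u - psiQ e c0) + q • psiQ e a' := by
          abel
        rw [h4]
        exact U.add_mem hcU (U.smul_mem _ ha'E))
      refine h3.trans (le_of_eq ?_)
      refine Finset.sum_congr rfl fun i _ => ?_
      rw [Pi.sub_apply, Pi.smul_apply, smul_eq_mul]
      push_cast
      rfl
    obtain ⟨T, hT⟩ : ∃ T : ℝ, T = ∑ j, (u j : ℝ) * τ j := ⟨_, rfl⟩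
    refine (hall (T / s)).trans (le_of_eq ?_)
    refine Finset.sum_congr rfl fun i _ => ?_
    congr 2
    unfold vec
    simp only [hAji, mul_sub]
    rw [Finset.sum_sub_distrib, ← hc0i, hT, Finset.sum_div, Finset.sum_mul]
    congr 1
    refine Finset.sum_congr rfl fun j _ => ?_
    rw [hai]
    ring

end Pool.Agent.Srf5F
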