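import Pool.Agent.Srf5F.BDefs
import Pool.Agent.RelC.North
import Pool.Agent.Leh2.HtExt

set_option autoImplicit false

/-! Northcott's theorem in the form of one polynomial. -/

namespace Pool.Agent.Srf5F

open Module Height NumberField

/-- Proof. Let `L = ℚ(x) ≤ K` (`IntermediateField.adjoin`), `x' : L` the generator:
`finrank ℚ L = natDegree (minpoly ℚ x) ≤ N` and `logHeight₁ x = [K : L] logHeight₁ x'` (base change for
the height: search for it in the pool, for example `Leh2.nh`, `MinHt/North.lean`, `CITNF`,
`RelC/Alg.lean`, `L3S/Bdd.lean`), so `logHeight₁ x' ≤ M [L : ℚ] ≤ M N`. `RelC.northcott N (M N)` gives a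
finite set `Z ⊆ ℂ` which contains all the conjugates of `x'`. Every element of `Z` is transcendental or a root of
its minimal polynomial over `ℚ`; let `q` be the product of the minimal polynomials (or of `minpoly ℚ z`, which is
`0` for transcendental `z`: leave these out) of the algebraic elements of `Z`. `q ≠ 0` and `q (σ x) = 0`
for one embedding `σ`, so `q (x) = 0`. -/
theorem north_poly (N : ℕ) (M : ℝ) : ∃ q : Polynomial ℚ, q ≠ 0 ∧
    ∀ (K : Type) [Field K] [NumberField K] (x : K), (minpoly ℚ x).natDegree ≤ N →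
      logHeight₁ x ≤ M * finrank ℚ K → Polynomial.aeval x q = 0 := by
  classical
  obtain ⟨Z, hZ, hZK⟩ := RelC.northcott N (max M 0 * N)
  have hZ' : (Z ∩ {z | IsAlgebraic ℚ z}).Finite := hZ.inter_of_left _
  refine ⟨∏ z ∈ hZ'.toFinset, minpoly ℚ z, ?_, ?_⟩
  · rw [Finset.prod_ne_zero_iff]
    intro z hz
    rw [Set.Finite.mem_toFinset] at hz
    exact minpoly.ne_zero hz.2.isIntegral
  · intro K _ _ x hx hh
    let L : IntermediateField ℚ K := IntermediateField.adjoin ℚ {x}
    have hxi : IsIntegral ℚ x := (Algebra.IsAlgebraic.isAlgebraic (R := ℚ) x).isIntegral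
    have hL : finrank ℚ L = (minpoly ℚ x).natDegree :=
      IntermediateField.adjoin.finrank hxi
    let x' : L := ⟨x, IntermediateField.mem_adjoin_simple_self ℚ x⟩
    have hx' : algebraMap L K x' = x := rfl
    have hnh : Leh2.nh x = Leh2.nh x' := by
      rw [← hx']
      exact Leh2.nh_algebraMap x'
    have hK0 : (0 : ℝ) < finrank ℚ K := by exact_mod_cast finrank_pos
    have hL0 : (0 : ℝ) < finrank ℚ L := by exact_mod_cast finrank_pos
    have h1 : Leh2.nh x' ≤ M := by
      rw [← hnh, Leh2.nh, div_le_iff₀ hK0]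
      exact hh
    have h2 : logHeight₁ x' ≤ max M 0 * N := by
      rw [Leh2.nh, div_le_iff₀ hL0] at h1
      calc logHeight₁ x' ≤ M * finrank ℚ L := h1
        _ ≤ max M 0 * finrank ℚ L :=
            mul_le_mul_of_nonneg_right (le_max_left _ _) hL0.le
        _ ≤ max M 0 * N := by
            apply mul_le_mul_of_nonneg_left _ (le_max_right _ _)
            rw [hL]
            exact_mod_cast hx
    let σ : K →+* ℂ := Classical.arbitrary (K →+* ℂ)
    have h3 := hZK L (by rw [hL]; exact hx) x' h2 (σ.comp (algebraMap L K))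
    have h4 : (σ.comp (algebraMap L K)) x' = σ x := rfl
    rw [h4] at h3
    have halg : IsAlgebraic ℚ (σ x) := by
      have := (Algebra.IsAlgebraic.isAlgebraic (R := ℚ) x)
      obtain ⟨p, hp, hpx⟩ := this
      refine ⟨p, hp, ?_⟩
      have h5 : σ (Polynomial.aeval x p) = Polynomial.aeval (σ x) p := by
        rw [Polynomial.aeval_def, Polynomial.aeval_def, Polynomial.hom_eval₂]
        congr 1
        exact Subsingleton.elim _ _
      rw [← h5, hpx, map_zero]
    have hmem : σ x ∈ hZ'.toFinset := by
      rw [Set.Finite.mem_toFinset]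
      exact ⟨h3, halg⟩
    apply σ.injective
    rw [map_zero]
    have h5 : ∀ p : Polynomial ℚ, σ (Polynomial.aeval x p) = Polynomial.aeval (σ x) p := by
      intro p
      rw [Polynomial.aeval_def, Polynomial.aeval_def, Polynomial.hom_eval₂]
      congr 1
      exact Subsingleton.elim _ _
    rw [h5, map_prod]
    exact Finset.prod_eq_zero hmem (minpoly.aeval ℚ (σ x))

end Pool.Agent.Srf5F
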