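import Pool.Agent.Srf5F.BDefs
import Pool.Agent.Srf5.ALau

set_option autoImplicit false

/-! The equation of the surface as a relation between monomials with coefficients which are
polynomials in the monomial `e 0`. -/

namespace Pool.Agent.Srf5F

open MvPolynomial Module Pool.Agent.CITLines Pool.Agent.Srf5

/-- Two further exponents, independent of the given ones. -/
private theorem brel_ext {e : Fin 3 → Fin 5 → ℤ} (h : LinearIndependent ℤ e) :
    ∃ d1 d2 : Fin 5 → ℤ, ∀ a b c α β : ℤ,
      a • e 0 + b • e 1 + c • e 2 + α • d1 + β • d2 = 0 →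
      a = 0 ∧ b = 0 ∧ c = 0 ∧ α = 0 ∧ β = 0 := by
  have hr : finrank ℤ (Fin 5 → ℤ) = 5 := by simp
  obtain ⟨d1, h1⟩ := exists_linearIndependent_snoc_of_lt_finrank h (by rw [hr]; norm_num)
  obtain ⟨d2, h2⟩ := exists_linearIndependent_snoc_of_lt_finrank h1 (by rw [hr]; norm_num)
  refine ⟨d1, d2, fun a b c α β h0 => ?_⟩
  rw [Fintype.linearIndependent_iff] at h2
  have h3 := h2 (Fin.snoc (Fin.snoc ![a, b, c] α : Fin 4 → ℤ) β) (by
    rw [Fin.sum_univ_castSucc, Fin.sum_univ_castSucc, Fin.sum_univ_three]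
    simp only [Fin.snoc_castSucc, Fin.snoc_last]
    exact h0)
  have e1 := h3 (Fin.castSucc (Fin.castSucc 0))
  have e2 := h3 (Fin.castSucc (Fin.castSucc 1))
  have e3 := h3 (Fin.castSucc (Fin.castSucc 2))
  have e4 := h3 (Fin.castSucc (Fin.last 3))
  have e5 := h3 (Fin.last 4)
  rw [Fin.snoc_castSucc, Fin.snoc_castSucc] at e1 e2 e3
  rw [Fin.snoc_castSucc, Fin.snoc_last] at e4
  rw [Fin.snoc_last] at e5
  exact ⟨e1, e2, e3, e4, e5⟩

/-- The exponent of a monomial. -/
private def brel_phi (d1 d2 : Fin 5 → ℤ) (m : Fin 3 →₀ ℕ) : Fin 5 → ℤ :=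
  (m 1 : ℤ) • d1 + (m 2 : ℤ) • d2

/-- The exponents. -/
private noncomputable def brel_S (d1 d2 : Fin 5 → ℤ) (f : MvPolynomial (Fin 3) ℚ) :
    Finset (Fin 5 → ℤ) := f.support.image (brel_phi d1 d2)

/-- The coefficients. -/
private noncomputable def brel_p (d1 d2 : Fin 5 → ℤ) (f : MvPolynomial (Fin 3) ℚ)
    (s : Fin 5 → ℤ) : Polynomial ℚ :=
  ∑ m ∈ f.support.filter (fun m => brel_phi d1 d2 m = s), Polynomial.monomial (m 0) (f.coeff m)

private theorem brel_sum {K : Type} [Field K] [CharZero K] {P : Fin 5 → K} (hP : ∀ i, P i ≠ 0)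
    (e0 d1 d2 : Fin 5 → ℤ) (f : MvPolynomial (Fin 3) ℚ) :
    aeval (fun j => mon P (![e0, d1, d2] j)) f =
      ∑ s ∈ brel_S d1 d2 f, Polynomial.aeval (mon P e0) (brel_p d1 d2 f s) * mon P s := by
  have h1 : ∀ s ∈ brel_S d1 d2 f, Polynomial.aeval (mon P e0) (brel_p d1 d2 f s) * mon P s =
      ∑ m ∈ f.support.filter (fun m => brel_phi d1 d2 m = s),
        algebraMap ℚ K (f.coeff m) * (mon P e0 ^ m 0 * (mon P d1 ^ m 1 * mon P d2 ^ m 2)) := by
    intro s _
    unfold brel_p
    rw [map_sum, Finset.sum_mul]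
    refine Finset.sum_congr rfl fun m hm => ?_
    rw [Polynomial.aeval_monomial, ← (Finset.mem_filter.1 hm).2]
    unfold brel_phi
    rw [mon_add' hP, mon_smul, mon_smul, zpow_natCast, zpow_natCast]
    ring
  have h2 : ∀ m ∈ f.support, brel_phi d1 d2 m ∈ brel_S d1 d2 f := fun m hm =>
    Finset.mem_image_of_mem _ hm
  rw [Finset.sum_congr rfl h1, Finset.sum_fiberwise_of_maps_to h2, MvPolynomial.aeval_def,
    MvPolynomial.eval₂_eq']
  refine Finset.sum_congr rfl fun m _ => ?_
  rw [Fin.prod_univ_three]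
  simp only [Matrix.cons_val_zero, Matrix.cons_val_one, Matrix.cons_val]
  ring

/-- **The relation.**

Proof. Choose `d1, d2 : Fin 5 → ℤ` with `e 0, e 1, e 2, d1, d2` linearly independent over `ℤ` (extend
the independent vectors `cst (e i)` of `ℚ^5` by two vectors of the standard basis). The three elements
`mon w (e 0), mon w d1, mon w d2` are algebraically dependent over `ℚ` because `dm (kr ℚ w) = 2` (the
monomials are in the field generated by the `w i`, of transcendence degree two: see `rk`, `dm`,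
`isAlgebraic_mon`, `rk_pm_le`, `Srf5.DepTr`, `Srf5.ADep`). So there is a nonzero polynomial `Q` in
three variables over `ℚ` with `Q (mon w (e 0), mon w d1, mon w d2) = 0`. Write `Q` as a polynomial in the
last two variables with coefficients `q_α` in `ℚ[T]`, `α ∈ ℕ × ℕ`; let `S` be the set of the exponents
`α_1 d1 + α_2 d2` with `q_α ≠ 0` (different `α` have different exponents) and `p` the coefficients. For
`s ≠ t` in `S` the difference `s - t = (α_1 - β_1) d1 + (α_2 - β_2) d2` is independent of `e 0, e 1, e 2`.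
`S` is not empty, and it has at least two elements: if `S = {s}` then `q_α (mon w (e 0)) * mon w s = 0`
with `mon w s ≠ 0`, so `mon w (e 0)` is algebraic, a contradiction to `hF.trans` (`e 0 ≠ 0`).
The relation passes to the points `P` by `spec` (for the exponents `![e 0, d1, d2]` and `Q`). -/
theorem rel_supp {F : Type} [Field F] [CharZero F] {w : Fin 5 → F} {e : Fin 3 → Fin 5 → ℤ}
    (hF : Fib w e) : ∃ (S : Finset (Fin 5 → ℤ)) (p : (Fin 5 → ℤ) → Polynomial ℚ), 2 ≤ S.card ∧
      (∀ s ∈ S, p s ≠ 0) ∧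
      (∀ s ∈ S, ∀ t ∈ S, s ≠ t → LinearIndependent ℤ ![e 0, e 1, e 2, s - t]) ∧
      ∀ (K : Type) [Field K] [CharZero K] (P : Fin 5 → K), (∀ i, P i ≠ 0) → kr ℚ w ≤ kr ℚ P →
        ∑ s ∈ S, Polynomial.aeval (mon P (e 0)) (p s) * mon P s = 0 := by
  classical
  obtain ⟨d1, d2, hd⟩ := brel_ext hF.ind
  -- the three monomials are dependent
  have hdep : ¬ AlgebraicIndependent ℚ (fun j => mon w (![e 0, d1, d2] j)) := by
    intro hind
    have h1 := rk_range_of_indep _ hind
    have h2 : rk ℚ (Set.range fun j => mon w (![e 0, d1, d2] j)) ≤ rk ℚ (Set.range w) :=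
      rk_pm_le w ![e 0, d1, d2]
    rw [h1, ← dm_kr, hF.dim] at h2
    have h3 : (3 : ℕ) ≤ 2 := by exact_mod_cast h2
    omega
  rw [algebraicIndependent_iff] at hdep
  push Not at hdep
  obtain ⟨f, hf, hf0⟩ := hdep
  -- different monomials have different exponents
  have hinj : ∀ m m' : Fin 3 →₀ ℕ, brel_phi d1 d2 m = brel_phi d1 d2 m' → m 1 = m' 1 ∧
      m 2 = m' 2 := by
    intro m m' h
    have h1 := hd 0 0 0 ((m 1 : ℤ) - m' 1) ((m 2 : ℤ) - m' 2) (by
      have h2 := sub_eq_zero.2 h
      unfold brel_phi at h2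
      rw [← h2]
      module)
    obtain ⟨-, -, -, h2, h3⟩ := h1
    constructor <;> omega
  have hp : ∀ s ∈ brel_S d1 d2 f, brel_p d1 d2 f s ≠ 0 := by
    intro s hs
    obtain ⟨m0, hm0, rfl⟩ := Finset.mem_image.1 hs
    intro h0
    have h1 := congrArg (fun q => Polynomial.coeff q (m0 0)) h0
    simp only [brel_p, Polynomial.finsetSum_coeff, Polynomial.coeff_zero,
      Polynomial.coeff_monomial] at h1
    rw [Finset.sum_eq_single m0] at h1
    · rw [if_pos rfl] at h1
      exact (mem_support_iff.1 hm0) h1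
    · intro m hm hne
      rw [if_neg]
      intro h2
      obtain ⟨h3, h4⟩ := hinj m m0 (Finset.mem_filter.1 hm).2
      refine hne (Finsupp.ext fun i => ?_)
      fin_cases i
      · exact h2
      · exact h3
      · exact h4
    · intro h2
      exact (h2 (Finset.mem_filter.2 ⟨hm0, rfl⟩)).elim
  refine ⟨brel_S d1 d2 f, brel_p d1 d2 f, ?_, hp, ?_, ?_⟩
  · have h1 : (brel_S d1 d2 f).Nonempty :=
      Finset.Nonempty.image (MvPolynomial.support_nonempty.2 hf0) _
    by_contra h2
    have h3 : (brel_S d1 d2 f).card = 1 := by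
      have := h1.card_pos
      omega
    obtain ⟨s, hs⟩ := Finset.card_eq_one.1 h3
    have h4 := brel_sum hF.ne (e 0) d1 d2 f
    rw [hf, hs, Finset.sum_singleton] at h4
    have h5 : mon w s ≠ 0 := Finset.prod_ne_zero_iff.2 fun i _ => zpow_ne_zero _ (hF.ne i)
    have h6 := (mul_eq_zero.1 h4.symm).resolve_right h5
    exact hF.trans (e 0) (hF.ind.ne_zero 0)
      ⟨brel_p d1 d2 f s, hp s (by rw [hs]; exact Finset.mem_singleton_self s), h6⟩
  · intro s hs t ht hst
    obtain ⟨m, -, rfl⟩ := Finset.mem_image.1 hs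
    obtain ⟨m', -, rfl⟩ := Finset.mem_image.1 ht
    rw [Fintype.linearIndependent_iff]
    intro g hg
    rw [Fin.sum_univ_four] at hg
    simp only [Matrix.cons_val_zero, Matrix.cons_val_one, Matrix.cons_val] at hg
    obtain ⟨g0, g1, g2, g3, g4⟩ := hd (g 0) (g 1) (g 2) (g 3 * ((m 1 : ℤ) - m' 1))
      (g 3 * ((m 2 : ℤ) - m' 2)) (by
        unfold brel_phi at hg
        rw [← hg]
        module)
    have g5 : g 3 = 0 := by
      by_contra h3
      have h4 : m 1 = m' 1 := by
        have := (mul_eq_zero.1 g3).resolve_left h3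
        omega
      have h5 : m 2 = m' 2 := by
        have := (mul_eq_zero.1 g4).resolve_left h3
        omega
      refine hst ?_
      unfold brel_phi
      rw [h4, h5]
    intro i
    fin_cases i
    · exact g0
    · exact g1
    · exact g2
    · exact g5
  · intro K _ _ P hP hle
    rw [← brel_sum hP]
    exact spec hF.ne hP hle _ f hf

end Pool.Agent.Srf5F
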