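import Pool.Agent.Srf5F.BFib
import Pool.Agent.Srf5F.BRel
import Pool.Agent.Srf5F.BMat
import Pool.Agent.Srf5F.BCpct
import Pool.Agent.Srf5F.BNorth

set_option autoImplicit false

/-! Bounded height on fibred surfaces, outside a curve. -/

namespace Pool.Agent.Srf5F

open MvPolynomial Module Height NumberField Pool.Agent.CITLines Pool.Agent.Srf5

/-- **Bounded height on a fibred surface, outside a curve** (the two facts on the curve `C'` are
hypotheses here).

Proof. `rel_supp` gives `S, p`. For every pair `s ≠ t` of `S`: `¬ Dep ℚ w (e 0) (s - t)` (`hF.indep`), so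
`pair_bdd` gives a constant and a polynomial. `h2` gives `B1, g1` with `g1 ∉ kr ℚ (pm e w)`, `h1` gives `g2`;
`lau` (with `a = e`) transports `g1, g2` to polynomials in five variables; `lau_one` (with `a = e 0`) does this
for the `p s` and `G`. Let `M` be the maximum of all the constants (and `1`). `degree_bdd` gives `N`, then
`north_poly N M` gives `q`, transported by `lau_one` too. Let `g` be the product of all these
polynomials (`kr ℚ w` is prime). Let `P` be a point with `aeval P g ≠ 0`. The point `y = pm e P` lies on `pm e w`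
(`kr_pm_le`), has rank at most two (`rank_pm`), and not rank one (`h1`, `g2`). `exists_mat` gives `a, A`, and
`Pt w e G M S p P a A` holds. If `N ≤ ‖A‖` then `degree_bdd` and `north_poly` give `q (y 0) = 0`, excluded. So
`‖A‖ < N` and `h (P j) ≤ ∑ i, |A j i| h (y i) ≤ 3 N M D` (`ht` for the unit vector), the sum over `j` is at most
`15 N M D`. -/
theorem bdd_fib' {F : Type} [Field F] [CharZero F] {w : Fin 5 → F} {e : Fin 3 → Fin 5 → ℤ}
    {C : Set (Fin 3 → ℂ)} {G : Polynomial ℚ} {κ : ℝ} (hF : Fib w e) (hA : Arch w e C G κ)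
    (h2 : ∃ (B : ℝ) (g : MvPolynomial (Fin 3) ℚ), g ∉ kr ℚ (pm e w) ∧
      ∀ (K : Type) [Field K] [NumberField K] (y : Fin 3 → K), (∀ i, y i ≠ 0) →
        kr ℚ (pm e w) ≤ kr ℚ y → LThree.RankLe 2 y → aeval y g ≠ 0 →
        ∑ i, logHeight₁ (y i) ≤ B * finrank ℚ K)
    (h1 : ∃ g : MvPolynomial (Fin 3) ℚ, g ∉ kr ℚ (pm e w) ∧
      ∀ (K : Type) [Field K] [NumberField K] (y : Fin 3 → K), (∀ i, y i ≠ 0) →
        kr ℚ (pm e w) ≤ kr ℚ y → LThree.RankLe 1 y → aeval y g = 0) :
    ∃ (B : ℝ) (g : MvPolynomial (Fin 5) ℚ), g ∉ kr ℚ w ∧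
      ∀ (K : Type) [Field K] [NumberField K] (P : Fin 5 → K), (∀ i, P i ≠ 0) →
        kr ℚ w ≤ kr ℚ P → LThree.RankLe 2 P → aeval P g ≠ 0 →
        ∑ i, logHeight₁ (P i) ≤ B * finrank ℚ K := by
  classical
  have hw := hF.ne
  have he0 : Transcendental ℚ (mon w (e 0)) := hF.trans (e 0) (hF.ind.ne_zero 0)
  obtain ⟨S, p, hS, hp0, hSind, hrel⟩ := rel_supp hF
  -- the pairs
  have hpair : ∀ q : (Fin 5 → ℤ) × (Fin 5 → ℤ), ∃ (C : ℝ) (g : MvPolynomial (Fin 5) ℚ), 0 ≤ C ∧
      g ∉ kr ℚ w ∧ (q.1 ∈ S → q.2 ∈ S → q.1 ≠ q.2 →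
      ∀ (K : Type) [Field K] [NumberField K] (P : Fin 5 → K), (∀ i, P i ≠ 0) →
        kr ℚ w ≤ kr ℚ P → aeval P g ≠ 0 → ∀ i, logHeight₁ (P i) ≤
          C * (logHeight₁ (mon P (e 0)) + logHeight₁ (mon P (q.1 - q.2)) + finrank ℚ K)) := by
    intro q
    by_cases hq : q.1 ∈ S ∧ q.2 ∈ S ∧ q.1 ≠ q.2
    · obtain ⟨C, g, hC, hg, h⟩ := pair_bdd w hw hF.dim (e 0) (q.1 - q.2)
        (hF.indep _ (hSind _ hq.1 _ hq.2.1 hq.2.2))
      exact ⟨C, g, hC, hg, fun _ _ _ => h⟩
    · refine ⟨0, 1, le_rfl, ?_, fun a b c => absurd ⟨a, b, c⟩ hq⟩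
      rw [mem_kr, map_one]
      exact one_ne_zero
  choose cq gq hcq hgq hq using hpair
  -- the coefficients
  have hcoef : ∀ s : Fin 5 → ℤ, ∃ g : MvPolynomial (Fin 5) ℚ, g ∉ kr ℚ w ∧ (s ∈ S →
      ∀ (K : Type) [Field K] [CharZero K] (P : Fin 5 → K), (∀ i, P i ≠ 0) → aeval P g ≠ 0 →
        Polynomial.aeval (mon P (e 0)) (p s) ≠ 0) := by
    intro s
    by_cases hs : s ∈ S
    · obtain ⟨g, hg, h⟩ := lau_one w hw (e 0) he0 (p s) (hp0 s hs)
      exact ⟨g, hg, fun _ => h⟩
    · refine ⟨1, ?_, fun a => absurd a hs⟩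
      rw [mem_kr, map_one]
      exact one_ne_zero
  choose gp hgp hp using hcoef
  obtain ⟨gG, hgG, hG⟩ := lau_one w hw (e 0) he0 G hA.G0
  obtain ⟨B1, f1, hf1, hB1⟩ := h2
  obtain ⟨f2, hf2, hB2⟩ := h1
  obtain ⟨g1, hg1, h1⟩ := lau w hw e f1 (fun h => hf1 (mem_kr.mpr h))
  obtain ⟨g2, hg2, h2⟩ := lau w hw e f2 (fun h => hf2 (mem_kr.mpr h))
  set M : ℝ := max 1 (max B1 (∑ q ∈ S ×ˢ S, cq q)) with hMdef
  have hM1 : 1 ≤ M := le_max_left _ _
  have hMB : B1 ≤ M := (le_max_left _ _).trans (le_max_right _ _)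
  have hMc : ∀ s ∈ S, ∀ t ∈ S, cq (s, t) ≤ M := by
    intro s hs t ht
    refine le_trans ?_ ((le_max_right _ _).trans (le_max_right _ _))
    exact Finset.single_le_sum (fun q _ => hcq q) (Finset.mk_mem_product hs ht)
  obtain ⟨N, hN⟩ := degree_bdd hA M hM1 S hS p
  obtain ⟨q, hq0, hq1⟩ := north_poly N M
  obtain ⟨g5, hg5, h5⟩ := lau_one w hw (e 0) he0 q hq0
  refine ⟨15 * N * M, g1 * g2 * gG * g5 * (∏ s ∈ S, gp s) * ∏ q ∈ S ×ˢ S, gq q, ?_, ?_⟩
  · rw [mem_kr] at hg1 hg2 hgG hg5 ⊢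
    simp only [mem_kr] at hgp hgq
    rw [map_mul, map_mul, map_mul, map_mul, map_mul, map_prod, map_prod]
    exact mul_ne_zero (mul_ne_zero (mul_ne_zero (mul_ne_zero (mul_ne_zero hg1 hg2) hgG) hg5)
      (Finset.prod_ne_zero_iff.mpr fun s _ => hgp s)) (Finset.prod_ne_zero_iff.mpr fun s _ => hgq s)
  intro K _ _ P hP hle hR hg
  rw [map_mul, map_mul, map_mul, map_mul, map_mul, map_prod, map_prod] at hg
  have a6 := right_ne_zero_of_mul hg
  have hg' := left_ne_zero_of_mul hg
  have a5 := right_ne_zero_of_mul hg'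
  have hg'' := left_ne_zero_of_mul hg'
  have a4 := right_ne_zero_of_mul hg''
  have hg3 := left_ne_zero_of_mul hg''
  have a3 := right_ne_zero_of_mul hg3
  have hg4 := left_ne_zero_of_mul hg3
  have a2 := right_ne_zero_of_mul hg4
  have a1 := left_ne_zero_of_mul hg4
  rw [Finset.prod_ne_zero_iff] at a5 a6
  have hy0 : ∀ i, pm e P i ≠ 0 := pm_ne_zero e hP
  have hyle : kr ℚ (pm e w) ≤ kr ℚ (pm e P) := kr_pm_le hP hle e
  have hyr : LThree.RankLe 2 (pm e P) := rank_pm P hP e hR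
  have hyn : ¬ LThree.RankLe 1 (pm e P) := fun h =>
    h2 K P hP a2 (hB2 K (pm e P) hy0 hyle h)
  have hsum := hB1 K (pm e P) hy0 hyle hyr (h1 K P hP a1)
  have hD : (0 : ℝ) ≤ finrank ℚ K := Nat.cast_nonneg _
  have hy : ∀ i, logHeight₁ (mon P (e i)) ≤ M * finrank ℚ K := by
    intro i
    have b1 : logHeight₁ (pm e P i) ≤ ∑ i, logHeight₁ (pm e P i) :=
      Finset.single_le_sum (f := fun i => logHeight₁ (pm e P i))
        (fun j _ => zero_le_logHeight₁ (pm e P j)) (Finset.mem_univ i)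
    exact (b1.trans hsum).trans (mul_le_mul_of_nonneg_right hMB hD)
  obtain ⟨a, A, hunit, horth, harel, hlgP, hht⟩ := exists_mat P hP e hR hyn
  have hPt : Pt w e G M S p P a A :=
    { ne := hP
      le := hle
      unit := hunit
      orth := horth
      arel := harel
      lgP := hlgP
      ht := hht
      hy := hy
      rel := hrel K P hP hle
      ps := fun s hs => hp s hs K P hP (a5 s hs)
      G0 := hG K P hP a3
      pair := by
        intro s hs t ht hst i
        refine (hq (s, t) hs ht hst K P hP hle (a6 _ (Finset.mk_mem_product hs ht)) i).trans ?_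
        refine mul_le_mul_of_nonneg_right (hMc s hs t ht) ?_
        have c1 := zero_le_logHeight₁ (mon P (e 0))
        have c2 := zero_le_logHeight₁ (mon P (s - t))
        positivity }
  have hAN : ‖A‖ < N := by
    by_contra hcon
    push Not at hcon
    exact h5 K P hP a4 (hq1 K (mon P (e 0)) (hN K P a A hPt hcon) (hy 0))
  have hent : ∀ j i, |A j i| ≤ N := by
    intro j i
    have c1 := norm_le_pi_norm (A j) i
    have c2 := norm_le_pi_norm A j
    rw [Real.norm_eq_abs] at c1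
    exact (c1.trans c2).trans hAN.le
  have hPj : ∀ j, logHeight₁ (P j) ≤ 3 * N * M * finrank ℚ K := by
    intro j
    have c1 := hht (Pi.single j 1)
    have c2 : mon P (Pi.single j 1) = P j := by
      unfold mon
      rw [Finset.prod_eq_single j]
      · rw [Pi.single_eq_same, zpow_one]
      · intro b _ hb
        rw [Pi.single_eq_of_ne hb, zpow_zero]
      · intro h
        exact absurd (Finset.mem_univ j) h
    have c3 : ∀ i, vec A (Pi.single j 1) i = A j i := by
      intro i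
      unfold vec
      rw [Finset.sum_eq_single j]
      · rw [Pi.single_eq_same, Int.cast_one, one_mul]
      · intro b _ hb
        rw [Pi.single_eq_of_ne hb, Int.cast_zero, zero_mul]
      · intro h
        exact absurd (Finset.mem_univ j) h
    rw [c2] at c1
    refine c1.trans ?_
    calc ∑ i, |vec A (Pi.single j 1) i| * logHeight₁ (mon P (e i))
        ≤ ∑ _i : Fin 3, (N : ℝ) * (M * finrank ℚ K) := by
          refine Finset.sum_le_sum fun i _ => ?_
          rw [c3]
          exact mul_le_mul (hent j i) (hy i) (zero_le_logHeight₁ _) (Nat.cast_nonneg _)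
      _ = 3 * N * M * finrank ℚ K := by
          rw [Finset.sum_const, Finset.card_univ, Fintype.card_fin, nsmul_eq_mul]
          push_cast
          ring
  calc ∑ i, logHeight₁ (P i) ≤ ∑ _i : Fin 5, 3 * N * M * (finrank ℚ K : ℝ) :=
        Finset.sum_le_sum fun i _ => hPj i
    _ = 15 * N * M * finrank ℚ K := by
        rw [Finset.sum_const, Finset.card_univ, Fintype.card_fin, nsmul_eq_mul]
        push_cast
        ring

end Pool.Agent.Srf5F
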