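import Pool.Agent.Srf5F.BDefs
import Pool.Agent.Srf5.ARoot
import Pool.Agent.Srf5.ARel2
import Pool.Agent.Srf5.ALau

set_option autoImplicit false

/-! Heights of the coordinates of the points of the surface in terms of two independent monomials;
polynomials in monomials which do not vanish identically. -/

namespace Pool.Agent.Srf5F

open MvPolynomial Module Height NumberField Pool.Agent.CITLines Pool.Agent.Srf5

private theorem mon_single_one {K : Type} [Field K] (w : Fin 5 → K) (i : Fin 5) :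
    mon w (Pi.single i 1) = w i := by
  unfold mon
  rw [Finset.prod_eq_single i]
  · rw [Pi.single_eq_same, zpow_one]
  · intro j _ hj
    rw [Pi.single_eq_of_ne hj, zpow_zero]
  · intro h
    exact absurd (Finset.mem_univ i) h

/-- the relation of `rel_two` as a polynomial in three variables -/
private theorem aeval_three {K : Type} [Field K] [Algebra ℚ K] (w : Fin 5 → K)
    (a b : Fin 5 → ℤ) (i : Fin 5) {J : ℕ} (c : Fin (J + 1) → MvPolynomial (Fin 2) ℚ) :
    aeval (fun r => mon w ((![a, b, Pi.single i 1] : Fin 3 → Fin 5 → ℤ) r))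
      (∑ j, rename Fin.castSucc (c j) * X (Fin.last 2) ^ (j : ℕ) : MvPolynomial (Fin 3) ℚ) =
    ∑ j, aeval (fun r => mon w ((![a, b] : Fin 2 → Fin 5 → ℤ) r)) (c j) * w i ^ (j : ℕ) := by
  rw [map_sum]
  refine Finset.sum_congr rfl fun j _ => ?_
  rw [map_mul, map_pow, aeval_X, aeval_rename]
  congr 1
  · congr 2
    funext r
    fin_cases r <;> rfl
  · congr 1
    exact mon_single_one w i

/-- One coordinate. -/
private theorem pair_one {F : Type} [Field F] [CharZero F] (w : Fin 5 → F)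
    (hw : ∀ i, w i ≠ 0) {M : ℕ} (a b : Fin 5 → ℤ) (i : Fin 5) (hM :
      ∃ (J : ℕ) (c : Fin (J + 1) → MvPolynomial (Fin 2) ℚ),
        (∀ j, degreeOf 0 (c j) ≤ M * LThree.nrm b ∧ degreeOf 1 (c j) ≤ M * LThree.nrm a) ∧
        aeval (fun r => mon w (![a, b] r)) (c (Fin.last J)) ≠ 0 ∧
        ∑ j, aeval (fun r => mon w (![a, b] r)) (c j) * w i ^ (j : ℕ) = 0) :
    ∃ (C : ℝ) (g : MvPolynomial (Fin 5) ℚ), 0 ≤ C ∧ g ∉ kr ℚ w ∧
      ∀ (K : Type) [Field K] [NumberField K] (P : Fin 5 → K), (∀ i, P i ≠ 0) →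
        kr ℚ w ≤ kr ℚ P → aeval P g ≠ 0 → logHeight₁ (P i) ≤
          (M * LThree.nrm b : ℝ) * logHeight₁ (mon P a) +
            (M * LThree.nrm a : ℝ) * logHeight₁ (mon P b) + C * finrank ℚ K := by
  obtain ⟨J, c, hdeg, hlast, hrel⟩ := hM
  obtain ⟨C, hC0, hC⟩ := height_root c ![M * LThree.nrm b, M * LThree.nrm a] (by
    intro j r
    fin_cases r
    · exact (hdeg j).1
    · exact (hdeg j).2)
  obtain ⟨g, L, hg⟩ := laurent (![a, b] : Fin 2 → Fin 5 → ℤ) (c (Fin.last J))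
  refine ⟨C, g, hC0, ?_, fun K _ _ P hP hker hgP => ?_⟩
  · rw [mem_kr, hg F w hw]
    exact mul_ne_zero (pow_ne_zero _ (Finset.prod_ne_zero_iff.mpr fun i _ => hw i)) hlast
  · rw [hg K P hP] at hgP
    have h1 : aeval (fun j => mon P ((![a, b] : Fin 2 → Fin 5 → ℤ) j)) (c (Fin.last J)) ≠ 0 :=
      right_ne_zero_of_mul hgP
    have h2 := spec hw hP hker (![a, b, Pi.single i 1] : Fin 3 → Fin 5 → ℤ)
      (∑ j, rename Fin.castSucc (c j) * X (Fin.last 2) ^ (j : ℕ)) (by
        rw [aeval_three]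
        exact hrel)
    rw [aeval_three] at h2
    have h3 := hC K (fun j => mon P ((![a, b] : Fin 2 → Fin 5 → ℤ) j)) (P i) h2 h1
    rw [Fin.sum_univ_two] at h3
    have e0 : (((![M * LThree.nrm b, M * LThree.nrm a] : Fin 2 → ℕ) 0 : ℕ) : ℝ) =
        M * LThree.nrm b := by
      change ((M * LThree.nrm b : ℕ) : ℝ) = _
      push_cast
      rfl
    have e1 : (((![M * LThree.nrm b, M * LThree.nrm a] : Fin 2 → ℕ) 1 : ℕ) : ℝ) =
        M * LThree.nrm a := by
      change ((M * LThree.nrm a : ℕ) : ℝ) = _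
      push_cast
      rfl
    rw [e0, e1] at h3
    exact h3

/-- Proof. As the private theorem `bdd_pair` in `Srf5/ABdS.lean` (copy it): `rel_two`,
`height_root`, `laurent`, `spec`; then the product of the five polynomials and the sum of the
five constants (and `M * nrm b`, `M * nrm a`). -/
theorem pair_bdd {F : Type} [Field F] [CharZero F] (w : Fin 5 → F) (hw : ∀ i, w i ≠ 0)
    (hdim : dm (kr ℚ w) = 2) (a b : Fin 5 → ℤ) (hab : ¬ Dep ℚ w a b) :
    ∃ (C : ℝ) (g : MvPolynomial (Fin 5) ℚ), 0 ≤ C ∧ g ∉ kr ℚ w ∧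
      ∀ (K : Type) [Field K] [NumberField K] (P : Fin 5 → K), (∀ i, P i ≠ 0) →
        kr ℚ w ≤ kr ℚ P → aeval P g ≠ 0 → ∀ i, logHeight₁ (P i) ≤
          C * (logHeight₁ (mon P a) + logHeight₁ (mon P b) + finrank ℚ K) := by
  obtain ⟨M, -, hM⟩ := rel_two w hw hdim
  choose C g hC hg hb using fun i => pair_one w hw a b i (hM a b hab i)
  have hA : (0 : ℝ) ≤ M * LThree.nrm b := by positivity
  have hB : (0 : ℝ) ≤ M * LThree.nrm a := by positivity
  have hS : 0 ≤ ∑ i, C i := Finset.sum_nonneg fun i _ => hC i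
  refine ⟨∑ i, C i + M * LThree.nrm b + M * LThree.nrm a, ∏ i, g i, by positivity, ?_,
    fun K _ _ P hP hker hgP i => ?_⟩
  · rw [mem_kr, map_prod]
    refine Finset.prod_ne_zero_iff.mpr fun i _ => ?_
    have := hg i
    rwa [mem_kr] at this
  · rw [map_prod] at hgP
    have h1 := hb i K P hP hker (Finset.prod_ne_zero_iff.mp hgP i (Finset.mem_univ i))
    have ha0 : 0 ≤ logHeight₁ (mon P a) := zero_le_logHeight₁ _
    have hb0 : 0 ≤ logHeight₁ (mon P b) := zero_le_logHeight₁ _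
    have hD0 : (0 : ℝ) ≤ finrank ℚ K := Nat.cast_nonneg _
    have hCle : C i ≤ ∑ i, C i :=
      Finset.single_le_sum (f := C) (fun i _ => hC i) (Finset.mem_univ i)
    have h2 : (M * LThree.nrm b : ℝ) * logHeight₁ (mon P a) ≤
        (∑ i, C i + M * LThree.nrm b + M * LThree.nrm a) * logHeight₁ (mon P a) :=
      mul_le_mul_of_nonneg_right (by linarith) ha0
    have h3 : (M * LThree.nrm a : ℝ) * logHeight₁ (mon P b) ≤
        (∑ i, C i + M * LThree.nrm b + M * LThree.nrm a) * logHeight₁ (mon P b) :=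
      mul_le_mul_of_nonneg_right (by linarith) hb0
    have h4 : C i * finrank ℚ K ≤
        (∑ i, C i + M * LThree.nrm b + M * LThree.nrm a) * finrank ℚ K :=
      mul_le_mul_of_nonneg_right (by linarith) hD0
    rw [mul_add, mul_add]
    linarith

/-- Proof. `laurent`: `aeval P g = (∏ P i) ^ L * aeval (mon P (a j)) f`. -/
theorem lau {F : Type} [Field F] [CharZero F] (w : Fin 5 → F) (hw : ∀ i, w i ≠ 0) {m : ℕ}
    (a : Fin m → Fin 5 → ℤ) (f : MvPolynomial (Fin m) ℚ)
    (hf : aeval (fun j => mon w (a j)) f ≠ 0) : ∃ g : MvPolynomial (Fin 5) ℚ, g ∉ kr ℚ w ∧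
      ∀ (K : Type) [Field K] [CharZero K] (P : Fin 5 → K), (∀ i, P i ≠ 0) → aeval P g ≠ 0 →
        aeval (fun j => mon P (a j)) f ≠ 0 := by
  obtain ⟨g, L, hg⟩ := laurent a f
  refine ⟨g, ?_, fun K _ _ P hP hgP => ?_⟩
  · rw [mem_kr, hg F w hw]
    exact mul_ne_zero (pow_ne_zero _ (Finset.prod_ne_zero_iff.mpr fun i _ => hw i)) hf
  · rw [hg K P hP] at hgP
    exact right_ne_zero_of_mul hgP

/-- Proof. `lau` with `m = 1` and the polynomial `Polynomial.aeval (X 0) q`; a nonzero polynomial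
does not vanish at a transcendental element. -/
theorem lau_one {F : Type} [Field F] [CharZero F] (w : Fin 5 → F) (hw : ∀ i, w i ≠ 0)
    (a : Fin 5 → ℤ) (ha : Transcendental ℚ (mon w a)) (q : Polynomial ℚ) (hq : q ≠ 0) :
    ∃ g : MvPolynomial (Fin 5) ℚ, g ∉ kr ℚ w ∧
      ∀ (K : Type) [Field K] [CharZero K] (P : Fin 5 → K), (∀ i, P i ≠ 0) → aeval P g ≠ 0 →
        Polynomial.aeval (mon P a) q ≠ 0 := by
  have key : ∀ (K : Type) [Field K] [CharZero K] (P : Fin 5 → K),
      aeval (fun _ : Fin 1 => mon P a) (Polynomial.aeval (X 0 : MvPolynomial (Fin 1) ℚ) q) =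
        Polynomial.aeval (mon P a) q := by
    intro K _ _ P
    rw [← Polynomial.aeval_algHom_apply, aeval_X]
  obtain ⟨g, hg, h⟩ := lau w hw (fun _ : Fin 1 => a)
    (Polynomial.aeval (X 0 : MvPolynomial (Fin 1) ℚ) q) (by
      rw [key]
      exact fun h0 => hq (transcendental_iff.1 ha q h0))
  refine ⟨g, hg, fun K _ _ P hP hgP => ?_⟩
  have h1 := h K P hP hgP
  rwa [key] at h1

/-- The height of the value of a polynomial.

Proof. `height_root` with `m = 1`, `J = 1`, `c 0 = -p`, `c 1 = 1` (`p` written as a polynomial in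
`MvPolynomial (Fin 1) ℚ`), `D = natDegree p`. -/
theorem height_poly (p : Polynomial ℚ) : ∃ C : ℝ, 0 ≤ C ∧
    ∀ (K : Type) [Field K] [NumberField K] (x : K),
      logHeight₁ (Polynomial.aeval x p) ≤ C * (logHeight₁ x + finrank ℚ K) := by
  obtain ⟨c, hc⟩ : ∃ c : Fin (1 + 1) → MvPolynomial (Fin 1) ℚ,
      c = ![-Polynomial.aeval (X 0 : MvPolynomial (Fin 1) ℚ) p, 1] := ⟨_, rfl⟩
  obtain ⟨C, hC0, hC⟩ := height_root c
    (fun i => max (degreeOf i (c 0)) (degreeOf i (c 1))) (by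
      intro j i
      fin_cases j
      · exact le_max_left _ _
      · exact le_max_right _ _)
  set D : ℕ := max (degreeOf 0 (c 0)) (degreeOf 0 (c 1)) with hD
  refine ⟨D + C, by positivity, fun K _ _ x => ?_⟩
  have h1 := hC K (fun _ => x) (Polynomial.aeval x p) (by
    rw [Fin.sum_univ_two, hc]
    simp only [Matrix.cons_val_zero, Matrix.cons_val_one, map_neg, map_one,
      Fin.val_zero, pow_zero, mul_one, Fin.val_one, pow_one, one_mul]
    rw [← Polynomial.aeval_algHom_apply, aeval_X]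
    ring) (by
    rw [hc]
    change aeval (fun _ : Fin 1 => x) (1 : MvPolynomial (Fin 1) ℚ) ≠ 0
    rw [map_one]
    exact one_ne_zero)
  rw [Fin.sum_univ_one] at h1
  have hx0 : 0 ≤ logHeight₁ x := zero_le_logHeight₁ _
  have hF0 : (0 : ℝ) ≤ finrank ℚ K := Nat.cast_nonneg _
  have hD0 : (0 : ℝ) ≤ D := Nat.cast_nonneg _
  have h2 : logHeight₁ (Polynomial.aeval x p) ≤ D * logHeight₁ x + C * finrank ℚ K := h1
  nlinarith [mul_nonneg hC0 hx0, mul_nonneg hD0 hF0]

end Pool.Agent.Srf5F
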