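import Pool.Agent.Srf5F.BCnt
import Pool.Agent.Srf5F.BPair

set_option autoImplicit false

/-! The good embeddings. -/

namespace Pool.Agent.Srf5F

open MvPolynomial Module Height NumberField Pool.Agent.CITLines Pool.Agent.Srf5

private theorem cnt_ex (K : Type) [Field K] [NumberField K] {α : Type} (S : Finset α)
    (q : α → (K →+* ℂ) → Prop) :
    cnt K (fun σ => ∃ s ∈ S, q s σ) ≤ ∑ s ∈ S, cnt K (q s) := by
  classical
  induction S using Finset.induction_on with
  | empty =>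
    rw [Finset.sum_empty]
    unfold cnt
    have : IsEmpty {σ : K →+* ℂ // ∃ s ∈ (∅ : Finset α), q s σ} :=
      ⟨fun x => by
        obtain ⟨s, hs, _⟩ := x.2
        exact absurd hs (Finset.notMem_empty s)⟩
    rw [Nat.card_of_isEmpty]
    simp
  | insert a S ha ih =>
    rw [Finset.sum_insert ha]
    refine le_trans ?_ ((cnt_or K (q a) (fun σ => ∃ s ∈ S, q s σ)).trans (add_le_add le_rfl ih))
    refine cnt_mono K fun σ hσ => ?_
    obtain ⟨s, hs, hq⟩ := hσ
    rcases Finset.mem_insert.1 hs with rfl | hs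
    · exact Or.inl hq
    · exact Or.inr ⟨s, hs, hq⟩

private theorem mon_cj {K : Type} [Field K] (σ : K →+* ℂ) (P : Fin 5 → K) (a : Fin 5 → ℤ) :
    mon (cj σ P) a = σ (mon P a) := by
  unfold mon cj
  rw [map_prod]
  exact Finset.prod_congr rfl fun i _ => (map_zpow₀ σ _ _).symm

private theorem aeval_cj {K : Type} [Field K] [CharZero K] (σ : K →+* ℂ) (x : K)
    (q : Polynomial ℚ) : Polynomial.aeval (σ x) q = σ (Polynomial.aeval x q) :=
  Polynomial.aeval_algHom_apply σ.toRatAlgHom x q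

/-- Few embeddings make a nonzero number small. -/
private theorem cnt_small (K : Type) [Field K] [NumberField K] (z : K) (hz : z ≠ 0) (B : ℝ)
    (hB : 0 < B) : cnt K (fun σ => ‖σ z‖ < Real.exp (-B)) * B ≤ 2 * logHeight₁ z := by
  refine le_trans (mul_le_mul_of_nonneg_right (cnt_mono K fun σ hσ => ?_) hB.le)
    (cnt_large K z hz B hB)
  have h0 : 0 < ‖σ z‖ := norm_pos_iff.2 ((map_ne_zero σ).2 hz)
  have h1 : Real.log ‖σ z‖ < -B := by
    rw [← Real.log_exp (-B)]
    exact Real.log_lt_log h0 hσ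
  rw [abs_of_neg (by linarith)]
  linarith

/-- **Many good embeddings.**

Proof. By `hA.prop` the number of the `σ` with `pm e (cj σ P) ∈ C` is at least `κ D`, `D = finrank`.
The number of the `σ` with `R ≤ |log ‖σ (mon P (e i))‖|` is at most `2 M D / R` (`cnt_large`); here
`σ (mon P (e i)) = mon (cj σ P) (e i) = pm e (cj σ P) i`. For a polynomial `q` (one of the `p s`, or
`G`) with `q (mon P (e 0)) ≠ 0`: `h (q (y_0)) ≤ C (M + 1) D` by `height_poly`, so the number of the `σ` with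
`‖q (σ y_0)‖ ≤ η`, i.e. `-log η ≤ -log ‖q (σ y_0)‖ ≤ |log ..|`, is at most `2 C (M + 1) D / (-log η)`. Choose
`R` large and `η < 1` small: the sum of the exceptional numbers (`3 + S.card + 1` terms) is at most
`κ D / 2`. -/
theorem good {F : Type} [Field F] [CharZero F] {w : Fin 5 → F} {e : Fin 3 → Fin 5 → ℤ}
    {C : Set (Fin 3 → ℂ)} {G : Polynomial ℚ} {κ : ℝ} (hA : Arch w e C G κ) (M : ℝ) (hM : 1 ≤ M)
    (S : Finset (Fin 5 → ℤ)) (p : (Fin 5 → ℤ) → Polynomial ℚ) :
    ∃ R η : ℝ, 0 < R ∧ 0 < η ∧ ∀ (K : Type) [Field K] [NumberField K] (P : Fin 5 → K)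
      (a : Fin 3 → ℝ) (A : Fin 5 → Fin 3 → ℝ), Pt w e G M S p P a A →
      κ / 2 * finrank ℚ K ≤ cnt K (fun σ => pm e (cj σ P) ∈ bdp C G R η ∧
        ∀ s ∈ S, η ≤ ‖Polynomial.aeval (mon (cj σ P) (e 0)) (p s)‖) := by
  classical
  choose Cq hCq0 hCq using height_poly
  have hM0 : 0 ≤ M := by linarith
  have hκ := hA.pos
  set K0 : ℝ := ∑ s ∈ S, 2 * (Cq (p s) * (M + 1)) + 2 * (Cq G * (M + 1)) + 3 * (2 * M) with hK0
  have hK0pos : 0 < K0 := by
    have h1 : 0 ≤ ∑ s ∈ S, 2 * (Cq (p s) * (M + 1)) := Finset.sum_nonneg fun s _ => by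
      have := hCq0 (p s)
      positivity
    have h2 : 0 ≤ Cq G * (M + 1) := mul_nonneg (hCq0 G) (by linarith)
    linarith
  set R : ℝ := 2 * K0 / κ with hR
  have hRpos : 0 < R := by positivity
  refine ⟨R, Real.exp (-R), hRpos, Real.exp_pos _, ?_⟩
  intro K _ _ P a A hP
  set D : ℝ := (finrank ℚ K : ℝ) with hD
  have hD0 : 0 ≤ D := Nat.cast_nonneg _
  -- the exceptional embeddings
  have hx0 : ∀ i : Fin 3, mon P (e i) ≠ 0 := fun i => by
    unfold mon
    exact Finset.prod_ne_zero_iff.2 fun j _ => zpow_ne_zero _ (hP.ne j)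
  have hq : ∀ q : Polynomial ℚ, Polynomial.aeval (mon P (e 0)) q ≠ 0 →
      cnt K (fun σ => ‖Polynomial.aeval (mon (cj σ P) (e 0)) q‖ < Real.exp (-R)) * R ≤
        2 * (Cq q * (M + 1)) * D := by
    intro q hq0
    have h1 := cnt_small K _ hq0 R hRpos
    have h2 := hCq q K (mon P (e 0))
    have h3 := hP.hy 0
    have h4 : (fun σ : K →+* ℂ => ‖Polynomial.aeval (mon (cj σ P) (e 0)) q‖ < Real.exp (-R)) =
        fun σ => ‖σ (Polynomial.aeval (mon P (e 0)) q)‖ < Real.exp (-R) := by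
      funext σ
      rw [mon_cj, aeval_cj]
    rw [h4]
    have h5 : Cq q * (logHeight₁ (mon P (e 0)) + finrank ℚ K) ≤ Cq q * (M * D + D) :=
      mul_le_mul_of_nonneg_left (by linarith) (hCq0 q)
    calc _ ≤ 2 * logHeight₁ (Polynomial.aeval (mon P (e 0)) q) := h1
      _ ≤ 2 * (Cq q * (M * D + D)) := by linarith
      _ = 2 * (Cq q * (M + 1)) * D := by ring
  have hl : ∀ i : Fin 3, cnt K (fun σ => R ≤ |lg (pm e (cj σ P)) i|) * R ≤ 2 * M * D := by
    intro i
    have h1 := cnt_large K (mon P (e i)) (hx0 i) R hRpos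
    have h3 := hP.hy i
    have h4 : (fun σ : K →+* ℂ => R ≤ |lg (pm e (cj σ P)) i|) =
        fun σ => R ≤ |Real.log ‖σ (mon P (e i))‖| := by
      funext σ
      unfold lg pm
      rw [mon_cj]
    rw [h4]
    linarith
  have hmain : cnt K (fun σ => pm e (cj σ P) ∈ C) ≤
      cnt K (fun σ => pm e (cj σ P) ∈ bdp C G R (Real.exp (-R)) ∧
        ∀ s ∈ S, Real.exp (-R) ≤ ‖Polynomial.aeval (mon (cj σ P) (e 0)) (p s)‖) +
      (∑ i : Fin 3, cnt K (fun σ => R ≤ |lg (pm e (cj σ P)) i|) +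
        (cnt K (fun σ => ‖Polynomial.aeval (mon (cj σ P) (e 0)) G‖ < Real.exp (-R)) +
        ∑ s ∈ S, cnt K (fun σ =>
          ‖Polynomial.aeval (mon (cj σ P) (e 0)) (p s)‖ < Real.exp (-R)))) := by
    have h1 := cnt_ex K (Finset.univ : Finset (Fin 3))
      (fun i σ => R ≤ |lg (pm e (cj σ P)) i|)
    have h2 := cnt_ex K S
      (fun s σ => ‖Polynomial.aeval (mon (cj σ P) (e 0)) (p s)‖ < Real.exp (-R))
    refine le_trans ?_ (add_le_add le_rfl (add_le_add h1 (add_le_add le_rfl h2)))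
    refine le_trans ?_ (add_le_add le_rfl (add_le_add le_rfl (cnt_or K _ _)))
    refine le_trans ?_ (add_le_add le_rfl (cnt_or K _ _))
    refine le_trans ?_ (cnt_or K _ _)
    refine cnt_mono K fun σ hσ => ?_
    by_contra hcon
    simp only [not_or, not_exists, not_and, not_lt] at hcon
    obtain ⟨hc1, hc2, hc3, hc4⟩ := hcon
    refine absurd (hc1 ⟨hσ, fun i => ?_, ?_⟩) ?_
    · exact (not_le.1 (hc2 i (Finset.mem_univ i))).le
    · exact hc3
    · push Not
      exact fun s hs => hc4 s hs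
  have hprop : κ * D ≤ cnt K (fun σ => pm e (cj σ P) ∈ C) := hA.prop K P hP.ne hP.le
  have hsum : (∑ i : Fin 3, cnt K (fun σ => R ≤ |lg (pm e (cj σ P)) i|) +
        (cnt K (fun σ => ‖Polynomial.aeval (mon (cj σ P) (e 0)) G‖ < Real.exp (-R)) +
        ∑ s ∈ S, cnt K (fun σ =>
          ‖Polynomial.aeval (mon (cj σ P) (e 0)) (p s)‖ < Real.exp (-R)))) * R ≤ K0 * D := by
    rw [add_mul, add_mul, Finset.sum_mul, Finset.sum_mul]
    have h1 : ∑ i : Fin 3, cnt K (fun σ => R ≤ |lg (pm e (cj σ P)) i|) * R ≤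
        3 * (2 * M * D) := by
      refine (Finset.sum_le_card_nsmul _ _ (2 * M * D) fun i _ => hl i).trans ?_
      simp
    have h2 := hq G hP.G0
    have h3 : ∑ s ∈ S, cnt K (fun σ =>
        ‖Polynomial.aeval (mon (cj σ P) (e 0)) (p s)‖ < Real.exp (-R)) * R ≤
        (∑ s ∈ S, 2 * (Cq (p s) * (M + 1))) * D := by
      rw [Finset.sum_mul]
      exact Finset.sum_le_sum fun s hs => hq (p s) (hP.ps s hs)
    rw [hK0]
    linarith
  have hfin : K0 * D = κ / 2 * D * R := by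
    rw [hR]
    field_simp
  have hsum' : (∑ i : Fin 3, cnt K (fun σ => R ≤ |lg (pm e (cj σ P)) i|) +
        (cnt K (fun σ => ‖Polynomial.aeval (mon (cj σ P) (e 0)) G‖ < Real.exp (-R)) +
        ∑ s ∈ S, cnt K (fun σ =>
          ‖Polynomial.aeval (mon (cj σ P) (e 0)) (p s)‖ < Real.exp (-R)))) ≤ κ / 2 * D := by
    rw [hfin] at hsum
    exact le_of_mul_le_mul_right hsum hRpos
  linarith

end Pool.Agent.Srf5F
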