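import Pool.Agent.Srf5F.BDefs

set_option autoImplicit false

/-! Compactness: points with small linear forms are close to the points over a line. -/

namespace Pool.Agent.Srf5F

open MvPolynomial Module Pool.Agent.CITLines Pool.Agent.Srf5

/-- Proof. Otherwise for every `n` there is `y_n ∈ bdp C G R η` with both linear forms at most `1/n`
in absolute value and `‖y_n 0 - z 0‖ > r` for all `z ∈ zset C G R η u v`. A subsequence converges to
`y ∈ bdp C G R η` (`hA.cpt`, `IsCompact.tendsto_subseq`); `lg` is continuous at `y` because the coordinates of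
`y` are not zero (`hA.ne`), so both linear forms vanish at `lg y`: `y ∈ zset`, and
`‖y_n 0 - y 0‖ → 0`, a contradiction. -/
theorem near {F : Type} [Field F] [CharZero F] {w : Fin 5 → F} {e : Fin 3 → Fin 5 → ℤ}
    {C : Set (Fin 3 → ℂ)} {G : Polynomial ℚ} {κ : ℝ} (hA : Arch w e C G κ) (u v : Fin 3 → ℝ)
    (R η r : ℝ) (hr : 0 < r) : ∃ δ : ℝ, 0 < δ ∧ ∀ y ∈ bdp C G R η,
      |∑ i, u i * lg y i| ≤ δ → |∑ i, v i * lg y i| ≤ δ →
      ∃ z ∈ zset C G R η u v, ‖y 0 - z 0‖ ≤ r := by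
  by_contra hcon
  push Not at hcon
  have hpos : ∀ n : ℕ, (0 : ℝ) < 1 / ((n : ℝ) + 1) := fun n => by positivity
  choose y hy h1 h2 h3 using fun n : ℕ => hcon (1 / ((n : ℝ) + 1)) (hpos n)
  obtain ⟨y₀, hy₀, φ, hφ, hlim⟩ := (hA.cpt R η).tendsto_subseq hy
  have hl : ∀ i, Filter.Tendsto (fun n => y (φ n) i) Filter.atTop (nhds (y₀ i)) := fun i =>
    (tendsto_pi_nhds.1 hlim) i
  have hlg : ∀ i, Filter.Tendsto (fun n => lg (y (φ n)) i) Filter.atTop (nhds (lg y₀ i)) := by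
    intro i
    exact (hl i).norm.log (norm_ne_zero_iff.2 (hA.ne y₀ hy₀.1 i))
  have hz : Filter.Tendsto (fun n : ℕ => 1 / (((φ n : ℕ) : ℝ) + 1)) Filter.atTop (nhds 0) :=
    (tendsto_one_div_add_atTop_nhds_zero_nat (𝕜 := ℝ)).comp hφ.tendsto_atTop
  have hsum : ∀ c : Fin 3 → ℝ, (∀ n, |∑ i, c i * lg (y n) i| ≤ 1 / ((n : ℝ) + 1)) →
      ∑ i, c i * lg y₀ i = 0 := by
    intro c hc
    have h4 : Filter.Tendsto (fun n => |∑ i, c i * lg (y (φ n)) i|) Filter.atTop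
        (nhds |∑ i, c i * lg y₀ i|) :=
      (tendsto_finsetSum _ fun i _ => (hlg i).const_mul (c i)).abs
    have h5 : |∑ i, c i * lg y₀ i| ≤ 0 :=
      le_of_tendsto_of_tendsto' h4 hz fun n => hc (φ n)
    exact abs_nonpos_iff.1 h5
  have hmem : y₀ ∈ zset C G R η u v := ⟨hy₀, hsum u h1, hsum v h2⟩
  have h6 : Filter.Tendsto (fun n => ‖y (φ n) 0 - y₀ 0‖) Filter.atTop (nhds 0) := by
    have h7 := ((hl 0).sub_const (y₀ 0)).norm
    rwa [sub_self, norm_zero] at h7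
  obtain ⟨n, hn⟩ := (h6.eventually (gt_mem_nhds hr)).exists
  exact absurd (h3 (φ n) y₀ hmem) (not_lt.2 hn.le)

end Pool.Agent.Srf5F
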