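import Pool.Agent.Srf5F.BCnt
import Pool.Agent.Srf5F.BNear

set_option autoImplicit false

/-! Second case: one difference of exponents is killed by the limit matrix. -/

namespace Pool.Agent.Srf5F

open MvPolynomial Module Height NumberField Pool.Agent.CITLines Pool.Agent.Srf5

private theorem sigma_mon {K : Type} [Field K] (σ : K →+* ℂ) (P : Fin 5 → K) (u : Fin 5 → ℤ) :
    mon (cj σ P) u = σ (mon P u) := by
  simp only [mon, cj, map_prod, map_zpow₀]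

private theorem sum_three_le (u L : Fin 3 → ℝ) (x R : ℝ) (hx : 0 ≤ x)
    (hu : ∀ i, |u i| ≤ x) (hL : ∀ i, |L i| ≤ R) : |∑ i, u i * L i| ≤ 3 * x * R := by
  calc |∑ i, u i * L i| ≤ ∑ i, |u i * L i| := Finset.abs_sum_le_sum_abs _ _
    _ ≤ ∑ _i : Fin 3, x * R := by
        refine Finset.sum_le_sum fun i _ => ?_
        rw [abs_mul]
        exact mul_le_mul (hu i) (hL i) (abs_nonneg _) hx
    _ = 3 * x * R := by
        simp
        ring

/-- **Case two.** Most embeddings in the compact set are close to a point over one line.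

Proof. `δ` from `near` for `u = a0`, `v = B0 j0` and `r`. Let `D = finrank`, `l = s0 - t0`, `T` a
bound for the `|l j|`. `|vec A l i| = |vec A l i - ‖A‖ vec B0 l i| ≤ 5 T ε ‖A‖`, so
`h (mon P l) ≤ 15 T ε ‖A‖ M D` (`h.ht`, `h.hy`) and `h (P j0) ≤ M (M + 15 T ε ‖A‖ M + 1) D`
(`h.pair`). By `cnt_large` the number of the `σ` with `|log ‖σ (P j0)‖| ≥ ‖A‖ δ / 2` is at most
`4 M (M + 1 + 15 T ε ‖A‖ M) D / (‖A‖ δ)`, which is at most `κ D / 4` if `‖A‖ ≥ N` is large and `ε`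
is small. For the other `σ` with `y = pm e (cj σ P) ∈ bdp C G R η`, `L = lg y`, `|L i| ≤ R`:
`|∑ i, A j0 i * L i| < ‖A‖ δ / 2` (`h.lgP`), so `|∑ i, B0 j0 i * L i| ≤ δ / 2 + 3 ε R ≤ δ`; and
`|∑ a0 i L i| ≤ 3 ε R ≤ δ` (`h.arel`). Apply `near`. -/
theorem case_two {F : Type} [Field F] [CharZero F] {w : Fin 5 → F} {e : Fin 3 → Fin 5 → ℤ}
    {C : Set (Fin 3 → ℂ)} {G : Polynomial ℚ} {κ : ℝ} (hA : Arch w e C G κ) (M : ℝ) (hM : 1 ≤ M)
    (S : Finset (Fin 5 → ℤ)) (p : (Fin 5 → ℤ) → Polynomial ℚ) (R η r : ℝ)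
    (hR : 0 < R) (hr : 0 < r) (a0 : Fin 3 → ℝ) (B0 : Fin 5 → Fin 3 → ℝ) (s0 t0 : Fin 5 → ℤ)
    (hs : s0 ∈ S) (ht : t0 ∈ S) (hst : s0 ≠ t0) (h0 : vec B0 (s0 - t0) = 0) (j0 : Fin 5) :
    ∃ (ε : ℝ) (N : ℕ), 0 < ε ∧ ∀ (K : Type) [Field K] [NumberField K] (P : Fin 5 → K)
      (a : Fin 3 → ℝ) (A : Fin 5 → Fin 3 → ℝ), Pt w e G M S p P a A →
      (∀ i, |a i - a0 i| < ε) → (∀ j i, |A j i - ‖A‖ * B0 j i| < ε * ‖A‖) → (N : ℝ) ≤ ‖A‖ →
      cnt K (fun σ => pm e (cj σ P) ∈ bdp C G R η ∧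
        ¬ ∃ z ∈ zset C G R η a0 (B0 j0), ‖σ (mon P (e 0)) - z 0‖ ≤ r) ≤ κ / 4 * finrank ℚ K := by
  classical
  obtain ⟨δ, hδ, hnear⟩ := near hA a0 (B0 j0) R η r hr
  have hκ := hA.pos
  set l : Fin 5 → ℤ := s0 - t0 with hl
  set T : ℝ := ∑ j, |(l j : ℝ)| with hT
  have hT0 : 0 ≤ T := Finset.sum_nonneg fun j _ => abs_nonneg _
  have hM0 : 0 < M := by linarith
  set ε : ℝ := min (κ * δ / (96 * M ^ 2 * (T + 1))) (δ / (6 * R)) with hε
  have hε0 : 0 < ε := by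
    refine lt_min ?_ ?_
    · positivity
    · positivity
  obtain ⟨N, hN⟩ := exists_nat_ge (32 * M * (M + 1) / (κ * δ) + 1)
  have hε1 : ε * (96 * M ^ 2 * (T + 1)) ≤ κ * δ := by
    have := min_le_left (κ * δ / (96 * M ^ 2 * (T + 1))) (δ / (6 * R))
    rw [← hε] at this
    rwa [le_div_iff₀ (by positivity)] at this
  have hε2 : ε * (6 * R) ≤ δ := by
    have := min_le_right (κ * δ / (96 * M ^ 2 * (T + 1))) (δ / (6 * R))
    rw [← hε] at this
    rwa [le_div_iff₀ (by positivity)] at this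
  refine ⟨ε, N, hε0, ?_⟩
  intro K _ _ P a A h ha hAB hNA
  have hA1 : 32 * M * (M + 1) / (κ * δ) + 1 ≤ ‖A‖ := hN.trans hNA
  have hA2 : 32 * M * (M + 1) ≤ ‖A‖ * (κ * δ) := by
    have : 32 * M * (M + 1) / (κ * δ) ≤ ‖A‖ := by linarith
    rwa [div_le_iff₀ (by positivity)] at this
  have hApos : 0 < ‖A‖ := by
    have : 0 ≤ 32 * M * (M + 1) / (κ * δ) := by positivity
    linarith
  have hD : (0 : ℝ) < finrank ℚ K := by
    exact_mod_cast finrank_pos
  set D : ℝ := (finrank ℚ K : ℝ) with hDdef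
  -- the height of the monomial with exponent `l`
  have hvec : ∀ i, |vec A l i| ≤ T * (ε * ‖A‖) := by
    intro i
    have h1 : vec A l i = ∑ j, (l j : ℝ) * (A j i - ‖A‖ * B0 j i) := by
      have h2 : ∑ j, (l j : ℝ) * B0 j i = 0 := congrFun h0 i
      have h3 : ∑ j, (l j : ℝ) * (A j i - ‖A‖ * B0 j i)
          = ∑ j, (l j : ℝ) * A j i - ‖A‖ * ∑ j, (l j : ℝ) * B0 j i := by
        rw [Finset.mul_sum, ← Finset.sum_sub_distrib]
        exact Finset.sum_congr rfl fun j _ => by ring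
      rw [h3, h2]
      simp [vec]
    rw [h1, hT, Finset.sum_mul]
    refine (Finset.abs_sum_le_sum_abs _ _).trans (Finset.sum_le_sum fun j _ => ?_)
    rw [abs_mul]
    exact mul_le_mul_of_nonneg_left (hAB j i).le (abs_nonneg _)
  have hh0 : ∀ x : K, 0 ≤ logHeight₁ x := fun x => zero_le_logHeight₁ x
  have hl1 : logHeight₁ (mon P l) ≤ 3 * (T * (ε * ‖A‖)) * (M * D) := by
    refine (h.ht l).trans ?_
    calc ∑ i, |vec A l i| * logHeight₁ (mon P (e i))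
        ≤ ∑ _i : Fin 3, (T * (ε * ‖A‖)) * (M * D) := by
          refine Finset.sum_le_sum fun i _ => ?_
          exact mul_le_mul (hvec i) (h.hy i) (hh0 _) (by positivity)
      _ = 3 * (T * (ε * ‖A‖)) * (M * D) := by
          simp
          ring
  have hl2 : logHeight₁ (P j0) ≤ M * (M * D + 3 * (T * (ε * ‖A‖)) * (M * D) + D) := by
    refine (h.pair s0 hs t0 ht hst j0).trans ?_
    refine mul_le_mul_of_nonneg_left ?_ hM0.le
    have h1 := h.hy 0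
    rw [← hl]
    linarith
  have hB : 0 < ‖A‖ * δ / 2 := by positivity
  have hc := cnt_large K (P j0) (h.ne j0) (‖A‖ * δ / 2) hB
  have hmain : cnt K (fun σ => ‖A‖ * δ / 2 ≤ |Real.log ‖σ (P j0)‖|) ≤ κ / 4 * D := by
    rw [← mul_le_mul_iff_left₀ hB]
    refine hc.trans ?_
    have h2 : 2 * logHeight₁ (P j0) ≤ 2 * (M * (M * D + 3 * (T * (ε * ‖A‖)) * (M * D) + D)) := by
      linarith
    refine h2.trans ?_
    have h3 : 32 * M * (M + 1) * D ≤ ‖A‖ * (κ * δ) * D := mul_le_mul_of_nonneg_right hA2 hD.le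
    have h4 : ε * (96 * M ^ 2 * (T + 1)) * (‖A‖ * D) ≤ κ * δ * (‖A‖ * D) :=
      mul_le_mul_of_nonneg_right hε1 (by positivity)
    have h5 : ε * (96 * M ^ 2 * T) * (‖A‖ * D) ≤ ε * (96 * M ^ 2 * (T + 1)) * (‖A‖ * D) := by
      refine mul_le_mul_of_nonneg_right ?_ (by positivity)
      refine mul_le_mul_of_nonneg_left ?_ hε0.le
      refine mul_le_mul_of_nonneg_left ?_ (by positivity)
      linarith
    nlinarith [h3, h4, h5]
  refine (cnt_mono K ?_).trans hmain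
  rintro σ ⟨hy, hz⟩
  by_contra hlt
  push Not at hlt
  apply hz
  set L := lg (pm e (cj σ P)) with hL
  have hLR : ∀ i, |L i| ≤ R := hy.2.1
  have hP := h.lgP σ j0
  have ha1 := h.arel σ
  rw [← hL] at hP ha1
  have e1 : |∑ i, a0 i * L i| ≤ δ := by
    have e2 : ∑ i, a0 i * L i = ∑ i, (a0 i - a i) * L i := by
      have e3 : ∑ i, (a0 i - a i) * L i = ∑ i, a0 i * L i - ∑ i, a i * L i := by
        rw [← Finset.sum_sub_distrib]
        exact Finset.sum_congr rfl fun i _ => by ring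
      rw [e3, ha1, sub_zero]
    rw [e2]
    refine (sum_three_le _ _ ε R hε0.le (fun i => ?_) hLR).trans ?_
    · rw [abs_sub_comm]
      exact (ha i).le
    · nlinarith
  have e4 : |∑ i, B0 j0 i * L i| ≤ δ := by
    have e5 : ‖A‖ * ∑ i, B0 j0 i * L i
        = Real.log ‖σ (P j0)‖ - ∑ i, (A j0 i - ‖A‖ * B0 j0 i) * L i := by
      rw [hP, Finset.mul_sum, ← Finset.sum_sub_distrib]
      exact Finset.sum_congr rfl fun i _ => by ring
    have e6 : |∑ i, (A j0 i - ‖A‖ * B0 j0 i) * L i| ≤ 3 * (ε * ‖A‖) * R :=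
      sum_three_le _ _ _ R (by positivity) (fun i => (hAB j0 i).le) hLR
    have e7 : ‖A‖ * |∑ i, B0 j0 i * L i| ≤ ‖A‖ * δ := by
      rw [← abs_of_pos hApos, ← abs_mul, abs_of_pos hApos, e5]
      refine (abs_sub _ _).trans ?_
      have e8 : ε * (6 * R) * ‖A‖ ≤ δ * ‖A‖ := mul_le_mul_of_nonneg_right hε2 hApos.le
      nlinarith
    exact le_of_mul_le_mul_left e7 hApos
  obtain ⟨z, hz1, hz2⟩ := hnear _ hy e1 e4
  refine ⟨z, hz1, ?_⟩
  rw [← sigma_mon]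
  exact hz2

end Pool.Agent.Srf5F
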