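import Pool.Agent.Srf5F.BOne
import Pool.Agent.Srf5F.BTwoC
import Pool.Agent.Srf5F.BGood

set_option autoImplicit false

/-! Bounded degree near a limit point. -/

namespace Pool.Agent.Srf5F

open MvPolynomial Module Height NumberField Pool.Agent.CITLines Pool.Agent.Srf5

private theorem indep (a0 v : Fin 3 → ℝ) (h1 : ∑ i, a0 i ^ 2 = 1) (hv : v ≠ 0)
    (ho : ∑ i, v i * a0 i = 0) : LinearIndependent ℝ ![a0, v] := by
  rw [LinearIndependent.pair_iff]
  intro s t hst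
  have h2 : ∀ i, s * a0 i + t * v i = 0 := fun i => by
    have := congrFun hst i
    simpa using this
  have h3 : s = 0 := by
    have h4 : ∑ i, (s * a0 i + t * v i) * a0 i = 0 :=
      Finset.sum_eq_zero fun i _ => by rw [h2 i, zero_mul]
    have h5 : ∑ i, (s * a0 i + t * v i) * a0 i = s * ∑ i, a0 i ^ 2 + t * ∑ i, v i * a0 i := by
      rw [Finset.mul_sum, Finset.mul_sum, ← Finset.sum_add_distrib]
      exact Finset.sum_congr rfl fun i _ => by ring
    rw [h5, h1, ho] at h4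
    simpa using h4
  refine ⟨h3, ?_⟩
  by_contra ht
  apply hv
  funext i
  have := h2 i
  rw [h3, zero_mul, zero_add] at this
  exact (mul_eq_zero.1 this).resolve_left ht

private theorem vec_orth (a0 : Fin 3 → ℝ) (B0 : Fin 5 → Fin 3 → ℝ)
    (h : ∀ j, ∑ i, B0 j i * a0 i = 0) (l : Fin 5 → ℤ) : ∑ i, vec B0 l i * a0 i = 0 := by
  have h1 : ∑ i, vec B0 l i * a0 i = ∑ j, (l j : ℝ) * ∑ i, B0 j i * a0 i := by
    simp only [vec, Finset.sum_mul, Finset.mul_sum]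
    rw [Finset.sum_comm]
    exact Finset.sum_congr rfl fun j _ => Finset.sum_congr rfl fun i _ => by ring
  rw [h1]
  exact Finset.sum_eq_zero fun j _ => by rw [h j, mul_zero]

/-- **Near a limit point the degree is bounded.**

Proof. `R, η` from `good`. `a0 ≠ 0` and every nonzero `v` with `∑ v i a0 i = 0` is independent of
`a0`; so the sets `zset C G R η a0 v` are finite (`hA.line`). This applies to `v = vec B0 (s - t)` when it
is not zero (`∑ i, vec B0 l i * a0 i = ∑ j, l j * ∑ i, B0 j i * a0 i = 0`) and to `v = B0 j0 ≠ 0`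
(`‖B0‖ = 1`). Case one: `vec B0 (s - t) ≠ 0` for all `s ≠ t` of `S`. Let `T` be the finite set of the `z 0`,
`z` in the union of the `zset C G R η a0 (vec B0 (s - t))`. `cnt_deg` for `M' = max M (4 / κ)` and `T`
gives `r, N1`; `case_one` for `r` gives `ε, N`; take `max N N1`. All the good embeddings (`good`) are
close to `T`, so `κ / 2 D ≤ cnt (near T)` and `D ≤ M' cnt (near T)`. Case two: `vec B0 (s0 - t0) = 0` for some
pair: `T` from `zset C G R η a0 (B0 j0)`, `cnt_deg`, `case_two`: the good embeddings which are not close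
to `T` are at most `κ / 4 D`, so `κ / 4 D ≤ cnt (near T)` (`cnt_mono`, `cnt_or`). -/
theorem local_bdd {F : Type} [Field F] [CharZero F] {w : Fin 5 → F} {e : Fin 3 → Fin 5 → ℤ}
    {C : Set (Fin 3 → ℂ)} {G : Polynomial ℚ} {κ : ℝ} (hA : Arch w e C G κ) (M : ℝ) (hM : 1 ≤ M)
    (S : Finset (Fin 5 → ℤ)) (hS : 2 ≤ S.card) (p : (Fin 5 → ℤ) → Polynomial ℚ)
    (a0 : Fin 3 → ℝ) (B0 : Fin 5 → Fin 3 → ℝ) (h0 : (a0, B0) ∈ Cp) :
    ∃ (ε : ℝ) (N : ℕ), 0 < ε ∧ ∀ (K : Type) [Field K] [NumberField K] (P : Fin 5 → K)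
      (a : Fin 3 → ℝ) (A : Fin 5 → Fin 3 → ℝ), Pt w e G M S p P a A →
      (∀ i, |a i - a0 i| < ε) → (∀ j i, |A j i - ‖A‖ * B0 j i| < ε * ‖A‖) → (N : ℝ) ≤ ‖A‖ →
      (minpoly ℚ (mon P (e 0))).natDegree ≤ N := by
  obtain ⟨ha0, hB0, hort⟩ := h0
  simp only at ha0 hB0 hort
  obtain ⟨R, η, hR, hη, hgood⟩ := good hA M hM S p
  have hκ := hA.pos
  have hM' : 1 ≤ max M (4 / κ) := hM.trans (le_max_left _ _)
  have hfin : ∀ v : Fin 3 → ℝ, v ≠ 0 → ∑ i, v i * a0 i = 0 → (zset C G R η a0 v).Finite :=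
    fun v hv ho => hA.line a0 v R η hη (indep a0 v ha0 hv ho)
  have hend : ∀ (N1 : ℕ) (r : ℝ) (T : Finset ℂ), (∀ (K : Type) [Field K] [NumberField K] (x : K),
      logHeight₁ x ≤ max M (4 / κ) * finrank ℚ K →
      (finrank ℚ K : ℝ) ≤ max M (4 / κ) * cnt K (fun σ => ∃ t ∈ T, ‖σ x - t‖ ≤ r) →
      (minpoly ℚ x).natDegree ≤ N1) → ∀ (K : Type) [Field K] [NumberField K] (P : Fin 5 → K)
      (a : Fin 3 → ℝ) (A : Fin 5 → Fin 3 → ℝ), Pt w e G M S p P a A →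
      κ / 4 * finrank ℚ K ≤ cnt K (fun σ => ∃ t ∈ T, ‖σ (mon P (e 0)) - t‖ ≤ r) →
      (minpoly ℚ (mon P (e 0))).natDegree ≤ N1 := by
    intro N1 r T hdeg K _ _ P a A hP hc
    have hD : (0 : ℝ) ≤ finrank ℚ K := Nat.cast_nonneg _
    refine hdeg K _ ((hP.hy 0).trans (mul_le_mul_of_nonneg_right (le_max_left _ _) hD)) ?_
    have hc0 : 0 ≤ cnt K (fun σ => ∃ t ∈ T, ‖σ (mon P (e 0)) - t‖ ≤ r) := Nat.cast_nonneg _
    refine le_trans ?_ (mul_le_mul_of_nonneg_right (le_max_right M (4 / κ)) hc0)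
    have h1 := mul_le_mul_of_nonneg_left hc (by positivity : (0 : ℝ) ≤ 4 / κ)
    have h2 : 4 / κ * (κ / 4 * (finrank ℚ K : ℝ)) = finrank ℚ K := by field_simp
    rwa [h2] at h1
  by_cases hcase : ∀ s ∈ S, ∀ t ∈ S, s ≠ t → vec B0 (s - t) ≠ 0
  · -- case one
    have hZ : (⋃ s ∈ S, ⋃ t ∈ S, ⋃ _ : s ≠ t, zset C G R η a0 (vec B0 (s - t))).Finite := by
      refine S.finite_toSet.biUnion fun s hs => S.finite_toSet.biUnion fun t ht => ?_
      refine Set.finite_iUnion fun hst => ?_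
      exact hfin _ (hcase s hs t ht hst) (vec_orth a0 B0 hort _)
    obtain ⟨r, N1, hr, hdeg⟩ := cnt_deg (max M (4 / κ)) hM'
      ((hZ.image (fun z => z 0)).toFinset)
    obtain ⟨ε, N, hε, hc⟩ := case_one hA M S hS p R η r hR hη hr a0 B0
    refine ⟨ε, max N N1, hε, ?_⟩
    intro K _ _ P a A hP h1 h2 h3
    refine (hend N1 r _ hdeg K P a A hP ?_).trans (le_max_right _ _)
    have h4 := hgood K P a A hP
    have h5 : cnt K (fun σ => pm e (cj σ P) ∈ bdp C G R η ∧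
        ∀ s ∈ S, η ≤ ‖Polynomial.aeval (mon (cj σ P) (e 0)) (p s)‖) ≤
        cnt K (fun σ => ∃ t ∈ (hZ.image (fun z => z 0)).toFinset,
          ‖σ (mon P (e 0)) - t‖ ≤ r) := by
      refine cnt_mono K fun σ hσ => ?_
      obtain ⟨s, hs, t, ht, hst, z, hz, hzr⟩ := hc K P a A hP h1 h2
        (le_trans (by exact_mod_cast le_max_left N N1) h3) σ hσ.1 hσ.2
      refine ⟨z 0, ?_, hzr⟩
      rw [Set.Finite.mem_toFinset]
      refine ⟨z, ?_, rfl⟩
      simp only [Set.mem_iUnion]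
      exact ⟨s, hs, t, ht, hst, hz⟩
    have hD : (0 : ℝ) ≤ finrank ℚ K := Nat.cast_nonneg _
    have h6 : κ / 4 * (finrank ℚ K : ℝ) ≤ κ / 2 * finrank ℚ K :=
      mul_le_mul_of_nonneg_right (by linarith) hD
    exact h6.trans (h4.trans h5)
  · -- case two
    push Not at hcase
    obtain ⟨s0, hs0, t0, ht0, hst, hv0⟩ := hcase
    obtain ⟨j0, hj0⟩ : ∃ j0, B0 j0 ≠ 0 := by
      by_contra hno
      push Not at hno
      have : B0 = 0 := funext hno
      rw [this, norm_zero] at hB0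
      exact zero_ne_one hB0
    have hZ : (zset C G R η a0 (B0 j0)).Finite := hfin _ hj0 (hort j0)
    obtain ⟨r, N1, hr, hdeg⟩ := cnt_deg (max M (4 / κ)) hM'
      ((hZ.image (fun z => z 0)).toFinset)
    obtain ⟨ε, N, hε, hc⟩ := case_two hA M hM S p R η r hR hr a0 B0 s0 t0 hs0 ht0 hst hv0 j0
    refine ⟨ε, max N N1, hε, ?_⟩
    intro K _ _ P a A hP h1 h2 h3
    refine (hend N1 r _ hdeg K P a A hP ?_).trans (le_max_right _ _)
    have h4 := hgood K P a A hP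
    have h5 := hc K P a A hP h1 h2 (le_trans (by exact_mod_cast le_max_left N N1) h3)
    have h6 : cnt K (fun σ => pm e (cj σ P) ∈ bdp C G R η ∧
        ∀ s ∈ S, η ≤ ‖Polynomial.aeval (mon (cj σ P) (e 0)) (p s)‖) ≤
        cnt K (fun σ => (∃ t ∈ (hZ.image (fun z => z 0)).toFinset,
          ‖σ (mon P (e 0)) - t‖ ≤ r) ∨ (pm e (cj σ P) ∈ bdp C G R η ∧
        ¬ ∃ z ∈ zset C G R η a0 (B0 j0), ‖σ (mon P (e 0)) - z 0‖ ≤ r)) := by
      refine cnt_mono K fun σ hσ => ?_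
      by_cases hz : ∃ z ∈ zset C G R η a0 (B0 j0), ‖σ (mon P (e 0)) - z 0‖ ≤ r
      · obtain ⟨z, hz, hzr⟩ := hz
        left
        refine ⟨z 0, ?_, hzr⟩
        rw [Set.Finite.mem_toFinset]
        exact ⟨z, hz, rfl⟩
      · exact Or.inr ⟨hσ.1, hz⟩
    have h7 := h6.trans (cnt_or K _ _)
    linarith

end Pool.Agent.Srf5F
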