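import Pool.Agent.Srf5F.BTwo
import Pool.Agent.Srf5F.BNear

set_option autoImplicit false

/-! First case: no difference of exponents is killed by the limit matrix. -/

namespace Pool.Agent.Srf5F

open MvPolynomial Module Height NumberField Pool.Agent.CITLines Pool.Agent.Srf5

/-- a form in three variables with small coefficients -/
private theorem one_form (x L : Fin 3 → ℝ) {b R : ℝ} (hx : ∀ i, |x i| ≤ b) (hL : ∀ i, |L i| ≤ R) :
    |∑ i, x i * L i| ≤ 3 * (b * R) := by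
  have hb : 0 ≤ b := (abs_nonneg _).trans (hx 0)
  calc |∑ i, x i * L i| ≤ ∑ i, |x i * L i| := Finset.abs_sum_le_sum_abs _ _
    _ ≤ ∑ _i : Fin 3, b * R := by
        refine Finset.sum_le_sum fun i _ => ?_
        rw [abs_mul]
        exact mul_le_mul (hx i) (hL i) (abs_nonneg _) hb
    _ = 3 * (b * R) := by simp

/-- the minimum of finitely many positive numbers -/
private theorem one_min {α : Type} (T : Finset α) (P : α → ℝ → Prop)
    (hmono : ∀ a x y, x ≤ y → P a y → P a x) (h : ∀ a ∈ T, ∃ δ : ℝ, 0 < δ ∧ P a δ) :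
    ∃ δ : ℝ, 0 < δ ∧ ∀ a ∈ T, P a δ := by
  classical
  induction T using Finset.induction_on with
  | empty => exact ⟨1, one_pos, fun a ha => absurd ha (Finset.notMem_empty a)⟩
  | insert a T ha ih =>
    obtain ⟨d1, h1, h2⟩ := ih fun b hb => h b (Finset.mem_insert_of_mem hb)
    obtain ⟨d2, h3, h4⟩ := h a (Finset.mem_insert_self a T)
    refine ⟨min d1 d2, lt_min h1 h3, fun b hb => ?_⟩
    rcases Finset.mem_insert.1 hb with rfl | hb
    · exact hmono _ _ _ (min_le_right _ _) h4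
    · exact hmono _ _ _ (min_le_left _ _) (h2 b hb)

/-- the relation between monomials for the conjugates -/
private theorem one_rel {K : Type} [Field K] [NumberField K] (P : Fin 5 → K) (σ : K →+* ℂ)
    (e0 : Fin 5 → ℤ) (S : Finset (Fin 5 → ℤ)) (p : (Fin 5 → ℤ) → Polynomial ℚ)
    (h : ∑ s ∈ S, Polynomial.aeval (mon P e0) (p s) * mon P s = 0) :
    ∑ s ∈ S, Polynomial.aeval (mon (cj σ P) e0) (p s) * mon (cj σ P) s = 0 := by
  have h1 := congrArg σ h
  rw [map_sum, map_zero] at h1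
  rw [← h1]
  refine Finset.sum_congr rfl fun s _ => ?_
  have hm : ∀ a : Fin 5 → ℤ, mon (cj σ P) a = σ (mon P a) := by
    intro a
    unfold mon cj
    rw [map_prod]
    exact Finset.prod_congr rfl fun i _ => (map_zpow₀ σ _ _).symm
  rw [map_mul, hm, hm]
  congr 1
  have h2 := Polynomial.aeval_algHom_apply (σ.toRatAlgHom) (mon P e0) (p s)
  exact h2

/-- **Case one.** Every good embedding is close to a point over one of finitely many lines.

Proof. `C0` from `comparable (e 0) S hS p R η`; for every pair `s ≠ t` of `S` let `δ_{s,t}` be from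
`near` for `u = a0`, `v = vec B0 (s - t)` and `r`, `δ` the minimum. Let `y = pm e (cj σ P)`,
`L = lg y`, `|L i| ≤ R`. By `h.lgP`: `log ‖cj σ P j‖ = ∑ i, A j i * L i`, and `h.rel` passes to
`cj σ P` (apply `σ`). So for one pair `s ≠ t` (`comparable`)
`|∑ i, vec A (s - t) i * L i| ≤ C0`. As `|A j i - ‖A‖ B0 j i| < ε ‖A‖`:
`‖A‖ |∑ i, vec B0 (s - t) i * L i| ≤ C0 + 15 T ε ‖A‖ R` where `T` bounds the `|s j - t j|`; with `‖A‖ ≥ N`
the form is at most `C0 / N + 15 T R ε ≤ δ`. And `∑ a0 i L i = ∑ (a0 i - a i) L i` (`h.arel`) is at most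
`3 ε R ≤ δ`. Apply `near`. -/
theorem case_one {F : Type} [Field F] [CharZero F] {w : Fin 5 → F} {e : Fin 3 → Fin 5 → ℤ}
    {C : Set (Fin 3 → ℂ)} {G : Polynomial ℚ} {κ : ℝ} (hA : Arch w e C G κ) (M : ℝ)
    (S : Finset (Fin 5 → ℤ)) (hS : 2 ≤ S.card) (p : (Fin 5 → ℤ) → Polynomial ℚ) (R η r : ℝ)
    (hR : 0 < R) (hη : 0 < η) (hr : 0 < r) (a0 : Fin 3 → ℝ) (B0 : Fin 5 → Fin 3 → ℝ) :
    ∃ (ε : ℝ) (N : ℕ), 0 < ε ∧ ∀ (K : Type) [Field K] [NumberField K] (P : Fin 5 → K)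
      (a : Fin 3 → ℝ) (A : Fin 5 → Fin 3 → ℝ), Pt w e G M S p P a A →
      (∀ i, |a i - a0 i| < ε) → (∀ j i, |A j i - ‖A‖ * B0 j i| < ε * ‖A‖) → (N : ℝ) ≤ ‖A‖ →
      ∀ σ : K →+* ℂ, pm e (cj σ P) ∈ bdp C G R η →
        (∀ s ∈ S, η ≤ ‖Polynomial.aeval (mon (cj σ P) (e 0)) (p s)‖) →
        ∃ s ∈ S, ∃ t ∈ S, s ≠ t ∧ ∃ z ∈ zset C G R η a0 (vec B0 (s - t)),
          ‖σ (mon P (e 0)) - z 0‖ ≤ r := by
  classical
  obtain ⟨C0, hC0, hcomp⟩ := comparable (e 0) S hS p R η hη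
  obtain ⟨δ, hδ0, hδ⟩ := one_min (S ×ˢ S)
    (fun q δ => ∀ y ∈ bdp C G R η, |∑ i, a0 i * lg y i| ≤ δ →
      |∑ i, vec B0 (q.1 - q.2) i * lg y i| ≤ δ →
      ∃ z ∈ zset C G R η a0 (vec B0 (q.1 - q.2)), ‖y 0 - z 0‖ ≤ r)
    (fun q x y hxy h z hz h1 h2 => h z hz (h1.trans hxy) (h2.trans hxy))
    (fun q _ => near hA a0 (vec B0 (q.1 - q.2)) R η r hr)
  -- a bound for the exponents
  set T : ℝ := ∑ q ∈ S ×ˢ S, ∑ j, |((q.1 - q.2) j : ℝ)| with hT
  have hT0 : 0 ≤ T := Finset.sum_nonneg fun q _ => Finset.sum_nonneg fun j _ => abs_nonneg _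
  have hTq : ∀ s ∈ S, ∀ t ∈ S, ∑ j, |((s - t) j : ℝ)| ≤ T := by
    intro s hs t ht
    exact Finset.single_le_sum (f := fun q : (Fin 5 → ℤ) × (Fin 5 → ℤ) =>
      ∑ j, |((q.1 - q.2) j : ℝ)|) (fun q _ => Finset.sum_nonneg fun j _ => abs_nonneg _)
      (show (s, t) ∈ S ×ˢ S from Finset.mem_product.2 ⟨hs, ht⟩)
  obtain ⟨N, hN⟩ := exists_nat_gt (2 * C0 / δ)
  have hε : 0 < δ / (6 * (T + 1) * R) := by positivity
  refine ⟨δ / (6 * (T + 1) * R), N + 1, hε, ?_⟩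
  intro K _ _ P a A h ha hAB hNA σ hσ hps
  set ε : ℝ := δ / (6 * (T + 1) * R) with hεd
  have hεR : ε * R * (6 * (T + 1)) = δ := by
    rw [hεd]
    field_simp
  set L := lg (pm e (cj σ P)) with hLd
  have hLR : ∀ i, |L i| ≤ R := hσ.2.1
  have hx : ∀ j, cj σ P j ≠ 0 := fun j => (map_ne_zero σ).2 (h.ne j)
  have hA0 : 0 < ‖A‖ := by
    have : (0 : ℝ) ≤ N := Nat.cast_nonneg _
    push_cast at hNA
    linarith
  obtain ⟨s, hs, t, ht, hst, hC⟩ := hcomp (cj σ P) hx (hLR 0) hps (one_rel P σ (e 0) S p h.rel)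
  refine ⟨s, hs, t, ht, hst, ?_⟩
  have hform : ∑ j, ((s - t) j : ℝ) * Real.log ‖cj σ P j‖ = ∑ i, vec A (s - t) i * L i := by
    have e1 : ∀ j, Real.log ‖cj σ P j‖ = ∑ i, A j i * L i := fun j => h.lgP σ j
    simp only [e1, vec, Finset.mul_sum, Finset.sum_mul]
    rw [Finset.sum_comm]
    refine Finset.sum_congr rfl fun i _ => Finset.sum_congr rfl fun j _ => ?_
    ring
  rw [hform] at hC
  have hdiff : |∑ i, (vec A (s - t) i - ‖A‖ * vec B0 (s - t) i) * L i| ≤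
      3 * (T * (ε * ‖A‖) * R) := by
    refine one_form _ _ (fun i => ?_) hLR
    have e1 : vec A (s - t) i - ‖A‖ * vec B0 (s - t) i =
        ∑ j, ((s - t) j : ℝ) * (A j i - ‖A‖ * B0 j i) := by
      unfold vec
      rw [Finset.mul_sum, ← Finset.sum_sub_distrib]
      exact Finset.sum_congr rfl fun j _ => by ring
    rw [e1]
    calc |∑ j, ((s - t) j : ℝ) * (A j i - ‖A‖ * B0 j i)|
        ≤ ∑ j, |((s - t) j : ℝ) * (A j i - ‖A‖ * B0 j i)| := Finset.abs_sum_le_sum_abs _ _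
      _ ≤ ∑ j, |((s - t) j : ℝ)| * (ε * ‖A‖) := by
          refine Finset.sum_le_sum fun j _ => ?_
          rw [abs_mul]
          exact mul_le_mul_of_nonneg_left (hAB j i).le (abs_nonneg _)
      _ = (∑ j, |((s - t) j : ℝ)|) * (ε * ‖A‖) := by rw [Finset.sum_mul]
      _ ≤ T * (ε * ‖A‖) := mul_le_mul_of_nonneg_right (hTq s hs t ht) (by positivity)
  have hsplit : ‖A‖ * ∑ i, vec B0 (s - t) i * L i = ∑ i, vec A (s - t) i * L i -
      ∑ i, (vec A (s - t) i - ‖A‖ * vec B0 (s - t) i) * L i := by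
    rw [Finset.mul_sum, ← Finset.sum_sub_distrib]
    exact Finset.sum_congr rfl fun i _ => by ring
  have h2 : |∑ i, vec B0 (s - t) i * L i| ≤ δ := by
    have e1 : ‖A‖ * |∑ i, vec B0 (s - t) i * L i| ≤ C0 + 3 * (T * (ε * ‖A‖) * R) := by
      rw [← abs_of_pos hA0, ← abs_mul, abs_of_pos hA0, hsplit]
      refine (abs_sub _ _).trans ?_
      linarith
    have e2 : C0 ≤ ‖A‖ * (δ / 2) := by
      have e3 : 2 * C0 / δ < ‖A‖ := by
        push_cast at hNA
        linarith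
      rw [div_lt_iff₀ hδ0] at e3
      linarith
    have e4 : 3 * (T * (ε * ‖A‖) * R) ≤ ‖A‖ * (δ / 2) := by
      have e5 : 3 * (T * (ε * ‖A‖) * R) = ‖A‖ * (3 * T * (ε * R)) := by ring
      rw [e5]
      refine mul_le_mul_of_nonneg_left ?_ hA0.le
      have e6 : 0 ≤ ε * R := by positivity
      nlinarith
    have e7 : ‖A‖ * |∑ i, vec B0 (s - t) i * L i| ≤ ‖A‖ * δ := by linarith
    exact le_of_mul_le_mul_left e7 hA0
  have h1 : |∑ i, a0 i * L i| ≤ δ := by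
    have e1 : ∑ i, a0 i * L i = ∑ i, (a0 i - a i) * L i := by
      have e2 := h.arel σ
      have e3 : ∑ i, (a0 i - a i) * L i = ∑ i, a0 i * L i - ∑ i, a i * L i := by
        rw [← Finset.sum_sub_distrib]
        exact Finset.sum_congr rfl fun i _ => by ring
      rw [e3, e2, sub_zero]
    rw [e1]
    refine (one_form _ _ (fun i => ?_) hLR (b := ε)).trans ?_
    · rw [abs_sub_comm]
      exact (ha i).le
    · have e6 : 0 ≤ ε * R := by positivity
      nlinarith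
  obtain ⟨z, hz, hz1⟩ := hδ (s, t) (Finset.mem_product.2 ⟨hs, ht⟩) _ hσ h1 h2
  refine ⟨z, hz, ?_⟩
  have e1 : pm e (cj σ P) 0 = σ (mon P (e 0)) := by
    change mon (cj σ P) (e 0) = _
    unfold mon cj
    rw [map_prod]
    exact Finset.prod_congr rfl fun i _ => (map_zpow₀ σ _ _).symm
  rw [← e1]
  exact hz1

end Pool.Agent.Srf5F
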