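import Pool.Agent.Srf5F.BDefs

set_option autoImplicit false

/-! The two largest terms of a vanishing sum. -/

namespace Pool.Agent.Srf5F

open MvPolynomial Module Pool.Agent.CITLines Pool.Agent.Srf5

/-- Proof. `s` = index of a term of maximal absolute value, `t` = the same in `S.erase s`. Then
`‖c s‖ = ‖∑ over the others‖ ≤ (S.card - 1) ‖c t‖ ≤ S.card ‖c t‖` and `‖c t‖ ≤ ‖c s‖`. -/
theorem two_terms {ι : Type} (S : Finset ι) (hS : 2 ≤ S.card) (c : ι → ℂ)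
    (hc : ∀ s ∈ S, c s ≠ 0) (h : ∑ s ∈ S, c s = 0) :
    ∃ s ∈ S, ∃ t ∈ S, s ≠ t ∧ |Real.log ‖c s‖ - Real.log ‖c t‖| ≤ Real.log S.card := by
  classical
  have hne : S.Nonempty := Finset.card_pos.1 (by omega)
  obtain ⟨s, hs, hsmax⟩ := S.exists_max_image (fun i => ‖c i‖) hne
  have hcard : (S.erase s).card = S.card - 1 := Finset.card_erase_of_mem hs
  have hne' : (S.erase s).Nonempty := Finset.card_pos.1 (by omega)
  obtain ⟨t, ht, htmax⟩ := (S.erase s).exists_max_image (fun i => ‖c i‖) hne'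
  have htS : t ∈ S := Finset.mem_of_mem_erase ht
  have hts : t ≠ s := Finset.ne_of_mem_erase ht
  have hcs : 0 < ‖c s‖ := norm_pos_iff.2 (hc s hs)
  have hct : 0 < ‖c t‖ := norm_pos_iff.2 (hc t htS)
  have hcp : (0 : ℝ) < S.card := by exact_mod_cast (by omega : 0 < S.card)
  refine ⟨s, hs, t, htS, hts.symm, ?_⟩
  have h1 : ‖c s‖ ≤ S.card * ‖c t‖ := by
    have h2 : c s = -∑ i ∈ S.erase s, c i := by
      rw [← Finset.add_sum_erase S c hs] at h
      linear_combination h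
    rw [h2, norm_neg]
    calc ‖∑ i ∈ S.erase s, c i‖ ≤ ∑ i ∈ S.erase s, ‖c i‖ := norm_sum_le _ _
      _ ≤ ∑ i ∈ S.erase s, ‖c t‖ := Finset.sum_le_sum fun i hi => htmax i hi
      _ = ((S.erase s).card : ℝ) * ‖c t‖ := by rw [Finset.sum_const, nsmul_eq_mul]
      _ ≤ S.card * ‖c t‖ := by
        refine mul_le_mul_of_nonneg_right ?_ hct.le
        exact_mod_cast (by omega : (S.erase s).card ≤ S.card)
  have h2 : Real.log ‖c t‖ ≤ Real.log ‖c s‖ := Real.log_le_log hct (hsmax t htS)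
  have h3 : Real.log ‖c s‖ ≤ Real.log S.card + Real.log ‖c t‖ := by
    rw [← Real.log_mul hcp.ne' hct.ne']
    exact Real.log_le_log hcs h1
  rw [abs_of_nonneg (by linarith)]
  linarith

private theorem two_aeval (q : Polynomial ℚ) (M : ℝ) {z : ℂ} (hz : ‖z‖ ≤ M) :
    ‖Polynomial.aeval z q‖ ≤ ∑ i ∈ q.support, ‖(q.coeff i : ℂ)‖ * M ^ i := by
  rw [Polynomial.aeval_def, Polynomial.eval₂_eq_sum, Polynomial.sum]
  refine (norm_sum_le _ _).trans (Finset.sum_le_sum fun i _ => ?_)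
  rw [norm_mul, norm_pow]
  refine mul_le_mul (le_of_eq rfl) (pow_le_pow_left₀ (norm_nonneg z) hz i)
    (pow_nonneg (norm_nonneg z) i) (norm_nonneg _)

private theorem two_log (x : Fin 5 → ℂ) (hx : ∀ j, x j ≠ 0) (s : Fin 5 → ℤ) :
    mon x s ≠ 0 ∧ Real.log ‖mon x s‖ = ∑ j, (s j : ℝ) * Real.log ‖x j‖ := by
  have h0 : ∀ j, x j ^ s j ≠ 0 := fun j => zpow_ne_zero _ (hx j)
  refine ⟨Finset.prod_ne_zero_iff.2 fun j _ => h0 j, ?_⟩
  rw [mon, norm_prod, Real.log_prod (fun j _ => norm_ne_zero_iff.2 (h0 j))]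
  refine Finset.sum_congr rfl fun j _ => ?_
  rw [norm_zpow, Real.log_zpow]

/-- **Comparable terms.**

Proof. `two_terms` for `c s = aeval (mon x (e 0)) (p s) * mon x s`. Here
`log ‖mon x s‖ = ∑ j, s j * log ‖x j‖`, and `|log ‖aeval (mon x (e 0)) (p s)‖|` is bounded on
`‖mon x (e 0)‖ ≤ exp R`: from below by `log η`, from above by `log (1 + ∑ |coeff| exp (R i))`. -/
theorem comparable (e0 : Fin 5 → ℤ) (S : Finset (Fin 5 → ℤ)) (hS : 2 ≤ S.card)
    (p : (Fin 5 → ℤ) → Polynomial ℚ) (R η : ℝ) (hη : 0 < η) :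
    ∃ C0 : ℝ, 0 ≤ C0 ∧ ∀ x : Fin 5 → ℂ, (∀ j, x j ≠ 0) → |Real.log ‖mon x e0‖| ≤ R →
      (∀ s ∈ S, η ≤ ‖Polynomial.aeval (mon x e0) (p s)‖) →
      ∑ s ∈ S, Polynomial.aeval (mon x e0) (p s) * mon x s = 0 →
      ∃ s ∈ S, ∃ t ∈ S, s ≠ t ∧ |∑ j, ((s - t) j : ℝ) * Real.log ‖x j‖| ≤ C0 := by
  let T : (Fin 5 → ℤ) → ℝ := fun s =>
    ∑ i ∈ (p s).support, ‖((p s).coeff i : ℂ)‖ * Real.exp R ^ i
  have hT : ∀ s, 0 ≤ T s := fun s => Finset.sum_nonneg fun i _ =>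
    mul_nonneg (norm_nonneg _) (pow_nonneg (Real.exp_pos R).le i)
  let U : ℝ := ∑ s ∈ S, T s
  have hU : ∀ s ∈ S, T s ≤ U := fun s hs =>
    Finset.single_le_sum (f := T) (fun i _ => hT i) hs
  have hlogcard : 0 ≤ Real.log S.card := Real.log_natCast_nonneg _
  refine ⟨Real.log S.card + 2 * (|Real.log η| + |Real.log U|), by positivity, ?_⟩
  intro x hx hR hlow hsum
  have hz : ‖mon x e0‖ ≤ Real.exp R := by
    rw [← Real.log_le_iff_le_exp (norm_pos_iff.2 (two_log x hx e0).1)]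
    exact (abs_le.1 hR).2
  have hp : ∀ s ∈ S, |Real.log ‖Polynomial.aeval (mon x e0) (p s)‖| ≤
      |Real.log η| + |Real.log U| := by
    intro s hs
    have h1 := hlow s hs
    have h2 : ‖Polynomial.aeval (mon x e0) (p s)‖ ≤ U :=
      (two_aeval (p s) _ hz).trans (hU s hs)
    have h3 : Real.log η ≤ Real.log ‖Polynomial.aeval (mon x e0) (p s)‖ :=
      Real.log_le_log hη h1
    have h4 : Real.log ‖Polynomial.aeval (mon x e0) (p s)‖ ≤ Real.log U :=
      Real.log_le_log (hη.trans_le h1) h2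
    have h5 := neg_abs_le (Real.log η)
    have h6 := le_abs_self (Real.log U)
    have h7 := abs_nonneg (Real.log η)
    have h8 := abs_nonneg (Real.log U)
    rw [abs_le]
    constructor <;> linarith
  have hpne : ∀ s ∈ S, Polynomial.aeval (mon x e0) (p s) ≠ 0 := by
    intro s hs h
    have := hlow s hs
    rw [h, norm_zero] at this
    linarith
  obtain ⟨s, hs, t, ht, hst, hab⟩ := two_terms S hS
    (fun s => Polynomial.aeval (mon x e0) (p s) * mon x s)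
    (fun s hs => mul_ne_zero (hpne s hs) (two_log x hx s).1) hsum
  refine ⟨s, hs, t, ht, hst, ?_⟩
  have h1 : ∀ r ∈ S, Real.log ‖Polynomial.aeval (mon x e0) (p r) * mon x r‖ =
      Real.log ‖Polynomial.aeval (mon x e0) (p r)‖ + ∑ j, (r j : ℝ) * Real.log ‖x j‖ := by
    intro r hr
    rw [norm_mul, Real.log_mul (norm_ne_zero_iff.2 (hpne r hr))
      (norm_ne_zero_iff.2 (two_log x hx r).1), (two_log x hx r).2]
  have h2 : ∑ j, ((s - t) j : ℝ) * Real.log ‖x j‖ =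
      ∑ j, (s j : ℝ) * Real.log ‖x j‖ - ∑ j, (t j : ℝ) * Real.log ‖x j‖ := by
    rw [← Finset.sum_sub_distrib]
    refine Finset.sum_congr rfl fun j _ => ?_
    rw [Pi.sub_apply, Int.cast_sub, sub_mul]
  rw [h1 s hs, h1 t ht] at hab
  have h3 := abs_le.1 (hp s hs)
  have h4 := abs_le.1 (hp t ht)
  have h5 := abs_le.1 hab
  rw [h2, abs_le]
  constructor <;> linarith

end Pool.Agent.Srf5F
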