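import Pool.Agent.Srf5F.SDefs

set_option autoImplicit false

/-! Package S5: from points over number fields to complex points.

PROOF of `rkList_cpx`. All `y i` are algebraic over `ℚ`: `K = IntermediateField.adjoin ℚ (Set.range
y)` is a number field, `P i = ⟨y i, _⟩`; `kr ℚ P = kr ℚ y` (injective algebra map), `RankLe k P`
from
`RankLe k y` with the same `U`. `hE` gives `a ∈ E`. The same argument is in `Srf5.cpx_points`
(Srf5/CpxPts.lean).
PROOF of `alg_of_rel`. If some `y i` is transcendental over `ℚ` then `1 ≤ dm (kr ℚ y)` (`dm_kr`,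
`rk_range_of_indep`), and `dm (kr ℚ y) ≤ dm (kr ℚ v) = 1`, so `kr ℚ y = kr ℚ v`
(`dm_strictAnti`); `relZ_mono` gives that `mon v a` is a root of unity, in contradiction to
`hv.tr`.
PROOF of `rank_of_two`. `U = Submodule.span ℚ {cst t1, cst t2}` has dimension two (`cst` keeps
independence: clear denominators or `LinearIndependent` over `ℤ` and `ℚ`). If `cst a ∈ U` then
`N • a = x • t1 + z • t2` with integers `N ≠ 0, x, z`, so `(mon y a)^N` is a root of unity
(`mon_add'`, `mon_smul`, `RU.mul`, `RU.zpow`), `RU.of_zpow`. -/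

namespace Pool.Agent.Srf5F

open MvPolynomial Pool.Agent.CITLines Pool.Agent.Srf5 Module

theorem rkList_cpx {F : Type} [Field F] [CharZero F] {m k : ℕ} {v : Fin m → F}
    {E : Finset (Fin m → ℤ)} (hE : RkList k v E) (y : Fin m → ℂ) (hy : ∀ i, y i ≠ 0)
    (halg : ∀ i, IsAlgebraic ℚ (y i)) (hle : kr ℚ v ≤ kr ℚ y) (hrk : LThree.RankLe k y) :
    ∃ a ∈ E, mon y a = 1 := by
  let K := IntermediateField.adjoin ℚ (Set.range y)
  have hfin : FiniteDimensional ℚ K := by
    refine IntermediateField.finiteDimensional_adjoin (S := Set.range y) ?_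
    rintro _ ⟨i, rfl⟩
    exact (halg i).isIntegral
  have hNF : NumberField K := by
    refine { to_charZero := inferInstance, to_finiteDimensional := ?_ }
    convert hfin
  have hmem : ∀ i, y i ∈ K := fun i => IntermediateField.subset_adjoin _ _ ⟨i, rfl⟩
  let x : Fin m → K := fun i => ⟨y i, hmem _⟩
  let φ : K →+* ℂ := K.val.toRingHom
  have hφx : ∀ i, φ (x i) = y i := fun _ => rfl
  have hmonx : ∀ a : Fin m → ℤ, φ (mon x a) = mon y a := by
    intro a
    unfold mon
    rw [map_prod]
    refine Finset.prod_congr rfl fun i _ => ?_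
    rw [map_zpow₀, hφx]
  have hA : kr ℚ v ≤ kr ℚ x := by
    intro f hf
    have h2 := hle hf
    rw [mem_kr] at h2 ⊢
    apply φ.injective
    rw [map_zero, ← h2, aeval_def, aeval_def, ← coe_eval₂Hom, ← coe_eval₂Hom]
    change (φ.comp (eval₂Hom (algebraMap ℚ K) x)) f = _
    congr 1
    apply MvPolynomial.ringHom_ext
    · intro r
      simp
    · intro i
      simp only [RingHom.comp_apply, coe_eval₂Hom, eval₂_X]
      exact hφx i
  have hB : LThree.RankLe k x := by
    obtain ⟨U, hU, hrel⟩ := hrk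
    refine ⟨U, hU, fun a haU => ?_⟩
    obtain ⟨n, hn, h1⟩ := hrel a haU
    refine ⟨n, hn, ?_⟩
    apply φ.injective
    rw [map_one, map_pow, ← h1]
    congr 1
    exact hmonx a
  obtain ⟨a, ha, h1⟩ := hE.2 K x (fun i h => hy i (by rw [← hφx i, h, map_zero])) hA hB
  refine ⟨a, ha, ?_⟩
  rw [← hmonx, h1, map_one]

theorem alg_of_rel {F : Type} [Field F] [CharZero F] {m : ℕ} {v : Fin m → F} (hv : Cv ℚ v)
    (y : Fin m → ℂ) (hy : ∀ i, y i ≠ 0) (hle : kr ℚ v ≤ kr ℚ y) (a : Fin m → ℤ) (ha : a ≠ 0)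
    (h1 : RU (mon y a)) : ∀ i, IsAlgebraic ℚ (y i) := by
  intro i
  by_contra h
  have h2 : 1 ≤ dm (kr ℚ y) := by
    have h3 : AlgebraicIndependent ℚ ![y i] := by
      have h4 : Transcendental ℚ (![y i] default) := h
      exact (algebraicIndependent_unique_type_iff (x := ![y i])).2 h4
    have h4 := rk_range_of_indep _ h3
    have h5 : rk ℚ (Set.range ![y i]) ≤ rk ℚ (Set.range y) := by
      refine rk_mono ?_
      rintro _ ⟨j, rfl⟩
      fin_cases j
      exact ⟨i, rfl⟩
    rw [h4, ← dm_kr, Fintype.card_fin] at h5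
    exact_mod_cast h5
  have h3 : kr ℚ v = kr ℚ y := by
    by_contra hne
    have h4 := dm_strictAnti (lt_of_le_of_ne hle hne)
    rw [hv.dim] at h4
    omega
  have h4 : RU (mon v a) := relZ_mono (k := ℚ) hy hv.ne h3.ge h1
  obtain ⟨n, hn, h5⟩ := h4
  refine hv.tr a ha (IsAlgebraic.of_pow hn ?_)
  rw [h5]
  exact isAlgebraic_one

theorem rank_of_two {K : Type} [Field K] {m k : ℕ} (hm : m = k + 2) (y : Fin m → K)
    (hy : ∀ i, y i ≠ 0) (t1 t2 : Fin m → ℤ) (h : LinearIndependent ℤ ![t1, t2])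
    (h1 : RU (mon y t1)) (h2 : RU (mon y t2)) : LThree.RankLe k y := by
  refine ⟨QS (relZ y), ?_, fun a ha => ?_⟩
  · rw [Fintype.card_fin]
    have h3 : LinearIndependent ℚ ![cst t1, cst t2] := by
      rw [LinearIndependent.pair_iff] at h ⊢
      intro s t hst
      obtain ⟨n, hn, c, hc⟩ := exists_clear ![s, t]
      have hc0 := hc 0
      have hc1 := hc 1
      simp only [Matrix.cons_val_zero, Matrix.cons_val_one] at hc0 hc1
      have h5 := h (c 0) (c 1) (by
        funext i
        have h6 := congrFun hst i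
        simp only [Pi.add_apply, Pi.smul_apply, smul_eq_mul, Pi.zero_apply, cst_apply] at h6 ⊢
        have h7 : ((c 0 * t1 i + c 1 * t2 i : ℤ) : ℚ) = 0 := by
          push_cast
          rw [hc0, hc1]
          linear_combination (n : ℚ) * h6
        exact_mod_cast h7)
      have hn' : (n : ℚ) ≠ 0 := by exact_mod_cast hn
      rw [h5.1, Int.cast_zero] at hc0
      rw [h5.2, Int.cast_zero] at hc1
      exact ⟨(mul_eq_zero.1 hc0.symm).resolve_left hn', (mul_eq_zero.1 hc1.symm).resolve_left hn'⟩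
    have h4 : Submodule.span ℚ (Set.range ![cst t1, cst t2]) ≤ QS (relZ y) := by
      rw [Submodule.span_le]
      rintro _ ⟨j, rfl⟩
      fin_cases j
      · exact cst_mem_QS h1
      · exact cst_mem_QS h2
    have h5 := Submodule.finrank_mono h4
    rw [finrank_span_eq_card h3, Fintype.card_fin] at h5
    omega
  · exact cst_mem_QS_relZ.1 ha

end Pool.Agent.Srf5F
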