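import Pool.Agent.Srf5F.CPts
import Pool.Agent.Srf5F.RkCpx
import Pool.Agent.Srf5F.TrIff
import Pool.Agent.Srf5.FinCurves

set_option autoImplicit false

/-! Package S8: the lists for the big lattices.

PROOF of `big_one`. `s + 1 = k + 2`. `v = pm e w` is a curve in no proper coset over `ℚ`
(`cv_of_dep`, with `dep_iff` from `hdep` over `ℂ`, and `sf_iff`), let `E'` be from `cpts`,
`E = E'.image (fun a => ∑ j, a j • e j)`; `0 ∉ E` because `e` is linearly independent. Let `Ω, ξ,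
l, m` be as in `OneList`. The `mon ξ (e j)` are algebraic over `ℂ` (`e j ∈ Λ = Lam ℂ ξ`), so equal
to
`algebraMap ℂ Ω (y j)` (`minpoly.mem_range_of_degree_eq_one`, see `Srf5.LamFin_range`). `y j ≠ 0`.
`kr ℚ v ≤ kr ℚ (pm e ξ) = kr ℚ y` (`kr_pm_le` and `kr ℚ w ≤ kr ℚ ξ`, from `kr ℂ w ≤ kr ℂ ξ` by
`IQ_eq_kr`, `IQ_mono`; `algebraMap` is injective). By `hspan` there are `N1, N2 ≠ 0` and
`t1, t2 : Fin (s+1) → ℤ` with `N1 • l = ∑ j, t1 j • e j`, `N2 • m = ∑ j, t2 j • e j` (`l, m ∈ Λ`: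
roots of unity are algebraic); `t1, t2` are independent because `l, m` are; `mon y t1`, `mon y t2`
are roots of unity (`mon_pm`: `algebraMap (mon y t) = mon (pm e ξ) t = mon ξ (∑ t j • e j)`). So
`RankLe k y` (`rank_of_two`), `y` is algebraic (`alg_of_rel`), and `rkList_cpx` gives `a ∈ E'`
with `mon y a = 1`, so `mon ξ (∑ a j • e j) = 1`.
PROOF of `big_list`. `Λ` with pairwise dependent monomials and three independent vectors `c`.
If there is no `Ω, ξ` with `dm (kr ℂ ξ) = 1`, `Lam ℂ ξ = Λ`: `E = ∅`. Otherwise `Λ` contains no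
five independent vectors (all `ξ i` would be algebraic over `ℂ`: a multiple of `single i 1` would be
a combination; `dm (kr ℂ ξ) = 0`), and it is closed under addition. If `Λ` contains four
independent vectors take `e` = these (`k = 2`), otherwise `e = c` (`k = 1`); `hspan`: a vector
`a ∈ Λ` which is not a rational combination of the `e j` would give one more independent vector
(`linearIndependent_fin_snoc`/`fin_cons` over `ℚ`, or: `¬ LinearIndependent ℤ (Fin.snoc e a)` gives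
a relation with a nonzero coefficient at `a`). -/

namespace Pool.Agent.Srf5F

open MvPolynomial Pool.Agent.CITLines Pool.Agent.Srf5

private theorem Big_single {K : Type} [Field K] {n : ℕ} (w : Fin n → K) (i : Fin n) :
    mon w (Pi.single i 1) = w i := by
  unfold mon
  rw [Finset.prod_eq_single i]
  · rw [Pi.single_eq_same, zpow_one]
  · intro j _ hj
    rw [Pi.single_eq_of_ne hj, zpow_zero]
  · intro h
    exact absurd (Finset.mem_univ i) h

private theorem Big_zpow {k K : Type} [Field k] [Field K] [Algebra k K] {x : K}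
    (h : IsAlgebraic k x) (n : ℤ) : IsAlgebraic k (x ^ n) := by
  cases n with
  | ofNat n =>
    rw [Int.ofNat_eq_natCast, zpow_natCast]
    exact h.pow n
  | negSucc n =>
    rw [zpow_negSucc]
    exact (h.pow (n + 1)).inv

private theorem Big_range {K : Type} [Field K] [Algebra ℂ K] {x : K} (h : IsAlgebraic ℂ x) :
    ∃ y : ℂ, algebraMap ℂ K y = x := by
  have h1 := IsAlgClosed.degree_eq_one_of_irreducible ℂ (minpoly.irreducible h.isIntegral)
  rw [minpoly.degree_eq_one_iff] at h1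
  exact h1

private theorem Big_ru {K : Type} [Field K] [Algebra ℂ K] {x : K} (h : RU x) :
    IsAlgebraic ℂ x := by
  obtain ⟨ζ, -, rfl⟩ := h.exists_complex
  exact isAlgebraic_algebraMap ζ

/-- The lattice of the constant monomials. -/
private def Big_L {K : Type} [Field K] [Algebra ℂ K] {n : ℕ} (w : Fin n → K)
    (hw : ∀ i, w i ≠ 0) : Submodule ℤ (Fin n → ℤ) where
  carrier := Lam ℂ w
  zero_mem' := by
    change IsAlgebraic ℂ (mon w 0)
    rw [mon_zero]
    exact isAlgebraic_one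
  add_mem' := by
    intro a b ha hb
    change IsAlgebraic ℂ (mon w (a + b))
    rw [mon_add' hw]
    exact IsAlgebraic.mul ha hb
  smul_mem' := by
    intro N a ha
    change IsAlgebraic ℂ (mon w (N • a))
    rw [mon_smul]
    exact Big_zpow ha N

private theorem Big_mem {K : Type} [Field K] [Algebra ℂ K] {n : ℕ} (w : Fin n → K)
    (hw : ∀ i, w i ≠ 0) (a : Fin n → ℤ) : a ∈ Big_L w hw ↔ a ∈ Lam ℂ w := Iff.rfl

private theorem Big_rank {K : Type} [Field K] [Algebra ℂ K] {n : ℕ} (w : Fin n → K)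
    (hw : ∀ i, w i ≠ 0) (hd : dm (kr ℂ w) = 1) : Module.finrank ℤ (Big_L w hw) ≠ n := by
  intro h
  have hfin : Finite ((Fin n → ℤ) ⧸ Big_L w hw) :=
    Submodule.finiteQuotientOfFreeOfRankEq _ (by rw [h, Module.finrank_fin_fun])
  have halg : ∀ i, IsAlgebraic ℂ (w i) := by
    intro i
    have h1 : Nat.card ((Fin n → ℤ) ⧸ Big_L w hw) •
        (Submodule.Quotient.mk (p := Big_L w hw) (Pi.single i (1 : ℤ))) = 0 :=
      card_nsmul_eq_zero'
    rw [← Submodule.Quotient.mk_smul, Submodule.Quotient.mk_eq_zero, Big_mem] at h1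
    have h2 : IsAlgebraic ℂ (mon w (Nat.card ((Fin n → ℤ) ⧸ Big_L w hw) •
        (Pi.single i (1 : ℤ)))) := h1
    rw [← natCast_zsmul, mon_smul, Big_single, zpow_natCast] at h2
    exact h2.of_pow Nat.card_pos
  have h3 := dm_kr (k := ℂ) w
  rw [hd] at h3
  have h4 : rk ℂ (Set.range w) ≤ rk ℂ (∅ : Set K) := by
    refine rk_le_of_algebraic ?_
    rintro _ ⟨i, rfl⟩
    exact (halg i).extendScalars (FaithfulSMul.algebraMap_injective _ _)
  have h5 := rk_le_encard (k := ℂ) (∅ : Set K)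
  rw [Set.encard_empty] at h5
  have h6 := h4.trans h5
  rw [← h3] at h6
  exact absurd h6 (by norm_num)

theorem big_one {F : Type} [Field F] [Algebra ℂ F] [CharZero F] {s k : ℕ} (hk : k = 1 ∨ k = 2)
    (hs : s + 1 = k + 2) (w : Fin 5 → F) (hw : Sf ℂ w) (hQ : dm (kr ℚ w) = 2)
    (Λ : Set (Fin 5 → ℤ)) (e : Fin (s + 1) → Fin 5 → ℤ) (he : LinearIndependent ℤ e)
    (heΛ : ∀ i, e i ∈ Λ) (hdep : ∀ i, Dep ℂ w (e 0) (e i))
    (hspan : ∀ a ∈ Λ, ∃ (N : ℤ) (t : Fin (s + 1) → ℤ), N ≠ 0 ∧ N • a = ∑ j, t j • e j) :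
    ∃ E, OneList w Λ E := by
  have hwQ : Sf ℚ w := (sf_iff w hw.ne hQ hw.dim).1 hw
  have hv : Cv ℚ (pm e w) :=
    cv_of_dep hwQ e he fun i => (dep_iff w hw.ne hQ hw.dim _ _).1 (hdep i)
  obtain ⟨E', hE'⟩ := cpts hk hs (pm e w) hv
  have hinj : ∀ a : Fin (s + 1) → ℤ, psiZ e a = 0 → a = 0 := by
    intro a ha
    rw [psiZ_apply] at ha
    funext i
    exact Fintype.linearIndependent_iff.1 he a ha i
  classical
  refine ⟨E'.image (psiZ e), ?_, ?_⟩
  · intro h0
    obtain ⟨a, ha, ha0⟩ := Finset.mem_image.1 h0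
    rw [hinj a ha0] at ha
    exact hE'.1 ha
  · intro Ω _ _ ξ hξ hle hd hΛ l m hlm hl hm
    have : CharZero Ω := charZero_of_injective_algebraMap (algebraMap ℂ Ω).injective
    have halgΛ : ∀ a ∈ Λ, IsAlgebraic ℂ (mon ξ a) := by
      intro a ha
      rw [← hΛ] at ha
      exact ha
    have hy : ∀ j, ∃ y : ℂ, algebraMap ℂ Ω y = pm e ξ j := by
      intro j
      exact Big_range (halgΛ _ (heΛ j))
    choose y hy using hy
    have hy0 : ∀ j, y j ≠ 0 := by
      intro j h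
      have h1 := hy j
      rw [h, map_zero] at h1
      exact pm_ne_zero e hξ j h1.symm
    have hmon : ∀ a : Fin (s + 1) → ℤ, algebraMap ℂ Ω (mon y a) = mon ξ (psiZ e a) := by
      intro a
      rw [← mon_pm e hξ]
      unfold mon
      rw [map_prod]
      refine Finset.prod_congr rfl fun j _ => ?_
      rw [map_zpow₀, hy]
    have hleQ : kr ℚ w ≤ kr ℚ ξ := by
      rw [← IQ_eq_kr, ← IQ_eq_kr]
      exact IQ_mono hle
    have hle' : kr ℚ (pm e w) ≤ kr ℚ y := by
      refine (kr_pm_le hξ hleQ e).trans ?_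
      intro f hf
      have h1 : aeval (pm e ξ) f = 0 := mem_kr.1 hf
      have h2 : pm e ξ = algebraMap ℂ Ω ∘ y := by
        funext j
        exact (hy j).symm
      rw [h2, MvPolynomial.aeval_algebraMap_apply] at h1
      rw [mem_kr]
      exact (map_eq_zero_iff _ (algebraMap ℂ Ω).injective).1 h1
    have hru : ∀ a : Fin (s + 1) → ℤ, RU (mon ξ (psiZ e a)) → RU (mon y a) := by
      rintro a ⟨N, hN, h1⟩
      refine ⟨N, hN, (algebraMap ℂ Ω).injective ?_⟩
      rw [map_pow, hmon, h1, map_one]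
    have hmemΛ : ∀ a : Fin 5 → ℤ, RU (mon ξ a) → a ∈ Λ := by
      intro a ha
      rw [← hΛ]
      exact Big_ru ha
    obtain ⟨N1, t1, hN1, ht1⟩ := hspan l (hmemΛ l hl)
    obtain ⟨N2, t2, hN2, ht2⟩ := hspan m (hmemΛ m hm)
    rw [← psiZ_apply] at ht1 ht2
    have hr1 : RU (mon y t1) := by
      refine hru _ ?_
      rw [← ht1, mon_smul]
      exact hl.zpow _
    have hr2 : RU (mon y t2) := by
      refine hru _ ?_
      rw [← ht2, mon_smul]
      exact hm.zpow _
    have hind : LinearIndependent ℤ ![t1, t2] := by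
      rw [LinearIndependent.pair_iff] at hlm ⊢
      intro a b hab
      have h1 := congrArg (psiZ e) hab
      rw [map_add, map_smul, map_smul, map_zero, ← ht1, ← ht2, smul_smul, smul_smul] at h1
      obtain ⟨h2, h3⟩ := hlm _ _ h1
      exact ⟨(mul_eq_zero.1 h2).resolve_right hN1, (mul_eq_zero.1 h3).resolve_right hN2⟩
    have ht0 : t1 ≠ 0 := by
      intro h
      have h1 := hind.ne_zero 0
      exact h1 h
    obtain ⟨a, ha, ha1⟩ := rkList_cpx hE' y hy0 (alg_of_rel hv y hy0 hle' t1 ht0 hr1) hle'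
      (rank_of_two hs y hy0 t1 t2 hind hr1 hr2)
    refine ⟨psiZ e a, Finset.mem_image_of_mem _ ha, ?_⟩
    rw [← hmon, ha1, map_one]

theorem big_list {F : Type} [Field F] [Algebra ℂ F] [CharZero F] (w : Fin 5 → F) (hw : Sf ℂ w)
    (hQ : dm (kr ℚ w) = 2) : BigList w := by
  intro Λ hdep hc
  classical
  by_cases hex : ∃ (Ω : Type) (_ : Field Ω) (_ : Algebra ℂ Ω) (ξ : Fin 5 → Ω),
      (∀ i, ξ i ≠ 0) ∧ dm (kr ℂ ξ) = 1 ∧ Lam ℂ ξ = Λ
  swap
  · refine ⟨∅, Finset.notMem_empty _, ?_⟩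
    intro Ω _ _ ξ hξ hle hd hΛ
    exact absurd ⟨Ω, inferInstance, inferInstance, ξ, hξ, hd, hΛ⟩ hex
  obtain ⟨Ω, _, _, ξ, hξ, hd, hΛ⟩ := hex
  obtain ⟨c, hc, hcΛ⟩ := hc
  have hmem : ∀ a, a ∈ Big_L ξ hξ ↔ a ∈ Λ := by
    intro a
    rw [Big_mem, hΛ]
  have hr5 := Big_rank ξ hξ hd
  have hle5 : Module.finrank ℤ (Big_L ξ hξ) ≤ 5 := by
    have h1 := Submodule.finrank_le (Big_L ξ hξ)
    rwa [Module.finrank_fin_fun] at h1
  have hge3 : 3 ≤ Module.finrank ℤ (Big_L ξ hξ) := by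
    have h1 : LinearIndependent ℤ (fun i : Fin 3 => (⟨c i, (hmem _).2 (hcΛ i)⟩ : Big_L ξ hξ)) :=
      LinearIndependent.of_comp (Big_L ξ hξ).subtype hc
    have h2 := h1.fintype_card_le_finrank
    rwa [Fintype.card_fin] at h2
  have key : ∀ (s k : ℕ), (k = 1 ∨ k = 2) → s + 1 = k + 2 →
      Module.finrank ℤ (Big_L ξ hξ) = s + 1 → ∃ E, OneList w Λ E := by
    intro s k hk hs hrank
    obtain ⟨b⟩ : Nonempty (Module.Basis (Fin (s + 1)) ℤ (Big_L ξ hξ)) :=
      ⟨Module.finBasisOfFinrankEq ℤ _ hrank⟩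
    have he : LinearIndependent ℤ (fun j => (b j : Fin 5 → ℤ)) :=
      b.linearIndependent.map' (Big_L ξ hξ).subtype (Submodule.ker_subtype _)
    have heΛ : ∀ j, (b j : Fin 5 → ℤ) ∈ Λ := fun j => (hmem _).1 (b j).2
    refine big_one hk hs w hw hQ Λ (fun j => (b j : Fin 5 → ℤ)) he heΛ
      (fun i => hdep _ (heΛ 0) _ (heΛ i)) ?_
    intro a ha
    refine ⟨1, fun j => b.repr ⟨a, (hmem a).2 ha⟩ j, one_ne_zero, ?_⟩
    have h1 := b.sum_repr ⟨a, (hmem a).2 ha⟩
    have h2 := congrArg (Big_L ξ hξ).subtype h1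
    rw [map_sum] at h2
    rw [one_smul]
    exact h2.symm
  have hcases : Module.finrank ℤ (Big_L ξ hξ) = 2 + 1 ∨
      Module.finrank ℤ (Big_L ξ hξ) = 3 + 1 := by omega
  rcases hcases with h | h
  · exact key 2 1 (Or.inl rfl) rfl h
  · exact key 3 2 (Or.inr rfl) rfl h

end Pool.Agent.Srf5F
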