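import Pool.Agent.Srf5F.Dup
import Pool.Agent.Srf5.ABdC

set_option autoImplicit false

/-! Package S2: the points of rank at most two of a curve in the torus of dimension `m`
(`3 ≤ m ≤ 5`), in no proper coset, have bounded height, up to finitely many points (`m = 3` is
`curve3_bdd`).

PROOF. Let `σ = sg m hm`, `w' = v ∘ σ : Fin 5 → F`. `S = LinearMap.ker (psh ℚ m hm)`:
`finrank S = 5 - m ≤ 2` (`psh ℚ m hm` is surjective). `cst u ∈ S ↔ psh ℤ u = 0`
(`psh ℚ (cst u) = cst (psh ℤ u)`); if `psh ℤ u = 0` then `mon w' u = mon v 0 = 1` is algebraic, if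
not then `mon w' u = mon v (psh ℤ u)` is transcendental (`hv.tr`, `mon_sg`). `bdd_curve` for `w'`
gives `B`, `g'`; take `g = rename σ g'`: `aeval v g = aeval w' g'` (`aeval_rename`), so `g ∉ kr ℚ
v`. For `K, P`: `P ∘ σ` satisfies the hypotheses of `bdd_curve` (`kr_sg`, `rank_sg`,
`aeval (P ∘ σ) g' = aeval P g ≠ 0`), and
`∑ i : Fin m, logHeight₁ (P i) ≤ ∑ i : Fin 5, logHeight₁ (P (σ i))`: `i ↦ Fin.castLE hm5 i` is
injective and `σ (castLE i) = i`, all terms are nonnegative
(`Finset.sum_le_sum_of_injOn`/`Finset.sum_map`, `zero_le_logHeight₁`). -/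

namespace Pool.Agent.Srf5F

open MvPolynomial Pool.Agent.CITLines Pool.Agent.Srf5 Module Height NumberField

theorem curve_bdd_m {F : Type} [Field F] [CharZero F] {m : ℕ} (hm : 3 ≤ m) (hm5 : m ≤ 5)
    (v : Fin m → F) (hv : Cv ℚ v) :
    ∃ (B : ℝ) (g : MvPolynomial (Fin m) ℚ), g ∉ kr ℚ v ∧
      ∀ (K : Type) [Field K] [NumberField K] (P : Fin m → K), (∀ i, P i ≠ 0) →
        kr ℚ v ≤ kr ℚ P → LThree.RankLe 2 P → aeval P g ≠ 0 →
        ∑ i, logHeight₁ (P i) ≤ B * finrank ℚ K := by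
  have hm0 : 0 < m := by omega
  have hsurj : Function.Surjective (psh ℚ m hm0) := fun u => ⟨_, psh_ext' ℚ hm0 hm5 u⟩
  have hS : finrank ℚ (LinearMap.ker (psh ℚ m hm0)) ≤ 2 := by
    have h1 := LinearMap.finrank_range_add_finrank_ker (psh ℚ m hm0)
    rw [LinearMap.range_eq_top.mpr hsurj, finrank_top] at h1
    simp only [Module.finrank_fin_fun] at h1
    omega
  have hS' : ∀ u : Fin 5 → ℤ, cst u ∈ LinearMap.ker (psh ℚ m hm0) ↔
      u ∈ Lam ℚ (v ∘ sg m hm0) := by
    intro u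
    have e1 : psh ℚ m hm0 (cst u) = fun j => ((psh ℤ m hm0 u j : ℤ) : ℚ) := psh_cast hm0 u
    have e2 : cst u ∈ LinearMap.ker (psh ℚ m hm0) ↔ psh ℤ m hm0 u = 0 := by
      rw [LinearMap.mem_ker, e1]
      constructor
      · intro h
        funext j
        have h3 : ((psh ℤ m hm0 u j : ℤ) : ℚ) = 0 := congrFun h j
        exact_mod_cast h3
      · intro h
        funext j
        rw [h]
        simp
    have e3 : u ∈ Lam ℚ (v ∘ sg m hm0) ↔ IsAlgebraic ℚ (mon v (psh ℤ m hm0 u)) := by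
      rw [← mon_sg hm0 hv.ne u]
      rfl
    rw [e2, e3]
    constructor
    · intro h
      rw [h]
      have e4 : mon v (0 : Fin m → ℤ) = 1 := by
        simp [mon]
      rw [e4]
      exact isAlgebraic_one
    · intro h
      by_contra hne
      exact hv.tr _ hne h
  have hdim : dm (kr ℚ (v ∘ sg m hm0)) = 1 := by
    rw [dm_sg hm0 hm5, hv.dim]
  obtain ⟨B, g', hg', hB⟩ := bdd_curve (v ∘ sg m hm0) (fun i => hv.ne _) hdim
    (LinearMap.ker (psh ℚ m hm0)) hS hS'
  refine ⟨B, rename (sg m hm0) g', ?_, ?_⟩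
  · rw [mem_kr, aeval_rename]
    intro h
    exact hg' (mem_kr.mpr h)
  · intro K _ _ P hP hle hrk hgP
    rw [aeval_rename] at hgP
    have h1 := hB K (P ∘ sg m hm0) (fun i => hP _) (kr_sg hm0 hle)
      (rank_sg hm0 hm5 hP le_rfl hrk) hgP
    refine le_trans ?_ h1
    have hinj : Function.Injective (Fin.castLE hm5) := Fin.castLE_injective hm5
    calc ∑ i, logHeight₁ (P i)
        = ∑ i, logHeight₁ ((P ∘ sg m hm0) (Fin.castLE hm5 i)) := by
          refine Finset.sum_congr rfl fun i _ => ?_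
          have e5 : sg m hm0 (Fin.castLE hm5 i) = i := by
            rw [sg_of_lt hm0 (i := Fin.castLE hm5 i) i.2]
            rfl
          rw [Function.comp_apply, e5]
      _ = ∑ j ∈ Finset.univ.map ⟨Fin.castLE hm5, hinj⟩, logHeight₁ ((P ∘ sg m hm0) j) := by
          rw [Finset.sum_map]
          rfl
      _ ≤ ∑ j, logHeight₁ ((P ∘ sg m hm0) j) :=
          Finset.sum_le_sum_of_subset_of_nonneg (Finset.subset_univ _)
            fun j _ _ => zero_le_logHeight₁ _

end Pool.Agent.Srf5F
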