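import Pool.Agent.Srf5F.SDefs
import Pool.Agent.Srf5.AFin
import Pool.Agent.Srf5.AComp

set_option autoImplicit false

/-! Package S3: finite lists in the torus of dimension `m`.

PROOF of `finite_rel_m`: word for word as `Srf5.finite_rel` (file Srf5/AFin.lean, `m = 5` there).
PROOF of `list_of_top`: as `Srf5.pointList_of_top` (Srf5/AFin.lean, `k = 2`, `m = 5` there).
PROOF of `zero_list`. `exists_components` gives a finite set `Q` of primes `q` with `kr ℚ v ≤ q`,
`dm q < dm (kr ℚ v) = 1`, so `dm q = 0`, one of which is below every `kr ℚ P` with `aeval P g = 0`.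
For `q ∈ Q` and a point `P` over a number field with `q ≤ kr ℚ P`: `dm (kr ℚ P) ≤ dm q = 0`
(`dm_anti`), and `q = kr ℚ P` (otherwise `dm (kr ℚ P) < dm q`, `dm_strictAnti`). Choose for every
`q` an `a_q ≠ 0` with `binom ℚ a_q 1 ∈ q` if there is one. A point `P` with `RankLe k P`, `k < m`,
has a relation `a ≠ 0`, `mon P a = 1`: `U` of `RankLe` has positive dimension, take a nonzero
vector, clear denominators (`exists_clear`), and multiply by the order of the root of unity. So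
`binom ℚ a 1 ∈ kr ℚ P = q` (`binom_mem_kr`), and `binom ℚ a_q 1 ∈ kr ℚ P`, i.e. `mon P a_q = 1`. -/

namespace Pool.Agent.Srf5F

open MvPolynomial Pool.Agent.CITLines Pool.Agent.Srf5 Module Height NumberField

theorem finite_rel_m (m D : ℕ) (H : ℝ) : ∃ E : Finset (Fin m → ℤ), 0 ∉ E ∧
    ∀ (K : Type) [Field K] [NumberField K] (z : Fin m → K), finrank ℚ K ≤ D →
      (∀ i, logHeight₁ (z i) ≤ H) → (∃ u, u ≠ 0 ∧ mon z u = 1) → ∃ u ∈ E, mon z u = 1 := by
  classical
  obtain ⟨Z, hZ, hZK⟩ := RelC.northcott D H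
  have hT : (Set.univ.pi fun _ : Fin m => Z).Finite := Set.Finite.pi fun _ => hZ
  have hch : ∀ p : Fin m → ℂ, ∃ w : Fin m → ℤ,
      (∃ w, w ≠ 0 ∧ mon p w = 1) → w ≠ 0 ∧ mon p w = 1 := by
    intro p
    by_cases h : ∃ w : Fin m → ℤ, w ≠ 0 ∧ mon p w = 1
    · obtain ⟨w, hw⟩ := h
      exact ⟨w, fun _ => hw⟩
    · exact ⟨0, fun h' => absurd h' h⟩
  choose r hr using hch
  refine ⟨(hT.toFinset.image r).erase 0, Finset.notMem_erase _ _, ?_⟩
  intro K _ _ x hD hh hw
  obtain ⟨φ⟩ : Nonempty (K →+* ℂ) := inferInstance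
  have hmap : ∀ w : Fin m → ℤ, mon (fun i => φ (x i)) w = φ (mon x w) := by
    intro w
    unfold mon
    rw [map_prod]
    exact Finset.prod_congr rfl fun i _ => (map_zpow₀ φ _ _).symm
  obtain ⟨w, hw0, hw⟩ := hw
  obtain ⟨h1, h2⟩ := hr (fun i => φ (x i)) ⟨w, hw0, by rw [hmap, hw, map_one]⟩
  refine ⟨r fun i => φ (x i), Finset.mem_erase.2 ⟨h1, Finset.mem_image_of_mem _ ?_⟩, ?_⟩
  · rw [Set.Finite.mem_toFinset, Set.mem_univ_pi]
    exact fun i => hZK K hD (x i) (hh i) φ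
  · rw [hmap] at h2
    exact φ.injective (by rw [h2, map_one])

theorem list_of_top {F : Type} [Field F] [CharZero F] {m k : ℕ} (v : Fin m → F)
    {E : Finset (Fin m → ℤ)} (h0 : 0 ∉ E)
    (h : ∀ (K : Type) [Field K] [NumberField K] (P : Fin m → K), (∀ i, P i ≠ 0) →
      kr ℚ v ≤ kr ℚ P → LThree.RankLe k P → IntermediateField.adjoin ℚ (Set.range P) = ⊤ →
      ∃ a ∈ E, mon P a = 1) : RkList k v E := by
  refine ⟨h0, ?_⟩
  intro K _ _ P hP hle hrk
  obtain ⟨y, hy, htop⟩ := RelC.adjoin_top P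
  have hmon : ∀ a : Fin m → ℤ, ((mon y a : IntermediateField.adjoin ℚ (Set.range P)) : K) =
      mon P a := by
    intro a
    have h3 : ((mon y a : IntermediateField.adjoin ℚ (Set.range P)) : K) =
      (IntermediateField.adjoin ℚ (Set.range P)).val (mon y a) := rfl
    rw [h3]
    unfold mon
    rw [map_prod]
    refine Finset.prod_congr rfl fun i _ => ?_
    rw [map_zpow₀, ← hy]
    rfl
  have hy0 : ∀ i, y i ≠ 0 := by
    intro i h1
    refine hP i ?_
    rw [← hy i, h1]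
    rfl
  have hley : kr ℚ v ≤ kr ℚ y := by
    intro f hf
    have h1 := mem_kr.mp (hle hf)
    rw [mem_kr]
    have h2 := MvPolynomial.comp_aeval_apply y
      (IntermediateField.adjoin ℚ (Set.range P)).val f
    have h3 : (fun i => (IntermediateField.adjoin ℚ (Set.range P)).val (y i)) = P :=
      funext fun i => hy i
    rw [h3, h1] at h2
    exact (map_eq_zero _).mp h2
  have hrky : LThree.RankLe k y := by
    obtain ⟨U, hU, htor⟩ := hrk
    refine ⟨U, hU, fun a ha => ?_⟩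
    obtain ⟨n, hn, h1⟩ := htor a ha
    refine ⟨n, hn, ?_⟩
    apply Subtype.val_injective
    have h2 : ((LThree.mono y a : IntermediateField.adjoin ℚ (Set.range P)) : K) =
        LThree.mono P a := hmon a
    change ((LThree.mono y a : IntermediateField.adjoin ℚ (Set.range P)) : K) ^ n = 1
    rw [h2, h1]
  obtain ⟨a, ha, h1⟩ := h _ y hy0 hley hrky htop
  refine ⟨a, ha, ?_⟩
  rw [← hmon a, h1]
  rfl

private theorem finM_rel {K : Type} [Field K] {m k : ℕ} (hk : k < m) (P : Fin m → K)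
    (h : LThree.RankLe k P) : ∃ a : Fin m → ℤ, a ≠ 0 ∧ mon P a = 1 := by
  obtain ⟨U, hU, htor⟩ := h
  rw [Fintype.card_fin] at hU
  have hpos : 0 < finrank ℚ U := by omega
  have hne : U ≠ ⊥ := by
    rintro rfl
    rw [finrank_bot] at hpos
    exact lt_irrefl _ hpos
  obtain ⟨v, hv, hv0⟩ := Submodule.exists_mem_ne_zero_of_ne_bot hne
  obtain ⟨c, hc, a, ha⟩ := exists_clear v
  have haU : (fun i => (a i : ℚ)) ∈ U := by
    have h1 : (fun i => (a i : ℚ)) = (c : ℚ) • v := by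
      funext i
      rw [ha i]
      rfl
    rw [h1]
    exact U.smul_mem _ hv
  have ha0 : a ≠ 0 := by
    rintro rfl
    refine hv0 (funext fun i => ?_)
    have h1 := ha i
    rw [Pi.zero_apply, Int.cast_zero] at h1
    have h2 := (mul_eq_zero.1 h1.symm).resolve_left (by exact_mod_cast hc)
    rw [h2, Pi.zero_apply]
  obtain ⟨n, hn, h1⟩ := htor a haU
  refine ⟨(n : ℤ) • a, smul_ne_zero (by exact_mod_cast hn.ne') ha0, ?_⟩
  rw [mon_smul, zpow_natCast]
  exact h1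

theorem zero_list {F : Type} [Field F] [CharZero F] {m k : ℕ} (hk : k < m) (v : Fin m → F)
    (hdim : dm (kr ℚ v) = 1) {g : MvPolynomial (Fin m) ℚ} (hg : g ∉ kr ℚ v) :
    ∃ E : Finset (Fin m → ℤ), 0 ∉ E ∧
      ∀ (K : Type) [Field K] [NumberField K] (P : Fin m → K), (∀ i, P i ≠ 0) →
        kr ℚ v ≤ kr ℚ P → LThree.RankLe k P → aeval P g = 0 → ∃ a ∈ E, mon P a = 1 := by
  classical
  obtain ⟨Q, hQ, hQP⟩ := exists_components v hg
  have hch : ∀ q : Ideal (MvPolynomial (Fin m) ℚ), ∃ a : Fin m → ℤ,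
      (∃ a : Fin m → ℤ, a ≠ 0 ∧ binom ℚ a 1 ∈ q) → a ≠ 0 ∧ binom ℚ a 1 ∈ q := by
    intro q
    by_cases h : ∃ a : Fin m → ℤ, a ≠ 0 ∧ binom ℚ a 1 ∈ q
    · obtain ⟨a, ha⟩ := h
      exact ⟨a, fun _ => ha⟩
    · exact ⟨0, fun h' => absurd h' h⟩
  choose r hr using hch
  refine ⟨(Q.image r).erase 0, Finset.notMem_erase _ _, ?_⟩
  intro K _ _ P hP hle hrk hgP
  obtain ⟨q, hq, hqP⟩ := hQP K P hle hgP
  obtain ⟨hqp, hvq, hdq⟩ := hQ q hq
  have hq0 : dm q = 0 := by omega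
  have heq : q = kr ℚ P := by
    by_contra hne
    have h1 := dm_strictAnti (lt_of_le_of_ne hqP hne)
    omega
  obtain ⟨a, ha0, ha⟩ := finM_rel hk P hrk
  have hbin : ∃ a : Fin m → ℤ, a ≠ 0 ∧ binom ℚ a 1 ∈ q := by
    refine ⟨a, ha0, ?_⟩
    rw [heq, binom_mem_kr hP, map_one]
    exact ha
  obtain ⟨h1, h2⟩ := hr q hbin
  refine ⟨r q, Finset.mem_erase.2 ⟨h1, Finset.mem_image_of_mem _ hq⟩, ?_⟩
  exact ((binom_mem_kr hP _ _).1 (hqP h2)).trans (map_one _)

end Pool.Agent.Srf5F
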