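import Pool.Agent.Srf5F.CBdd
import Pool.Agent.Srf5F.FinM
import Pool.Agent.Srf5.ACurB

set_option autoImplicit false

/-! Package S4: curves in no proper coset of the torus of dimension `k + 2`, `k = 1, 2`: the points
of rank at most `k` satisfy one of finitely many relations (theorem of Bombieri, Masser and
Zannier in codimension two).

PROOF. `m = k + 2`, `σ = sg m hm`, `w' = v ∘ σ`. `curve_bdd_m` gives `B, g` (`RankLe k P` implies
`RankLe 2 P`). `zero_list` treats the points with `aeval P g = 0`. For the others (use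
`list_of_top`: the coordinates of `P` generate `K`): `degree_le` for `w'` gives `M`; one relation:
`RelC.one_relation` with `RelC.count_one` (`k = 1`) or `RelC.count_two` (`k = 2`), `ε = 1/2`, `s =
m`: `u ≠ 0`, `mon P u = 1` and `(nrm u) ^ 2 ≤ C * D ^ (3/2)`, `D = finrank ℚ K` (`card - k = 2`).
`mon (P ∘ σ) (ext0 m u) = mon P u = 1` (`mon_sg`, `psh_ext`), `mon w' (ext0 m u) = mon v u ≠ 1` (`1`
is algebraic, `hv.tr`), so `D ≤ M * nrm (ext0 m u) = M * nrm u` (`degree_le`: the range of `P ∘ σ`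
is the range of `P`). Hence `D ^ 2 ≤ M ^ 2 * C * D ^ (3/2)`, `D ^ (1/2) ≤ M ^ 2 C`, so `D ≤ (M^2
C)^2`. `finite_rel_m` for `D0 = ⌈(M^2 C)^2⌉₊` and height `max B 0 * D0`. Template: the end of
`Srf5.curve_bdd` (Srf5/ACurB.lean). `E` is the union of the two lists. -/

namespace Pool.Agent.Srf5F

open MvPolynomial Pool.Agent.CITLines Pool.Agent.Srf5 Module Height NumberField

theorem cpts {F : Type} [Field F] [CharZero F] {m k : ℕ} (hk : k = 1 ∨ k = 2) (hm : m = k + 2)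
    (v : Fin m → F) (hv : Cv ℚ v) : ∃ E, RkList k v E := by
  have hm3 : 3 ≤ m := by omega
  have hm5 : m ≤ 5 := by omega
  have hm0 : 0 < m := by omega
  have hcount : LThree.Count k := by
    rcases hk with rfl | rfl
    · exact RelC.count_one
    · exact RelC.count_two
  obtain ⟨B, g, hg, hbdd⟩ := curve_bdd_m hm3 hm5 v hv
  obtain ⟨E1, hE10, hE1⟩ := zero_list (k := k) (by omega) v hv.dim hg
  obtain ⟨M, hM, hdeg⟩ := degree_le (v ∘ sg m hm0) (fun i => hv.ne _)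
    (by rw [dm_sg hm0 hm5]; exact hv.dim)
  obtain ⟨C, hC1, hone⟩ := RelC.one_relation hcount (ε := 1 / 2) (by norm_num) B m
  obtain ⟨E2, hE20, hE2⟩ := finite_rel_m m ⌈((M : ℝ) ^ 2 * C) ^ 2⌉₊
    (max B 0 * ⌈((M : ℝ) ^ 2 * C) ^ 2⌉₊)
  refine ⟨E1 ∪ E2, list_of_top v ?_ ?_⟩
  · rw [Finset.mem_union, not_or]
    exact ⟨hE10, hE20⟩
  intro K _ _ P hP hle hrk hgen
  by_cases hg0 : aeval P g = 0
  · obtain ⟨a, ha, h⟩ := hE1 K P hP hle hrk hg0
    exact ⟨a, Finset.mem_union_left _ ha, h⟩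
  have hrk2 : LThree.RankLe 2 P := by
    obtain ⟨U, hU, h⟩ := hrk
    exact ⟨U, by omega, h⟩
  have hht := hbdd K P hP hle hrk2 hg0
  have hh : ∀ i, logHeight₁ (P i) ≤ B * finrank ℚ K := fun i =>
    (Finset.single_le_sum (f := fun i => logHeight₁ (P i)) (fun j _ => zero_le_logHeight₁ (P j))
      (Finset.mem_univ i)).trans hht
  obtain ⟨u, hu0, hu1, hu⟩ := hone K (Fin m) P hP (by simp) (by simp; omega) hrk hh
  have hu1' : mon P u = 1 := hu1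
  have hgen' : IntermediateField.adjoin ℚ (Set.range (P ∘ sg m hm0)) = ⊤ := by
    rw [(sg_surj hm0 hm5).range_comp P]
    exact hgen
  have hv1 : mon (v ∘ sg m hm0) (ext0 m u) ≠ 1 := by
    rw [mon_sg hm0 hv.ne, psh_ext hm0 hm5]
    intro h
    apply hv.tr u hu0
    rw [h]
    exact isAlgebraic_one
  have hP1 : mon (P ∘ sg m hm0) (ext0 m u) = 1 := by
    rw [mon_sg hm0 hP, psh_ext hm0 hm5, hu1']
  have hD := hdeg K (P ∘ sg m hm0) (fun i => hP _) (kr_sg hm0 hle) hgen' (ext0 m u) hv1 hP1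
  rw [nrm_ext hm5] at hD
  have hD1 : (1 : ℝ) ≤ finrank ℚ K := by exact_mod_cast (finrank_pos (R := ℚ) (M := K))
  have hD0 : (0 : ℝ) < finrank ℚ K := by linarith
  rw [Fintype.card_fin, show m - k = 2 by omega] at hu
  have hDr : (finrank ℚ K : ℝ) ≤ M * (LThree.nrm u : ℝ) := by exact_mod_cast hD
  have h3 : (finrank ℚ K : ℝ) ^ 2 ≤ (M : ℝ) ^ 2 * C * (finrank ℚ K : ℝ) ^ (1 + 1 / 2 : ℝ) := by
    calc (finrank ℚ K : ℝ) ^ 2 ≤ (M * (LThree.nrm u : ℝ)) ^ 2 := pow_le_pow_left₀ hD0.le hDr 2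
      _ = (M : ℝ) ^ 2 * (LThree.nrm u : ℝ) ^ 2 := by ring
      _ ≤ (M : ℝ) ^ 2 * (C * (finrank ℚ K : ℝ) ^ (1 + 1 / 2 : ℝ)) :=
        mul_le_mul_of_nonneg_left hu (by positivity)
      _ = _ := by ring
  have h4 : (finrank ℚ K : ℝ) ^ (1 / 2 : ℝ) * (finrank ℚ K : ℝ) ^ (1 + 1 / 2 : ℝ) =
      (finrank ℚ K : ℝ) ^ 2 := by
    rw [← Real.rpow_add hD0, ← Real.rpow_natCast]
    norm_num
  have hpos : 0 < (finrank ℚ K : ℝ) ^ (1 + 1 / 2 : ℝ) := Real.rpow_pos_of_pos hD0 _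
  have h5 : (finrank ℚ K : ℝ) ^ (1 / 2 : ℝ) ≤ (M : ℝ) ^ 2 * C := by
    rw [← h4] at h3
    exact le_of_mul_le_mul_right h3 hpos
  have h6 : (finrank ℚ K : ℝ) ≤ ((M : ℝ) ^ 2 * C) ^ 2 := by
    have h61 : (finrank ℚ K : ℝ) = ((finrank ℚ K : ℝ) ^ (1 / 2 : ℝ)) ^ 2 := by
      rw [← Real.rpow_natCast, ← Real.rpow_mul hD0.le]
      norm_num
    rw [h61]
    exact pow_le_pow_left₀ (Real.rpow_nonneg hD0.le _) h5 2
  have h7 : (finrank ℚ K : ℝ) ≤ (⌈((M : ℝ) ^ 2 * C) ^ 2⌉₊ : ℝ) := h6.trans (Nat.le_ceil _)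
  have h8 : finrank ℚ K ≤ ⌈((M : ℝ) ^ 2 * C) ^ 2⌉₊ := by exact_mod_cast h7
  obtain ⟨a, ha, h⟩ := hE2 K P h8 (fun i => (hh i).trans (by
    calc B * finrank ℚ K ≤ max B 0 * finrank ℚ K :=
          mul_le_mul_of_nonneg_right (le_max_left _ _) hD0.le
      _ ≤ _ := mul_le_mul_of_nonneg_left h7 (le_max_right _ _))) ⟨u, hu0, hu1'⟩
  exact ⟨a, Finset.mem_union_right _ ha, h⟩

end Pool.Agent.Srf5F
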