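import Pool.Agent.Srf5F.SDefs
import Pool.Agent.Srf5.CurvesC

set_option autoImplicit false

/-! Package S7: curves with two torsion relations on a surface in no proper coset, from the lists
for the big lattices (`BigList`). The proof is that of `Srf5.curves_gen`. -/

namespace Pool.Agent.Srf5F

open MvPolynomial Pool.Agent.CITLines Pool.Agent.Srf5

private theorem cc0_tr {k E : Type} [Field k] [Field E] [Algebra k E] {n : ℕ}
    (ξ : Fin n → E) (hdm : dm (kr k ξ) = 1) : ∃ i, Transcendental k (ξ i) := by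
  have hrk : rk k (Set.range ξ) = 1 := by
    rw [← dm_kr, hdm]
    rfl
  by_contra hcon
  push Not at hcon
  have h2 : rk k (Set.range ξ) ≤ rk k (∅ : Set E) := by
    refine rk_le_of_algebraic ?_
    rintro _ ⟨i, rfl⟩
    have h3 : IsAlgebraic k (ξ i) := by
      have := hcon i
      rwa [Transcendental, not_not] at this
    exact h3.extendScalars (algebraMap k (Algebra.adjoin k (∅ : Set E))).injective
  have h4 : rk k (∅ : Set E) ≤ (∅ : Set E).encard := rk_le_encard _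
  rw [Set.encard_empty] at h4
  have h5 := h2.trans h4
  rw [hrk] at h5
  exact absurd h5 (by decide)

/-- The list for one lattice of constants. -/
private theorem cc0_one {n : ℕ} (p : Ideal (MvPolynomial (Fin n) ℂ)) [p.IsPrime]
    (hw : Sf ℂ (gen p)) (hbig : BigList (gen p)) (Λ : Set (Fin n → ℤ)) :
    ∃ E : Finset (Fin n → ℤ), 0 ∉ E ∧ ∀ (Ω : Type) [Field Ω] [Algebra ℂ Ω] (ξ : Fin n → Ω),
      (∀ i, ξ i ≠ 0) → kr ℂ (gen p) ≤ kr ℂ ξ → dm (kr ℂ ξ) = 1 → Lam ℂ ξ = Λ →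
      ∀ l m : Fin n → ℤ, LinearIndependent ℤ ![l, m] → mon ξ l = 1 → mon ξ m = 1 →
      ∃ a ∈ E, mon ξ a = 1 := by
  have hone : ∀ {Ω : Type} [Field Ω] [Algebra ℂ Ω] (ξ : Fin n → Ω) (l : Fin n → ℤ),
      Lam ℂ ξ = Λ → mon ξ l = 1 → l ∈ Λ := by
    intro Ω _ _ ξ l hΛ hl
    rw [← hΛ]
    change IsAlgebraic ℂ (mon ξ l)
    rw [hl]
    exact isAlgebraic_one
  by_cases h1 : ∃ e1 e2 : Fin n → ℤ, e1 ∈ Λ ∧ e2 ∈ Λ ∧
      AlgebraicIndependent ℂ ![mon (gen p) e1, mon (gen p) e2]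
  · obtain ⟨e1, e2, he1, he2, hind⟩ := h1
    obtain ⟨h, hh, hfib⟩ := fibre (gen p) hw.ne hw.dim e1 e2 hind
    obtain ⟨E, hE0, hE⟩ := rel_list (gen p) hw.dim h hh
    refine ⟨E, hE0, fun Ω _ _ ξ hξ hle hdm hΛ l m hlm hl hm => ?_⟩
    refine hE Ω ξ hξ hle hdm ?_ ⟨l, hlm.ne_zero 0, hl⟩
    rw [← hΛ] at he1 he2
    exact hfib Ω ξ hξ hle (cc0_tr ξ hdm) he1 he2
  push Not at h1
  by_cases h3 : ∃ c : Fin 3 → Fin n → ℤ, LinearIndependent ℤ c ∧ ∀ i, c i ∈ Λ
  · obtain ⟨E, hE0, hE⟩ := hbig Λ (fun a ha b hb => h1 a b ha hb) h3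
    refine ⟨E, hE0, fun Ω _ _ ξ hξ hle hdm hΛ l m hlm hl hm => ?_⟩
    exact hE Ω ξ hξ hle hdm hΛ l m hlm (by rw [hl]; exact RU.one) (by rw [hm]; exact RU.one)
  by_cases h2 : ∃ ψ : Fin 2 → (Fin n → ℤ), LinearIndependent ℤ ψ ∧ ψ 0 ∈ Λ ∧ ψ 1 ∈ Λ
  · obtain ⟨ψ, hψ, hψ0, hψ1⟩ := h2
    obtain ⟨E, hE0, hE⟩ := tors_list (gen p) hw.ne ψ hψ (h1 _ _ hψ0 hψ1)
    refine ⟨E, hE0, fun Ω _ _ ξ hξ hle hdm hΛ l m hlm hl hm => ?_⟩
    have hlΛ := hone ξ l hΛ hl
    have hmΛ := hone ξ m hΛ hm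
    have key : ∀ u : Fin n → ℤ, u ∈ Λ → RU (mon ξ u) := by
      intro u hu
      have hnot : ¬ LinearIndependent ℤ ![l, m, u] := by
        intro hlin
        refine h3 ⟨![l, m, u], hlin, fun i => ?_⟩
        fin_cases i
        · exact hlΛ
        · exact hmΛ
        · exact hu
      rw [Fintype.linearIndependent_iff] at hnot
      push Not at hnot
      obtain ⟨c, hc, i, hi⟩ := hnot
      rw [Fin.sum_univ_three] at hc
      simp only [Matrix.cons_val_zero, Matrix.cons_val_one, Matrix.cons_val] at hc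
      have hc2 : c 2 ≠ 0 := by
        intro hc2
        rw [hc2, zero_smul, add_zero] at hc
        have h3 : ∑ j : Fin 2, (![c 0, c 1] j) • (![l, m] j) = 0 := by
          rw [Fin.sum_univ_two]
          simpa using hc
        have h4 := Fintype.linearIndependent_iff.mp hlm ![c 0, c 1] h3
        have h5 : c 0 = 0 := h4 0
        have h6 : c 1 = 0 := h4 1
        fin_cases i
        · exact hi h5
        · exact hi h6
        · exact hi hc2
      refine RU.of_zpow hc2 ?_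
      have h7 : mon ξ (c 0 • l + c 1 • m + c 2 • u) = 1 := by rw [hc, mon_zero]
      rw [mon_add' hξ, mon_add' hξ, mon_smul, mon_smul, mon_smul, hl, hm, one_zpow, one_zpow,
        one_mul, one_mul] at h7
      rw [h7]
      exact RU.one
    exact hE Ω ξ hξ hle (key _ hψ0) (key _ hψ1)
  · refine ⟨∅, by simp, fun Ω _ _ ξ hξ hle hdm hΛ l m hlm hl hm => ?_⟩
    exact absurd ⟨![l, m], hlm, hone ξ l hΛ hl, hone ξ m hΛ hm⟩ h2

theorem curves0 {n : ℕ} (p : Ideal (MvPolynomial (Fin n) ℂ)) [p.IsPrime] (hw : Sf ℂ (gen p))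
    (hbig : BigList (gen p)) : ∃ E : Finset (Fin n → ℤ), CurveListC (gen p) E := by
  classical
  obtain ⟨s, t, hst, halg⟩ := frame p (by rw [← hw.dim, kr_gen])
  obtain ⟨q, a, b, hLD⟩ := logrel (gen p) hw.ne s t hst (fun i => halg _)
  obtain ⟨δ, hδ⟩ := degLe (gen p) hw.ne hw.dim
    (q.totalDegree + ∑ i, (a i).totalDegree + ∑ i, (b i).totalDegree)
  have hfin := lam_finite ℂ n δ
  choose E hE0 hE using cc0_one p hw hbig
  refine ⟨hfin.toFinset.biUnion E, ?_, ?_⟩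
  · intro hmem
    obtain ⟨Λ, -, h⟩ := Finset.mem_biUnion.mp hmem
    exact hE0 Λ h
  intro Ω _ _ ξ hξ hle hdm l m hlm hl hm
  -- the function field
  set K := IntermediateField.adjoin ℂ (Set.range ξ) with hK
  set x : Fin n → K := fun i => ⟨ξ i, IntermediateField.subset_adjoin _ _ ⟨i, rfl⟩⟩ with hx
  have hval : ∀ i, algebraMap K Ω (x i) = ξ i := fun i => rfl
  have hinj : Function.Injective (algebraMap K Ω) := (algebraMap K Ω).injective
  have hmon : ∀ r : Fin n → ℤ, algebraMap K Ω (mon x r) = mon ξ r := by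
    intro r
    simp only [mon, map_prod, map_zpow₀, hval]
  have hx0 : ∀ i, x i ≠ 0 := by
    intro i h
    apply hξ i
    rw [← hval, h, map_zero]
  have hkr : kr ℂ x = kr ℂ ξ := by
    ext f
    rw [mem_kr, mem_kr]
    have h2 : (aeval ξ : MvPolynomial (Fin n) ℂ →ₐ[ℂ] Ω) =
        (IsScalarTower.toAlgHom ℂ K Ω).comp (aeval x) := by
      apply algHom_ext
      intro i
      simp [hx]
    rw [h2]
    change _ ↔ algebraMap K Ω (aeval x f) = 0
    exact (map_eq_zero_iff (algebraMap K Ω) hinj).symm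
  have htop : IntermediateField.adjoin ℂ (Set.range x) = ⊤ := by
    apply IntermediateField.map_injective K.val
    rw [IntermediateField.adjoin_map, ← AlgHom.fieldRange_eq_map, IntermediateField.fieldRange_val]
    have h1 : K.val '' Set.range x = Set.range ξ := by
      ext z
      simp [Set.mem_image, hx]
    rw [h1]
  have hlex : kr ℂ (gen p) ≤ kr ℂ x := by rw [hkr]; exact hle
  have hdmx : dm (kr ℂ x) = 1 := by
    have h1 : (dm (kr ℂ x) : ℕ∞) = (dm (kr ℂ ξ) : ℕ∞) := by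
      simp only [hkr]
    rw [hdm] at h1
    exact_mod_cast h1
  obtain ⟨N1, hN1, hl1⟩ := hl
  obtain ⟨N2, hN2, hm1⟩ := hm
  have hl2 : mon x (((N1 * N2 : ℕ) : ℤ) • l) = 1 := by
    apply hinj
    rw [hmon, map_one, mon_smul, zpow_natCast, pow_mul, hl1, one_pow]
  have hm2 : mon x (((N1 * N2 : ℕ) : ℤ) • m) = 1 := by
    apply hinj
    rw [hmon, map_one, mon_smul, zpow_natCast, mul_comm, pow_mul, hm1, one_pow]
  have hN : ((N1 * N2 : ℕ) : ℤ) ≠ 0 := by
    have := Nat.mul_pos hN1 hN2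
    omega
  have hlm2 : LinearIndependent ℤ ![((N1 * N2 : ℕ) : ℤ) • l, ((N1 * N2 : ℕ) : ℤ) • m] := by
    rw [Fintype.linearIndependent_iff]
    intro g hg
    rw [Fin.sum_univ_two] at hg
    simp only [Matrix.cons_val_zero, Matrix.cons_val_one] at hg
    have h3 : ∑ j : Fin 2, (![((N1 * N2 : ℕ) : ℤ) * g 0, ((N1 * N2 : ℕ) : ℤ) * g 1] j) •
        (![l, m] j) = 0 := by
      rw [Fin.sum_univ_two]
      simp only [Matrix.cons_val_zero, Matrix.cons_val_one]
      rw [← hg, smul_smul, smul_smul, mul_comm (g 0), mul_comm (g 1)]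
    have h4 := Fintype.linearIndependent_iff.mp hlm _ h3
    intro i
    fin_cases i
    · exact (mul_eq_zero.mp (h4 0)).resolve_left hN
    · exact (mul_eq_zero.mp (h4 1)).resolve_left hN
  obtain ⟨f, hf, hfw, hfx⟩ := bounded_f hw.ne hLD hst halg hw.tr _ _ hlm2
    x hx0 htop hlex hdmx hl2 hm2
  have hdeg := hδ K x hx0 htop hlex f hf hfw hfx
  have hmem : Lam ℂ x ∈ hfin.toFinset := by
    rw [Set.Finite.mem_toFinset]
    exact ⟨K, inferInstance, inferInstance, x, hx0, hdeg, rfl⟩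
  obtain ⟨r, hr, hr1⟩ := hE (Lam ℂ x) K x hx0 hlex hdmx rfl _ _ hlm2 hl2 hm2
  refine ⟨r, Finset.mem_biUnion.mpr ⟨_, hmem, hr⟩, ?_⟩
  rw [← hmon, hr1, map_one]

end Pool.Agent.Srf5F
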