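import Pool.Agent.Srf5F.CurC0
import Pool.Agent.Srf5F.Big
import Pool.Agent.Srf5.CurvesQ

set_option autoImplicit false

/-! Package S9: the curves of a surface in no proper coset of the torus of dimension five. The
proof is that of `Srf5.curveList_exists` (Srf5/CurvesQ.lean), with `Sf` instead of `Surf`, `curves0`
and `big_list` instead of `curves`, `sf_of_kr`, `sf_iff`. -/

namespace Pool.Agent.Srf5F

open MvPolynomial Pool.Agent.CITLines Pool.Agent.Srf5

private theorem cq0_krQ {n : ℕ} {Ω : Type} [Field Ω] [Algebra ℂ Ω] [CharZero Ω]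
    (ξ : Fin n → Ω) : IQ (kr ℂ ξ) = kr ℚ ξ := IQ_eq_kr ξ

private theorem cq0_char {n : ℕ} (q : Ideal (MvPolynomial (Fin n) ℂ)) [q.IsPrime] :
    CharZero (Kf q) := charZero_of_injective_algebraMap (algebraMap ℂ (Kf q)).injective

private theorem cq0_finite {n : ℕ} (p0 : Ideal (MvPolynomial (Fin n) ℚ)) [p0.IsPrime]
    (hp0 : dm p0 = 2) :
    {q : Ideal (MvPolynomial (Fin n) ℂ) | q.IsPrime ∧ IQ q = p0 ∧ dm q = 2}.Finite := by
  refine (Ideal.finite_minimalPrimes_of_isNoetherianRing _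
    (p0.map (MvPolynomial.map (algebraMap ℚ ℂ)))).subset ?_
  rintro q ⟨hq, hqI, hqd⟩
  have hle : p0.map (MvPolynomial.map (algebraMap ℚ ℂ)) ≤ q :=
    Ideal.map_le_iff_le_comap.2 hqI.ge
  refine ⟨⟨hq, hle⟩, ?_⟩
  rintro q' ⟨hq', hle'⟩ hqq
  have h1 : p0 ≤ IQ q' := Ideal.map_le_iff_le_comap.1 hle'
  have h2 : IQ q' ≤ p0 := hqI ▸ IQ_mono hqq
  have h3 : IQ q' = p0 := le_antisymm h2 h1
  have h4 := dm_le_dm_IQ q'
  rw [h3, hp0] at h4
  by_contra hcon
  have h5 : q' < q := lt_of_le_of_ne hqq fun h => hcon h.ge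
  have h6 := dm_strictAnti h5
  omega

private theorem cq0_one {F : Type} [Field F] [CharZero F] {n : ℕ} {w : Fin n → F}
    (hw : Sf ℚ w) (q : Ideal (MvPolynomial (Fin n) ℂ)) [q.IsPrime] (hqI : IQ q = kr ℚ w)
    (hqd : dm q = 2) : (∀ i, gen q i ≠ 0) ∧ Sf ℂ (gen q) := by
  have hne : ∀ i, gen q i ≠ 0 := by
    intro i
    refine gen_ne_zero q fun h => ?_
    have h1 : (X i : MvPolynomial (Fin n) ℚ) ∈ IQ q := by
      rw [mem_IQ, MvPolynomial.map_X]
      exact h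
    rw [hqI, mem_kr, aeval_X] at h1
    exact hw.ne i h1
  have hch := cq0_char q
  have hkr : kr ℚ (gen q) = kr ℚ w := by
    rw [← cq0_krQ (gen q), kr_gen, hqI]
  have hS : Sf ℚ (gen q) := sf_of_kr hw hne hkr
  have hC : dm (kr ℂ (gen q)) = 2 := by
    rw [← hqd]
    congr 1
    exact kr_gen q
  exact ⟨hne, (sf_iff (gen q) hne hS.dim hC).2 hS⟩

theorem curveList0 {F : Type} [Field F] [CharZero F] (w : Fin 5 → F) (hw : Sf ℚ w) :
    ∃ E : Finset (Fin 5 → ℤ), CurveList w E := by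
  classical
  have hfin := cq0_finite (kr ℚ w) hw.dim
  have hex : ∀ q : Ideal (MvPolynomial (Fin 5) ℂ), ∃ E : Finset (Fin 5 → ℤ), 0 ∉ E ∧
      ∀ [q.IsPrime], IQ q = kr ℚ w → dm q = 2 → CurveListC (gen q) E := by
    intro q
    by_cases h : q.IsPrime ∧ IQ q = kr ℚ w ∧ dm q = 2
    · have hq := h.1
      obtain ⟨hne, hS⟩ := cq0_one hw q h.2.1 h.2.2
      have hch := cq0_char q
      have hQ : dm (kr ℚ (gen q)) = 2 := by
        rw [← cq0_krQ (gen q)]
        have h3 := h.2.1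
        have h4 := hw.dim
        simp only [kr_gen, h3]
        exact h4
      obtain ⟨E, hE⟩ := curves0 q hS (big_list (gen q) hS hQ)
      exact ⟨E, hE.1, fun {_} _ _ => hE⟩
    · exact ⟨∅, by simp, fun {hq} h1 h2 => absurd ⟨hq, h1, h2⟩ h⟩
  choose E hE0 hE using hex
  refine ⟨hfin.toFinset.biUnion E, ?_, ?_⟩
  · rw [Finset.mem_biUnion]
    rintro ⟨q, -, hq⟩
    exact hE0 q hq
  · intro Ω _ _ _ ξ hξ hle htr l m hlm hl hm
    have h1 : kr ℚ w ≤ IQ (kr ℂ ξ) := by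
      rw [cq0_krQ]
      exact hle
    obtain ⟨q, hq, hqle, hqI, hqd⟩ := L3S.exists_spread_of_le (kr ℂ ξ) (kr ℚ w) h1
    have h2 := dm_le_dm_IQ q
    rw [hqI] at h2
    have h3 : dm q = 2 := by
      have := hw.dim
      omega
    obtain ⟨hne, hS⟩ := cq0_one hw q hqI h3
    have h4 : dm (kr ℂ ξ) ≤ 2 := h3 ▸ dm_anti hqle
    have h5 : 1 ≤ dm (kr ℂ ξ) := by
      obtain ⟨i, hi⟩ := htr
      have h6 : AlgebraicIndependent ℂ (fun _ : Fin 1 => ξ i) := by
        rw [algebraicIndependent_unique_type_iff]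
        exact hi
      have h7 := rk_range_of_indep _ h6
      have h8 : rk ℂ (Set.range fun _ : Fin 1 => ξ i) ≤ rk ℂ (Set.range ξ) := by
        refine rk_mono ?_
        rintro _ ⟨_, rfl⟩
        exact ⟨i, rfl⟩
      rw [h7, ← dm_kr, Fintype.card_fin] at h8
      exact_mod_cast h8
    have h6 : dm (kr ℂ ξ) = 1 := by
      by_contra hcon
      have h7 : dm (kr ℂ ξ) = 2 := by omega
      have h8 : q = kr ℂ ξ := by
        by_contra h9
        have := dm_strictAnti (lt_of_le_of_ne hqle h9)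
        omega
      have h9 : kr ℂ ξ ≤ kr ℂ (gen q) := by
        rw [kr_gen, h8]
      have h10 : RU (mon (gen q) l) := relZ_mono hξ hne h9 hl
      have hl0 : l ≠ 0 := hlm.ne_zero 0
      apply hS.tr l hl0
      obtain ⟨N, hN, h11⟩ := h10
      refine ⟨Polynomial.X ^ N - Polynomial.C 1, ?_, ?_⟩
      · exact Polynomial.X_pow_sub_C_ne_zero hN 1
      · rw [map_sub, map_pow, Polynomial.aeval_X, Polynomial.aeval_C, h11, map_one, sub_self]
    obtain ⟨a, ha, h7⟩ := (hE q hqI h3).2 Ω ξ hξ (by rwa [kr_gen]) h6 l m hlm hl hm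
    refine ⟨a, ?_, h7⟩
    rw [Finset.mem_biUnion]
    refine ⟨q, ?_, ha⟩
    rw [Set.Finite.mem_toFinset]
    exact ⟨hq, hqI, h3⟩

end Pool.Agent.Srf5F
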