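import Pool.Agent.Srf5.Defs
import Pool.Agent.CITLines.Push

set_option autoImplicit false

/-! Definitions for the theorem on fibred surfaces in the torus of dimension five
(MP_b7926e_nt, note 2057).

`w` is a generic point of the surface over `ℚ`, `e 0, e 1, e 2` are independent exponents whose
monomials are pairwise algebraically dependent: `pm e w` is a generic point of a curve `C'` in the
torus of dimension three. -/

namespace Pool.Agent.Srf5F

open MvPolynomial Pool.Agent.CITLines Pool.Agent.Srf5

/-- A surface in no proper coset which is fibred over a curve in the torus of dimension three. -/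
structure Fib {F : Type} [Field F] [CharZero F] (w : Fin 5 → F) (e : Fin 3 → Fin 5 → ℤ) :
    Prop where
  ne : ∀ i, w i ≠ 0
  dim : dm (kr ℚ w) = 2
  trans : ∀ r : Fin 5 → ℤ, r ≠ 0 → Transcendental ℚ (mon w r)
  ind : LinearIndependent ℤ e
  dep : ∀ i, Dep ℚ w (e 0) (e i)
  indep : ∀ d : Fin 5 → ℤ, LinearIndependent ℤ ![e 0, e 1, e 2, d] → ¬ Dep ℚ w (e 0) d

/-- The logarithms of the absolute values of the coordinates. -/
noncomputable def lg {ι : Type} (y : ι → ℂ) : ι → ℝ := fun i => Real.log ‖y i‖

/-- The part of `C` where the logarithms of the absolute values are at most `R` and the value of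
the polynomial `G` at the first coordinate is at least `η`. -/
def bdp (C : Set (Fin 3 → ℂ)) (G : Polynomial ℚ) (R η : ℝ) : Set (Fin 3 → ℂ) :=
  {y | y ∈ C ∧ (∀ i, |lg y i| ≤ R) ∧ η ≤ ‖Polynomial.aeval (y 0) G‖}

/-- The archimedean input: `C` is a set of complex points with nonzero coordinates of the curve
`C'`, it contains a positive proportion `κ` of the conjugates of every point, and only finitely many
points of `C` in a compact set (away from the zeros of `G`) lie over a line through the origin. -/
structure Arch {F : Type} [Field F] [CharZero F] (w : Fin 5 → F) (e : Fin 3 → Fin 5 → ℤ)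
    (C : Set (Fin 3 → ℂ)) (G : Polynomial ℚ) (κ : ℝ) : Prop where
  ne : ∀ y ∈ C, ∀ i, y i ≠ 0
  le : ∀ y ∈ C, kr ℚ (pm e w) ≤ kr ℚ y
  G0 : G ≠ 0
  cpt : ∀ R η : ℝ, IsCompact (bdp C G R η)
  line : ∀ (u v : Fin 3 → ℝ) (R η : ℝ), 0 < η → LinearIndependent ℝ ![u, v] →
    {y | y ∈ bdp C G R η ∧ ∑ i, u i * lg y i = 0 ∧ ∑ i, v i * lg y i = 0}.Finite
  pos : 0 < κ
  prop : ∀ (K : Type) [Field K] [NumberField K] (P : Fin 5 → K), (∀ i, P i ≠ 0) →
    kr ℚ w ≤ kr ℚ P →
    κ * Module.finrank ℚ K ≤ (Nat.card {σ : K →+* ℂ // pm e (fun i => σ (P i)) ∈ C} : ℝ)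

end Pool.Agent.Srf5F
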