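import Pool.Agent.Srf5F.SDefs
import Pool.Agent.Srf5.ALau

set_option autoImplicit false

/-! Package S1: duplication of coordinates, from the torus of dimension `m` (`3 ≤ m ≤ 5`) to the
torus of dimension five: `v ∘ sg m hm = (v_0, ..., v_{m-1}, v_0, ...)`. Write `σ = sg m hm`, it is
surjective (`σ i = i` for `i < m`).

PROOF of `mon_sg`. `mon (v ∘ σ) u = ∏_i v (σ i) ^ u i = ∏_j ∏_{i, σ i = j} v j ^ u i`
(`Finset.prod_fiberwise` or `Finset.prod_comp`; `v j ≠ 0` for `zpow` of a sum: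
`Finset.prod_zpow`/induction).
PROOF of `kr_sg`. `aeval (v ∘ σ) f = aeval v (rename σ f)` (`MvPolynomial.aeval_rename`). So `f ∈
kr ℚ (v ∘ σ)` iff `rename σ f ∈ kr ℚ v`.
PROOF of `dm_sg`. `dm_kr` on both sides: `Set.range (v ∘ σ) = Set.range v` (surjective).
PROOF of `rank_sg`. `U` from `RankLe k P`. `U' = U.comap T`, `T = psh` over `ℚ`, a surjective linear
map `ℚ^5 → ℚ^m` (`T (single i 1) = single i 1` for `i < m`), so
`finrank U' = finrank U + (5 - m)` (`Submodule.finrank` of a comap under a surjective map; e.g.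
`LinearMap.finrank_range_add_finrank_ker` for `U.mkQ ∘ T`, which is surjective onto `ℚ^m/U` with
kernel `U'`: `finrank U' = 5 - (m - finrank U)`). So `5 ≤ finrank U' + k`. For
`a : Fin 5 → ℤ` with `(a : ℚ) ∈ U'`: `psh a` (over `ℤ`) has rational version
`T a ∈ U`, so `mon P (psh a) ^ N = 1` and `mon (P ∘ σ) a = mon P (psh a)` (`mono` of `RankLe` and
`mon` are the same by `rfl`). Last step: `RankLe` is monotone in `k`.
PROOF of `sg_surj`, `psh_ext`: clear. `ext0 u j' = u` on the first `m` coordinates and zero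
otherwise; `psh (ext0 u) = u`; `nrm (ext0 u) = nrm u`. -/

namespace Pool.Agent.Srf5F

open MvPolynomial Pool.Agent.CITLines Pool.Agent.Srf5 Module

/-- The push forward of exponents under the duplication. -/
def psh (R : Type) [CommRing R] (m : ℕ) (hm : 0 < m) : (Fin 5 → R) →ₗ[R] (Fin m → R) where
  toFun u := fun j => ∑ i, if sg m hm i = j then u i else 0
  map_add' a b := by
    funext j
    simp only [Pi.add_apply]
    rw [← Finset.sum_add_distrib]
    exact Finset.sum_congr rfl fun i _ => by split_ifs <;> simp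
  map_smul' c a := by
    funext j
    simp only [Pi.smul_apply, smul_eq_mul, RingHom.id_apply]
    rw [Finset.mul_sum]
    exact Finset.sum_congr rfl fun i _ => by split_ifs <;> simp

/-- Extension of exponents by zero. -/
def ext0 (m : ℕ) (u : Fin m → ℤ) : Fin 5 → ℤ := fun i => if h : i.1 < m then u ⟨i.1, h⟩ else 0

theorem sg_of_lt {m : ℕ} (hm : 0 < m) {i : Fin 5} (h : i.1 < m) : sg m hm i = ⟨i.1, h⟩ := by
  apply Fin.ext
  exact Nat.mod_eq_of_lt h

theorem sg_surj {m : ℕ} (hm : 0 < m) (hm5 : m ≤ 5) : Function.Surjective (sg m hm) := by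
  intro j
  refine ⟨⟨j.1, lt_of_lt_of_le j.2 hm5⟩, ?_⟩
  rw [sg_of_lt hm (i := ⟨j.1, lt_of_lt_of_le j.2 hm5⟩) j.2]

theorem mon_sg {K : Type} [Field K] {m : ℕ} (hm : 0 < m) {v : Fin m → K} (hv : ∀ i, v i ≠ 0)
    (u : Fin 5 → ℤ) : mon (v ∘ sg m hm) u = mon v (psh ℤ m hm u) := by
  have h1 : ∀ j : Fin m, v j ^ (psh ℤ m hm u j) = ∏ i, if sg m hm i = j then v j ^ u i else 1 := by
    intro j
    have h2 : ∀ s : Finset (Fin 5), v j ^ (∑ i ∈ s, if sg m hm i = j then u i else 0) =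
        ∏ i ∈ s, if sg m hm i = j then v j ^ u i else 1 := by
      intro s
      induction s using Finset.induction_on with
      | empty => simp
      | insert a s ha ih =>
        rw [Finset.sum_insert ha, Finset.prod_insert ha, zpow_add₀ (hv j), ih]
        congr 1
        split_ifs <;> simp
    exact h2 Finset.univ
  have h3 : mon v (psh ℤ m hm u) =
      ∏ j, ∏ i, if sg m hm i = j then v j ^ u i else 1 :=
    Finset.prod_congr rfl fun j _ => h1 j
  rw [h3, Finset.prod_comm]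
  refine Finset.prod_congr rfl fun i _ => ?_
  rw [Finset.prod_ite_eq Finset.univ (sg m hm i) (fun j => v j ^ u i)]
  simp

theorem kr_sg {F F' : Type} [Field F] [CharZero F] [Field F'] [CharZero F'] {m : ℕ} (hm : 0 < m)
    {v : Fin m → F} {P : Fin m → F'} (h : kr ℚ v ≤ kr ℚ P) :
    kr ℚ (v ∘ sg m hm) ≤ kr ℚ (P ∘ sg m hm) := by
  intro f hf
  rw [mem_kr] at hf ⊢
  rw [← aeval_rename] at hf ⊢
  exact mem_kr.mp (h (mem_kr.mpr hf))

theorem dm_sg {F : Type} [Field F] [CharZero F] {m : ℕ} (hm : 0 < m) (hm5 : m ≤ 5)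
    (v : Fin m → F) : dm (kr ℚ (v ∘ sg m hm)) = dm (kr ℚ v) := by
  have h1 := dm_kr (k := ℚ) (v ∘ sg m hm)
  have h2 := dm_kr (k := ℚ) v
  rw [(sg_surj hm hm5).range_comp v, ← h2] at h1
  exact_mod_cast h1

theorem psh_cast {m : ℕ} (hm : 0 < m) (a : Fin 5 → ℤ) :
    psh ℚ m hm (fun i => (a i : ℚ)) = fun j => ((psh ℤ m hm a j : ℤ) : ℚ) := by
  funext j
  change (∑ i, if sg m hm i = j then (a i : ℚ) else 0) =
    ((∑ i, if sg m hm i = j then a i else 0 : ℤ) : ℚ)
  push_cast
  rfl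

theorem psh_ext' (R : Type) [CommRing R] {m : ℕ} (hm : 0 < m) (hm5 : m ≤ 5) (u : Fin m → R) :
    psh R m hm (fun i => if h : i.1 < m then u ⟨i.1, h⟩ else 0) = u := by
  funext j
  change (∑ i, if sg m hm i = j then (if h : i.1 < m then u ⟨i.1, h⟩ else 0) else 0) = u j
  rw [Finset.sum_eq_single (⟨j.1, lt_of_lt_of_le j.2 hm5⟩ : Fin 5)]
  · rw [sg_of_lt hm (i := ⟨j.1, lt_of_lt_of_le j.2 hm5⟩) j.2]
    simp
  · intro i _ hi
    by_cases h : i.1 < m
    · rw [sg_of_lt hm h, if_neg]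
      intro he
      apply hi
      apply Fin.ext
      have := congrArg Fin.val he
      simpa using this
    · rw [dif_neg h]
      split_ifs <;> rfl
  · intro h
    exact absurd (Finset.mem_univ _) h

theorem rank_sg {K : Type} [Field K] {m : ℕ} (hm : 0 < m) (hm5 : m ≤ 5) {P : Fin m → K}
    (hP : ∀ i, P i ≠ 0) {k l : ℕ} (hkl : k ≤ l) (h : LThree.RankLe k P) :
    LThree.RankLe l (P ∘ sg m hm) := by
  obtain ⟨U, hU, hrel⟩ := h
  refine ⟨U.comap (psh ℚ m hm), ?_, ?_⟩
  · have hsurj : Function.Surjective (psh ℚ m hm) := fun u => ⟨_, psh_ext' ℚ hm hm5 u⟩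
    have hq : Function.Surjective (U.mkQ ∘ₗ psh ℚ m hm) := by
      rw [LinearMap.coe_comp]
      exact (Submodule.mkQ_surjective U).comp hsurj
    have h1 := LinearMap.finrank_range_add_finrank_ker (U.mkQ ∘ₗ psh ℚ m hm)
    rw [LinearMap.range_eq_top.mpr hq, finrank_top, LinearMap.ker_comp, Submodule.ker_mkQ] at h1
    have h2 := U.finrank_quotient_add_finrank
    simp only [Module.finrank_fin_fun] at h1 h2
    simp only [Fintype.card_fin] at hU ⊢
    omega
  · intro a ha
    rw [Submodule.mem_comap, psh_cast] at ha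
    obtain ⟨N, hN, h1⟩ := hrel _ ha
    refine ⟨N, hN, ?_⟩
    have h2 := mon_sg hm hP a
    change mon (P ∘ sg m hm) a ^ N = 1
    rw [h2]
    exact h1

theorem psh_ext {m : ℕ} (hm : 0 < m) (hm5 : m ≤ 5) (u : Fin m → ℤ) :
    psh ℤ m hm (ext0 m u) = u :=
  psh_ext' ℤ hm hm5 u

theorem nrm_ext {m : ℕ} (hm5 : m ≤ 5) (u : Fin m → ℤ) : LThree.nrm (ext0 m u) = LThree.nrm u := by
  apply le_antisymm
  · refine Finset.sup_le fun i _ => ?_
    unfold ext0
    split_ifs with h
    · exact Finset.le_sup (f := fun i => (u i).natAbs) (Finset.mem_univ _)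
    · simp
  · refine Finset.sup_le fun j _ => ?_
    have h1 := Finset.le_sup (f := fun i => (ext0 m u i).natAbs)
      (Finset.mem_univ (⟨j.1, lt_of_lt_of_le j.2 hm5⟩ : Fin 5))
    have h2 : ext0 m u ⟨j.1, lt_of_lt_of_le j.2 hm5⟩ = u j := by
      unfold ext0
      rw [dif_pos (show (⟨j.1, lt_of_lt_of_le j.2 hm5⟩ : Fin 5).1 < m from j.2)]
    simp only [h2] at h1
    exact h1

end Pool.Agent.Srf5F
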