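import Pool.Agent.Srf5F.GRoot

set_option autoImplicit false

/-! Package G3b: common zeros of two harmonic functions which accumulate contain an analytic arc.

PROOF of `arc`. If `f` and `g` are both eventually constant near `0`, take `γ = id`: the real parts
of the constants are zero because they are zero for some `t`. Otherwise, by symmetry, `f` is not
eventually constant. `(f 0).re = 0` (continuity: `f t → f 0`, and `(f t).re = 0` frequently). Take
`n, ψ, χ` from `root_form`. For `t ≠ 0` near `0` with `(f t).re = 0`: `z = ψ t ≠ 0` and `(z ^ n).re =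
0`, so `z = ‖z‖ * u` with `u = z / ‖z‖`, `‖u‖ = 1`, `(u ^ n).re = 0`, so `u ^ n = I` or `u ^ n = -I`:
`u` is in the finite set `U` of the roots of `(X ^ n - I) (X ^ n + I)`. By the pigeonhole principle
(`Filter.frequently` over a finite union: `Finset` version of `Filter.frequently_or_distrib`, or by
contradiction with `Filter.eventually_all_finset`) there is `u ∈ U` such that frequently in `𝓝[≠] 0`
`ψ t = ‖ψ t‖ * u` and `(g t).re = 0`. Let `γ s = χ (u * s)`: analytic at `0`, `γ 0 = 0`, and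
`γ s = 0` implies `u * s = ψ 0 = 0` for small `s`. For real `s` near `0`:
`f (γ s) = f 0 + (u s) ^ n`, `(f (γ s)).re = s ^ n * (u ^ n).re = 0`. Let
`g1 s = (g (γ s) + conj (g (γ (conj s)))) / 2`: analytic at `0` (`s ↦ conj (q (conj s))` is analytic
if `q` is: `AnalyticAt` is differentiability near the point, `HasDerivAt.conj_conj`), for real
`s` near `0` it is `(g (γ s)).re`. It vanishes at the real points `s = ‖ψ t‖` for the `t` above
(`γ s = χ (ψ t) = t`), which are nonzero and tend to `0`, so frequently in `𝓝[≠] 0`; by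
`AnalyticAt.frequently_zero_iff_eventually_zero` it vanishes near `0`. -/

namespace Pool.Agent.Srf5F

open Filter Topology

/-- The unit vector of `z` is one of finitely many if `z ^ n` is imaginary. -/
private theorem unit_pow {z : ℂ} {n : ℕ} (hz : z ≠ 0) (hre : (z ^ n).re = 0) :
    (z / (‖z‖ : ℂ)) ^ n = Complex.I ∨ (z / (‖z‖ : ℂ)) ^ n = -Complex.I := by
  have hn : ‖z‖ ≠ 0 := norm_ne_zero_iff.2 hz
  have hw : (z / (‖z‖ : ℂ)) ^ n = ((‖z‖ ^ n)⁻¹ : ℝ) * z ^ n := by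
    rw [div_pow]
    push_cast
    rw [div_eq_inv_mul]
  have h0 : ((z / (‖z‖ : ℂ)) ^ n).re = 0 := by
    rw [hw, Complex.re_ofReal_mul, hre, mul_zero]
  have h1 : ‖(z / (‖z‖ : ℂ)) ^ n‖ = 1 := by
    rw [norm_pow, norm_div, Complex.norm_real, norm_norm, div_self hn, one_pow]
  set w : ℂ := (z / (‖z‖ : ℂ)) ^ n with hwdef
  have h2 : w.im * w.im = 1 := by
    have h3 := Complex.normSq_eq_norm_sq w
    rw [Complex.normSq_apply, h0, h1] at h3
    linarith
  rcases mul_self_eq_one_iff.1 h2 with h3 | h3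
  · left
    apply Complex.ext
    · rw [h0, Complex.I_re]
    · rw [h3, Complex.I_im]
  · right
    apply Complex.ext
    · rw [h0, Complex.neg_re, Complex.I_re, neg_zero]
    · rw [h3, Complex.neg_im, Complex.I_im]

/-- Restriction of a neighbourhood of `0` to the reals. -/
private theorem real_nhds {p : ℂ → Prop} (hp : ∀ᶠ s in 𝓝 (0 : ℂ), p s) :
    ∀ᶠ s : ℝ in 𝓝 0, p (s : ℂ) := by
  have h1 : Tendsto (fun s : ℝ => (s : ℂ)) (𝓝 0) (𝓝 (0 : ℂ)) := by
    have := Complex.continuous_ofReal.tendsto (0 : ℝ)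
    rwa [Complex.ofReal_zero] at this
  exact h1.eventually hp

private theorem arc_aux (f g : ℂ → ℂ) (hf : AnalyticAt ℂ f 0) (hg : AnalyticAt ℂ g 0)
    (hc : ¬ ∀ᶠ t in 𝓝 (0 : ℂ), f t = f 0)
    (h : ∃ᶠ t in 𝓝[≠] (0 : ℂ), (f t).re = 0 ∧ (g t).re = 0) :
    ∃ γ : ℂ → ℂ, AnalyticAt ℂ γ 0 ∧ γ 0 = 0 ∧ (∀ᶠ s in 𝓝[≠] (0 : ℂ), γ s ≠ 0) ∧
      ∀ᶠ s : ℝ in 𝓝 0, (f (γ s)).re = 0 ∧ (g (γ s)).re = 0 := by
  classical
  have hf0 : (f 0).re = 0 := by
    by_contra hne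
    have h1 : Tendsto (fun t => (f t).re) (𝓝[≠] (0 : ℂ)) (𝓝 (f 0).re) :=
      (Complex.continuous_re.continuousAt.comp hf.continuousAt).tendsto.mono_left
        nhdsWithin_le_nhds
    have h2 : ∀ᶠ t in 𝓝[≠] (0 : ℂ), (f t).re ≠ 0 := h1.eventually_ne hne
    obtain ⟨t, ht1, ht2⟩ := (h.and_eventually h2).exists
    exact ht2 ht1.1
  obtain ⟨n, ψ, χ, hn, hψ, hχ, hψ0, hχ0, h1, h2, h3⟩ := root_form f hf hc
  -- `ψ` does not vanish off zero
  have hψne : ∀ᶠ t in 𝓝[≠] (0 : ℂ), ψ t ≠ 0 := by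
    filter_upwards [nhdsWithin_le_nhds h2, self_mem_nhdsWithin] with t ht ht0 hz
    apply ht0
    change t = 0
    rw [← ht, hz, hχ0]
  set U : Finset ℂ := (Polynomial.nthRoots n Complex.I).toFinset ∪
    (Polynomial.nthRoots n (-Complex.I)).toFinset with hU
  have hUmem : ∀ u : ℂ, u ∈ U ↔ u ^ n = Complex.I ∨ u ^ n = -Complex.I := by
    intro u
    rw [hU, Finset.mem_union, Multiset.mem_toFinset, Multiset.mem_toFinset,
      Polynomial.mem_nthRoots hn, Polynomial.mem_nthRoots hn]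
  obtain ⟨u, huU, hu⟩ : ∃ u ∈ U, ∃ᶠ t in 𝓝[≠] (0 : ℂ), ψ t = ‖ψ t‖ * u ∧ (g t).re = 0 := by
    by_contra hcon
    push Not at hcon
    have h4 : ∀ᶠ t in 𝓝[≠] (0 : ℂ), ∀ u ∈ U, ¬ (ψ t = ‖ψ t‖ * u ∧ (g t).re = 0) := by
      rw [Filter.eventually_all_finset]
      intro u hu
      exact (hcon u hu).mono fun t ht ht' => ht ht'.1 ht'.2
    have h1' : ∀ᶠ t in 𝓝[≠] (0 : ℂ), f t - f 0 = ψ t ^ n := nhdsWithin_le_nhds h1
    obtain ⟨t, ht, ht4, ht1, ht5⟩ := (h.and_eventually (h4.and (h1'.and hψne))).exists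
    have h6 : (ψ t ^ n).re = 0 := by
      rw [← ht1, Complex.sub_re, ht.1, hf0, sub_zero]
    refine ht4 (ψ t / (‖ψ t‖ : ℂ)) ((hUmem _).2 (unit_pow ht5 h6)) ⟨?_, ht.2⟩
    have h7 : (‖ψ t‖ : ℂ) ≠ 0 := by
      rw [Complex.ofReal_ne_zero]
      exact norm_ne_zero_iff.2 ht5
    rw [mul_div_cancel₀ _ h7]
  have hun : (u ^ n).re = 0 := by
    rcases (hUmem u).1 huU with h4 | h4
    · rw [h4, Complex.I_re]
    · rw [h4, Complex.neg_re, Complex.I_re, neg_zero]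
  have hu0 : u ≠ 0 := by
    rintro rfl
    rw [zero_pow hn.ne'] at hun
    rcases (hUmem 0).1 huU with h4 | h4
    · rw [zero_pow hn.ne'] at h4
      exact Complex.I_ne_zero h4.symm
    · rw [zero_pow hn.ne'] at h4
      exact neg_ne_zero.2 Complex.I_ne_zero h4.symm
  -- the arc
  have hmul : AnalyticAt ℂ (fun s : ℂ => u * s) 0 := analyticAt_const.mul analyticAt_id
  have hγ : AnalyticAt ℂ (fun s : ℂ => χ (u * s)) 0 :=
    AnalyticAt.comp_of_eq hχ hmul (mul_zero u)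
  have hmt : Tendsto (fun s : ℂ => u * s) (𝓝 0) (𝓝 0) := by
    have := hmul.continuousAt.tendsto
    rwa [mul_zero] at this
  have hγt : Tendsto (fun s : ℂ => χ (u * s)) (𝓝 0) (𝓝 0) := by
    have := hγ.continuousAt.tendsto
    rwa [mul_zero, hχ0] at this
  have hψγ : ∀ᶠ s in 𝓝 (0 : ℂ), ψ (χ (u * s)) = u * s := hmt.eventually h3
  refine ⟨fun s => χ (u * s), hγ, by simp only [mul_zero, hχ0], ?_, ?_⟩
  · filter_upwards [nhdsWithin_le_nhds hψγ, self_mem_nhdsWithin] with s hs hs0 hz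
    rw [hz, hψ0] at hs
    rcases mul_eq_zero.1 hs.symm with h4 | h4
    · exact hu0 h4
    · exact hs0 h4
  · -- the real part of `g` along the arc
    have hq : AnalyticAt ℂ (fun s : ℂ => g (χ (u * s))) 0 :=
      AnalyticAt.comp_of_eq hg hγ (by simp only [mul_zero, hχ0])
    have hq1 : AnalyticAt ℂ (fun s : ℂ => g (χ (u * s)) +
        (starRingEnd ℂ) (g (χ (u * (starRingEnd ℂ) s)))) 0 :=
      hq.add (analyticAt_conj (fun s : ℂ => g (χ (u * s))) hq)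
    have hreal : ∀ s : ℝ, g (χ (u * s)) + (starRingEnd ℂ) (g (χ (u * (starRingEnd ℂ) (s : ℂ)))) =
        ((2 * (g (χ (u * s))).re : ℝ) : ℂ) := by
      intro s
      rw [Complex.conj_ofReal, Complex.add_conj]
    have htn : Tendsto (fun t : ℂ => ((‖ψ t‖ : ℝ) : ℂ)) (𝓝[≠] 0) (𝓝[≠] 0) := by
      rw [tendsto_nhdsWithin_iff]
      constructor
      · have h4 : Tendsto (fun t : ℂ => ((‖ψ t‖ : ℝ) : ℂ)) (𝓝 0) (𝓝 ((‖ψ 0‖ : ℝ) : ℂ)) :=
          (Complex.continuous_ofReal.continuousAt.comp hψ.continuousAt.norm).tendsto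
        rw [hψ0, norm_zero, Complex.ofReal_zero] at h4
        exact h4.mono_left nhdsWithin_le_nhds
      · filter_upwards [hψne] with t ht
        change ((‖ψ t‖ : ℝ) : ℂ) ≠ 0
        rw [Complex.ofReal_ne_zero]
        exact norm_ne_zero_iff.2 ht
    have hfr : ∃ᶠ s in 𝓝[≠] (0 : ℂ), g (χ (u * s)) +
        (starRingEnd ℂ) (g (χ (u * (starRingEnd ℂ) s))) = 0 := by
      refine htn.frequently ((hu.and_eventually
        (nhdsWithin_le_nhds h2 : ∀ᶠ t in 𝓝[≠] (0 : ℂ), χ (ψ t) = t)).mono ?_)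
      rintro t ⟨⟨ht1, ht2⟩, ht3⟩
      have h4 : χ (u * ((‖ψ t‖ : ℝ) : ℂ)) = t := by
        rw [mul_comm, ← ht1, ht3]
      rw [hreal, h4, ht2, mul_zero, Complex.ofReal_zero]
    have hev := hq1.frequently_zero_iff_eventually_zero.1 hfr
    have hf1 : ∀ᶠ s in 𝓝 (0 : ℂ), f (χ (u * s)) - f 0 = ψ (χ (u * s)) ^ n :=
      hγt.eventually h1
    filter_upwards [real_nhds hev, real_nhds hf1, real_nhds hψγ] with s hs1 hs2 hs3
    constructor
    · rw [hs3, mul_pow] at hs2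
      have h4 : (f (χ (u * (s : ℂ)))).re = (f 0).re + (((s ^ n : ℝ) : ℂ) * u ^ n).re := by
        rw [← Complex.add_re]
        congr 1
        push_cast
        linear_combination hs2
      rw [h4, hf0, Complex.re_ofReal_mul, hun]
      simp
    · rw [hreal, Complex.ofReal_eq_zero] at hs1
      linarith

theorem arc (f g : ℂ → ℂ) (hf : AnalyticAt ℂ f 0) (hg : AnalyticAt ℂ g 0)
    (h : ∃ᶠ t in 𝓝[≠] (0 : ℂ), (f t).re = 0 ∧ (g t).re = 0) :
    ∃ γ : ℂ → ℂ, AnalyticAt ℂ γ 0 ∧ γ 0 = 0 ∧ (∀ᶠ s in 𝓝[≠] (0 : ℂ), γ s ≠ 0) ∧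
      ∀ᶠ s : ℝ in 𝓝 0, (f (γ s)).re = 0 ∧ (g (γ s)).re = 0 := by
  by_cases hcf : ∀ᶠ t in 𝓝 (0 : ℂ), f t = f 0
  · by_cases hcg : ∀ᶠ t in 𝓝 (0 : ℂ), g t = g 0
    · have hcf' : ∀ᶠ t in 𝓝[≠] (0 : ℂ), f t = f 0 := nhdsWithin_le_nhds hcf
      have hcg' : ∀ᶠ t in 𝓝[≠] (0 : ℂ), g t = g 0 := nhdsWithin_le_nhds hcg
      obtain ⟨t, ht, ht1, ht2⟩ := (h.and_eventually (hcf'.and hcg')).exists
      refine ⟨fun s => s, analyticAt_id, rfl, ?_, ?_⟩
      · filter_upwards [self_mem_nhdsWithin] with s hs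
        exact hs
      · filter_upwards [real_nhds hcf, real_nhds hcg] with s hs1 hs2
        rw [hs1, hs2, ← ht1, ← ht2]
        exact ht
    · have h' : ∃ᶠ t in 𝓝[≠] (0 : ℂ), (g t).re = 0 ∧ (f t).re = 0 := h.mono fun t ht => ht.symm
      obtain ⟨γ, h1, h2, h3, h4⟩ := arc_aux g f hg hf hcg h'
      exact ⟨γ, h1, h2, h3, h4.mono fun s hs => hs.symm⟩
  · exact arc_aux f g hf hg hcf h

end Pool.Agent.Srf5F
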