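import Pool.Agent.Srf5F.GLine
import Pool.Agent.Srf5.DefQ

set_option autoImplicit false

/-! Package G9: the archimedean input for the closure of the image of a surface.

PROOF of `crv_of_fib`. `pm_ne_zero`. `mon (pm e w) r = mon w (psiZ e r)` (`mon_pm`), and
`psiZ e r = ∑ r_s e_s ≠ 0` for `r ≠ 0` (`hF.ind`), so it is transcendental (`hF.trans`). `dm = 1`: `1 ≤ dm`
because `pm e w 0` is transcendental (`card_le_dm` or `rk_range_of_indep`, `dm_kr`); `dm ≤ 1`: each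
`pm e w i = mon w (e i)` is algebraic over `ℚ(mon w (e 0))` (`hF.dep i`, and `mon w (e 0)`
transcendental), `rk_le_of_algebraic`.
PROOF of `arch_of`. `G` from `line_finite` for `v = pm e w`; `cpt` is `cpt_bdp`; the rest by
hypothesis.
PROOF of `clo_ClV`. `eq` is the definition. `le`: let `y ∈ ClV V e`, `f ∈ kr ℚ (pm e w)`,
`w = gen (vanI V)`. For `x ∈ V` (all `x i ≠ 0`) `kr ℂ w = vanI V ≤ kr ℂ x` (`kr_gen`, `mem_vanI`), so
`kr ℚ w ≤ kr ℚ x` (`IQ_eq_kr`, `IQ_mono`), `kr ℚ (pm e w) ≤ kr ℚ (pm e x)` (`kr_pm_le`), so `f`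
(mapped to `ℂ`) vanishes at `pm e x`: it belongs to the polynomials in the definition of `ClV`, so it
vanishes at `y`.
PROOF of `pm_mem_ClV`: definition. -/

namespace Pool.Agent.Srf5F

open MvPolynomial Pool.Agent.CITLines Pool.Agent.Srf5 Pool.Agent.CITTrans

private theorem garch_indep {k F : Type} [Field k] [Field F] [Algebra k F] {x y : F}
    (h : (AlgebraicIndependent.matroid k F).Indep {x, y}) (hxy : x ≠ y) :
    AlgebraicIndependent k ![x, y] := by
  rw [AlgebraicIndependent.matroid_indep_iff] at h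
  have h2 := h.comp (fun i : Fin 2 => (⟨![x, y] i, by fin_cases i <;> simp⟩ : ({x, y} : Set F))) (by
    intro i j hij
    have hij' : ![x, y] i = ![x, y] j := congrArg Subtype.val hij
    fin_cases i <;> fin_cases j
    · rfl
    · exact absurd hij' hxy
    · exact absurd hij'.symm hxy
    · rfl)
  exact h2

private theorem garch_mem {k F : Type} [Field k] [Field F] [Algebra k F] {x y : F}
    (hy : Transcendental k y) (h : ¬ AlgebraicIndependent k ![y, x]) :
    x ∈ (AlgebraicIndependent.matroid k F).closure {y} := by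
  by_contra hx
  have hI : (AlgebraicIndependent.matroid k F).Indep {y} := by
    rw [AlgebraicIndependent.matroid_indep_iff]
    exact (algebraicIndependent_singleton_iff (⟨y, rfl⟩ : ({y} : Set F))).2 hy
  obtain ⟨h1, h2⟩ := (hI.notMem_closure_iff (by simp)).1 hx
  have h3 : x ≠ y := fun h => h2 (by rw [h]; rfl)
  rw [Set.pair_comm] at h1
  exact h (garch_indep h1 h3.symm)

theorem crv_of_fib {F : Type} [Field F] [CharZero F] (w : Fin 5 → F) (e : Fin 3 → Fin 5 → ℤ)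
    (hF : Fib w e) : Crv (pm e w) := by
  have htr : ∀ r : Fin 3 → ℤ, r ≠ 0 → Transcendental ℚ (mon (pm e w) r) := by
    intro r hr
    rw [mon_pm e hF.ne]
    refine hF.trans _ fun h0 => hr ?_
    rw [psiZ_apply] at h0
    exact funext (Fintype.linearIndependent_iff.1 hF.ind r h0)
  have h0 : Transcendental ℚ (mon w (e 0)) := by
    refine hF.trans _ fun h0 => ?_
    exact hF.ind.ne_zero 0 h0
  refine ⟨pm_ne_zero e hF.ne, ?_, htr⟩
  have h1 := dm_kr (k := ℚ) (pm e w)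
  have h2 : rk ℚ (Set.range (pm e w)) ≤ 1 := by
    have h3 : rk ℚ (Set.range (pm e w)) ≤ rk ℚ {mon w (e 0)} := by
      unfold rk
      rw [← Matroid.eRk_closure_eq _ {mon w (e 0)}]
      refine Matroid.eRk_mono _ ?_
      rintro _ ⟨i, rfl⟩
      exact garch_mem h0 (hF.dep i)
    exact h3.trans ((rk_le_encard _).trans (by rw [Set.encard_singleton]))
  have h4 : 1 ≤ rk ℚ (Set.range (pm e w)) := by
    have h5 : AlgebraicIndependent ℚ (fun _ : Fin 1 => mon w (e 0)) := by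
      rw [algebraicIndependent_unique_type_iff]
      exact h0
    have h6 := rk_range_of_indep _ h5
    rw [Fintype.card_fin, Nat.cast_one] at h6
    rw [← h6]
    refine rk_mono ?_
    rintro _ ⟨i, rfl⟩
    exact ⟨0, rfl⟩
  rw [← h1] at h2 h4
  have h7 : dm (kr ℚ (pm e w)) ≤ 1 := by exact_mod_cast h2
  have h8 : 1 ≤ dm (kr ℚ (pm e w)) := by exact_mod_cast h4
  omega

theorem arch_of {F : Type} [Field F] [CharZero F] (w : Fin 5 → F) (e : Fin 3 → Fin 5 → ℤ)
    (hF : Fib w e) (C : Set (Fin 3 → ℂ)) (S : Set (MvPolynomial (Fin 3) ℂ))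
    (hC : Clo (pm e w) C S) (hN : ND C) (κ : ℝ) (hκ : 0 < κ)
    (hprop : ∀ (K : Type) [Field K] [NumberField K] (P : Fin 5 → K), (∀ i, P i ≠ 0) →
      kr ℚ w ≤ kr ℚ P →
      κ * Module.finrank ℚ K ≤ (Nat.card {σ : K →+* ℂ // pm e (fun i => σ (P i)) ∈ C} : ℝ)) :
    ∃ G : Polynomial ℚ, Arch w e C G κ := by
  obtain ⟨G, hG, hl⟩ := line_finite (pm e w) (crv_of_fib w e hF) C S hC hN
  refine ⟨G, ⟨?_, hC.le, hG, fun R η => cpt_bdp (pm e w) C S hC G R η,
    fun u v R η hη huv => hl u v R η hη huv, hκ, hprop⟩⟩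
  intro y hy
  rw [hC.eq] at hy
  exact hy.1

/-- The Zariski closure of the image of `V` under the monomials `e 0, e 1, e 2`. -/
def ClV (V : Set (Fin 5 → ℂ)) (e : Fin 3 → Fin 5 → ℤ) : Set (Fin 3 → ℂ) :=
  {y | (∀ i, y i ≠ 0) ∧ ∀ f : MvPolynomial (Fin 3) ℂ,
    (∀ x ∈ V, eval (fun s => ∏ i, x i ^ e s i) f = 0) → eval y f = 0}

theorem pm_mem_ClV (V : Set (Fin 5 → ℂ)) (hV : ∀ x ∈ V, ∀ i, x i ≠ 0) (e : Fin 3 → Fin 5 → ℤ)
    (x : Fin 5 → ℂ) (hx : x ∈ V) : pm e x ∈ ClV V e :=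
  ⟨pm_ne_zero e (hV x hx), fun _ hf => hf x hx⟩

theorem clo_ClV (V : Set (Fin 5 → ℂ)) (hV : ∀ x ∈ V, ∀ i, x i ≠ 0) (hp : (vanI V).IsPrime)
    [CharZero (Kf (vanI V))] (e : Fin 3 → Fin 5 → ℤ) :
    Clo (pm e (gen (vanI V))) (ClV V e)
      {f | ∀ x ∈ V, eval (fun s => ∏ i, x i ^ e s i) f = 0} := by
  refine ⟨rfl, ?_⟩
  intro y hy f hf
  have h1 : ∀ x ∈ V, aeval (pm e x) f = 0 := by
    intro x hx
    have h2 : vanI V ≤ kr ℂ x := by
      intro g hg
      rw [mem_kr]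
      exact mem_vanI.1 hg x hx
    have h3 : kr ℚ (gen (vanI V)) ≤ kr ℚ x := by
      have h4 := IQ_mono h2
      rw [IQ_eq_kr] at h4
      rw [← IQ_eq_kr (gen (vanI V)), kr_gen]
      exact h4
    exact mem_kr.1 (kr_pm_le (hV x hx) h3 e hf)
  have h5 := hy.2 (MvPolynomial.map (algebraMap ℚ ℂ) f) (fun x hx => by
    have h6 := h1 x hx
    rw [← MvPolynomial.aeval_map_algebraMap ℂ] at h6
    exact h6)
  rw [mem_kr, ← MvPolynomial.aeval_map_algebraMap ℂ]
  exact h5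

end Pool.Agent.Srf5F
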