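import Pool.Agent.Srf5F.GDefs

set_option autoImplicit false

/-! Package G8a: compactness of the parts `bdp C G R η`.

PROOF. `bdp C G R η` is contained in `{y | ∀ i, ‖y i‖ ≤ exp R}` (bounded: `Metric.isBounded_iff`, or
a subset of the compact `Metric.closedBall 0 (exp R)` of `Fin 3 → ℂ`) and it equals
`{y | (∀ i, exp (-R) ≤ ‖y i‖ ∧ ‖y i‖ ≤ exp R) ∧ (∀ f ∈ S, eval y f = 0) ∧ η ≤ ‖aeval (y 0) G‖}`
(`Real.abs_log_le` style: for `‖y i‖ > 0`, `|log ‖y i‖| ≤ R` iff `exp (-R) ≤ ‖y i‖ ≤ exp R`; the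
condition `exp (-R) ≤ ‖y i‖` implies `y i ≠ 0`), which is closed: `y ↦ eval y f` is continuous
(`MvPolynomial.continuous_eval`), `y ↦ aeval (y 0) G` is continuous
(`Polynomial.continuous_aeval`). -/

namespace Pool.Agent.Srf5F

open MvPolynomial Pool.Agent.CITLines Pool.Agent.Srf5 Filter Topology

/-- `bdp` is closed and bounded: `exp (-R) ≤ ‖y i‖ ≤ exp R`, polynomial equations, `G` continuous. -/
theorem cpt_bdp {F : Type} [Field F] [CharZero F] (v : Fin 3 → F) (C : Set (Fin 3 → ℂ))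
    (S : Set (MvPolynomial (Fin 3) ℂ)) (hC : Clo v C S) (G : Polynomial ℚ) (R η : ℝ) :
    IsCompact (bdp C G R η) := by
  have key : ∀ t : ℝ, 0 < t → (|Real.log t| ≤ R ↔ Real.exp (-R) ≤ t ∧ t ≤ Real.exp R) := by
    intro t ht
    rw [abs_le, Real.le_log_iff_exp_le ht, Real.log_le_iff_le_exp ht]
  have h : bdp C G R η = {y | (∀ i, Real.exp (-R) ≤ ‖y i‖ ∧ ‖y i‖ ≤ Real.exp R) ∧
      (∀ f ∈ S, eval y f = 0) ∧ η ≤ ‖Polynomial.aeval (y 0) G‖} := by
    ext y
    simp only [bdp, Set.mem_ofPred_eq, hC.eq, lg]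
    constructor
    · rintro ⟨⟨h1, h2⟩, h3, h4⟩
      exact ⟨fun i => (key _ (norm_pos_iff.2 (h1 i))).1 (h3 i), h2, h4⟩
    · rintro ⟨h1, h2, h4⟩
      have h0 : ∀ i, y i ≠ 0 := fun i =>
        norm_pos_iff.1 (lt_of_lt_of_le (Real.exp_pos _) (h1 i).1)
      exact ⟨⟨h0, h2⟩, fun i => (key _ (norm_pos_iff.2 (h0 i))).2 (h1 i), h4⟩
  rw [h]
  have hcl : IsClosed {y : Fin 3 → ℂ | (∀ i, Real.exp (-R) ≤ ‖y i‖ ∧ ‖y i‖ ≤ Real.exp R) ∧
      (∀ f ∈ S, eval y f = 0) ∧ η ≤ ‖Polynomial.aeval (y 0) G‖} := by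
    apply IsClosed.inter
    · have : {y : Fin 3 → ℂ | ∀ i, Real.exp (-R) ≤ ‖y i‖ ∧ ‖y i‖ ≤ Real.exp R} =
          ⋂ i, {y : Fin 3 → ℂ | Real.exp (-R) ≤ ‖y i‖ ∧ ‖y i‖ ≤ Real.exp R} := by
        ext y; simp
      change IsClosed {y : Fin 3 → ℂ | ∀ i, Real.exp (-R) ≤ ‖y i‖ ∧ ‖y i‖ ≤ Real.exp R}
      rw [this]
      refine isClosed_iInter fun i => IsClosed.inter ?_ ?_
      · exact isClosed_le continuous_const (continuous_apply i).norm
      · exact isClosed_le (continuous_apply i).norm continuous_const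
    · apply IsClosed.inter
      · have : {y : Fin 3 → ℂ | ∀ f ∈ S, eval y f = 0} =
            ⋂ f ∈ S, {y : Fin 3 → ℂ | eval y f = 0} := by
          ext y; simp
        change IsClosed {y : Fin 3 → ℂ | ∀ f ∈ S, eval y f = 0}
        rw [this]
        exact isClosed_biInter fun f _ =>
          isClosed_eq (MvPolynomial.continuous_eval f) continuous_const
      · exact isClosed_le continuous_const
          ((Polynomial.continuous_aeval G).comp (continuous_apply 0)).norm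
  refine Metric.isCompact_of_isClosed_isBounded hcl ?_
  refine (Metric.isBounded_closedBall (x := (0 : Fin 3 → ℂ)) (r := Real.exp R)).subset ?_
  rintro y ⟨h1, -⟩
  rw [mem_closedBall_zero_iff, pi_norm_le_iff_of_nonneg (Real.exp_pos R).le]
  exact fun i => (h1 i).2

end Pool.Agent.Srf5F
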