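import Pool.Agent.Srf5F.Defs

set_option autoImplicit false

/-! Definitions for the arc lemma (Lemma G of note 2057).

`v : Fin 3 → F` is a generic point over `ℚ` of a curve in the torus of dimension three, `C` a set of
complex points of this curve. -/

namespace Pool.Agent.Srf5F

open MvPolynomial Pool.Agent.CITLines Pool.Agent.Srf5

/-- A curve in no proper coset of the torus of dimension three. -/
structure Crv {F : Type} [Field F] [CharZero F] (v : Fin 3 → F) : Prop where
  ne : ∀ i, v i ≠ 0
  dim : dm (kr ℚ v) = 1
  trans : ∀ r : Fin 3 → ℤ, r ≠ 0 → Transcendental ℚ (mon v r)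

/-- Value of a polynomial in two variables with rational coefficients. -/
noncomputable def ev {K : Type} [CommRing K] [Algebra ℚ K] (P : Polynomial (Polynomial ℚ))
    (t s : K) : K :=
  Polynomial.eval₂ (Polynomial.aeval t : Polynomial ℚ →ₐ[ℚ] K).toRingHom s P

/-- `C` is the set of the points with nonzero coordinates where the polynomials of `S` vanish, and
all its points lie on the curve `v` over `ℚ`. -/
structure Clo {F : Type} [Field F] [CharZero F] (v : Fin 3 → F) (C : Set (Fin 3 → ℂ))
    (S : Set (MvPolynomial (Fin 3) ℂ)) : Prop where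
  eq : C = {y | (∀ i, y i ≠ 0) ∧ ∀ f ∈ S, eval y f = 0}
  le : ∀ y ∈ C, kr ℚ v ≤ kr ℚ y

/-- The nondegeneracy condition: no arc of `C` on which two independent monomials have absolute
value one, and no arc on which all coordinates have constant absolute values. -/
structure ND (C : Set (Fin 3 → ℂ)) : Prop where
  one : ∀ m n : Fin 3 → ℤ, LinearIndependent ℤ ![m, n] →
    {y | y ∈ C ∧ ‖mon y m‖ = 1 ∧ ‖mon y n‖ = 1}.Finite
  two : ∀ r : Fin 3 → ℝ, {y | y ∈ C ∧ ∀ i, ‖y i‖ = r i}.Finite

end Pool.Agent.Srf5F
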