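import Pool.Agent.Srf5F.GDefs

set_option autoImplicit false

/-! Package G1: every coordinate is a simple root of a polynomial over the first coordinate.

PROOF of `et_poly`. `v i` is algebraic over `ℚ(v 0)`: `v 0 = mon v (Pi.single 0 1)` is transcendental
over `ℚ` and `dm (kr ℚ v) = 1`, so `v 0, v i` are not algebraically independent
(`dm_kr`, `rk_range_of_indep`, `rk_mono` as in Srf5/CurveFin, or `card_le_dm`). So there is a nonzero
`P : ℚ[T][S]` with `ev P (v 0) (v i) = 0` (a nonzero polynomial in two variables vanishing at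
`(v 0, v i)`; `MvPolynomial (Fin 2) ℚ ≃ ℚ[T][S]` by `finSuccEquiv` or directly: `v i` is integral
over the fraction field). Choose such a `P` of minimal `natDegree`. `P.natDegree ≠ 0`: otherwise
`P = C p` with `aeval (v 0) p = 0`, `p ≠ 0`, contradiction to transcendence. So `P.derivative ≠ 0`
(characteristic zero) has smaller degree and `z = ev P.derivative (v 0) (v i) ≠ 0` by minimality.
`z` is algebraic over `ℚ(v 0)` too (again `dm = 1`), `z ≠ 0`: there is `Q : ℚ[T][Z]` with
`ev Q (v 0) z = 0` and `Q.coeff 0 ≠ 0` (take a nonzero `Q`, divide by the highest power of `Z`: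
`Polynomial.exists_eq_pow_rootMultiplicity_mul_and_not_dvd` or minimal degree again). `G = Q.coeff 0`.
For a complex `y` with `kr ℚ v ≤ kr ℚ y`: the polynomials `P(X 0, X i)` and `Q(X 0, P'(X 0, X i))` of
`MvPolynomial (Fin 3) ℚ` vanish at `v`, so they vanish at `y` (the value of
`ev P (X 0) (X i)` under `aeval y` is `ev P (y 0) (y i)`: `Polynomial.hom_eval₂`). If
`ev P.derivative (y 0) (y i) = 0` then `0 = ev Q (y 0) 0 = aeval (y 0) (Q.coeff 0)`. -/

namespace Pool.Agent.Srf5F

open MvPolynomial Pool.Agent.CITLines Pool.Agent.Srf5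

/-- Evaluation commutes with algebra homomorphisms. -/
private theorem ev_map {K L : Type} [CommRing K] [Algebra ℚ K] [CommRing L] [Algebra ℚ L]
    (φ : K →ₐ[ℚ] L) (P : Polynomial (Polynomial ℚ)) (t s : K) :
    φ (ev P t s) = ev P (φ t) (φ s) := by
  unfold ev
  have h := Polynomial.hom_eval₂ P (Polynomial.aeval t : Polynomial ℚ →ₐ[ℚ] K).toRingHom
    φ.toRingHom s
  have h2 : φ.toRingHom.comp (Polynomial.aeval t : Polynomial ℚ →ₐ[ℚ] K).toRingHom =
      (Polynomial.aeval (φ t) : Polynomial ℚ →ₐ[ℚ] L).toRingHom := by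
    ext
    · simp
    · simp
  rw [h2] at h
  exact h

private theorem ev_zero {K : Type} [CommRing K] [Algebra ℚ K]
    (P : Polynomial (Polynomial ℚ)) (t : K) : ev P t 0 = Polynomial.aeval t (P.coeff 0) := by
  unfold ev
  rw [Polynomial.eval₂_at_zero]
  rfl

private theorem ev_C {K : Type} [CommRing K] [Algebra ℚ K]
    (p : Polynomial ℚ) (t s : K) : ev (Polynomial.C p) t s = Polynomial.aeval t p := by
  unfold ev
  rw [Polynomial.eval₂_C]
  rfl

private theorem crv_trans {F : Type} [Field F] [CharZero F] {v : Fin 3 → F} (hv : Crv v) :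
    Transcendental ℚ (v 0) := by
  have h := hv.trans (Pi.single 0 1) (by simp)
  have h2 : mon v (Pi.single 0 1) = v 0 := by
    unfold mon
    rw [Fin.prod_univ_three]
    simp
  rwa [h2] at h

/-- Elements of the algebra generated by the coordinates are algebraic over the first one. -/
private theorem exists_ev {F : Type} [Field F] [CharZero F] {v : Fin 3 → F} (hv : Crv v) {x : F}
    (hx : x ∈ Algebra.adjoin ℚ (Set.range v)) :
    ∃ P : Polynomial (Polynomial ℚ), P ≠ 0 ∧ ev P (v 0) x = 0 := by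
  have h0 := crv_trans hv
  -- `x` is algebraic over the subalgebra generated by `v 0`
  have halg : IsAlgebraic (Algebra.adjoin ℚ (Set.range fun _ : Unit => v 0)) x := by
    by_contra hcon
    have hT : Transcendental (Algebra.adjoin ℚ (Set.range fun _ : Unit => v 0)) x := hcon
    have hi : AlgebraicIndependent ℚ (fun _ : Unit => v 0) :=
      algebraicIndependent_unique_type_iff.mpr h0
    have h2 := (hi.option_iff_transcendental x).mpr hT
    have h3 := rk_range_of_indep _ h2
    have h4 : rk ℚ (Set.range fun o : Option Unit => o.elim x fun _ => v 0) ≤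
        rk ℚ (Set.range v) := by
      refine rk_le_of_algebraic ?_
      rintro _ ⟨o, rfl⟩
      cases o with
      | none => exact isAlgebraic_algebraMap (⟨x, hx⟩ : Algebra.adjoin ℚ (Set.range v))
      | some u => exact isAlgebraic_of_mem _ ⟨0, rfl⟩
    rw [h3, ← dm_kr v, hv.dim] at h4
    simp at h4
  obtain ⟨p, hp0, hp⟩ := halg
  -- the polynomials in `v 0` map onto this subalgebra
  let φ : Polynomial ℚ →ₐ[ℚ] Algebra.adjoin ℚ (Set.range fun _ : Unit => v 0) :=
    Polynomial.aeval ⟨v 0, Algebra.subset_adjoin ⟨(), rfl⟩⟩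
  have hφ : Function.Surjective φ := by
    rintro ⟨a, ha⟩
    have h5 : a ∈ (Polynomial.aeval (v 0) : Polynomial ℚ →ₐ[ℚ] F).range := by
      rw [Set.range_const, Algebra.adjoin_singleton_eq_range_aeval] at ha
      exact ha
    obtain ⟨q, hq⟩ := h5
    refine ⟨q, Subtype.ext ?_⟩
    have h6 : (Algebra.adjoin ℚ (Set.range fun _ : Unit => v 0)).val (φ q) =
        Polynomial.aeval (v 0) q := by
      rw [← Polynomial.aeval_algHom_apply]
      rfl
    exact h6.trans hq
  obtain ⟨P, hP⟩ := Polynomial.map_surjective φ.toRingHom hφ p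
  refine ⟨P, ?_, ?_⟩
  · rintro rfl
    rw [Polynomial.map_zero] at hP
    exact hp0 hP.symm
  · have h7 : Polynomial.aeval x p = ev P (v 0) x := by
      rw [← hP, Polynomial.aeval_def, Polynomial.eval₂_map]
      unfold ev
      congr 1
      ext
      · simp
      · simp [φ]
    rw [← h7]
    exact hp

/-- A polynomial of minimal degree. -/
private theorem exists_min {F : Type} [Field F] [CharZero F] {v : Fin 3 → F} (hv : Crv v) {x : F}
    (hx : x ∈ Algebra.adjoin ℚ (Set.range v)) :
    ∃ P : Polynomial (Polynomial ℚ), P ≠ 0 ∧ ev P (v 0) x = 0 ∧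
      ∀ Q : Polynomial (Polynomial ℚ), Q.natDegree < P.natDegree → ev Q (v 0) x = 0 → Q = 0 := by
  classical
  have h : ∃ n, ∃ P : Polynomial (Polynomial ℚ), P ≠ 0 ∧ ev P (v 0) x = 0 ∧ P.natDegree = n := by
    obtain ⟨P, h1, h2⟩ := exists_ev hv hx
    exact ⟨_, P, h1, h2, rfl⟩
  obtain ⟨P, h1, h2, h3⟩ := Nat.find_spec h
  refine ⟨P, h1, h2, fun Q hQ hQ0 => ?_⟩
  by_contra hne
  rw [h3] at hQ
  exact Nat.find_min h hQ ⟨Q, hne, hQ0, rfl⟩

theorem et_poly {F : Type} [Field F] [CharZero F] (v : Fin 3 → F) (hv : Crv v) (i : Fin 3) :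
    ∃ (P : Polynomial (Polynomial ℚ)) (G : Polynomial ℚ), P ≠ 0 ∧ G ≠ 0 ∧
      ∀ y : Fin 3 → ℂ, kr ℚ v ≤ kr ℚ y → ev P (y 0) (y i) = 0 ∧
        (Polynomial.aeval (y 0) G ≠ 0 → ev P.derivative (y 0) (y i) ≠ 0) := by
  obtain ⟨P, hP0, hP, hPmin⟩ := exists_min hv (x := v i) (Algebra.subset_adjoin ⟨i, rfl⟩)
  have hdeg : P.natDegree ≠ 0 := by
    intro h
    rw [Polynomial.eq_C_of_natDegree_eq_zero h] at hP hP0
    rw [ev_C] at hP
    exact crv_trans hv ⟨P.coeff 0, fun h' => hP0 (by rw [h', Polynomial.C_0]), hP⟩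
  have hder : P.derivative ≠ 0 := fun h =>
    hdeg (Polynomial.derivative_eq_zero.mp h)
  have hz : ev P.derivative (v 0) (v i) ≠ 0 := fun h =>
    hder (hPmin _ (Polynomial.natDegree_derivative_lt hdeg) h)
  have hzm : ev P.derivative (v 0) (v i) ∈ Algebra.adjoin ℚ (Set.range v) := by
    have h := ev_map (Algebra.adjoin ℚ (Set.range v)).val P.derivative
      ⟨v 0, Algebra.subset_adjoin ⟨0, rfl⟩⟩ ⟨v i, Algebra.subset_adjoin ⟨i, rfl⟩⟩
    have h2 : ev P.derivative (v 0) (v i) = (Algebra.adjoin ℚ (Set.range v)).val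
        (ev P.derivative ⟨v 0, Algebra.subset_adjoin ⟨0, rfl⟩⟩
          ⟨v i, Algebra.subset_adjoin ⟨i, rfl⟩⟩) := by
      rw [h]
      rfl
    rw [h2]
    exact Subtype.property _
  obtain ⟨Q, hQ0, hQ, hQmin⟩ := exists_min hv hzm
  have hG : Q.coeff 0 ≠ 0 := by
    intro h0
    have h1 := Polynomial.divX_mul_X_add Q
    rw [h0, Polynomial.C_0, add_zero] at h1
    have hd0 : Q.divX ≠ 0 := by
      intro h
      rw [h, zero_mul] at h1
      exact hQ0 h1.symm
    have h2 : ev Q.divX (v 0) (ev P.derivative (v 0) (v i)) = 0 := by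
      have h3 : ev Q (v 0) (ev P.derivative (v 0) (v i)) =
          ev Q.divX (v 0) (ev P.derivative (v 0) (v i)) * ev P.derivative (v 0) (v i) := by
        conv_lhs => rw [← h1]
        rw [ev, Polynomial.eval₂_mul, Polynomial.eval₂_X]
        rfl
      rw [h3] at hQ
      exact (mul_eq_zero.mp hQ).resolve_right hz
    refine hd0 (hQmin _ ?_ h2)
    have h4 : Q.natDegree = Q.divX.natDegree + 1 := by
      conv_lhs => rw [← h1]
      exact Polynomial.natDegree_mul_X hd0
    omega
  refine ⟨P, Q.coeff 0, hP0, hG, fun y hy => ⟨?_, fun hne h0 => ?_⟩⟩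
  · have h1 : ev P (X 0 : MvPolynomial (Fin 3) ℚ) (X i) ∈ kr ℚ v := by
      rw [mem_kr, ev_map, aeval_X, aeval_X]
      exact hP
    have h2 := mem_kr.mp (hy h1)
    rwa [ev_map, aeval_X, aeval_X] at h2
  · have h1 : ev Q (X 0 : MvPolynomial (Fin 3) ℚ) (ev P.derivative (X 0) (X i)) ∈ kr ℚ v := by
      rw [mem_kr, ev_map, ev_map, aeval_X, aeval_X]
      exact hQ
    have h2 := mem_kr.mp (hy h1)
    rw [ev_map, ev_map, aeval_X, aeval_X, h0, ev_zero] at h2
    exact hne h2

end Pool.Agent.Srf5F
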