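import Pool.Agent.Srf5F.GGerm

set_option autoImplicit false

/-! Package G5: algebraic independence of exponentials.

PROOF of `exp_sum`. Let `s` be a finite set of complex numbers and `c : ℂ → ℂ` with
`∑ μ ∈ s, c μ * exp (μ z) = 0` for all `z`. The functions `z ↦ exp (μ z)` are pairwise different monoid
homomorphisms `Multiplicative ℂ →* ℂ` (different `μ`: compare the derivatives at `0`), so they are
linearly independent (`linearIndependent_monoidHom`), so `c μ = 0` for `μ ∈ s`.
PROOF of `exp_indep`. Let `p : MvPolynomial (Fin m) ℂ` with `aeval (germs of exp (λ_i T)) p = 0`; by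
`aeval_gm`, near `0`: `0 = eval (exp (λ_i T s)) p = ∑ α ∈ supp p, p_α exp ((∑ α_i λ_i) T s)`. `T` is
not eventually constant, so it is open at `0` (`AnalyticAt.eventually_constant_or_nhds_le_map_nhds`): so
`∑ p_α exp ((α · λ) z) = 0` for all `z` near `T 0`, hence for all `z` (identity theorem for entire
functions, `AnalyticOnNhd.eq_of_eventuallyEq`). The numbers `α · λ` are pairwise different for
different `α` (`λ` linearly independent over `ℚ`), so by `exp_sum` all `p_α = 0`. -/

namespace Pool.Agent.Srf5F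

open Filter Topology

/-- the character of the additive group -/
private noncomputable def GExp_chi (μ : ℂ) : Multiplicative ℂ →* ℂ where
  toFun z := Complex.exp (μ * Multiplicative.toAdd z)
  map_one' := by
    rw [toAdd_one, mul_zero, Complex.exp_zero]
  map_mul' := fun x y => by
    rw [toAdd_mul, mul_add, Complex.exp_add]

private theorem GExp_chi_inj : Function.Injective GExp_chi := by
  intro μ ν h
  have h1 : (fun z : ℂ => Complex.exp (μ * z)) = fun z => Complex.exp (ν * z) := by
    funext z
    exact DFunLike.congr_fun h (Multiplicative.ofAdd z)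
  have h2 : ∀ κ : ℂ, HasDerivAt (fun z : ℂ => Complex.exp (κ * z)) κ 0 := by
    intro κ
    have h3 := ((hasDerivAt_id (0 : ℂ)).const_mul κ).cexp
    simpa using h3
  have h4 := h2 μ
  rw [h1] at h4
  exact h4.unique (h2 ν)

theorem exp_sum (s : Finset ℂ) (c : ℂ → ℂ) (h : ∀ z : ℂ, ∑ μ ∈ s, c μ * Complex.exp (μ * z) = 0) :
    ∀ μ ∈ s, c μ = 0 := by
  have h1 := (linearIndependent_monoidHom (Multiplicative ℂ) ℂ).comp GExp_chi GExp_chi_inj
  refine linearIndependent_iff'.1 h1 s c ?_
  funext z
  rw [Finset.sum_apply]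
  exact h (Multiplicative.toAdd z)

theorem exp_indep {m : ℕ} (l : Fin m → ℂ) (hl : LinearIndependent ℚ l) (T : ℂ → ℂ)
    (hT : AnalyticAt ℂ T 0) (hT' : ¬ ∀ᶠ s in 𝓝 (0 : ℂ), T s = T 0)
    (f : Fin m → ℂ → ℂ) (hf : ∀ i, AnalyticAt ℂ (f i) 0)
    (hfT : ∀ i, ∀ᶠ s in 𝓝 (0 : ℂ), f i s = Complex.exp (l i * T s)) :
    AlgebraicIndependent ℂ fun i => gm (f i) (hf i) := by
  classical
  rw [algebraicIndependent_iff]
  intro p hp
  rw [aeval_gm] at hp
  set ψ : (Fin m →₀ ℕ) → ℂ := fun α => ∑ i, (α i : ℂ) * l i with hψ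
  have hinj : Function.Injective ψ := by
    intro α β hab
    have h1 : ∑ i, ((α i : ℚ) - (β i : ℚ)) • l i = 0 := by
      have h2 : ∑ i, ((α i : ℚ) - (β i : ℚ)) • l i = ψ α - ψ β := by
        rw [hψ]
        simp only
        rw [← Finset.sum_sub_distrib]
        refine Finset.sum_congr rfl fun i _ => ?_
        rw [Algebra.smul_def, ← sub_mul]
        congr 1
        simp
      rw [h2, hab, sub_self]
    have h3 := linearIndependent_iff'.1 hl Finset.univ _ h1
    ext i
    have h4 := h3 i (Finset.mem_univ i)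
    exact_mod_cast sub_eq_zero.1 h4
  set g : ℂ → ℂ := fun z => ∑ α ∈ p.support, p.coeff α * Complex.exp (ψ α * z) with hg
  have hev : ∀ᶠ s in 𝓝 (0 : ℂ), g (T s) = 0 := by
    filter_upwards [hp, Filter.eventually_all.2 hfT] with s h1 h2
    rw [← h1, MvPolynomial.eval_eq', hg]
    refine Finset.sum_congr rfl fun α _ => ?_
    congr 1
    simp only [h2]
    rw [hψ]
    simp only
    rw [Finset.sum_mul, Complex.exp_sum]
    refine Finset.prod_congr rfl fun i _ => ?_
    rw [← Complex.exp_nat_mul, mul_assoc]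
  have hnhds : ∀ᶠ z in 𝓝 (T 0), g z = 0 := by
    rcases hT.eventually_constant_or_nhds_le_map_nhds with h1 | h1
    · exact absurd h1 hT'
    · exact h1 hev
  have hgan : AnalyticOnNhd ℂ g Set.univ := by
    intro z _
    rw [hg]
    refine Finset.analyticAt_fun_sum _ fun α _ => ?_
    exact analyticAt_const.mul (analyticAt_const.mul analyticAt_id).cexp
  have hg0 : g = fun _ => 0 :=
    hgan.eq_of_eventuallyEq (fun _ _ => analyticAt_const) hnhds
  have hc := exp_sum (p.support.image ψ) (fun μ => p.coeff (Function.invFun ψ μ)) (by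
    intro z
    rw [Finset.sum_image fun a _ b _ hab => hinj hab]
    have h1 := congrFun hg0 z
    rw [← h1, hg]
    refine Finset.sum_congr rfl fun α _ => ?_
    rw [Function.leftInverse_invFun hinj α])
  rw [MvPolynomial.ext_iff]
  intro α
  rw [MvPolynomial.coeff_zero]
  by_contra hne
  have h1 := hc (ψ α) (Finset.mem_image_of_mem ψ (MvPolynomial.mem_support_iff.2 hne))
  rw [Function.leftInverse_invFun hinj α] at h1
  exact hne h1

end Pool.Agent.Srf5F
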