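import Mathlib

set_option autoImplicit false

/-! Package G4: the domain of germs of analytic functions at `0`.

`AG` is the subring of the germs at `0` of functions `ℂ → ℂ` consisting of the germs of analytic
functions; it is an algebra over `ℂ` (constant functions).
PROOF of `aeval_gm'`: induction on the polynomial (`MvPolynomial.induction_on`), `gm_eq`,
`gm_add`, `gm_mul`; `aeval_gm` follows with `gm_eq` for the zero function.
PROOF of `IsDomain AG`: `0 ≠ 1` (the filter `𝓝 0` is not trivial). Let `f g = 0` for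
analytic `f, g`, i.e. `f t * g t = 0` near `0`. If `f` is not eventually zero then `f t ≠ 0` on a
punctured neighbourhood (`AnalyticAt.eventually_eq_zero_or_eventually_ne_zero`), so `g t = 0` there,
so `g` is eventually zero by the same dichotomy (`𝓝[≠] 0` is not trivial).
PROOF of `const_of_algebraic`: `ℂ` is algebraically closed and `AG` is a domain
(`IsAlgClosed.degree_eq_one_of_irreducible`, or: a nonzero `p : ℂ[X]` with
`aeval (gm f) p = 0` splits, `∏ (gm f - c_i) = 0`, so some factor is zero). -/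

namespace Pool.Agent.Srf5F

open Filter Topology

/-- Germs of analytic functions at `0`. -/
def AGs : Subring (Filter.Germ (𝓝 (0 : ℂ)) ℂ) where
  carrier := {f | ∃ g : ℂ → ℂ, AnalyticAt ℂ g 0 ∧ f = (g : Filter.Germ (𝓝 (0 : ℂ)) ℂ)}
  mul_mem' := by
    rintro _ _ ⟨f, hf, rfl⟩ ⟨g, hg, rfl⟩
    exact ⟨f * g, hf.mul hg, rfl⟩
  add_mem' := by
    rintro _ _ ⟨f, hf, rfl⟩ ⟨g, hg, rfl⟩
    exact ⟨f + g, hf.add hg, rfl⟩
  zero_mem' := ⟨fun _ => 0, analyticAt_const, rfl⟩
  one_mem' := ⟨fun _ => 1, analyticAt_const, rfl⟩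
  neg_mem' := by
    rintro _ ⟨f, hf, rfl⟩
    exact ⟨-f, hf.neg, rfl⟩

/-- The ring of germs of analytic functions. -/
abbrev AG : Type := AGs

/-- The germ of an analytic function. -/
noncomputable def gm (g : ℂ → ℂ) (hg : AnalyticAt ℂ g 0) : AG :=
  ⟨(g : Filter.Germ (𝓝 (0 : ℂ)) ℂ), ⟨g, hg, rfl⟩⟩

/-- Constants. -/
noncomputable instance : Algebra ℂ AG := RingHom.toAlgebra
  { toFun := fun c => gm (fun _ => c) analyticAt_const
    map_one' := rfl
    map_mul' := fun _ _ => rfl
    map_zero' := rfl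
    map_add' := fun _ _ => rfl }

theorem algebraMap_AG (c : ℂ) : algebraMap ℂ AG c = gm (fun _ => c) analyticAt_const := rfl

theorem exists_gm (x : AG) : ∃ (f : ℂ → ℂ) (hf : AnalyticAt ℂ f 0), x = gm f hf := by
  obtain ⟨x, g, hg, rfl⟩ := x
  exact ⟨g, hg, rfl⟩

theorem gm_eq {f g : ℂ → ℂ} (hf : AnalyticAt ℂ f 0) (hg : AnalyticAt ℂ g 0) :
    gm f hf = gm g hg ↔ ∀ᶠ s in 𝓝 (0 : ℂ), f s = g s := by
  rw [← Subtype.coe_inj]
  exact Filter.Germ.coe_eq

theorem gm_mul {f g : ℂ → ℂ} (hf : AnalyticAt ℂ f 0) (hg : AnalyticAt ℂ g 0) :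
    gm f hf * gm g hg = gm (fun s => f s * g s) (hf.mul hg) := rfl

theorem gm_add {f g : ℂ → ℂ} (hf : AnalyticAt ℂ f 0) (hg : AnalyticAt ℂ g 0) :
    gm f hf + gm g hg = gm (fun s => f s + g s) (hf.add hg) := rfl

/-- A polynomial in germs is the germ of the polynomial in the functions. -/
theorem aeval_gm' {ι : Type} (f : ι → ℂ → ℂ) (hf : ∀ i, AnalyticAt ℂ (f i) 0)
    (p : MvPolynomial ι ℂ) : ∃ h : AnalyticAt ℂ (fun s => MvPolynomial.eval (fun i => f i s) p) 0,
      MvPolynomial.aeval (fun i => gm (f i) (hf i)) p =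
        gm (fun s => MvPolynomial.eval (fun i => f i s) p) h := by
  induction p using MvPolynomial.induction_on with
  | C a =>
    have h : AnalyticAt ℂ (fun s => MvPolynomial.eval (fun i => f i s) (MvPolynomial.C a)) 0 := by
      simp only [MvPolynomial.eval_C]
      exact analyticAt_const
    refine ⟨h, ?_⟩
    rw [MvPolynomial.aeval_C, algebraMap_AG, gm_eq]
    exact Filter.Eventually.of_forall fun s => (MvPolynomial.eval_C a).symm
  | add p q hp hq =>
    obtain ⟨hp, ep⟩ := hp
    obtain ⟨hq, eq⟩ := hq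
    have h : AnalyticAt ℂ (fun s => MvPolynomial.eval (fun i => f i s) (p + q)) 0 := by
      simp only [map_add]
      exact hp.add hq
    refine ⟨h, ?_⟩
    rw [map_add, ep, eq, gm_add, gm_eq]
    exact Filter.Eventually.of_forall fun s => (map_add _ p q).symm
  | mul_X p i hp =>
    obtain ⟨hp, ep⟩ := hp
    have h : AnalyticAt ℂ (fun s => MvPolynomial.eval (fun i => f i s) (p * MvPolynomial.X i))
        0 := by
      simp only [map_mul, MvPolynomial.eval_X]
      exact hp.mul (hf i)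
    refine ⟨h, ?_⟩
    rw [map_mul, ep, MvPolynomial.aeval_X, gm_mul, gm_eq]
    refine Filter.Eventually.of_forall fun s => ?_
    rw [map_mul, MvPolynomial.eval_X]

/-- A polynomial relation between germs is a polynomial relation between the functions. -/
theorem aeval_gm {ι : Type} (f : ι → ℂ → ℂ) (hf : ∀ i, AnalyticAt ℂ (f i) 0)
    (p : MvPolynomial ι ℂ) :
    MvPolynomial.aeval (fun i => gm (f i) (hf i)) p = 0 ↔
      ∀ᶠ s in 𝓝 (0 : ℂ), MvPolynomial.eval (fun i => f i s) p = 0 := by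
  obtain ⟨h, e⟩ := aeval_gm' f hf p
  rw [e]
  exact gm_eq h analyticAt_const

instance : IsDomain AG := by
  have h1 : Nontrivial AG := by
    refine ⟨⟨0, 1, fun h => ?_⟩⟩
    have h2 : gm (fun _ => 0) analyticAt_const = gm (fun _ => 1) analyticAt_const := h
    exact zero_ne_one ((gm_eq _ _).1 h2).self_of_nhds
  have h2 : NoZeroDivisors AG := by
    refine ⟨fun {a b} hab => ?_⟩
    obtain ⟨f, hf, rfl⟩ := exists_gm a
    obtain ⟨g, hg, rfl⟩ := exists_gm b
    have h3 : ∀ᶠ s in 𝓝 (0 : ℂ), f s * g s = 0 := by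
      rw [gm_mul] at hab
      exact (gm_eq (hf.mul hg) analyticAt_const).1 hab
    rcases hf.eventually_eq_zero_or_eventually_ne_zero with h4 | h4
    · exact Or.inl ((gm_eq hf analyticAt_const).2 h4)
    · rcases hg.eventually_eq_zero_or_eventually_ne_zero with h5 | h5
      · exact Or.inr ((gm_eq hg analyticAt_const).2 h5)
      · exfalso
        obtain ⟨s, h6, h7, h8⟩ := (h4.and (h5.and (h3.filter_mono nhdsWithin_le_nhds))).exists
        exact (mul_ne_zero h6 h7) h8
  exact NoZeroDivisors.to_isDomain _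

/-- A germ which is algebraic over `ℂ` is constant. -/
theorem const_of_algebraic (f : ℂ → ℂ) (hf : AnalyticAt ℂ f 0) (h : IsAlgebraic ℂ (gm f hf)) :
    ∃ c : ℂ, ∀ᶠ s in 𝓝 (0 : ℂ), f s = c := by
  have h1 := h.isIntegral
  have h2 := IsAlgClosed.degree_eq_one_of_irreducible ℂ (minpoly.irreducible h1)
  obtain ⟨c, hc⟩ := minpoly.mem_range_of_degree_eq_one ℂ _ h2
  refine ⟨c, ?_⟩
  have h3 : gm (fun _ => c) analyticAt_const = gm f hf := hc
  exact (gm_eq hf analyticAt_const).1 h3.symm

end Pool.Agent.Srf5F
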