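import Pool.Agent.Srf5F.GEt

set_option autoImplicit false

/-! Package G2: local parametrisation of the curve by the first coordinate.

PROOF of `imp`. Let `Φ : ℂ × ℂ → ℂ × ℂ`, `Φ (t, s) = (t, ev P t s)`. It is `ContDiff ℂ n` for
every `n`
(a polynomial map: `ev P t s = ∑ j, aeval t (P.coeff j) * s ^ j`, `Polynomial.eval₂_eq_sum_range`).
Its derivative at `(t0, s0)` is `(dt, ds) ↦ (dt, a dt + b ds)` with `b = ev P.derivative t0 s0 ≠ 0`
(the partial derivative in `s`: `HasDerivAt` of `s ↦ ev P t0 s`, `Polynomial.hasDerivAt` for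
`P.map _`), so it is a continuous linear equivalence (`ContinuousLinearEquiv.ofBijective` in finite
dimension, or give the inverse explicitly). By `ContDiffAt.to_localInverse` the local inverse `Ψ` is
`ContDiffAt ℂ 1` at `(t0, 0)`; `φ t = (Ψ (t, 0)).2` is `ContDiffAt ℂ 1` at `t0`, so
differentiable in
a neighbourhood of `t0` (`ContDiffAt.eventually`, `ContDiffAt.differentiableAt`), so analytic
(`DifferentiableOn.analyticAt`). `HasStrictFDerivAt.eventually_left_inverse`: for `(t, s)` near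
`(t0, s0)` `Ψ (Φ (t, s)) = (t, s)`; if `ev P t s = 0` then `Ψ (t, 0) = (t, s)`, `s = φ t`; in
particular `φ t0 = s0`.
PROOF of `chart`. `P_i, G_i` from `et_poly`, `G = ∏ G_i`; `φ_i` from `imp` for
`(y* 0, y* i)` (for every `i`, also `i = 0`; for `i = 0` replace `φ_0` by the identity function, so
that `φ t 0 = t`). For `y` near `y*` the pairs `(y 0, y i)` are near `(y* 0, y* i)`, so
`y i = φ_i (y 0)`. -/

namespace Pool.Agent.Srf5F

open MvPolynomial Pool.Agent.CITLines Pool.Agent.Srf5 Filter Topology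

private theorem ev_contDiff (P : Polynomial (Polynomial ℚ)) :
    ContDiff ℂ ⊤ (fun p : ℂ × ℂ => ev P p.1 p.2) := by
  have h : (fun p : ℂ × ℂ => ev P p.1 p.2) = fun p : ℂ × ℂ =>
      ∑ j ∈ Finset.range (P.natDegree + 1), Polynomial.aeval p.1 (P.coeff j) * p.2 ^ j := by
    funext p
    unfold ev
    rw [Polynomial.eval₂_eq_sum_range]
    rfl
  rw [h]
  refine ContDiff.sum fun j _ => ?_
  have h1 : ContDiff ℂ ⊤ fun p : ℂ × ℂ => Polynomial.aeval p.1 (P.coeff j) :=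
    (Polynomial.contDiff_aeval (P.coeff j) ⊤).comp contDiff_fst
  exact h1.mul (contDiff_snd.pow j)

private theorem ev_hasDerivAt (P : Polynomial (Polynomial ℚ)) (t0 s0 : ℂ) :
    HasDerivAt (fun s : ℂ => ev P t0 s) (ev P.derivative t0 s0) s0 := by
  have h := (P.map (Polynomial.aeval t0 : Polynomial ℚ →ₐ[ℚ] ℂ).toRingHom).hasDerivAt s0
  rw [Polynomial.derivative_map] at h
  have h1 : (fun s : ℂ => ev P t0 s) = fun s =>
      (P.map (Polynomial.aeval t0 : Polynomial ℚ →ₐ[ℚ] ℂ).toRingHom).eval s := by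
    funext s
    unfold ev
    rw [Polynomial.eval₂_eq_eval_map]
  rw [h1]
  unfold ev
  rw [Polynomial.eval₂_eq_eval_map]
  exact h

theorem imp (P : Polynomial (Polynomial ℚ)) (t0 s0 : ℂ) (h : ev P t0 s0 = 0)
    (h' : ev P.derivative t0 s0 ≠ 0) :
    ∃ φ : ℂ → ℂ, AnalyticAt ℂ φ t0 ∧ φ t0 = s0 ∧
      ∀ᶠ p : ℂ × ℂ in 𝓝 (t0, s0), ev P p.1 p.2 = 0 → p.2 = φ p.1 := by
  have cd : ContDiffAt ℂ ⊤ (fun p : ℂ × ℂ => ev P p.1 p.2) (t0, s0) := (ev_contDiff P).contDiffAt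
  have pn : (⊤ : WithTop ℕ∞) ≠ 0 := by simp
  have hfd : HasFDerivAt (fun p : ℂ × ℂ => ev P p.1 p.2)
      (fderiv ℂ (fun p : ℂ × ℂ => ev P p.1 p.2) (t0, s0)) (t0, s0) :=
    (cd.differentiableAt pn).hasFDerivAt
  have hline : HasDerivAt (fun s : ℂ => (t0, s)) ((0 : ℂ), (1 : ℂ)) s0 :=
    (hasDerivAt_const s0 t0).prodMk (hasDerivAt_id s0)
  have hb : fderiv ℂ (fun p : ℂ × ℂ => ev P p.1 p.2) (t0, s0) ((0 : ℂ), (1 : ℂ)) =
      ev P.derivative t0 s0 :=
    (HasFDerivAt.comp_hasDerivAt s0 hfd hline).unique (ev_hasDerivAt P t0 s0)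
  have hinv : (fderiv ℂ (fun p : ℂ × ℂ => ev P p.1 p.2) (t0, s0) ∘L
      ContinuousLinearMap.inr ℂ ℂ ℂ).IsInvertible := by
    refine ⟨ContinuousLinearEquiv.unitsEquivAut ℂ (Units.mk0 _ h'), ?_⟩
    ext
    simp [hb]
  refine ⟨cd.implicitFunction pn hinv, ?_, cd.implicitFunction_apply_self pn hinv, ?_⟩
  · exact (cd.contDiffAt_implicitFunction pn hinv).analyticAt
  · filter_upwards [cd.eventually_apply_eq_iff_implicitFunction pn hinv] with p hp hp0
    exact (hp.1 (hp0.trans h.symm)).symm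

theorem chart {F : Type} [Field F] [CharZero F] (v : Fin 3 → F) (hv : Crv v) :
    ∃ G : Polynomial ℚ, G ≠ 0 ∧ ∀ y0 : Fin 3 → ℂ, kr ℚ v ≤ kr ℚ y0 →
      Polynomial.aeval (y0 0) G ≠ 0 →
      ∃ φ : ℂ → Fin 3 → ℂ, (∀ i, AnalyticAt ℂ (fun t => φ t i) (y0 0)) ∧ φ (y0 0) = y0 ∧
        (∀ t, φ t 0 = t) ∧ ∀ᶠ y in 𝓝 y0, kr ℚ v ≤ kr ℚ y → y = φ (y 0) := by
  choose P G hP hG hPG using fun i => et_poly v hv i
  refine ⟨∏ i, G i, Finset.prod_ne_zero_iff.2 fun i _ => hG i, ?_⟩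
  intro y0 hy0 hG0
  rw [map_prod, Finset.prod_ne_zero_iff] at hG0
  choose φ hφ1 hφ2 hφ3 using fun i => imp (P i) (y0 0) (y0 i) (hPG i y0 hy0).1
    ((hPG i y0 hy0).2 (hG0 i (Finset.mem_univ i)))
  refine ⟨fun t i => if i = 0 then t else φ i t, ?_, ?_, fun t => if_pos rfl, ?_⟩
  · intro i
    by_cases hi : i = 0
    · simp only [hi, if_true]
      exact analyticAt_id
    · simp only [hi, if_false]
      exact hφ1 i
  · funext i
    by_cases hi : i = 0
    · simp only [hi, if_true]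
    · simp only [hi, if_false]
      exact hφ2 i
  · have h1 : ∀ i, ∀ᶠ y : Fin 3 → ℂ in 𝓝 y0, ev (P i) (y 0) (y i) = 0 → y i = φ i (y 0) := by
      intro i
      have hc : Tendsto (fun y : Fin 3 → ℂ => (y 0, y i)) (𝓝 y0) (𝓝 (y0 0, y0 i)) :=
        ((continuous_apply 0).prodMk (continuous_apply i)).continuousAt
      exact hc.eventually (hφ3 i)
    filter_upwards [eventually_all.2 h1] with y hy hle
    funext i
    by_cases hi : i = 0
    · simp only [hi, if_true]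
    · simp only [hi, if_false]
      exact hy i (hPG i y hle).1

end Pool.Agent.Srf5F
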