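import Pool.Agent.Srf5F.GDefs

set_option autoImplicit false

/-! Package G6: monomials are not constant along an arc of the curve.

PROOF. Let `c = mon (Y s) m` for `s` near `0`, and suppose that `Y_0` is not eventually constant. The set
`Z` of the complex numbers which are algebraic over `ℚ(c)` (over the subfield, or over
`Algebra.adjoin ℚ {c}`) is countable (`Algebraic.countable`, or `Algebraic.cardinalMk_le_max`;
`Algebra.adjoin ℚ {c}` is countable). `Y_0` is open at `0`
(`AnalyticAt.eventually_constant_or_nhds_le_map_nhds`), so its image of a neighbourhood of `0`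
contains a neighbourhood of `Y_0 0`, which is not countable (`Set.Countable` and nonempty open
subsets of `ℂ`: `IsOpen` sets have the cardinality of the continuum, or measure, or
`Complex` balls contain segments): there is `s` near `0` with `t = Y_0 s ∉ Z`,
`kr ℚ v ≤ kr ℚ (Y s)` and `mon (Y s) m = c`. `t` is transcendental over `ℚ`, so
`1 ≤ dm (kr ℚ (Y s)) ≤ dm (kr ℚ v) = 1` (`dm_anti`, `card_le_dm` or `rk_range_of_indep`), so
`kr ℚ (Y s) = kr ℚ v` (`dm_strictAnti`). `mon v m` is transcendental over `ℚ` and `v 0, mon v m` are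
dependent (`dm = 1`). `c` is transcendental over `ℚ` (if `f(c) = 0` then `f(mon (Y s) m) = 0`, so
`f(mon v m) = 0`, e.g. `kr_pm_le` with `kr ℚ (Y s) ≤ kr ℚ v`), and `t, c` are dependent over `ℚ`
(`dep_mono` of Srf5/TorsList for the pair of exponents `Pi.single 0 1, m`, stated there for
`w : Fin n → F`). As `c` is transcendental, `t` is algebraic over `ℚ(c)`
(`AlgebraicIndependent` of `![c, t]`: exchange), contradiction to `t ∉ Z`. -/

namespace Pool.Agent.Srf5F

open MvPolynomial Pool.Agent.CITLines Pool.Agent.Srf5 Filter Topology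

/-- the numbers which are algebraic over the subring generated by `c` -/
private def ZZ (c : ℂ) : Set ℂ :=
  {t | IsAlgebraic (Algebra.adjoin ℚ (Set.range (fun _ : Unit => c))) t}

private theorem ZZ_countable (c : ℂ) : (ZZ c).Countable := by
  have h1 : Countable (Polynomial ℚ) := by
    rw [← Cardinal.mk_le_aleph0_iff]
    refine Polynomial.cardinalMk_le_max.trans ?_
    simp
  have h2 : ((Algebra.adjoin ℚ (Set.range (fun _ : Unit => c)) : Subalgebra ℚ ℂ) : Set ℂ) =
      Set.range (Polynomial.aeval c : Polynomial ℚ →ₐ[ℚ] ℂ) := by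
    rw [Set.range_const, Algebra.adjoin_singleton_eq_range_aeval]
    rfl
  have h3 : Countable (Algebra.adjoin ℚ (Set.range (fun _ : Unit => c)) : Subalgebra ℚ ℂ) := by
    have h4 : ((Algebra.adjoin ℚ (Set.range (fun _ : Unit => c)) : Subalgebra ℚ ℂ) :
        Set ℂ).Countable := by
      rw [h2]
      exact Set.countable_range _
    exact h4.to_subtype
  exact Algebraic.countable _ _

/-- transcendence is inherited by points with the same ideal -/
private theorem trans_mon {F : Type} [Field F] [CharZero F] (v : Fin 3 → F) (y : Fin 3 → ℂ)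
    (hv : ∀ i, v i ≠ 0) (hle : kr ℚ y ≤ kr ℚ v) (m : Fin 3 → ℤ)
    (ht : Transcendental ℚ (mon v m)) : Transcendental ℚ (mon y m) := by
  rw [← algebraicIndependent_unique_type_iff (ι := Unit) (x := fun _ => mon y m)]
  rw [← algebraicIndependent_unique_type_iff (ι := Unit) (x := fun _ => mon v m)] at ht
  rw [algebraicIndependent_iff] at ht ⊢
  intro p hp
  apply ht
  exact mem_kr.mp (kr_pm_le hv hle (fun _ : Unit => m) (mem_kr.mpr hp))

theorem noconst {F : Type} [Field F] [CharZero F] (v : Fin 3 → F) (hv : Crv v)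
    (Y : ℂ → Fin 3 → ℂ) (hY : ∀ i, AnalyticAt ℂ (fun s => Y s i) 0)
    (hYv : ∀ᶠ s in 𝓝 (0 : ℂ), (∀ i, Y s i ≠ 0) ∧ kr ℚ v ≤ kr ℚ (Y s))
    (hY0 : ¬ ∀ᶠ s in 𝓝 (0 : ℂ), Y s 0 = Y 0 0) (m : Fin 3 → ℤ) (hm : m ≠ 0) (c : ℂ) :
    ¬ ∀ᶠ s in 𝓝 (0 : ℂ), mon (Y s) m = c := by
  intro hc
  have hA := hYv.and hc
  have hopen : 𝓝 (Y 0 0) ≤ map (fun s => Y s 0) (𝓝 (0 : ℂ)) :=
    (hY 0).eventually_constant_or_nhds_le_map_nhds.resolve_left hY0
  have himg : (fun s => Y s 0) '' {s | ((∀ i, Y s i ≠ 0) ∧ kr ℚ v ≤ kr ℚ (Y s)) ∧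
      mon (Y s) m = c} ∈ 𝓝 (Y 0 0) := hopen (image_mem_map hA)
  have hd : Dense (ZZ c)ᶜ := (ZZ_countable c).dense_compl ℂ
  obtain ⟨t, htZ, ht⟩ := hd.inter_nhds_nonempty himg
  obtain ⟨s, ⟨⟨hs0, hsv⟩, hsc⟩, hst⟩ : ∃ s, (((∀ i, Y s i ≠ 0) ∧ kr ℚ v ≤ kr ℚ (Y s)) ∧
      mon (Y s) m = c) ∧ Y s 0 = t := ht
  have htr : Transcendental (Algebra.adjoin ℚ (Set.range (fun _ : Unit => c))) t := htZ
  have htQ : Transcendental ℚ t := fun h =>
    htr (h.extendScalars (FaithfulSMul.algebraMap_injective _ _))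
  have hdle : dm (kr ℚ (Y s)) ≤ 1 := by
    rw [← hv.dim]
    exact dm_anti hsv
  have hdge : 1 ≤ dm (kr ℚ (Y s)) := by
    have h1 : AlgebraicIndependent ℚ (fun _ : Unit => t) :=
      algebraicIndependent_unique_type_iff.2 htQ
    have h2 := rk_range_of_indep _ h1
    have h3 : rk ℚ (Set.range (fun _ : Unit => t)) ≤ rk ℚ (Set.range (Y s)) := by
      refine rk_mono ?_
      rintro _ ⟨_, rfl⟩
      exact ⟨0, hst⟩
    rw [h2, ← dm_kr] at h3
    have h4 : ((1 : ℕ) : ℕ∞) ≤ (dm (kr ℚ (Y s)) : ℕ∞) := by simpa using h3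
    exact_mod_cast h4
  have heq : kr ℚ v = kr ℚ (Y s) := by
    by_contra hne
    have h1 := dm_strictAnti (lt_of_le_of_ne hsv hne)
    rw [hv.dim] at h1
    omega
  have hct : Transcendental ℚ c := by
    rw [← hsc]
    exact trans_mon v (Y s) hv.ne heq.ge m (hv.trans m hm)
  have hci : AlgebraicIndependent ℚ (fun _ : Unit => c) :=
    algebraicIndependent_unique_type_iff.2 hct
  have hpair := (hci.option_iff_transcendental t).2 htr
  have h1 := rk_range_of_indep _ hpair
  have h2 : rk ℚ (Set.range (fun o : Option Unit => o.elim t (fun _ : Unit => c))) ≤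
      rk ℚ (Set.range (Y s)) := by
    refine rk_le_of_algebraic ?_
    rintro _ ⟨o, rfl⟩
    cases o with
    | none =>
      show IsAlgebraic _ t
      exact isAlgebraic_of_mem _ ⟨0, hst⟩
    | some u =>
      show IsAlgebraic _ c
      rw [← hsc]
      exact isAlgebraic_mon (Y s) m
  rw [h1, ← dm_kr] at h2
  have h3 : ((2 : ℕ) : ℕ∞) ≤ (dm (kr ℚ (Y s)) : ℕ∞) := by simpa using h2
  have h4 : 2 ≤ dm (kr ℚ (Y s)) := by exact_mod_cast h3
  omega

end Pool.Agent.Srf5F
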