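import Pool.Agent.Srf5F.GEt
import Pool.Agent.Srf5F.GExp
import Pool.Agent.Srf5F.GNc

set_option autoImplicit false

/-! Package G7: the direction of an arc over a line is rational.

PROOF. Let `y i = gm (exp (L i))`, `y' i = gm (exp (L' i))`, `E i = y i * y' i = gm (exp (w_i T))` in
the domain `AG`; `M = AlgebraicIndependent.matroid ℂ AG`, closure of a set `s`: the elements which are
algebraic over `Algebra.adjoin ℂ s`.
(a) `y i` is algebraic over `ℂ(y 0)`: `P ≠ 0` from `et_poly` has `ev P (y 0) (y i) = 0` (near `0`: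
`ev P (exp (L 0 s)) (exp (L i s)) = 0` by `hY`), and the coefficients of `P` at `y 0` are not all zero
because `y 0` is not constant, so transcendental over `ℂ` (`const_of_algebraic`, `hnc`). Similarly
`y' i` is algebraic over `ℂ(y' 0)`, and `y' 0` is transcendental over `ℂ` (`hnc'`).
(b) Suppose that two of the numbers `w_i`, say `w_i, w_j`, are linearly independent over `ℚ` (as
complex numbers). `exp_indep` (`m = 2`): `E i, E j` are algebraically independent over `ℂ`; they are
algebraic over `ℂ(y 0, y' 0)`, so `y 0, y' 0` are algebraically independent (rank 2).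
(b1) If `w_0, w_1, w_2` are linearly independent over `ℚ`: `exp_indep` (`m = 3`) gives three
algebraically independent elements algebraic over `ℂ(y 0, y' 0)`: contradiction.
(b2) Otherwise there is `m : Fin 3 → ℤ`, `m ≠ 0`, `∑ m_i w_i = 0` (clear denominators). Let
`z = ∏ y_i ^ m_i`; `z * ∏ y'_i ^ m_i = ∏ E_i ^ m_i = 1`. `z` is algebraic over `ℂ(y 0)` and over
`ℂ(y' 0)`. As `y 0, y' 0` are algebraically independent, `z` is algebraic over `ℂ`
(`Matroid.Indep.closure_inter_eq_inter_closure`). `z` is the germ of the analytic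
function `mon (exp (L · s)) m`, so it is constant (`const_of_algebraic`): contradiction to `noconst`
for `Y s i = exp (L i s)`.
(c) So any two `w_i, w_j` are linearly dependent over `ℚ`; if `w = 0` take `ρ = 0`; otherwise fix
`w_j ≠ 0`; all `w_i = q_i w_j` with `q_i` rational; with a common denominator `N` take
`ρ = w_j / N`, `n_i = N q_i`. -/

namespace Pool.Agent.Srf5F

open MvPolynomial Pool.Agent.CITLines Pool.Agent.Srf5 Filter Topology

private theorem faith : FaithfulSMul ℂ AG :=
  (faithfulSMul_iff_algebraMap_injective ℂ AG).2 (algebraMap ℂ AG).injective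

attribute [local instance] faith

/-- Closure in the matroid of algebraic independence of `AG`. -/
private theorem cl_eq (s : Set AG) : (AlgebraicIndependent.matroid ℂ AG).closure s =
    (Subalgebra.algebraicClosure (Algebra.adjoin ℂ s) AG : Set AG) :=
  AlgebraicIndependent.matroid_closure_eq

private theorem mem_cl {s : Set AG} {a : AG} :
    a ∈ (AlgebraicIndependent.matroid ℂ AG).closure s ↔ IsAlgebraic (Algebra.adjoin ℂ s) a := by
  rw [cl_eq]; exact Iff.rfl

/-- Two germs over a curve: the second is algebraic over the first. -/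
private theorem alg_of_ev (P : Polynomial (Polynomial ℚ)) (hP : P ≠ 0) (f g : ℂ → ℂ)
    (hf : AnalyticAt ℂ f 0) (hg : AnalyticAt ℂ g 0)
    (h : ∀ᶠ s in 𝓝 (0 : ℂ), ev P (f s) (g s) = 0) (hnc : ¬ IsAlgebraic ℂ (gm f hf)) :
    IsAlgebraic (Algebra.adjoin ℂ {gm f hf}) (gm g hg) := by
  classical
  set A : Subalgebra ℂ AG := Algebra.adjoin ℂ {gm f hf} with hA
  let a : A := ⟨gm f hf, Algebra.subset_adjoin (Set.mem_singleton _)⟩
  let φ : Polynomial ℚ →+* A :=
    Polynomial.eval₂RingHom ((algebraMap ℂ A).comp (algebraMap ℚ ℂ)) a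
  have hφ : ∀ p : Polynomial ℚ, ((φ p : A) : AG) =
      Polynomial.aeval (gm f hf) (p.map (algebraMap ℚ ℂ)) := by
    intro p
    have h1 : (A.val : A →+* AG).comp φ =
        ((Polynomial.aeval (gm f hf) : Polynomial ℂ →ₐ[ℂ] AG) : Polynomial ℂ →+* AG).comp
          (Polynomial.mapRingHom (algebraMap ℚ ℂ)) := by
      apply Polynomial.ringHom_ext
      · intro c
        simp [φ, Polynomial.eval₂RingHom]
      · simp [φ, Polynomial.eval₂RingHom, a]
    exact congrArg (fun r => r p) h1
  have hinj : ∀ p : Polynomial ℚ, φ p = 0 → p = 0 := by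
    intro p hp
    by_contra hne
    apply hnc
    refine ⟨p.map (algebraMap ℚ ℂ), ?_, ?_⟩
    · exact (Polynomial.map_ne_zero_iff (algebraMap ℚ ℂ).injective).2 hne
    · rw [← hφ p, hp]; rfl
  refine ⟨P.map φ, ?_, ?_⟩
  · intro h0
    apply hP
    ext1 j
    have h2 : (P.map φ).coeff j = 0 := by rw [h0, Polynomial.coeff_zero]
    rw [Polynomial.coeff_map] at h2
    rw [hinj _ h2, Polynomial.coeff_zero]
  · -- the value is the germ of the function `ev P (f s) (g s)`
    let F : Fin 2 → ℂ → ℂ := ![f, g]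
    have hF : ∀ i, AnalyticAt ℂ (F i) 0 := by
      intro i; fin_cases i
      · exact hf
      · exact hg
    let Q : MvPolynomial (Fin 2) ℂ := ev P (X 0) (X 1)
    have hQ : ∀ s : ℂ, MvPolynomial.eval (fun i => F i s) Q = ev P (f s) (g s) := by
      intro s
      have e1 : (MvPolynomial.eval fun i => F i s).comp
          ((Polynomial.aeval (X 0 : MvPolynomial (Fin 2) ℂ) :
            Polynomial ℚ →ₐ[ℚ] MvPolynomial (Fin 2) ℂ).toRingHom) =
          (Polynomial.aeval (f s) : Polynomial ℚ →ₐ[ℚ] ℂ).toRingHom := by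
        apply Polynomial.ringHom_ext
        · intro c; simp
        · simp [F]
      simp only [Q, ev]
      rw [Polynomial.hom_eval₂, e1]
      simp [F]
    have h3 : MvPolynomial.aeval (fun i => gm (F i) (hF i)) Q = 0 := by
      rw [aeval_gm]
      exact h.mono fun s hs => by rw [hQ s]; exact hs
    have e2 : ((MvPolynomial.aeval (fun i => gm (F i) (hF i)) :
        MvPolynomial (Fin 2) ℂ →ₐ[ℂ] AG) : MvPolynomial (Fin 2) ℂ →+* AG).comp
          ((Polynomial.aeval (X 0 : MvPolynomial (Fin 2) ℂ) :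
            Polynomial ℚ →ₐ[ℚ] MvPolynomial (Fin 2) ℂ).toRingHom) =
        (algebraMap A AG).comp φ := by
      apply Polynomial.ringHom_ext
      · intro c
        simp [φ, Polynomial.eval₂RingHom]
      · simp [φ, Polynomial.eval₂RingHom, a, F]
    have h4 : ((MvPolynomial.aeval (fun i => gm (F i) (hF i)) :
        MvPolynomial (Fin 2) ℂ →ₐ[ℂ] AG) : MvPolynomial (Fin 2) ℂ →+* AG) Q = 0 := h3
    simp only [Q, ev] at h4
    rw [Polynomial.hom_eval₂, e2] at h4
    rw [Polynomial.aeval_def, Polynomial.eval₂_map]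
    simpa [F] using h4

/-- A non constant germ is transcendental. -/
private theorem trans_of_nc (f : ℂ → ℂ) (hf : AnalyticAt ℂ f 0)
    (h : ¬ ∀ᶠ s in 𝓝 (0 : ℂ), f s = f 0) : ¬ IsAlgebraic ℂ (gm f hf) := by
  intro ha
  obtain ⟨c, hc⟩ := const_of_algebraic f hf ha
  apply h
  have h0 : f 0 = c := hc.self_of_nhds
  exact hc.mono fun s hs => by rw [hs, h0]

private theorem gm_pow (f : ℂ → ℂ) (hf : AnalyticAt ℂ f 0) (n : ℕ) :
    gm f hf ^ n = gm (fun s => f s ^ n) (hf.pow n) := by
  induction n with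
  | zero =>
    rw [pow_zero]
    have : (1 : AG) = gm (fun _ => 1) analyticAt_const := rfl
    rw [this, gm_eq]
    exact Eventually.of_forall fun s => by simp
  | succ n ih =>
    rw [pow_succ, ih, gm_mul, gm_eq]
    exact Eventually.of_forall fun s => by simp [pow_succ]

/-- The germ of `mon (exp ∘ L) m` is algebraic over the first coordinate. -/
private theorem alg_mon (L : Fin 3 → ℂ → ℂ) (hL : ∀ i, AnalyticAt ℂ (L i) 0) (b : AG)
    (hb : ∀ i, IsAlgebraic (Algebra.adjoin ℂ {b})
      (gm (fun s => Complex.exp (L i s)) (hL i).cexp)) (m : Fin 3 → ℤ)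
    (hm : AnalyticAt ℂ (fun s => mon (fun i => Complex.exp (L i s)) m) 0) :
    IsAlgebraic (Algebra.adjoin ℂ {b}) (gm (fun s => mon (fun i => Complex.exp (L i s)) m) hm) := by
  have hz : ∀ i, AnalyticAt ℂ (fun s => Complex.exp (L i s) ^ m i) 0 := fun i =>
    (hL i).cexp.zpow (Complex.exp_ne_zero _)
  have h1 : ∀ i, IsAlgebraic (Algebra.adjoin ℂ {b})
      (gm (fun s => Complex.exp (L i s) ^ m i) (hz i)) := by
    intro i
    rcases Int.eq_nat_or_neg (m i) with ⟨n, hn | hn⟩
    · have e : gm (fun s => Complex.exp (L i s) ^ m i) (hz i) =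
          gm (fun s => Complex.exp (L i s)) (hL i).cexp ^ n := by
        rw [gm_pow, gm_eq]
        exact Eventually.of_forall fun s => by simp [hn]
      rw [e]
      exact (hb i).pow n
    · have e : gm (fun s => Complex.exp (L i s) ^ m i) (hz i) *
          gm (fun s => Complex.exp (L i s)) (hL i).cexp ^ n = 1 := by
        rw [gm_pow, gm_mul]
        have : (1 : AG) = gm (fun _ => 1) analyticAt_const := rfl
        rw [this, gm_eq]
        refine Eventually.of_forall fun s => ?_
        have := Complex.exp_ne_zero (L i s)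
        simp only [hn, zpow_neg, zpow_natCast]
        exact inv_mul_cancel₀ (pow_ne_zero n this)
      have e' : gm (fun s => Complex.exp (L i s)) (hL i).cexp ^ n *
          gm (fun s => Complex.exp (L i s) ^ m i) (hz i) = 1 := by rw [mul_comm]; exact e
      let _ : Invertible (gm (fun s => Complex.exp (L i s)) (hL i).cexp ^ n) := ⟨_, e, e'⟩
      exact ((hb i).pow n).invOf
  have h2 : gm (fun s => mon (fun i => Complex.exp (L i s)) m) hm =
      gm (fun s => Complex.exp (L 0 s) ^ m 0) (hz 0) * gm (fun s => Complex.exp (L 1 s) ^ m 1) (hz 1)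
        * gm (fun s => Complex.exp (L 2 s) ^ m 2) (hz 2) := by
    rw [gm_mul, gm_mul, gm_eq]
    exact Eventually.of_forall fun s => by simp [mon, Fin.prod_univ_three]
  rw [h2]
  exact ((h1 0).mul (h1 1)).mul (h1 2)

/-- Independent families in a closure of two elements. -/
private theorem rank_two {k : ℕ} (x : Fin k → AG) (hx : AlgebraicIndependent ℂ x) (a b : AG)
    (h : ∀ i, IsAlgebraic (Algebra.adjoin ℂ {a, b}) (x i)) :
    (k : ℕ∞) ≤ (AlgebraicIndependent.matroid ℂ AG).eRk {a, b} := by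
  have h1 : (AlgebraicIndependent.matroid ℂ AG).Indep (Set.range x) :=
    AlgebraicIndependent.matroid_indep_iff.mpr hx.to_subtype_range
  have h2 : Set.range x ⊆ (AlgebraicIndependent.matroid ℂ AG).closure {a, b} := by
    rintro _ ⟨i, rfl⟩
    exact mem_cl.2 (h i)
  have h3 := h1.encard_le_eRk_of_subset h2
  rw [Matroid.eRk_closure_eq] at h3
  refine le_trans ?_ h3
  rw [← Set.image_univ, hx.injective.encard_image]
  simp [Set.encard_univ]

private theorem alg_of_empty {z : AG} (h : IsAlgebraic (Algebra.adjoin ℂ (∅ : Set AG)) z) :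
    IsAlgebraic ℂ z := by
  have : Algebra.IsAlgebraic ℂ (Algebra.adjoin ℂ (∅ : Set AG)) := by
    refine ⟨fun x => ?_⟩
    obtain ⟨x, hx⟩ := x
    rw [Algebra.adjoin_empty, Algebra.mem_bot] at hx
    obtain ⟨c, rfl⟩ := hx
    exact isAlgebraic_algebraMap (R := ℂ) (A := Algebra.adjoin ℂ (∅ : Set AG)) c
  exact h.restrictScalars ℂ

private theorem mon_exp (l : Fin 3 → ℂ) (m : Fin 3 → ℤ) :
    mon (fun i => Complex.exp (l i)) m = Complex.exp (∑ i, m i * l i) := by
  rw [Complex.exp_sum]
  simp only [mon, Complex.exp_int_mul]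

/-- The arithmetic end: pairwise dependent numbers are integer multiples of one number. -/
private theorem end_dep (w : Fin 3 → ℝ)
    (h : ∀ i j, i ≠ j → ¬ LinearIndependent ℚ ![((w i : ℝ) : ℂ), ((w j : ℝ) : ℂ)]) :
    ∃ (ρ : ℝ) (n : Fin 3 → ℤ), ∀ i, w i = ρ * n i := by
  classical
  by_cases h0 : ∀ i, w i = 0
  · exact ⟨0, 0, fun i => by simp [h0 i]⟩
  push Not at h0
  obtain ⟨j, hj⟩ := h0
  have key : ∀ i, ∃ a b : ℤ, a ≠ 0 ∧ (a : ℝ) * w i = b * w j := by
    intro i
    by_cases hij : i = j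
    · exact ⟨1, 1, one_ne_zero, by rw [hij]⟩
    have h1 := h i j hij
    rw [← LinearIndependent.iff_fractionRing ℤ ℚ, Fintype.not_linearIndependent_iff] at h1
    obtain ⟨g, hg, k, hk⟩ := h1
    simp only [Fin.sum_univ_two, Matrix.cons_val_zero, Matrix.cons_val_one, zsmul_eq_mul] at hg
    have hg' : (g 0 : ℝ) * w i + (g 1 : ℝ) * w j = 0 := by exact_mod_cast hg
    refine ⟨g 0, -g 1, ?_, ?_⟩
    · intro hg0
      rw [hg0] at hg'
      have h2 : (g 1 : ℝ) * w j = 0 := by simpa using hg'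
      have h3 : g 1 = 0 := by
        rcases mul_eq_zero.1 h2 with h3 | h3
        · exact_mod_cast h3
        · exact absurd h3 hj
      fin_cases k
      · exact hk hg0
      · exact hk h3
    · push_cast
      linarith
  choose a b ha hab using key
  refine ⟨w j / ∏ k, (a k : ℝ), fun i => b i * ∏ k ∈ Finset.univ.erase i, a k, fun i => ?_⟩
  have hpr : (∏ k, (a k : ℝ)) = a i * ∏ k ∈ Finset.univ.erase i, (a k : ℝ) :=
    (Finset.mul_prod_erase _ _ (Finset.mem_univ i)).symm
  have hne : (a i : ℝ) ≠ 0 := by exact_mod_cast ha i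
  have hne' : (∏ k ∈ Finset.univ.erase i, (a k : ℝ)) ≠ 0 :=
    Finset.prod_ne_zero_iff.2 fun k _ => by exact_mod_cast ha k
  rw [hpr]
  push_cast
  field_simp
  linarith [hab i]

theorem rational_dir {F : Type} [Field F] [CharZero F] (v : Fin 3 → F) (hv : Crv v)
    (L L' : Fin 3 → ℂ → ℂ) (hL : ∀ i, AnalyticAt ℂ (L i) 0) (hL' : ∀ i, AnalyticAt ℂ (L' i) 0)
    (T : ℂ → ℂ) (hT : AnalyticAt ℂ T 0) (hT' : ¬ ∀ᶠ s in 𝓝 (0 : ℂ), T s = T 0) (w : Fin 3 → ℝ)
    (hLT : ∀ i, ∀ᶠ s in 𝓝 (0 : ℂ), L i s + L' i s = w i * T s)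
    (hY : ∀ᶠ s in 𝓝 (0 : ℂ), kr ℚ v ≤ kr ℚ fun i => Complex.exp (L i s))
    (hY' : ∀ᶠ s in 𝓝 (0 : ℂ), kr ℚ v ≤ kr ℚ fun i => Complex.exp (L' i s))
    (hnc : ¬ ∀ᶠ s in 𝓝 (0 : ℂ), Complex.exp (L 0 s) = Complex.exp (L 0 0))
    (hnc' : ¬ ∀ᶠ s in 𝓝 (0 : ℂ), Complex.exp (L' 0 s) = Complex.exp (L' 0 0)) :
    ∃ (ρ : ℝ) (n : Fin 3 → ℤ), ∀ i, w i = ρ * n i := by
  classical
  apply end_dep
  intro i0 j0 hij hli
  set y : Fin 3 → AG := fun i => gm (fun s => Complex.exp (L i s)) (hL i).cexp with hy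
  set y' : Fin 3 → AG := fun i => gm (fun s => Complex.exp (L' i s)) (hL' i).cexp with hy'
  have ht : ¬ IsAlgebraic ℂ (y 0) := trans_of_nc _ _ hnc
  have ht' : ¬ IsAlgebraic ℂ (y' 0) := trans_of_nc _ _ hnc'
  have halg : ∀ i, IsAlgebraic (Algebra.adjoin ℂ {y 0}) (y i) := by
    intro i
    obtain ⟨P, G, hP, -, hPG⟩ := et_poly v hv i
    exact alg_of_ev P hP _ _ (hL 0).cexp (hL i).cexp (hY.mono fun s hs => (hPG _ hs).1) ht
  have halg' : ∀ i, IsAlgebraic (Algebra.adjoin ℂ {y' 0}) (y' i) := by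
    intro i
    obtain ⟨P, G, hP, -, hPG⟩ := et_poly v hv i
    exact alg_of_ev P hP _ _ (hL' 0).cexp (hL' i).cexp (hY'.mono fun s hs => (hPG _ hs).1) ht'
  have hE : ∀ i, IsAlgebraic (Algebra.adjoin ℂ {y 0, y' 0}) (y i * y' i) := by
    intro i
    have h1 : IsAlgebraic (Algebra.adjoin ℂ {y 0, y' 0}) (y i) := by
      rw [← mem_cl]
      exact Matroid.closure_subset_closure _ (by simp) (mem_cl.2 (halg i))
    have h2 : IsAlgebraic (Algebra.adjoin ℂ {y 0, y' 0}) (y' i) := by
      rw [← mem_cl]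
      exact Matroid.closure_subset_closure _ (by simp) (mem_cl.2 (halg' i))
    exact h1.mul h2
  have hrank : ∀ (k : ℕ) (e : Fin k → Fin 3), LinearIndependent ℚ (fun a => ((w (e a) : ℝ) : ℂ)) →
      (k : ℕ∞) ≤ (AlgebraicIndependent.matroid ℂ AG).eRk {y 0, y' 0} := by
    intro k e hk
    have h1 := exp_indep (fun a => ((w (e a) : ℝ) : ℂ)) hk T hT hT'
      (fun a s => Complex.exp (L (e a) s) * Complex.exp (L' (e a) s))
      (fun a => (hL (e a)).cexp.mul (hL' (e a)).cexp)
      (fun a => (hLT (e a)).mono fun s hs => by rw [← Complex.exp_add, hs])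
    exact rank_two _ h1 _ _ fun a => hE (e a)
  have h2le : (AlgebraicIndependent.matroid ℂ AG).eRk {y 0, y' 0} ≤ 2 :=
    le_trans (Matroid.eRk_le_encard _ _)
      (le_trans (Set.encard_insert_le _ _) (by rw [Set.encard_singleton]; norm_num))
  -- the three numbers are dependent
  have hdep : ¬ LinearIndependent ℚ (fun a => ((w a : ℝ) : ℂ)) := by
    intro h3
    have h4 := hrank 3 id h3
    have h5 := le_trans h4 h2le
    exact absurd h5 (by decide)
  rw [← LinearIndependent.iff_fractionRing ℤ ℚ, Fintype.not_linearIndependent_iff] at hdep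
  obtain ⟨m, hm, k, hk⟩ := hdep
  -- independence of the pair
  have hr2 : (2 : ℕ∞) ≤ (AlgebraicIndependent.matroid ℂ AG).eRk {y 0, y' 0} := by
    refine hrank 2 ![i0, j0] ?_
    convert hli using 1
    ext a; fin_cases a <;> rfl
  have hne : y 0 ≠ y' 0 := by
    intro he
    rw [he, Set.pair_eq_singleton] at hr2
    have h5 := le_trans hr2 (Matroid.eRk_le_encard _ _)
    rw [Set.encard_singleton] at h5
    exact absurd h5 (by decide)
  have hind : (AlgebraicIndependent.matroid ℂ AG).Indep ({y 0} ∪ {y' 0}) := by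
    rw [Set.singleton_union, Matroid.indep_iff_eRk_eq_encard_of_finite (by simp),
      Set.encard_pair hne]
    exact le_antisymm h2le hr2
  have hcl := hind.closure_inter_eq_inter_closure
  rw [Set.singleton_inter_eq_empty.2 (by simpa using hne)] at hcl
  have hz : AnalyticAt ℂ (fun s => mon (fun i => Complex.exp (L i s)) m) 0 := by
    have : (fun s => mon (fun i => Complex.exp (L i s)) m) =
        fun s => Complex.exp (∑ i, m i * L i s) := by
      funext s; exact mon_exp _ _
    rw [this]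
    exact (Finset.univ.analyticAt_fun_sum fun i _ => analyticAt_const.mul (hL i)).cexp
  have hz' : AnalyticAt ℂ (fun s => mon (fun i => Complex.exp (L' i s)) (-m)) 0 := by
    have : (fun s => mon (fun i => Complex.exp (L' i s)) (-m)) =
        fun s => Complex.exp (∑ i, ((-m) i : ℤ) * L' i s) := by
      funext s; exact mon_exp _ _
    rw [this]
    exact (Finset.univ.analyticAt_fun_sum fun i _ => analyticAt_const.mul (hL' i)).cexp
  have hzz : gm _ hz = gm _ hz' := by
    rw [gm_eq]
    filter_upwards [hLT 0, hLT 1, hLT 2] with s h0 h1 h2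
    rw [mon_exp, mon_exp]
    congr 1
    have hm' : (m 0 : ℂ) * (w 0 : ℂ) + m 1 * (w 1 : ℂ) + m 2 * (w 2 : ℂ) = 0 := by
      simpa [Fin.sum_univ_three, zsmul_eq_mul] using hm
    simp only [Fin.sum_univ_three, Pi.neg_apply, Int.cast_neg]
    linear_combination (m 0 : ℂ) * h0 + (m 1 : ℂ) * h1 + (m 2 : ℂ) * h2 + T s * hm'
  have hzc : gm _ hz ∈ (AlgebraicIndependent.matroid ℂ AG).closure {y 0} ∩
      (AlgebraicIndependent.matroid ℂ AG).closure {y' 0} := by
    refine ⟨mem_cl.2 (alg_mon L hL (y 0) halg m hz), ?_⟩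
    rw [hzz]
    exact mem_cl.2 (alg_mon L' hL' (y' 0) halg' (-m) hz')
  rw [← hcl] at hzc
  obtain ⟨c, hc⟩ := const_of_algebraic _ hz (alg_of_empty (mem_cl.1 hzc))
  exact noconst v hv (fun s i => Complex.exp (L i s)) (fun i => (hL i).cexp)
    (hY.mono fun s hs => ⟨fun i => Complex.exp_ne_zero _, hs⟩) hnc m
    (fun h => hk (by rw [h]; rfl)) c hc

end Pool.Agent.Srf5F
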