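import Pool.Agent.Srf5F.GImp
import Pool.Agent.Srf5F.GArc
import Pool.Agent.Srf5F.GTr
import Pool.Agent.Srf5F.GCpt

set_option autoImplicit false

/-! Package G8: Lemma G, finitely many points over a line.

PROOF. `G` from `chart`. Let `Z` be the set of the statement, suppose that it is infinite. `bdp C G R η`
is compact (`cpt_bdp`), so there is an accumulation point `y0 ∈ bdp C G R η` of `Z`
(`Set.Infinite.exists_accPt_of_subset_isCompact`). `aeval (y0 0) G ≠ 0` (`η > 0`), take `φ` from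
`chart`. Let `B` be a ball around `t0 = y0 0` on which all `φ · i` are analytic and `‖φ t i - y0 i‖ <
‖y0 i‖` (so `φ t i ≠ 0` and `φ t i / y0 i` is in the slit plane). `l i t = log (φ t i / y0 i) +
log (y0 i)` is analytic on `B`, `exp (l i t) = φ t i`, `(l i t).re = log ‖φ t i‖ = lg (φ t) i`.
Frequently in `𝓝[≠] t0`: `φ t ∈ Z` (for `y ∈ Z`, `y ≠ y0` near `y0`: `y = φ (y 0)`, and `y 0 ≠ t0`
because `φ t0 = y0`; `y ↦ y 0` is continuous). So every `f ∈ S` vanishes at `φ t` frequently in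
`𝓝[≠] t0`, hence for all `t ∈ B` (identity theorem on the ball:
`AnalyticOnNhd.eqOn_zero_of_preconnected_of_frequently_eq_zero`): `φ t ∈ C` for all `t ∈ B`.
`arc` for `f τ = ∑ u_i l_i (t0 + τ)`, `g τ = ∑ w_i l_i (t0 + τ)` (here `w` is the second vector
of the statement) gives `γ`. Let `Y s = φ (t0 + γ s)`, `L i s = l i (t0 + γ s)`,
`L' i s = conj (L i (conj s))` (`analyticAt_conj`). `Y s ∈ C` near `0`, `Y s 0 = t0 + γ s` is not
eventually constant. Let `ω = u × w` (cross product), `ω ≠ 0` (`u, w` independent), say `ω_j ≠ 0`. For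
real `s` near `0`: `∑ u_i (L i s).re = ∑ w_i (L i s).re = 0`, so
`ω_j (L i s).re = ω_i (L j s).re`, i.e. `ω_j (L i s + L' i s) = ω_i (L j s + L' j s)`; both sides are
analytic, so this holds near `0` (`AnalyticAt.frequently_eq_iff_eventually_eq`, real points
accumulate). `T s = (L j s + L' j s) / ω_j`: `L i s + L' i s = ω_i T s` near `0`.
Case 1: `T` eventually constant. For real `s` near `0`: `2 (L i s).re = ω_i T 0`, so
`‖Y s i‖ = exp (L i s).re` is a constant `r_i`, and the points `Y s`, `s` real near `0`, are in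
`{y ∈ C | ‖y i‖ = r i}` and infinitely many (their coordinate `0` is `t0 + γ s`, `γ` analytic with
an isolated zero, so not constant on any infinite set accumulating at `0`): contradiction to
`hN.two`.
Case 2: `rational_dir` (`kr ℚ v ≤ kr ℚ (Y s)` from `hC.le`; `L'`: `fun i => exp (L' i s) =
conj (Y (conj s))`, not eventually constant; and `kr ℚ y ≤ kr ℚ (conj ∘ y)` because the
coefficients are rational) gives
`ω = ρ n`, `n ≠ 0`. Choose linearly independent `m1, m2 : Fin 3 → ℤ` with `∑ m_i n_i = 0` (two of the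
three vectors `(0, n2, -n1), (-n2, 0, n0), (n1, -n0, 0)`). For real `s` near `0`:
`log ‖mon (Y s) m‖ = ∑ m_i (L i s).re = ∑ m_i ω_i T s / 2 = 0` for `m = m1, m2`: infinitely many
points in `{y ∈ C | ‖mon y m1‖ = 1, ‖mon y m2‖ = 1}`: contradiction to `hN.one`. -/

namespace Pool.Agent.Srf5F

open MvPolynomial Pool.Agent.CITLines Pool.Agent.Srf5 Filter Topology

/-- Cross product identities. -/
private theorem gl_cross (u w x : Fin 3 → ℝ) (hu : ∑ i, u i * x i = 0) (hw : ∑ i, w i * x i = 0)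
    (i j : Fin 3) : crossProduct u w j * x i = crossProduct u w i * x j := by
  rw [Fin.sum_univ_three] at hu hw
  fin_cases i <;> fin_cases j <;> simp [cross_apply]
  · linear_combination (- w 2) * hu + (u 2) * hw
  · linear_combination (w 1) * hu - (u 1) * hw
  · linear_combination (w 2) * hu - (u 2) * hw
  · linear_combination (- w 0) * hu + (u 0) * hw
  · linear_combination (- w 1) * hu + (u 1) * hw
  · linear_combination (w 0) * hu - (u 0) * hw

/-- Two independent integer vectors orthogonal to a given one. -/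
private theorem gl_orth (n : Fin 3 → ℤ) (hn : n ≠ 0) : ∃ m1 m2 : Fin 3 → ℤ,
    LinearIndependent ℤ ![m1, m2] ∧ ∑ i, m1 i * n i = 0 ∧ ∑ i, m2 i * n i = 0 := by
  by_cases h0 : n 0 = 0
  · by_cases h1 : n 1 = 0
    · have h2 : n 2 ≠ 0 := by
        intro h2
        apply hn
        funext i
        fin_cases i
        · exact h0
        · exact h1
        · exact h2
      refine ⟨![n 2, 0, - n 0], ![0, n 2, - n 1], ?_, ?_, ?_⟩
      · rw [LinearIndependent.pair_iff]
        intro s t hst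
        have e0 := congrFun hst 0
        have e1 := congrFun hst 1
        simp [h2] at e0 e1
        exact ⟨e0, e1⟩
      · simp [Fin.sum_univ_three]
        ring
      · simp [Fin.sum_univ_three]
        ring
    · refine ⟨![n 1, - n 0, 0], ![0, n 2, - n 1], ?_, ?_, ?_⟩
      · rw [LinearIndependent.pair_iff]
        intro s t hst
        have e0 := congrFun hst 0
        have e1 := congrFun hst 2
        simp [h1] at e0 e1
        exact ⟨e0, e1⟩
      · simp [Fin.sum_univ_three]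
        ring
      · simp [Fin.sum_univ_three]
        ring
  · refine ⟨![n 1, - n 0, 0], ![n 2, 0, - n 0], ?_, ?_, ?_⟩
    · rw [LinearIndependent.pair_iff]
      intro s t hst
      have e0 := congrFun hst 1
      have e1 := congrFun hst 2
      simp [h0] at e0 e1
      exact ⟨e0, e1⟩
    · simp [Fin.sum_univ_three]
      ring
    · simp [Fin.sum_univ_three]
      ring

/-- Real points accumulate at zero. -/
private theorem gl_real {p : ℂ → Prop} (h : ∀ᶠ s : ℝ in 𝓝 0, p s) : ∃ᶠ z in 𝓝[≠] (0 : ℂ), p z := by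
  have h1 : Tendsto (fun s : ℝ => (s : ℂ)) (𝓝[≠] (0 : ℝ)) (𝓝[≠] (0 : ℂ)) := by
    refine tendsto_nhdsWithin_iff.2 ⟨?_, ?_⟩
    · have := (Complex.continuous_ofReal.tendsto (0 : ℝ)).mono_left
        (nhdsWithin_le_nhds (s := {(0 : ℝ)}ᶜ))
      simpa using this
    · filter_upwards [self_mem_nhdsWithin] with s hs
      simpa using hs
  exact h1.frequently (h.filter_mono nhdsWithin_le_nhds).frequently

/-- From real points to complex points. -/
private theorem gl_ext {f g : ℂ → ℂ} (hf : AnalyticAt ℂ f 0) (hg : AnalyticAt ℂ g 0)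
    (h : ∀ᶠ s : ℝ in 𝓝 0, f s = g s) : ∀ᶠ s in 𝓝 (0 : ℂ), f s = g s :=
  (hf.frequently_eq_iff_eventually_eq hg).1 (gl_real (p := fun z => f z = g z) h)

/-- The complex neighbourhoods of zero contain the real ones. -/
private theorem gl_res {p : ℂ → Prop} (h : ∀ᶠ s in 𝓝 (0 : ℂ), p s) : ∀ᶠ s : ℝ in 𝓝 0, p s := by
  have h1 : Tendsto (fun s : ℝ => (s : ℂ)) (𝓝 (0 : ℝ)) (𝓝 (0 : ℂ)) := by
    have := Complex.continuous_ofReal.tendsto (0 : ℝ)
    simpa using this
  exact h1.eventually h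

/-- A nonconstant arc meets a finite set rarely. -/
private theorem gl_inf (γ : ℂ → ℂ) (hγ : AnalyticAt ℂ γ 0) (h0 : γ 0 = 0)
    (hn : ∀ᶠ s in 𝓝[≠] (0 : ℂ), γ s ≠ 0) (t0 : ℂ) (A : Set (Fin 3 → ℂ)) (hA : A.Finite)
    (Y : ℂ → Fin 3 → ℂ) (hY : ∀ s, Y s 0 = t0 + γ s) (h : ∀ᶠ s : ℝ in 𝓝 0, Y s ∈ A) : False := by
  have hB : ((fun y : Fin 3 → ℂ => y 0) '' A).Finite := hA.image _
  have h1 : Tendsto (fun s : ℝ => t0 + γ s) (𝓝[≠] (0 : ℝ)) (𝓝[≠] t0) := by
    refine tendsto_nhdsWithin_iff.2 ⟨?_, ?_⟩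
    · have h2 : Tendsto (fun s : ℂ => t0 + γ s) (𝓝 0) (𝓝 t0) := by
        have := (hγ.continuousAt.tendsto).const_add t0
        rwa [h0, add_zero] at this
      have h3 : Tendsto (fun s : ℝ => (s : ℂ)) (𝓝[≠] (0 : ℝ)) (𝓝 (0 : ℂ)) := by
        have := (Complex.continuous_ofReal.tendsto (0 : ℝ)).mono_left
          (nhdsWithin_le_nhds (s := {(0 : ℝ)}ᶜ))
        simpa using this
      exact h2.comp h3
    · rw [eventually_nhdsWithin_iff] at hn ⊢
      filter_upwards [gl_res hn] with s hs hs0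
      have : γ s ≠ 0 := hs (by simpa using hs0)
      simpa using this
  have h2 : ∀ᶠ t in 𝓝[≠] t0, t ∉ (fun y : Fin 3 → ℂ => y 0) '' A := by
    have h3 : ((fun y : Fin 3 → ℂ => y 0) '' A \ {t0}).Finite := hB.subset Set.sdiff_subset
    have h4 : ((fun y : Fin 3 → ℂ => y 0) '' A \ {t0})ᶜ ∈ 𝓝 t0 :=
      h3.isClosed.isOpen_compl.mem_nhds (by simp)
    filter_upwards [nhdsWithin_le_nhds h4, self_mem_nhdsWithin] with t ht ht0 hmem
    exact ht ⟨hmem, ht0⟩
  have h3 := h1.eventually h2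
  have h4 := h.filter_mono (nhdsWithin_le_nhds (s := {(0 : ℝ)}ᶜ))
  obtain ⟨s, hs1, hs2⟩ := (h3.and h4).exists
  exact hs1 ⟨Y s, hs2, hY s⟩

/-- Complex conjugation does not change the rational relations. -/
private theorem gl_kr_conj (y : Fin 3 → ℂ) :
    kr ℚ y ≤ kr ℚ fun i => (starRingEnd ℂ) (y i) := by
  intro f hf
  rw [mem_kr] at hf ⊢
  have h1 := MvPolynomial.comp_aeval_apply (R := ℚ) y
    ((starRingEnd ℂ).toRatAlgHom) f
  have h2 : (fun i => ((starRingEnd ℂ).toRatAlgHom) (y i)) = fun i => (starRingEnd ℂ) (y i) := rfl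
  rw [h2, hf, map_zero] at h1
  exact h1.symm

theorem line_finite {F : Type} [Field F] [CharZero F] (v : Fin 3 → F) (hv : Crv v)
    (C : Set (Fin 3 → ℂ)) (S : Set (MvPolynomial (Fin 3) ℂ)) (hC : Clo v C S) (hN : ND C) :
    ∃ G : Polynomial ℚ, G ≠ 0 ∧ ∀ (u w : Fin 3 → ℝ) (R η : ℝ), 0 < η →
      LinearIndependent ℝ ![u, w] →
      {y | y ∈ bdp C G R η ∧ ∑ i, u i * lg y i = 0 ∧ ∑ i, w i * lg y i = 0}.Finite := by
  obtain ⟨G, hG0, hch⟩ := chart v hv
  refine ⟨G, hG0, ?_⟩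
  intro u w R η hη huw
  by_contra hinf
  have hZ : Set.Infinite {y | y ∈ bdp C G R η ∧ ∑ i, u i * lg y i = 0 ∧ ∑ i, w i * lg y i = 0} :=
    hinf
  set Z := {y | y ∈ bdp C G R η ∧ ∑ i, u i * lg y i = 0 ∧ ∑ i, w i * lg y i = 0} with hZdef
  obtain ⟨y0, hy0, hacc⟩ := hZ.exists_accPt_of_subset_isCompact (cpt_bdp v C S hC G R η)
    (fun y hy => hy.1)
  have hGy0 : Polynomial.aeval (y0 0) G ≠ 0 := by
    intro h
    have := hy0.2.2
    rw [h, norm_zero] at this
    linarith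
  obtain ⟨φ, hφa, hφ0, hφt, hφe⟩ := hch y0 (hC.le y0 hy0.1) hGy0
  have hy0C : y0 ∈ {y : Fin 3 → ℂ | (∀ i, y i ≠ 0) ∧ ∀ f ∈ S, eval y f = 0} := by
    rw [← hC.eq]
    exact hy0.1
  have hy0n : ∀ i, y0 i ≠ 0 := hy0C.1
  set t0 := y0 0 with ht0
  -- the ball
  have hball : ∀ᶠ t in 𝓝 t0, ∀ i, AnalyticAt ℂ (fun t => φ t i) t ∧
      φ t i / y0 i ∈ Complex.slitPlane := by
    rw [eventually_all]
    intro i
    refine (hφa i).eventually_analyticAt.and ?_
    have h1 : Tendsto (fun t => φ t i / y0 i) (𝓝 t0) (𝓝 (φ t0 i / y0 i)) :=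
      (hφa i).continuousAt.tendsto.div_const _
    refine h1.eventually (Complex.isOpen_slitPlane.mem_nhds ?_)
    rw [hφ0, div_self (hy0n i)]
    exact Complex.one_mem_slitPlane
  obtain ⟨r, hr, hrb⟩ := Metric.eventually_nhds_iff_ball.1 hball
  -- logarithms
  set l : Fin 3 → ℂ → ℂ := fun i t => Complex.log (φ t i / y0 i) + Complex.log (y0 i) with hl
  have hla : ∀ i, ∀ t ∈ Metric.ball t0 r, AnalyticAt ℂ (l i) t := by
    intro i t ht
    have h1 := hrb t ht i
    exact ((h1.1.div analyticAt_const (hy0n i)).clog h1.2).add analyticAt_const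
  have hφn : ∀ i, ∀ t ∈ Metric.ball t0 r, φ t i ≠ 0 := by
    intro i t ht h
    have h1 := (hrb t ht i).2
    rw [h, zero_div] at h1
    exact Complex.zero_notMem_slitPlane h1
  have hle : ∀ i, ∀ t ∈ Metric.ball t0 r, Complex.exp (l i t) = φ t i := by
    intro i t ht
    simp only [hl]
    rw [Complex.exp_add, Complex.exp_log (div_ne_zero (hφn i t ht) (hy0n i)),
      Complex.exp_log (hy0n i), div_mul_cancel₀ _ (hy0n i)]
  have hlre : ∀ i, ∀ t ∈ Metric.ball t0 r, (l i t).re = lg (φ t) i := by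
    intro i t ht
    unfold lg
    rw [← hle i t ht, Complex.norm_exp, Real.log_exp]
  -- accumulation along the chart
  have hfreq : ∃ᶠ t in 𝓝 t0, t ≠ t0 ∧ φ t ∈ Z := by
    have h1 := (accPt_iff_frequently.1 hacc).and_eventually hφe
    have h2 : Tendsto (fun y : Fin 3 → ℂ => y 0) (𝓝 y0) (𝓝 t0) :=
      (continuous_apply 0).tendsto y0
    refine h2.frequently (h1.mono ?_)
    rintro y ⟨⟨hy1, hy2⟩, hy3⟩
    have h3 : y = φ (y 0) := hy3 (hC.le y hy2.1.1)
    refine ⟨fun h => hy1 ?_, ?_⟩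
    · rw [h3, h, hφ0]
    · rw [← h3]
      exact hy2
  have hφC : ∀ t ∈ Metric.ball t0 r, φ t ∈ C := by
    intro t ht
    rw [hC.eq]
    refine ⟨fun i => hφn i t ht, fun f hf => ?_⟩
    have h1 : AnalyticOnNhd ℂ (fun t => aeval (φ t) f) (Metric.ball t0 r) := fun t ht =>
      AnalyticAt.aeval_mvPolynomial (fun i => (hrb t ht i).1) f
    have h2 : ∃ᶠ t in 𝓝[≠] t0, aeval (φ t) f = 0 := by
      rw [frequently_nhdsWithin_iff]
      refine hfreq.mono ?_
      rintro t ⟨h3, h4⟩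
      refine ⟨?_, h3⟩
      have h5 := h4.1.1
      rw [hC.eq] at h5
      exact h5.2 f hf
    exact h1.eqOn_zero_of_preconnected_of_frequently_eq_zero
      (convex_ball t0 r).isPreconnected (Metric.mem_ball_self hr) h2 ht
  -- the arc
  have h0ball : ∀ᶠ τ in 𝓝 (0 : ℂ), t0 + τ ∈ Metric.ball t0 r := by
    have h1 : Tendsto (fun τ : ℂ => t0 + τ) (𝓝 0) (𝓝 t0) := by
      have := (tendsto_id (α := ℂ) (x := 𝓝 0)).const_add t0
      simpa using this
    exact h1.eventually (Metric.ball_mem_nhds t0 hr)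
  have hla0 : ∀ i, AnalyticAt ℂ (fun τ => l i (t0 + τ)) 0 := by
    intro i
    have h1 : AnalyticAt ℂ (l i) (t0 + 0) := by
      rw [add_zero]
      exact hla i t0 (Metric.mem_ball_self hr)
    exact h1.comp_of_eq (analyticAt_const.add analyticAt_id) rfl
  have hre : ∀ (c : Fin 3 → ℝ) (x : Fin 3 → ℂ), (∑ i, (c i : ℂ) * x i).re = ∑ i, c i * (x i).re := by
    intro c x
    rw [Complex.re_sum]
    exact Finset.sum_congr rfl fun i _ => by rw [Complex.re_ofReal_mul]
  obtain ⟨γ, hγa, hγ0, hγn, hγz⟩ := arc (fun τ => ∑ i, (u i : ℂ) * l i (t0 + τ))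
    (fun τ => ∑ i, (w i : ℂ) * l i (t0 + τ))
    (Finset.analyticAt_fun_sum _ fun i _ => analyticAt_const.mul (hla0 i))
    (Finset.analyticAt_fun_sum _ fun i _ => analyticAt_const.mul (hla0 i)) (by
      have h1 : ∃ᶠ τ in 𝓝 (0 : ℂ), τ ≠ 0 ∧ φ (t0 + τ) ∈ Z := by
        have h2 : Tendsto (fun t : ℂ => t - t0) (𝓝 t0) (𝓝 0) := by
          have := (tendsto_id (α := ℂ) (x := 𝓝 t0)).sub_const t0
          simpa using this
        refine h2.frequently (hfreq.mono ?_)
        rintro t ⟨h3, h4⟩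
        refine ⟨sub_ne_zero.2 h3, ?_⟩
        rw [add_sub_cancel]
        exact h4
      rw [frequently_nhdsWithin_iff]
      refine (h1.and_eventually h0ball).mono ?_
      rintro τ ⟨⟨h3, h4⟩, h5⟩
      refine ⟨⟨?_, ?_⟩, h3⟩
      · rw [hre, ← h4.2.1]
        exact Finset.sum_congr rfl fun i _ => by rw [hlre i _ h5]
      · rw [hre, ← h4.2.2]
        exact Finset.sum_congr rfl fun i _ => by rw [hlre i _ h5])
  set Y : ℂ → Fin 3 → ℂ := fun s => φ (t0 + γ s) with hY
  set L : Fin 3 → ℂ → ℂ := fun i s => l i (t0 + γ s) with hL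
  set L' : Fin 3 → ℂ → ℂ := fun i s => (starRingEnd ℂ) (L i ((starRingEnd ℂ) s)) with hL'
  have hLa : ∀ i, AnalyticAt ℂ (L i) 0 := by
    intro i
    have h1 := hla0 i
    rw [← hγ0] at h1
    exact h1.comp hγa
  have hLa' : ∀ i, AnalyticAt ℂ (L' i) 0 := fun i => analyticAt_conj _ (hLa i)
  have hγt : Tendsto γ (𝓝 0) (𝓝 0) := by
    have := hγa.continuousAt.tendsto
    rwa [hγ0] at this
  have hYb : ∀ᶠ s in 𝓝 (0 : ℂ), t0 + γ s ∈ Metric.ball t0 r := hγt.eventually h0ball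
  have hconj : Tendsto (starRingEnd ℂ) (𝓝 (0 : ℂ)) (𝓝 0) := by
    have := Complex.continuous_conj.tendsto (0 : ℂ)
    simpa using this
  have hYb' : ∀ᶠ s in 𝓝 (0 : ℂ), t0 + γ ((starRingEnd ℂ) s) ∈ Metric.ball t0 r :=
    hconj.eventually hYb
  have hYC : ∀ᶠ s in 𝓝 (0 : ℂ), Y s ∈ C := hYb.mono fun s hs => hφC _ hs
  have hY0 : ∀ s, Y s 0 = t0 + γ s := fun s => hφt _
  have hYexp : ∀ᶠ s in 𝓝 (0 : ℂ), ∀ i, Complex.exp (L i s) = Y s i :=
    hYb.mono fun s hs i => hle i _ hs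
  have hYL : ∀ᶠ s : ℝ in 𝓝 0, ∀ i, ‖Y s i‖ = Real.exp (L i s).re := by
    filter_upwards [gl_res hYexp] with s hs i
    rw [← hs i, Complex.norm_exp]
  have hsum : ∀ᶠ s : ℝ in 𝓝 0, ∑ i, u i * (L i s).re = 0 ∧ ∑ i, w i * (L i s).re = 0 := by
    filter_upwards [hγz] with s hs
    have h1 : (∑ i, (u i : ℂ) * L i s).re = 0 := hs.1
    have h2 : (∑ i, (w i : ℂ) * L i s).re = 0 := hs.2
    rw [hre] at h1 h2
    exact ⟨h1, h2⟩
  -- the direction
  set ω : Fin 3 → ℝ := crossProduct u w with hω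
  have hω0 : ω ≠ 0 := crossProduct_ne_zero_iff_linearIndependent.2 huw
  obtain ⟨j, hj⟩ := Function.ne_iff.1 hω0
  have hj' : ω j ≠ 0 := hj
  have hjC : (ω j : ℂ) ≠ 0 := by exact_mod_cast hj'
  have hadd : ∀ (i : Fin 3) (s : ℝ), L i s + L' i s = ((2 * (L i s).re : ℝ) : ℂ) := by
    intro i s
    simp only [hL']
    rw [Complex.conj_ofReal, Complex.add_conj]
  have hext : ∀ i, ∀ᶠ s in 𝓝 (0 : ℂ),
      (ω j : ℂ) * (L i s + L' i s) = (ω i : ℂ) * (L j s + L' j s) := by
    intro i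
    refine gl_ext (analyticAt_const.mul ((hLa i).add (hLa' i)))
      (analyticAt_const.mul ((hLa j).add (hLa' j))) ?_
    filter_upwards [hsum] with s hs
    have h1 := gl_cross u w (fun i => (L i s).re) hs.1 hs.2 i j
    rw [hadd, hadd]
    have h2 : ω j * (2 * (L i s).re) = ω i * (2 * (L j s).re) := by
      rw [hω]
      linear_combination 2 * h1
    exact_mod_cast h2
  set T : ℂ → ℂ := fun s => (L j s + L' j s) / (ω j : ℂ) with hT
  have hTa : AnalyticAt ℂ T 0 := ((hLa j).add (hLa' j)).div analyticAt_const hjC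
  have hLT : ∀ i, ∀ᶠ s in 𝓝 (0 : ℂ), L i s + L' i s = (ω i : ℂ) * T s := by
    intro i
    filter_upwards [hext i] with s hs
    simp only [hT]
    field_simp
    linear_combination hs
  have hLTr : ∀ᶠ s : ℝ in 𝓝 0, ∀ i, 2 * (L i s).re = ω i * (T s).re := by
    rw [eventually_all]
    intro i
    filter_upwards [gl_res (hLT i)] with s hs
    rw [hadd] at hs
    have := congrArg Complex.re hs
    rwa [Complex.ofReal_re, Complex.re_ofReal_mul] at this
  by_cases hTc : ∀ᶠ s in 𝓝 (0 : ℂ), T s = T 0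
  · -- constant absolute values
    refine gl_inf γ hγa hγ0 hγn t0 _ (hN.two fun i => Real.exp (ω i * (T 0).re / 2)) Y hY0 ?_
    filter_upwards [gl_res hYC, hYL, hLTr, gl_res hTc] with s h1 h2 h3 h4
    refine ⟨h1, fun i => ?_⟩
    rw [h2 i]
    congr 1
    have := h3 i
    rw [h4] at this
    linarith
  · have hYle : ∀ᶠ s in 𝓝 (0 : ℂ), kr ℚ v ≤ kr ℚ fun i => Complex.exp (L i s) := by
      filter_upwards [hYC, hYexp] with s h1 h2
      rw [funext h2]
      exact hC.le _ h1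
    have hYle' : ∀ᶠ s in 𝓝 (0 : ℂ), kr ℚ v ≤ kr ℚ fun i => Complex.exp (L' i s) := by
      filter_upwards [hconj.eventually hYle] with s h1
      refine h1.trans ((gl_kr_conj _).trans (le_of_eq ?_))
      congr 1
      funext i
      simp only [hL']
      rw [Complex.exp_conj]
    have hYnc : ¬ ∀ᶠ s in 𝓝 (0 : ℂ), Complex.exp (L 0 s) = Complex.exp (L 0 0) := by
      intro h
      have h1 : ∀ᶠ s in 𝓝 (0 : ℂ), γ s = 0 := by
        have h2 := hYexp.self_of_nhds 0
        rw [hY0, hγ0, add_zero] at h2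
        filter_upwards [h, hYexp] with s h3 h4
        have h5 := h4 0
        rw [h3, h2, hY0] at h5
        simpa using h5
      obtain ⟨s, hs1, hs2⟩ := ((h1.filter_mono nhdsWithin_le_nhds).and hγn).exists
      exact hs2 hs1
    have hYnc' : ¬ ∀ᶠ s in 𝓝 (0 : ℂ), Complex.exp (L' 0 s) = Complex.exp (L' 0 0) := by
      intro h
      apply hYnc
      filter_upwards [hconj.eventually h] with s hs
      simp only [hL'] at hs
      rw [Complex.conj_conj, map_zero, Complex.exp_conj, Complex.exp_conj] at hs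
      exact (starRingEnd ℂ).injective hs
    obtain ⟨ρ, n, hρn⟩ := rational_dir v hv L L' hLa hLa' T hTa hTc ω hLT hYle hYle' hYnc hYnc'
    have hn : n ≠ 0 := by
      rintro rfl
      apply hj'
      rw [hρn j]
      simp
    obtain ⟨m1, m2, hm, hm1, hm2⟩ := gl_orth n hn
    have key : ∀ m : Fin 3 → ℤ, ∑ i, m i * n i = 0 → ∀ᶠ s : ℝ in 𝓝 0, ‖mon (Y s) m‖ = 1 := by
      intro m hmn
      filter_upwards [hYL, hLTr] with s h2 h3
      unfold mon
      rw [norm_prod]
      have h4 : ∀ i ∈ Finset.univ, ‖Y s i ^ m i‖ = Real.exp ((m i : ℝ) * (L i s).re) := by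
        intro i _
        rw [norm_zpow, h2 i, ← Real.rpow_intCast, ← Real.exp_mul, mul_comm]
      rw [Finset.prod_congr rfl h4, ← Real.exp_sum, Real.exp_eq_one_iff]
      have h5 : ∀ i ∈ Finset.univ, (m i : ℝ) * (L i s).re =
          ((m i * n i : ℤ) : ℝ) * (ρ * (T s).re / 2) := by
        intro i _
        have h6 := h3 i
        rw [hρn i] at h6
        push_cast
        linear_combination (m i : ℝ) / 2 * h6
      rw [Finset.sum_congr rfl h5, ← Finset.sum_mul, ← Int.cast_sum, hmn]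
      simp
    refine gl_inf γ hγa hγ0 hγn t0 _ (hN.one m1 m2 hm) Y hY0 ?_
    filter_upwards [gl_res hYC, key m1 hm1, key m2 hm2] with s h1 h2 h3
    exact ⟨h1, h2, h3⟩

end Pool.Agent.Srf5F
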