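import Mathlib

set_option autoImplicit false

/-! Package G3a: normal form of a nonconstant analytic function; reflection.

PROOF of `root_form`. `f` is not eventually constant, so `f t - f 0 = t ^ n * h t` near `0` with
`n ≥ 1`, `h` analytic, `h 0 ≠ 0` (`AnalyticAt.exists_eventuallyEq_pow_smul_nonzero_iff`). Let `c` be
an `n`-th root of `h 0` (`IsAlgClosed.exists_pow_nat_eq`), `k t = c * exp (log (h t / h 0) / n)`:
analytic at `0` (`h t / h 0` is near `1`, in the slit plane), `k t ^ n = h t` near `0`.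
`ψ t = t * k t` has `ψ 0 = 0`, derivative `k 0 = c ≠ 0` at `0`, and `f t - f 0 = ψ t ^ n`. Its local
inverse `χ` (`HasStrictDerivAt.localInverse`; analytic: `ContDiffAt.to_localInverse` gives
`ContDiffAt ℂ 1`, so it is differentiable in a neighbourhood, `DifferentiableOn.analyticAt`)
satisfies `ψ (χ z) = z` and `χ (ψ t) = t` near `0`.
PROOF of `analyticAt_conj`. `q` is differentiable near `0`; at `s` near `0` the function
`s ↦ conj (q (conj s))` has the derivative `conj (q' (conj s))` (`HasDerivAt.conj_conj` or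
`HasDerivAt.star_conj`, check the name), `DifferentiableOn.analyticAt`. -/

namespace Pool.Agent.Srf5F

open Filter Topology

/-- Normal form of a nonconstant function. -/
theorem root_form (f : ℂ → ℂ) (hf : AnalyticAt ℂ f 0) (hc : ¬ ∀ᶠ t in 𝓝 (0 : ℂ), f t = f 0) :
    ∃ (n : ℕ) (ψ χ : ℂ → ℂ), 0 < n ∧ AnalyticAt ℂ ψ 0 ∧ AnalyticAt ℂ χ 0 ∧ ψ 0 = 0 ∧ χ 0 = 0 ∧
      (∀ᶠ t in 𝓝 (0 : ℂ), f t - f 0 = ψ t ^ n) ∧ (∀ᶠ t in 𝓝 (0 : ℂ), χ (ψ t) = t) ∧
      ∀ᶠ z in 𝓝 (0 : ℂ), ψ (χ z) = z := by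
  obtain ⟨n, h, hh, hh0, hev⟩ :=
    (hf.sub analyticAt_const : AnalyticAt ℂ (fun t => f t - f 0) 0)
      |>.exists_eventuallyEq_pow_smul_nonzero_iff.mpr (fun h => hc (h.mono fun t ht => by
        exact sub_eq_zero.1 ht))
  have hn : 0 < n := by
    rcases Nat.eq_zero_or_pos n with h0 | h0
    · exfalso
      have h1 := hev.self_of_nhds
      rw [h0] at h1
      simp at h1
      exact hh0 h1.symm
    · exact h0
  have hn' : (n : ℂ) ≠ 0 := Nat.cast_ne_zero.2 hn.ne'
  obtain ⟨c, hcn⟩ := IsAlgClosed.exists_pow_nat_eq (h 0) hn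
  have hc0 : c ≠ 0 := by
    rintro rfl
    rw [zero_pow hn.ne'] at hcn
    exact hh0 hcn.symm
  have hk : AnalyticAt ℂ (fun t => c * Complex.exp (Complex.log (h t / h 0) / n)) 0 := by
    refine analyticAt_const.mul (AnalyticAt.cexp' ?_)
    refine AnalyticAt.div (AnalyticAt.clog (hh.div analyticAt_const hh0) ?_) analyticAt_const hn'
    rw [div_self hh0]
    exact Complex.one_mem_slitPlane
  have hψ : AnalyticAt ℂ (fun t => t * (c * Complex.exp (Complex.log (h t / h 0) / n))) 0 :=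
    analyticAt_id.mul hk
  have hder : deriv (fun t => t * (c * Complex.exp (Complex.log (h t / h 0) / n))) 0 ≠ 0 := by
    have h1 := ((hasDerivAt_id (0 : ℂ)).mul hk.differentiableAt.hasDerivAt).deriv
    have h2 : deriv (fun t => t * (c * Complex.exp (Complex.log (h t / h 0) / n))) 0 = c := by
      refine Eq.trans h1 ?_
      simp [div_self hh0]
    rw [h2]
    exact hc0
  obtain ⟨χ, h1, h2, h3, h4⟩ : ∃ χ : ℂ → ℂ,
      AnalyticAt ℂ χ ((fun t => t * (c * Complex.exp (Complex.log (h t / h 0) / n))) 0) ∧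
      χ ((fun t => t * (c * Complex.exp (Complex.log (h t / h 0) / n))) 0) = 0 ∧
      (∀ᶠ t in 𝓝 (0 : ℂ), χ ((fun t => t * (c * Complex.exp (Complex.log (h t / h 0) / n))) t)
        = t) ∧
      ∀ᶠ z in 𝓝 ((fun t => t * (c * Complex.exp (Complex.log (h t / h 0) / n))) 0),
        (fun t => t * (c * Complex.exp (Complex.log (h t / h 0) / n))) (χ z) = z :=
    ⟨_, hψ.analyticAt_localInverse hder, HasStrictFDerivAt.localInverse_apply_image ..,
      hψ.hasStrictDerivAt.eventually_left_inverse hder,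
      hψ.hasStrictDerivAt.eventually_right_inverse hder⟩
  simp only [zero_mul] at h1 h2 h4
  refine ⟨n, _, χ, hn, hψ, h1, zero_mul _, h2, ?_, h3, h4⟩
  filter_upwards [hev, hh.continuousAt.eventually_ne hh0] with t ht hne
  have ht' : f t - f 0 = (t - 0) ^ n • h t := ht
  rw [ht', sub_zero, smul_eq_mul, mul_pow, mul_pow, hcn, ← Complex.exp_nat_mul,
    mul_div_cancel₀ _ hn', Complex.exp_log (div_ne_zero hne hh0), mul_div_cancel₀ _ hh0]

/-- The reflection of an analytic function. -/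
theorem analyticAt_conj (q : ℂ → ℂ) (hq : AnalyticAt ℂ q 0) :
    AnalyticAt ℂ (fun s => (starRingEnd ℂ) (q ((starRingEnd ℂ) s))) 0 := by
  rw [Complex.analyticAt_iff_eventually_differentiableAt] at hq ⊢
  have h1 : Tendsto (fun s : ℂ => (starRingEnd ℂ) s) (𝓝 0) (𝓝 0) := by
    have h2 := Complex.continuous_conj.tendsto (0 : ℂ)
    rwa [map_zero] at h2
  filter_upwards [h1.eventually hq] with s hs
  have h3 := hs.conj_conj
  rw [Complex.conj_conj] at h3
  exact h3

end Pool.Agent.Srf5F
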