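import Pool.Agent.Srf5F.BFin
import Pool.Agent.Srf5F.CurQ0
import Pool.Agent.Srf5F.GArch
import Pool.Agent.Srf5.APts

set_option autoImplicit false

/-! The points of rank at most two of a surface fibred over a curve in the torus of dimension
three (assembly). -/

namespace Pool.Agent.Srf5F

open MvPolynomial Module Height NumberField Pool.Agent.CITLines Pool.Agent.Srf5

/-- The points of rank at most one of a curve in the torus of dimension three are the zeros of a
polynomial on the curve. -/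
theorem curve_one {F : Type} [Field F] [CharZero F] (v : Fin 3 → F) (hv : Cv ℚ v) :
    ∃ g : MvPolynomial (Fin 3) ℚ, g ∉ kr ℚ v ∧
      ∀ (K : Type) [Field K] [NumberField K] (y : Fin 3 → K), (∀ i, y i ≠ 0) →
        kr ℚ v ≤ kr ℚ y → LThree.RankLe 1 y → aeval y g = 0 := by
  obtain ⟨E, hE0, hE⟩ := cpts (k := 1) (Or.inl rfl) (m := 3) rfl v hv
  refine ⟨∏ a ∈ E, binom ℚ a 1, ?_, ?_⟩
  · intro h
    rw [Ideal.IsPrime.prod_mem_iff] at h
    obtain ⟨a, ha, h1⟩ := h
    rw [binom_mem_kr hv.ne, map_one] at h1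
    have ha0 : a ≠ 0 := fun h => hE0 (h ▸ ha)
    apply hv.tr a ha0
    rw [h1]
    exact isAlgebraic_one
  · intro K _ _ y hy hle hrk
    obtain ⟨a, ha, h1⟩ := hE K y hy hle hrk
    rw [map_prod]
    refine Finset.prod_eq_zero ha ?_
    have h2 : binom ℚ a 1 ∈ kr ℚ y := (binom_mem_kr hy a 1).2 (by rw [h1, map_one])
    exact mem_kr.1 h2

theorem points_fib {F : Type} [Field F] [CharZero F] (w : Fin 5 → F) (e : Fin 3 → Fin 5 → ℤ)
    (C : Set (Fin 3 → ℂ)) (G : Polynomial ℚ) (κ : ℝ) (hF : Fib w e) (hA : Arch w e C G κ) :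
    ∃ E, PointList w E := by
  classical
  have hw : Sf ℚ w := ⟨hF.ne, hF.dim, hF.trans⟩
  have hcrv := crv_of_fib w e hF
  have hv : Cv ℚ (pm e w) := ⟨hcrv.ne, hcrv.dim, hcrv.trans⟩
  obtain ⟨B, g, hg, hB⟩ := bdd_fib' hF hA (curve_bdd_m le_rfl (by norm_num) (pm e w) hv)
    (curve_one (pm e w) hv)
  obtain ⟨Ec, hE⟩ := curveList0 w hw
  obtain ⟨E1, g0, h01, hg0, h1⟩ := bounded_points w hF.dim hE B
  have hgg : g * g0 ∉ kr ℚ w := by
    intro h
    rcases (inferInstance : (kr ℚ w).IsPrime).mem_or_mem h with h | h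
    · exact hg h
    · exact hg0 h
  obtain ⟨E2, h02, h2⟩ := curve_list w hF.dim hgg
  refine ⟨E1 ∪ E2, pointList_of_top w ?_ ?_⟩
  · rw [Finset.mem_union]
    rintro (h | h)
    · exact h01 h
    · exact h02 h
  · intro K _ _ P hP hle hrk htop
    have key : aeval P (g * g0) = 0 → ∃ a ∈ E1 ∪ E2, mon P a = 1 := by
      intro h
      obtain ⟨a, ha, ha1⟩ := h2 K P hP hle hrk h
      exact ⟨a, Finset.mem_union_right _ ha, ha1⟩
    by_cases h : aeval P g = 0
    · exact key (by rw [map_mul, h, zero_mul])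
    · rcases h1 K P hP hle hrk htop (hB K P hP hle hrk h) with ⟨a, ha, ha1⟩ | h3
      · exact ⟨a, Finset.mem_union_left _ ha, ha1⟩
      · exact key (by rw [map_mul, h3, mul_zero])

end Pool.Agent.Srf5F
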