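import Pool.Agent.Srf5F.Defs
import Pool.Agent.Srf5.FDefs

set_option autoImplicit false

/-! Definitions for the part on curves and lists (surfaces in no proper coset). -/

namespace Pool.Agent.Srf5F

open MvPolynomial Pool.Agent.CITLines Pool.Agent.Srf5

/-- A surface in no proper coset. -/
structure Sf (k : Type) {ι F : Type} [Fintype ι] [Field k] [Field F] [Algebra k F]
    (w : ι → F) : Prop where
  ne : ∀ i, w i ≠ 0
  dim : dm (kr k w) = 2
  tr : ∀ r : ι → ℤ, r ≠ 0 → Transcendental k (mon w r)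

/-- A curve in no proper coset. -/
structure Cv (k : Type) {ι F : Type} [Fintype ι] [Field k] [Field F] [Algebra k F]
    (v : ι → F) : Prop where
  ne : ∀ i, v i ≠ 0
  dim : dm (kr k v) = 1
  tr : ∀ r : ι → ℤ, r ≠ 0 → Transcendental k (mon v r)

/-- The algebraic points of rank at most `k` satisfy one of the relations of `E`. -/
def RkList (k : ℕ) {ι F : Type} [Fintype ι] [Field F] [CharZero F] (v : ι → F)
    (E : Finset (ι → ℤ)) : Prop :=
  0 ∉ E ∧ ∀ (K : Type) [Field K] [NumberField K] (P : ι → K), (∀ i, P i ≠ 0) →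
    kr ℚ v ≤ kr ℚ P → LThree.RankLe k P → ∃ a ∈ E, mon P a = 1

/-- The curves of the surface with two torsion relations, the lattice of constants of which is
`Λ`, satisfy one of the relations of `E`. -/
def OneList {F : Type} [Field F] [Algebra ℂ F] {n : ℕ} (w : Fin n → F) (Λ : Set (Fin n → ℤ))
    (E : Finset (Fin n → ℤ)) : Prop :=
  0 ∉ E ∧ ∀ (Ω : Type) [Field Ω] [Algebra ℂ Ω] (ξ : Fin n → Ω), (∀ i, ξ i ≠ 0) →
    kr ℂ w ≤ kr ℂ ξ → dm (kr ℂ ξ) = 1 → Lam ℂ ξ = Λ → ∀ l m : Fin n → ℤ,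
    LinearIndependent ℤ ![l, m] → RU (mon ξ l) → RU (mon ξ m) → ∃ a ∈ E, mon ξ a = 1

/-- The lists for the lattices with three independent vectors, the monomials of which are pairwise
dependent on the surface. -/
def BigList {F : Type} [Field F] [Algebra ℂ F] {n : ℕ} (w : Fin n → F) : Prop :=
  ∀ Λ : Set (Fin n → ℤ), (∀ a ∈ Λ, ∀ b ∈ Λ, Dep ℂ w a b) →
    (∃ c : Fin 3 → Fin n → ℤ, LinearIndependent ℤ c ∧ ∀ i, c i ∈ Λ) → ∃ E, OneList w Λ E

/-- The index map of the duplication of coordinates. -/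
def sg (m : ℕ) (hm : 0 < m) (i : Fin 5) : Fin m := ⟨i.1 % m, Nat.mod_lt _ hm⟩

end Pool.Agent.Srf5F
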